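import Mathlib

/-!
# Monoids satisfying `x ^ (m + 1) = x`: the local groups

In such a monoid, if `e` is idempotent and lies in the ideal generated by `v`, then
`(e * v * e) ^ m = e`.
-/

set_option autoImplicit false

namespace Pool.Agent.R200.Brz

variable {S : Type*} [Monoid S]

/-- `x` lies in the two-sided ideal generated by `y` -/
def Le (x y : S) : Prop := ∃ p q : S, x = p * y * q

theorem le_refl' (x : S) : Le x x := ⟨1, 1, by simp⟩

theorem Le.trans {x y z : S} (h : Le x y) (h' : Le y z) : Le x z := by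
  obtain ⟨p, q, rfl⟩ := h
  obtain ⟨r, s, rfl⟩ := h'
  exact ⟨p * r, s * q, by simp only [mul_assoc]⟩

theorem le_swap {m : ℕ} (hm : 0 < m) (hS : ∀ x : S, x ^ (m + 1) = x) (x y : S) :
    Le (x * y) (y * x) := by
  obtain ⟨k, rfl⟩ : ∃ k, m = k + 1 := ⟨m - 1, by omega⟩
  refine ⟨x, y * (x * y) ^ k, ?_⟩
  conv_lhs => rw [← hS (x * y)]
  rw [pow_succ', pow_succ']
  simp only [mul_assoc]

theorem le_mul_right' (x y : S) : Le (x * y) x := ⟨1, y, by simp⟩

theorem le_mul {m : ℕ} (hm : 0 < m) (hS : ∀ x : S, x ^ (m + 1) = x) {e x y : S} (he : e * e = e)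
    (hx : Le e x) (hy : Le e y) : Le e (x * y) := by
  obtain ⟨p, q, hpq⟩ := hx
  obtain ⟨r, s, hrs⟩ := hy
  have h1 : Le e ((x * (q * r)) * y) := ⟨p, s, by
    calc e = e * e := he.symm
      _ = (p * x * q) * (r * y * s) := by rw [← hpq, ← hrs]
      _ = p * ((x * (q * r)) * y) * s := by simp only [mul_assoc]⟩
  have h2 : Le ((x * (q * r)) * y) (y * (x * (q * r))) := le_swap hm hS _ _
  have h3 : Le (y * (x * (q * r))) (y * x) := by
    rw [← mul_assoc]; exact le_mul_right' _ _
  exact ((h1.trans h2).trans h3).trans (le_swap hm hS _ _)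

theorem le_pow {m : ℕ} (hm : 0 < m) (hS : ∀ x : S, x ^ (m + 1) = x) {e x : S} (he : e * e = e)
    (hx : Le e x) (k : ℕ) : Le e (x ^ (k + 1)) := by
  induction k with
  | zero => simpa using hx
  | succ k ih => rw [pow_succ]; exact le_mul hm hS he ih hx

/-- idempotents are primitive in their ideal class -/
theorem prim {m : ℕ} (hm : 0 < m) (hS : ∀ x : S, x ^ (m + 1) = x) {e g : S} (he : e * e = e)
    (hg : g * g = g) (heg : e * g = g) (hge : g * e = g) (h : Le e g) : g = e := by
  obtain ⟨p, q, hpq⟩ := h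
  obtain ⟨k, rfl⟩ : ∃ k, m = k + 1 := ⟨m - 1, by omega⟩
  -- `a = e p g`, `b = g q e`
  have hab : (e * p * g) * (g * q * e) = e := by
    calc (e * p * g) * (g * q * e) = e * (p * (g * g) * q) * e := by simp only [mul_assoc]
      _ = e * e * e := by rw [hg, ← hpq]
      _ = e := by rw [he, he]
  set a : S := e * p * g with ha
  set b : S := g * q * e with hb
  have hae : a * e = a := by rw [ha, mul_assoc, hge]
  have hbe : b * e = b := by rw [hb, mul_assoc, he]
  have heb : e * b = b := by rw [hb, ← mul_assoc, ← mul_assoc, heg]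
  have h1 : ∀ j : ℕ, a ^ (j + 1) * b ^ j = a := by
    intro j
    induction j with
    | zero => simp
    | succ j ih =>
      rw [pow_succ a (j + 1), pow_succ' b j]
      calc a ^ (j + 1) * a * (b * b ^ j) = a ^ (j + 1) * (a * b) * b ^ j := by
            simp only [mul_assoc]
        _ = a ^ (j + 1) * e * b ^ j := by rw [hab]
        _ = a ^ (j + 1) * b ^ j := by
            rw [pow_succ, mul_assoc (a ^ j) a e, hae]
        _ = a := ih
  have h2 : a * b ^ (k + 1) = a := by
    have := h1 (k + 1)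
    rwa [hS a] at this
  have h3 : e * b ^ k = a := by
    rw [pow_succ', ← mul_assoc, hab] at h2
    exact h2
  have h4 : b * a = e := by
    have h5 : b * a = b ^ (k + 1) := by rw [← h3, ← mul_assoc, hbe, ← pow_succ']
    have h6 : a * b = b ^ (k + 1) := by
      rw [← h3, mul_assoc, ← pow_succ, pow_succ', ← mul_assoc, heb]
    rw [h5, ← h6, hab]
  have h7 : g * e = e := by
    rw [← h4, hb]
    calc g * (g * q * e * a) = (g * g) * q * e * a := by simp only [mul_assoc]
      _ = g * q * e * a := by rw [hg]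
  rw [← hge, h7]

theorem local_pow {m : ℕ} (hm : 0 < m) (hS : ∀ x : S, x ^ (m + 1) = x) {e v : S} (he : e * e = e)
    (hv : Le e v) : (e * v * e) ^ m = e := by
  obtain ⟨k, rfl⟩ : ∃ k, m = k + 1 := ⟨m - 1, by omega⟩
  have hx : Le e (e * v * e) := le_mul hm hS he (le_mul hm hS he (le_refl' e) hv) (le_refl' e)
  have hg : Le e ((e * v * e) ^ (k + 1)) := le_pow hm hS he hx k
  refine prim hm hS he ?_ ?_ ?_ hg
  · rw [← pow_add, show k + 1 + (k + 1) = (k + 1 + 1) + k by ring, pow_add, hS, ← pow_succ']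
  · rw [pow_succ', ← mul_assoc]
    congr 1
    rw [← mul_assoc, ← mul_assoc, he]
  · rw [pow_succ, mul_assoc]
    congr 1
    rw [mul_assoc, he]

end Pool.Agent.R200.Brz
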