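import Pool.Agent.R200.BrzCore

/-!
# Classes that are not regular, from an infinite two-generator group of exponent `m`

If the free group of exponent `m` on two generators is infinite, the class of `(ab)^m` under the
congruence generated by the pairs `(x, x ^ (1 + m))` is not regular.
-/

set_option autoImplicit false

namespace Pool.Agent.R200.Brz

/-- the congruence generated by the pairs `(x ^ n, x ^ (n + m))` -/
abbrev bcon (A : Type) (n m : ℕ) : Con (FreeMonoid A) :=
  conGen (fun a b : FreeMonoid A => ∃ x : FreeMonoid A, a = x ^ n ∧ b = x ^ (n + m))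

theorem mk_eq {A : Type} {n m : ℕ} {a b : FreeMonoid A} :
    (bcon A n m).mk' a = (bcon A n m).mk' b ↔ bcon A n m a b := Con.eq _

theorem quot_pow (A : Type) (m : ℕ) (x : (bcon A 1 m).Quotient) : x ^ (m + 1) = x := by
  obtain ⟨w, rfl⟩ := Con.mk'_surjective (c := bcon A 1 m) x
  rw [← map_pow]
  apply mk_eq.2
  apply Con.symm
  rw [show m + 1 = 1 + m by ring]
  exact ConGen.Rel.of _ _ ⟨w, (pow_one w).symm, rfl⟩

/-- the word `(ab)^m` -/
def W (m : ℕ) : FreeMonoid (Fin 2) := (FreeMonoid.of 0 * FreeMonoid.of 1) ^ m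

theorem W_idem {m : ℕ} (hm : 0 < m) : (bcon (Fin 2) 1 m).mk' (W m) * (bcon (Fin 2) 1 m).mk' (W m) =
    (bcon (Fin 2) 1 m).mk' (W m) := by
  obtain ⟨k, rfl⟩ : ∃ k, m = k + 1 := ⟨m - 1, by omega⟩
  rw [W, map_pow, ← pow_add, show k + 1 + (k + 1) = (k + 1 + 1) + k by ring, pow_add,
    quot_pow, ← pow_succ']

theorem le_all {m : ℕ} (hm : 0 < m) (v : FreeMonoid (Fin 2)) :
    Le ((bcon (Fin 2) 1 m).mk' (W m)) ((bcon (Fin 2) 1 m).mk' v) := by
  have hS := quot_pow (Fin 2) m
  have hee := W_idem hm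
  obtain ⟨k, rfl⟩ : ∃ k, m = k + 1 := ⟨m - 1, by omega⟩
  induction v using FreeMonoid.inductionOn' with
  | one => exact ⟨(bcon (Fin 2) 1 (k + 1)).mk' (W (k + 1)), 1, by rw [map_one, mul_one, mul_one]⟩
  | of_mul i v ih =>
    rw [map_mul]
    refine le_mul hm hS hee ?_ ih
    fin_cases i
    · refine ⟨1, (bcon (Fin 2) 1 (k + 1)).mk'
        (FreeMonoid.of 1 * (FreeMonoid.of 0 * FreeMonoid.of 1) ^ k), ?_⟩
      rw [one_mul, ← map_mul, ← mul_assoc, W, pow_succ']
      rfl
    · refine ⟨(bcon (Fin 2) 1 (k + 1)).mk' (FreeMonoid.of 0),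
        (bcon (Fin 2) 1 (k + 1)).mk' ((FreeMonoid.of 0 * FreeMonoid.of 1) ^ k), ?_⟩
      rw [← map_mul, ← map_mul, W, pow_succ']
      rfl

/-- all words `(W v W) ^ m` are equivalent to `W` -/
theorem loc {m : ℕ} (hm : 0 < m) (v : FreeMonoid (Fin 2)) :
    bcon (Fin 2) 1 m ((W m * v * W m) ^ m) (W m) := by
  rw [← mk_eq, map_pow, map_mul, map_mul]
  exact local_pow hm (quot_pow (Fin 2) m) (W_idem hm) (le_all hm v)

/-- Let `G` be an infinite group with `x ^ m = 1` for all `x`, generated by two elements. Then the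
class of `(ab)^m` is not regular. -/
theorem not_regular {m : ℕ} (hm : 0 < m) (G : Type) [Group G] [Infinite G]
    (hG : ∀ x : G, x ^ m = 1) (f : Fin 2 → G) (hf : ∀ H : Subgroup G, (∀ i, f i ∈ H) → H = ⊤) :
    ¬ ∃ (σ : Type) (_ : Fintype σ) (M : DFA (Fin 2) σ),
      M.accepts = {v : List (Fin 2) | bcon (Fin 2) 1 m (FreeMonoid.ofList v) (W m)} := by
  rintro ⟨σ, hσ, M, hM⟩
  obtain ⟨k, rfl⟩ : ∃ k, m = k + 1 := ⟨m - 1, by omega⟩
  let π : FreeMonoid (Fin 2) →* G := FreeMonoid.lift f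
  have hπ1 : ∀ i, π (FreeMonoid.of i) = f i := fun i => FreeMonoid.lift_eval_of f i
  -- `π` is surjective
  have hinv : ∀ x : G, x⁻¹ = x ^ k := by
    intro x
    rw [inv_eq_iff_mul_eq_one, ← pow_succ', hG]
  have hsurj : ∀ g : G, ∃ u, π u = g := by
    let H : Subgroup G :=
      { carrier := Set.range π
        mul_mem' := by
          rintro _ _ ⟨a, rfl⟩ ⟨b, rfl⟩
          exact ⟨a * b, map_mul _ _ _⟩
        one_mem' := ⟨1, map_one _⟩
        inv_mem' := by
          rintro _ ⟨a, rfl⟩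
          exact ⟨a ^ k, by rw [map_pow, hinv]⟩ }
    have hH : H = ⊤ := hf H fun i => ⟨FreeMonoid.of i, hπ1 i⟩
    intro g
    have : g ∈ H := by rw [hH]; exact Subgroup.mem_top g
    exact this
  -- `π` respects the congruence
  have hker : ∀ a b, bcon (Fin 2) 1 (k + 1) a b → π a = π b := by
    intro a b hab
    have hle : bcon (Fin 2) 1 (k + 1) ≤ Con.ker π := by
      refine Con.conGen_le.2 ?_
      intro x y hxy
      obtain ⟨z, hx, hy⟩ := hxy
      change π x = π y
      rw [hx, hy, map_pow, map_pow, pow_add, hG, mul_one]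
    exact hle hab
  have hW : π (W (k + 1)) = 1 := by rw [W, map_pow, hG]
  choose u hu using hsurj
  let X : G → FreeMonoid (Fin 2) := fun g => W (k + 1) * u g * W (k + 1)
  have hX : ∀ g, π (X g) = g := by
    intro g
    simp only [X, map_mul, hW, hu, one_mul, mul_one]
  -- two elements act in the same way
  let T : G → (σ → σ) := fun g s => M.evalFrom s (FreeMonoid.toList (X g))
  obtain ⟨g, g', hgg, hT⟩ := Finite.exists_ne_map_eq_of_infinite T
  have hacc : ∀ v : List (Fin 2), v ∈ M.accepts ↔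
      bcon (Fin 2) 1 (k + 1) (FreeMonoid.ofList v) (W (k + 1)) := by
    intro v
    rw [hM]
    rfl
  have h1 : FreeMonoid.toList (X g ^ k * X g) ∈ M.accepts := by
    rw [hacc, FreeMonoid.ofList_toList, ← pow_succ]
    exact loc hm (u g)
  have h2 : FreeMonoid.toList (X g ^ k * X g') ∈ M.accepts := by
    rw [FreeMonoid.toList_mul, DFA.mem_accepts, DFA.eval, DFA.evalFrom_of_append] at h1 ⊢
    have : T g (M.evalFrom M.start (FreeMonoid.toList (X g ^ k))) =
        T g' (M.evalFrom M.start (FreeMonoid.toList (X g ^ k))) := by rw [hT]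
    change T g' (M.evalFrom M.start (FreeMonoid.toList (X g ^ k))) ∈ M.accept
    rw [← this]
    exact h1
  rw [hacc, FreeMonoid.ofList_toList] at h2
  have h3 := hker _ _ h2
  rw [map_mul, map_pow, hX, hX, hW, ← hinv] at h3
  exact hgg (inv_mul_eq_one.1 h3)

end Pool.Agent.R200.Brz
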