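import Mathlib

/-!
# Domino tilings of `ℝ^d`, subshifts, strong irreducibility: definitions
-/

namespace Pool.Agent.R200.DomX

/-- The alphabet `{±e_1, …, ±e_d}`: `(i, true)` stands for `e_i`, `(i, false)` for `-e_i`. -/
abbrev Dir (d : ℕ) : Type := Fin d × Bool

/-- The vector a letter stands for. -/
def vec {d : ℕ} (a : Dir d) : Fin d → ℤ := Pi.single a.1 (if a.2 = true then 1 else -1)

/-- The opposite letter. -/
def opp {d : ℕ} (a : Dir d) : Dir d := (a.1, !a.2)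

/-- The space of domino tilings of `ℝ^d`: all `x` with `x_{v + x_v} = - x_v`. -/
def dominoTilings (d : ℕ) : Set ((Fin d → ℤ) → Dir d) :=
  {x | ∀ v, x (v + vec (x v)) = opp (x v)}

/-- Subshifts: closed shift-invariant sets of configurations. -/
def IsSubshift {d : ℕ} (X : Set ((Fin d → ℤ) → Dir d)) : Prop :=
  IsClosed X ∧ ∀ x ∈ X, ∀ u : Fin d → ℤ, (fun v => x (u + v)) ∈ X

/-- Strong irreducibility with respect to the sup norm distance. -/
def StronglyIrreducible {d : ℕ} (X : Set ((Fin d → ℤ) → Dir d)) : Prop :=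
  ∃ k : ℕ, ∀ x ∈ X, ∀ y ∈ X, ∀ A B : Set (Fin d → ℤ),
    (∀ a ∈ A, ∀ b ∈ B, ∃ i, (k : ℤ) ≤ |a i - b i|) →
    ∃ z ∈ X, (∀ a ∈ A, z a = x a) ∧ ∀ b ∈ B, z b = y b

end Pool.Agent.R200.DomX
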