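import Mathlib

/-!
# The local gadget for three-dimensional domino tilings

A gadget is a domino tiling of the box `{0,1} x {0,1} x {0,1,2,3}`, where prescribed vertical
dominoes may stick out at the bottom (pattern `m`) and at the top (pattern `n`).
-/

namespace Pool.Agent.R200.DomG

/-- The six directions. -/
inductive D6 where
  | e | w | n | s | u | d
  deriving DecidableEq, Fintype

/-- The opposite direction. -/
def op : D6 → D6
  | .e => .w
  | .w => .e
  | .n => .s
  | .s => .n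
  | .u => .d
  | .d => .u

/-- Decoding of a digit. -/
def dig : ℕ → D6
  | 0 => .e
  | 1 => .w
  | 2 => .n
  | 3 => .s
  | 4 => .u
  | _ => .d

/-- The table of gadgets. -/
def tab : List ℕ := [
    201043740121380, 0, 0, 200424795068708, 0, 124528427981092, 0, 0, 0, 0, 165300753848612, 0, 161431256750372, 0, 0, 160812311697700,
    0, 200975037417765, 0, 0, 0, 0, 0, 0, 156827068582181, 0, 0, 165232051144997, 0, 161362554046757, 0, 0,
    0, 0, 200494118492460, 0, 124597751404844, 0, 0, 196026245208364, 0, 0, 0, 0, 0, 0, 160881635121452, 0,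
    198501270440237, 0, 0, 200425415788845, 0, 124529048701229, 0, 0, 0, 0, 156277446953261, 0, 158888787069229, 0, 0, 160812932417837,
    0, 0, 37758478506340, 0, 196646767090020, 0, 0, 196027822037348, 0, 0, 0, 0, 0, 0, 160903780817252, 0,
    192042578921829, 0, 0, 37689775802725, 0, 196578064386405, 0, 0, 0, 0, 156299592649061, 0, 158910932765029, 0, 0, 160835078113637,
    0, 0, 0, 0, 0, 0, 196097145461100, 0, 0, 0, 0, 0, 0, 0, 0, 0,
    0, 0, 191492957292909, 0, 194104297408877, 0, 0, 196028442757485, 0, 0, 0, 0, 0, 0, 160903780665709, 0,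
    0, 128965127101220, 0, 0, 0, 0, 0, 0, 165867955870500, 0, 0, 165249010817828, 0, 161400082586404, 0, 0,
    0, 0, 0, 0, 0, 0, 0, 0, 0, 165799253166885, 0, 0, 0, 0, 0, 0,
    129034450524972, 0, 0, 37705158646572, 0, 124566577240876, 0, 0, 0, 0, 165318334241580, 0, 158926315608876, 0, 0, 160850460957484,
    0, 128965747821357, 0, 0, 0, 0, 0, 0, 163325486189357, 0, 0, 165249631537965, 0, 161362549754669, 0, 0,
    38325680528228, 0, 0, 37706735475556, 0, 124568154069860, 0, 0, 0, 0, 156316552321892, 0, 161470982839140, 0, 0, 160852037786468,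
    0, 38256977824613, 0, 0, 0, 0, 0, 0, 156866794670949, 0, 0, 165232041446245, 0, 161402280135525, 0, 0,
    0, 0, 37776058899308, 0, 124637477493612, 0, 0, 196026235509612, 0, 0, 0, 0, 0, 0, 160921361210220, 0,
    35783210847085, 0, 0, 37707356195693, 0, 124568774789997, 0, 0, 0, 0, 156317173042029, 0, 158928513157997, 0, 0, 160852658506605]

/-- Code of a pattern. -/
def pc (m00 m10 m01 m11 : Bool) : ℕ :=
  m00.toNat + 2 * m10.toNat + 4 * m01.toNat + 8 * m11.toNat

/-- The gadget. -/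
def G (m00 m10 m01 m11 n00 n10 n01 n11 : Bool) (a b : Bool) (s : ℕ) : D6 :=
  dig ((tab.getD (16 * pc m00 m10 m01 m11 + pc n00 n10 n01 n11) 0
    / 8 ^ (a.toNat + 2 * b.toNat + 4 * s)) % 8)

/-- The conservation law. -/
def cons (m00 m10 m01 m11 n00 n10 n01 n11 : Bool) : Prop :=
  m00.toNat + m11.toNat + n10.toNat + n01.toNat = m10.toNat + m01.toNat + n00.toNat + n11.toNat

instance (m00 m10 m01 m11 n00 n10 n01 n11 : Bool) :
    Decidable (cons m00 m10 m01 m11 n00 n10 n01 n11) := by unfold cons; infer_instance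

/-- Selection of an entry. -/
def pick (m00 m10 m01 m11 : Bool) (a b : Bool) : Bool :=
  match a, b with
  | false, false => m00
  | true, false => m10
  | false, true => m01
  | true, true => m11

theorem G_e : ∀ m00 m10 m01 m11 n00 n10 n01 n11 : Bool,
    cons m00 m10 m01 m11 n00 n10 n01 n11 → ∀ (a b : Bool) (s : Fin 4),
    G m00 m10 m01 m11 n00 n10 n01 n11 a b s = .e →
    a = false ∧ G m00 m10 m01 m11 n00 n10 n01 n11 true b s = .w := by decide +kernel

theorem G_w : ∀ m00 m10 m01 m11 n00 n10 n01 n11 : Bool,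
    cons m00 m10 m01 m11 n00 n10 n01 n11 → ∀ (a b : Bool) (s : Fin 4),
    G m00 m10 m01 m11 n00 n10 n01 n11 a b s = .w →
    a = true ∧ G m00 m10 m01 m11 n00 n10 n01 n11 false b s = .e := by decide +kernel

theorem G_n : ∀ m00 m10 m01 m11 n00 n10 n01 n11 : Bool,
    cons m00 m10 m01 m11 n00 n10 n01 n11 → ∀ (a b : Bool) (s : Fin 4),
    G m00 m10 m01 m11 n00 n10 n01 n11 a b s = .n →
    b = false ∧ G m00 m10 m01 m11 n00 n10 n01 n11 a true s = .s := by decide +kernel

theorem G_s : ∀ m00 m10 m01 m11 n00 n10 n01 n11 : Bool,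
    cons m00 m10 m01 m11 n00 n10 n01 n11 → ∀ (a b : Bool) (s : Fin 4),
    G m00 m10 m01 m11 n00 n10 n01 n11 a b s = .s →
    b = true ∧ G m00 m10 m01 m11 n00 n10 n01 n11 a false s = .n := by decide +kernel

theorem G_u : ∀ m00 m10 m01 m11 n00 n10 n01 n11 : Bool,
    cons m00 m10 m01 m11 n00 n10 n01 n11 → ∀ (a b : Bool) (s : Fin 4),
    G m00 m10 m01 m11 n00 n10 n01 n11 a b s = .u →
    (s = 3 ∧ pick n00 n10 n01 n11 a b = true) ∨
      ((s : ℕ) < 3 ∧ G m00 m10 m01 m11 n00 n10 n01 n11 a b ((s : ℕ) + 1) = .d) := by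
  decide +kernel

theorem G_d : ∀ m00 m10 m01 m11 n00 n10 n01 n11 : Bool,
    cons m00 m10 m01 m11 n00 n10 n01 n11 → ∀ (a b : Bool) (s : Fin 4),
    G m00 m10 m01 m11 n00 n10 n01 n11 a b s = .d →
    (s = 0 ∧ pick m00 m10 m01 m11 a b = true) ∨
      (0 < (s : ℕ) ∧ G m00 m10 m01 m11 n00 n10 n01 n11 a b ((s : ℕ) - 1) = .u) := by
  decide +kernel

theorem G_top : ∀ m00 m10 m01 m11 n00 n10 n01 n11 : Bool,
    cons m00 m10 m01 m11 n00 n10 n01 n11 → ∀ (a b : Bool),
    pick n00 n10 n01 n11 a b = true →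
    G m00 m10 m01 m11 n00 n10 n01 n11 a b 3 = .u := by decide +kernel

theorem G_bot : ∀ m00 m10 m01 m11 n00 n10 n01 n11 : Bool,
    cons m00 m10 m01 m11 n00 n10 n01 n11 → ∀ (a b : Bool),
    pick m00 m10 m01 m11 a b = true →
    G m00 m10 m01 m11 n00 n10 n01 n11 a b 0 = .d := by decide +kernel

/-- The local rule giving vertical dominoes from the hidden spins. -/
def mfun (p1 p2 g1 g2 g3 g4 : Bool) : Bool :=
  if xor g1 g2 = xor g3 g4 then xor p2 (xor g2 g3) else !(xor p1 (xor g1 g2))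

theorem mfun_flip : ∀ p1 p2 g1 g2 g3 g4 : Bool,
    mfun (!p1) (!p2) g1 g2 g3 g4 = !mfun p1 p2 g1 g2 g3 g4 := by decide

theorem mfun_gauge : ∀ c1 c2 p1 p2 g1 g2 g3 g4 x : Bool,
    mfun (xor p1 c1) (xor p2 c2) g1 g2 g3 g4 =
      mfun p1 p2 (xor g1 x) (xor g2 (xor x c1)) (xor g3 (xor (xor x c1) c2))
        (xor g4 (xor x c2)) := by decide

/-- Conservation law for a single flip at the centre of a `3 x 3` square of spins.
`q1` is the parity attached to the row just below the centre. -/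
theorem cons_flip : ∀ q1 q2 a00 a10 a20 a01 a11 a21 a02 a12 a22 : Bool,
    cons (mfun q1 q2 a00 a10 a11 a01) (mfun q1 q2 a10 a20 a21 a11)
      (mfun (!q1) q2 a01 a11 a12 a02) (mfun (!q1) q2 a11 a21 a22 a12)
      (!mfun (!q1) (!q2) a00 a10 (!a11) a01) (!mfun (!q1) (!q2) a10 a20 a21 (!a11))
      (!mfun q1 (!q2) a01 (!a11) a12 a02) (!mfun q1 (!q2) (!a11) a21 a22 a12) := by
  decide +kernel

end Pool.Agent.R200.DomG
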