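import Pool.Agent.R200.DomT

/-!
# Gluing admissible spin fields
-/

namespace Pool.Agent.R200.DomT

/-- Flips in the same column are far from each other. -/
def Long (g : ℤ → ℤ → ℤ → Bool) : Prop :=
  ∀ i j t t', ev g i j t → ev g i j t' → t - t' < 720 → t' - t < 720 → t = t'

/-- A possible flip time. -/
def TT (i j k : ℤ) (J : Fin 19) : ℤ :=
  2160 * k + 720 + 36 * ((J : ℕ) : ℤ) + 4 * (i % 3 + 3 * (j % 3))

theorem pig {g g' : ℤ → ℤ → ℤ → Bool} (hl : Long g) (hl' : Long g') (i j k : ℤ) :
    ∃ J : Fin 19, ∀ i' j' t' : ℤ, i - i' ≤ 1 → i' - i ≤ 1 → j - j' ≤ 1 → j' - j ≤ 1 →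
      (ev g i' j' t' ∨ ev g' i' j' t') → ¬ (t' - TT i j k J < 4 ∧ TT i j k J - t' < 4) := by
  by_contra hcon
  have hcon' : ∀ J : Fin 19, ∃ (c : Bool × Fin 3 × Fin 3) (t' : ℤ),
      (if c.1 then ev g (i + ((c.2.1 : ℕ) : ℤ) - 1) (j + ((c.2.2 : ℕ) : ℤ) - 1) t'
        else ev g' (i + ((c.2.1 : ℕ) : ℤ) - 1) (j + ((c.2.2 : ℕ) : ℤ) - 1) t') ∧
      (t' - TT i j k J < 4 ∧ TT i j k J - t' < 4) := by
    intro J
    by_contra hJ
    apply hcon
    refine ⟨J, ?_⟩
    intro i' j' t' h1 h2 h3 h4 hev hnear
    apply hJ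
    have ha : (i' - i + 1).toNat < 3 := by omega
    have hb : (j' - j + 1).toNat < 3 := by omega
    have ea : i + (((i' - i + 1).toNat : ℕ) : ℤ) - 1 = i' := by omega
    have eb : j + (((j' - j + 1).toNat : ℕ) : ℤ) - 1 = j' := by omega
    rcases hev with hev | hev
    · refine ⟨(true, ⟨_, ha⟩, ⟨_, hb⟩), t', ?_, hnear⟩
      simp only [if_true, ea, eb]
      exact hev
    · refine ⟨(false, ⟨_, ha⟩, ⟨_, hb⟩), t', ?_, hnear⟩
      simp only [Bool.false_eq_true, if_false, ea, eb]
      exact hev
  choose f tt hf using hcon'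
  obtain ⟨J, J', hne, heq⟩ := Fintype.exists_ne_map_eq_of_card_lt f (by simp)
  have h1 := hf J
  have h2 := hf J'
  rw [← heq] at h2
  have hJ := J.isLt
  have hJ' := J'.isLt
  have hne' : (J : ℕ) ≠ (J' : ℕ) := fun h => hne (Fin.ext h)
  unfold TT at h1 h2
  have ht : tt J = tt J' := by
    cases hc : (f J).1
    · rw [hc] at h1 h2
      simp only [Bool.false_eq_true, if_false] at h1 h2
      exact hl' _ _ _ _ h1.1 h2.1 (by omega) (by omega)
    · rw [hc] at h1 h2
      simp only [if_true] at h1 h2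
      exact hl _ _ _ _ h1.1 h2.1 (by omega) (by omega)
  omega

section

variable (g g' : ℤ → ℤ → ℤ → Bool) (P Q : ℤ → ℤ → ℤ → Prop) (J : ℤ → ℤ → ℤ → Fin 19)

/-- The column `(i,j)` meets the set within block `k`. -/
def isIn (P : ℤ → ℤ → ℤ → Prop) (i j k : ℤ) : Prop := ∃ t, P i j t ∧ t / 2160 = k

open Classical in
/-- Prescribed value, `false` when nothing is prescribed. -/
noncomputable def w0 (i j t : ℤ) : Bool :=
  if isIn P i j (t / 2160) then g i j t else if isIn Q i j (t / 2160) then g' i j t else false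

open Classical in
/-- The glued field. -/
noncomputable def gl (i j t : ℤ) : Bool :=
  if isIn P i j (t / 2160) ∨ isIn Q i j (t / 2160) then w0 g g' P Q i j t
  else if t < TT i j (t / 2160) (J i j (t / 2160)) then
    w0 g g' P Q i j (2160 * (t / 2160) - 1)
  else w0 g g' P Q i j (2160 * (t / 2160) + 2160)

variable {g g' P Q J}

theorem isIn_sep (hsep : ∀ i j t i' j' t', P i j t → Q i' j' t' → i - i' ≤ 1 → i' - i ≤ 1 →
    j - j' ≤ 1 → j' - j ≤ 1 → t - t' < 4320 → t' - t < 4320 → False)
    {i j k i' j' k' : ℤ} (h : isIn P i j k) (h' : isIn Q i' j' k') (h1 : i - i' ≤ 1)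
    (h2 : i' - i ≤ 1) (h3 : j - j' ≤ 1) (h4 : j' - j ≤ 1) (h5 : k - k' ≤ 1)
    (h6 : k' - k ≤ 1) : False := by
  obtain ⟨t, ht, hk⟩ := h
  obtain ⟨t', ht', hk'⟩ := h'
  exact hsep i j t i' j' t' ht ht' h1 h2 h3 h4 (by omega) (by omega)

theorem TT_bd (i j k : ℤ) (J : Fin 19) :
    2160 * k + 720 ≤ TT i j k J ∧ TT i j k J ≤ 2160 * k + 1400 := by
  have := J.isLt
  unfold TT
  omega

theorem ev_gl (hsep : ∀ i j t i' j' t', P i j t → Q i' j' t' → i - i' ≤ 1 → i' - i ≤ 1 →
    j - j' ≤ 1 → j' - j ≤ 1 → t - t' < 4320 → t' - t < 4320 → False)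
    {i j t : ℤ} (h : ev (gl g g' P Q J) i j t) :
    (isIn P i j (t / 2160) ∧ ev g i j t) ∨ (isIn Q i j (t / 2160) ∧ ev g' i j t) ∨
    (¬ isIn P i j (t / 2160) ∧ ¬ isIn Q i j (t / 2160) ∧
      t = TT i j (t / 2160) (J i j (t / 2160))) := by
  by_cases hk : (t - 1) / 2160 = t / 2160
  · unfold ev at h
    unfold gl at h
    rw [hk] at h
    by_cases hA : isIn P i j (t / 2160)
    · left
      refine ⟨hA, ?_⟩
      rw [if_pos (Or.inl hA), if_pos (Or.inl hA)] at h
      unfold w0 at h
      rw [hk, if_pos hA, if_pos hA] at h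
      exact h
    · by_cases hB : isIn Q i j (t / 2160)
      · right; left
        refine ⟨hB, ?_⟩
        rw [if_pos (Or.inr hB), if_pos (Or.inr hB)] at h
        unfold w0 at h
        rw [hk, if_neg hA, if_neg hA, if_pos hB, if_pos hB] at h
        exact h
      · right; right
        refine ⟨hA, hB, ?_⟩
        have hAB : ¬ (isIn P i j (t / 2160) ∨ isIn Q i j (t / 2160)) := by tauto
        rw [if_neg hAB, if_neg hAB] at h
        by_cases h1 : t < TT i j (t / 2160) (J i j (t / 2160))
        · have h2 : t - 1 < TT i j (t / 2160) (J i j (t / 2160)) := by omega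
          rw [if_pos h1, if_pos h2] at h
          exact absurd rfl h
        · by_cases h2 : t - 1 < TT i j (t / 2160) (J i j (t / 2160))
          · omega
          · rw [if_neg h1, if_neg h2] at h
            exact absurd rfl h
  · have hk1 : (t - 1) / 2160 = t / 2160 - 1 := by omega
    have ht : t = 2160 * (t / 2160) := by omega
    have hT1 := TT_bd i j (t / 2160) (J i j (t / 2160))
    have hT2 := TT_bd i j (t / 2160 - 1) (J i j (t / 2160 - 1))
    have hlt1 : t < TT i j (t / 2160) (J i j (t / 2160)) := by omega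
    have hlt2 : ¬ t - 1 < TT i j (t / 2160 - 1) (J i j (t / 2160 - 1)) := by omega
    unfold ev gl at h
    rw [hk1] at h
    rw [if_pos hlt1, if_neg hlt2] at h
    have e1 : 2160 * (t / 2160) - 1 = t - 1 := by omega
    have e2 : 2160 * (t / 2160 - 1) + 2160 = t := by omega
    rw [e1, e2] at h
    by_cases hk2 : isIn P i j (t / 2160 - 1) ∨ isIn Q i j (t / 2160 - 1)
    · rw [if_pos hk2] at h
      by_cases hk3 : isIn P i j (t / 2160) ∨ isIn Q i j (t / 2160)
      · rw [if_pos hk3] at h
        by_cases hA : isIn P i j (t / 2160)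
        · left
          refine ⟨hA, ?_⟩
          have hA' : isIn P i j (t / 2160 - 1) := by
            rcases hk2 with h' | h'
            · exact h'
            · exact (isIn_sep hsep hA h' (by omega) (by omega) (by omega) (by omega)
                (by omega) (by omega)).elim
          unfold w0 at h
          rw [hk1, if_pos hA, if_pos hA'] at h
          exact h
        · have hB : isIn Q i j (t / 2160) := by tauto
          right; left
          refine ⟨hB, ?_⟩
          have hA' : ¬ isIn P i j (t / 2160 - 1) := by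
            intro h'
            exact (isIn_sep hsep h' hB (by omega) (by omega) (by omega) (by omega)
                (by omega) (by omega)).elim
          have hB' : isIn Q i j (t / 2160 - 1) := by tauto
          unfold w0 at h
          rw [hk1, if_neg hA, if_neg hA', if_pos hB, if_pos hB'] at h
          exact h
      · rw [if_neg hk3] at h
        exact absurd rfl h
    · rw [if_neg hk2] at h
      by_cases hk3 : isIn P i j (t / 2160) ∨ isIn Q i j (t / 2160)
      · rw [if_pos hk3] at h
        exact absurd rfl h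
      · rw [if_neg hk3] at h
        unfold w0 at h
        rw [hk1] at h
        have n1 : ¬ isIn P i j (t / 2160 - 1) := by tauto
        have n2 : ¬ isIn Q i j (t / 2160 - 1) := by tauto
        have n3 : ¬ isIn P i j (t / 2160) := by tauto
        have n4 : ¬ isIn Q i j (t / 2160) := by tauto
        rw [if_neg n1, if_neg n2, if_neg n3, if_neg n4] at h
        exact absurd rfl h

end

theorem glue {g g' : ℤ → ℤ → ℤ → Bool} {P Q : ℤ → ℤ → ℤ → Prop}
    (hg : Good g) (hl : Long g) (hg' : Good g') (hl' : Long g')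
    (hsep : ∀ i j t i' j' t', P i j t → Q i' j' t' → i - i' ≤ 1 → i' - i ≤ 1 →
      j - j' ≤ 1 → j' - j ≤ 1 → t - t' < 4320 → t' - t < 4320 → False) :
    ∃ h : ℤ → ℤ → ℤ → Bool, Good h ∧ Long h ∧ (∀ i j t, P i j t → h i j t = g i j t) ∧
      ∀ i j t, Q i j t → h i j t = g' i j t := by
  choose J hJ using fun i j k => pig hl hl' i j k
  refine ⟨gl g g' P Q J, ?_, ?_, ?_, ?_⟩
  · intro i j t i' j' t' h h' h1 h2 h3 h4 h5 h6
    rcases ev_gl hsep h with ⟨a1, a2⟩ | ⟨a1, a2⟩ | ⟨a1, a2, a3⟩ <;>
    rcases ev_gl hsep h' with ⟨b1, b2⟩ | ⟨b1, b2⟩ | ⟨b1, b2, b3⟩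
    · exact hg _ _ _ _ _ _ a2 b2 h1 h2 h3 h4 h5 h6
    · exact (isIn_sep hsep a1 b1 h1 h2 h3 h4 (by omega) (by omega)).elim
    · exfalso
      apply hJ i' j' (t' / 2160) i j t (by omega) (by omega) (by omega) (by omega) (Or.inl a2)
      rw [← b3]
      omega
    · exact (isIn_sep hsep b1 a1 (by omega) (by omega) (by omega) (by omega) (by omega)
        (by omega)).elim
    · exact hg' _ _ _ _ _ _ a2 b2 h1 h2 h3 h4 h5 h6
    · exfalso
      apply hJ i' j' (t' / 2160) i j t (by omega) (by omega) (by omega) (by omega) (Or.inr a2)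
      rw [← b3]
      omega
    · exfalso
      apply hJ i j (t / 2160) i' j' t' (by omega) (by omega) (by omega) (by omega) (Or.inl b2)
      rw [← a3]
      omega
    · exfalso
      apply hJ i j (t / 2160) i' j' t' (by omega) (by omega) (by omega) (by omega) (Or.inr b2)
      rw [← a3]
      omega
    · have c1 := (J i j (t / 2160)).isLt
      have c2 := (J i' j' (t' / 2160)).isLt
      generalize (J i j (t / 2160)) = J1 at *
      generalize (J i' j' (t' / 2160)) = J2 at *
      unfold TT at a3 b3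
      omega
  · intro i j t t' h h' h1 h2
    rcases ev_gl hsep h with ⟨a1, a2⟩ | ⟨a1, a2⟩ | ⟨a1, a2, a3⟩ <;>
    rcases ev_gl hsep h' with ⟨b1, b2⟩ | ⟨b1, b2⟩ | ⟨b1, b2, b3⟩
    · exact hl _ _ _ _ a2 b2 h1 h2
    · exact (isIn_sep hsep a1 b1 (by omega) (by omega) (by omega) (by omega) (by omega)
        (by omega)).elim
    · exfalso
      have hne : t / 2160 ≠ t' / 2160 := by
        intro he
        rw [he] at a1
        exact b1 a1
      have := TT_bd i j (t' / 2160) (J i j (t' / 2160))
      omega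
    · exact (isIn_sep hsep b1 a1 (by omega) (by omega) (by omega) (by omega) (by omega)
        (by omega)).elim
    · exact hl' _ _ _ _ a2 b2 h1 h2
    · exfalso
      have hne : t / 2160 ≠ t' / 2160 := by
        intro he
        rw [he] at a1
        exact b2 a1
      have := TT_bd i j (t' / 2160) (J i j (t' / 2160))
      omega
    · exfalso
      have hne : t / 2160 ≠ t' / 2160 := by
        intro he
        rw [he] at a1
        exact a1 b1
      have := TT_bd i j (t / 2160) (J i j (t / 2160))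
      omega
    · exfalso
      have hne : t / 2160 ≠ t' / 2160 := by
        intro he
        rw [he] at a2
        exact a2 b1
      have := TT_bd i j (t / 2160) (J i j (t / 2160))
      omega
    · have c1 := TT_bd i j (t / 2160) (J i j (t / 2160))
      have c2 := TT_bd i j (t' / 2160) (J i j (t' / 2160))
      have he : t / 2160 = t' / 2160 := by omega
      rw [he] at a3
      omega
  · intro i j t ht
    have hA : isIn P i j (t / 2160) := ⟨t, ht, rfl⟩
    unfold gl w0
    rw [if_pos (Or.inl hA), if_pos hA]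
  · intro i j t ht
    have hB : isIn Q i j (t / 2160) := ⟨t, ht, rfl⟩
    have hA : ¬ isIn P i j (t / 2160) := fun hA =>
      isIn_sep hsep hA hB (by omega) (by omega) (by omega) (by omega) (by omega) (by omega)
    unfold gl w0
    rw [if_pos (Or.inr hB), if_neg hA, if_pos hB]

end Pool.Agent.R200.DomT
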