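import Pool.Agent.R200.DomGlue

/-!
# Locality and gauge covariance of the coding
-/

namespace Pool.Agent.R200.DomT

open DomG

open Classical in
/-- Generic form of the coding. -/
noncomputable def cdF (A : Bool × Bool × Fin 4 → Prop) (Q : Bool × Bool × Fin 4 → D6)
    (m : Bool) : D6 :=
  if h : ∃ c : Bool × Bool × Fin 4, A c then Q h.choose else if m then .u else .d

/-- Gadget direction at a cell. -/
def Gc (g : ℤ → ℤ → ℤ → Bool) (i j t : ℤ) (c : Bool × Bool × Fin 4) : D6 :=
  Gd g (i + 1 - zz c.1) (j + 1 - zz c.2.1) (t - (c.2.2 : ℕ)) c.1 c.2.1 c.2.2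

theorem cd_eq_cdF (g : ℤ → ℤ → ℤ → Bool) (i j t : ℤ) :
    cd g i j t = cdF (act g i j t) (Gc g i j t) (mst g i j t) := rfl

theorem cd_local {g g' : ℤ → ℤ → ℤ → Bool} {i j t : ℤ}
    (H : ∀ i' j' t', i - i' ≤ 4 → i' - i ≤ 4 → j - j' ≤ 4 → j' - j ≤ 4 → t - t' ≤ 4 →
      t' - t ≤ 4 → g i' j' t' = g' i' j' t') : cd g i j t = cd g' i j t := by
  rw [cd_eq_cdF, cd_eq_cdF]
  have hm : ∀ i' j' t', i - i' ≤ 3 → i' - i ≤ 3 → j - j' ≤ 3 → j' - j ≤ 3 → t - t' ≤ 4 →
      t' - t ≤ 4 → mst g i' j' t' = mst g' i' j' t' := by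
    intro i' j' t' h1 h2 h3 h4 h5 h6
    unfold mst
    rw [H i' j' t' (by omega) (by omega) (by omega) (by omega) (by omega) (by omega),
      H (i' + 1) j' t' (by omega) (by omega) (by omega) (by omega) (by omega) (by omega),
      H (i' + 1) (j' + 1) t' (by omega) (by omega) (by omega) (by omega) (by omega) (by omega),
      H i' (j' + 1) t' (by omega) (by omega) (by omega) (by omega) (by omega) (by omega)]
  have e1 : act g i j t = act g' i j t := by
    funext c
    obtain ⟨a, b, s⟩ := c
    have ha := zz_cases a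
    have hb := zz_cases b
    have hs := s.isLt
    unfold act ev
    simp only
    rw [H _ _ _ (by omega) (by omega) (by omega) (by omega) (by omega) (by omega),
      H (i + 1 - zz a) (j + 1 - zz b) (t - ((s : ℕ) : ℤ) - 1) (by omega) (by omega) (by omega)
        (by omega) (by omega) (by omega)]
  have e2 : Gc g i j t = Gc g' i j t := by
    funext c
    obtain ⟨a, b, s⟩ := c
    have ha := zz_cases a
    have hb := zz_cases b
    have hs := s.isLt
    unfold Gc Gd
    simp only
    rw [hm (i + 1 - zz a - 1) (j + 1 - zz b - 1) (t - ((s : ℕ) : ℤ) - 1) (by omega) (by omega)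
        (by omega) (by omega) (by omega) (by omega),
      hm (i + 1 - zz a) (j + 1 - zz b - 1) (t - ((s : ℕ) : ℤ) - 1) (by omega) (by omega)
        (by omega) (by omega) (by omega) (by omega),
      hm (i + 1 - zz a - 1) (j + 1 - zz b) (t - ((s : ℕ) : ℤ) - 1) (by omega) (by omega)
        (by omega) (by omega) (by omega) (by omega),
      hm (i + 1 - zz a) (j + 1 - zz b) (t - ((s : ℕ) : ℤ) - 1) (by omega) (by omega)
        (by omega) (by omega) (by omega) (by omega),
      hm (i + 1 - zz a - 1) (j + 1 - zz b - 1) (t - ((s : ℕ) : ℤ)) (by omega) (by omega)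
        (by omega) (by omega) (by omega) (by omega),
      hm (i + 1 - zz a) (j + 1 - zz b - 1) (t - ((s : ℕ) : ℤ)) (by omega) (by omega)
        (by omega) (by omega) (by omega) (by omega),
      hm (i + 1 - zz a - 1) (j + 1 - zz b) (t - ((s : ℕ) : ℤ)) (by omega) (by omega)
        (by omega) (by omega) (by omega) (by omega),
      hm (i + 1 - zz a) (j + 1 - zz b) (t - ((s : ℕ) : ℤ)) (by omega) (by omega)
        (by omega) (by omega) (by omega) (by omega)]
  rw [e1, e2, hm i j t (by omega) (by omega) (by omega) (by omega) (by omega) (by omega)]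

/-- Translated and gauge transformed field. -/
def tr (g : ℤ → ℤ → ℤ → Bool) (u v w : ℤ) (i j t : ℤ) : Bool :=
  xor (g (i + u) (j + v) (t + w)) (par ((v + w) * i + w * j))

theorem mst_tr (g : ℤ → ℤ → ℤ → Bool) (u v w i j t : ℤ) :
    mst (tr g u v w) i j t = mst g (i + u) (j + v) (t + w) := by
  unfold mst
  have e1 : par (j + v + (t + w)) = xor (par (j + t)) (par (v + w)) := by
    rw [← par_add]; congr 1; ring
  have e2 : par (t + w) = xor (par t) (par w) := par_add t w
  have f1 : par ((v + w) * (i + 1) + w * j)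
      = xor (par ((v + w) * i + w * j)) (par (v + w)) := by
    rw [← par_add]; congr 1; ring
  have f2 : par ((v + w) * (i + 1) + w * (j + 1))
      = xor (xor (par ((v + w) * i + w * j)) (par (v + w))) (par w) := by
    rw [← par_add, ← par_add]; congr 1; ring
  have f3 : par ((v + w) * i + w * (j + 1))
      = xor (par ((v + w) * i + w * j)) (par w) := by
    rw [← par_add]; congr 1; ring
  rw [e1, e2, mfun_gauge _ _ _ _ _ _ _ _ (par ((v + w) * i + w * j))]
  unfold tr
  rw [f1, f2, f3, show i + 1 + u = i + u + 1 by ring, show j + 1 + v = j + v + 1 by ring]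

theorem ev_tr (g : ℤ → ℤ → ℤ → Bool) (u v w i j t : ℤ) :
    ev (tr g u v w) i j t ↔ ev g (i + u) (j + v) (t + w) := by
  unfold ev tr
  have : t - 1 + w = t + w - 1 := by ring
  rw [this]
  cases g (i + u) (j + v) (t + w) <;> cases g (i + u) (j + v) (t + w - 1) <;>
    cases par ((v + w) * i + w * j) <;> simp

theorem Good_tr {g : ℤ → ℤ → ℤ → Bool} (hg : Good g) (u v w : ℤ) : Good (tr g u v w) := by
  intro i j t i' j' t' h h' h1 h2 h3 h4 h5 h6
  rw [ev_tr] at h h'
  have := hg _ _ _ _ _ _ h h' (by omega) (by omega) (by omega) (by omega) (by omega) (by omega)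
  omega

theorem Long_tr {g : ℤ → ℤ → ℤ → Bool} (hg : Long g) (u v w : ℤ) : Long (tr g u v w) := by
  intro i j t t' h h' h5 h6
  rw [ev_tr] at h h'
  have := hg _ _ _ _ h h' (by omega) (by omega)
  omega

theorem cd_tr (g : ℤ → ℤ → ℤ → Bool) (u v w i j t : ℤ) :
    cd (tr g u v w) i j t = cd g (i + u) (j + v) (t + w) := by
  rw [cd_eq_cdF, cd_eq_cdF, mst_tr]
  have e1 : act (tr g u v w) i j t = act g (i + u) (j + v) (t + w) := by
    funext c
    unfold act
    rw [ev_tr]
    congr 1 <;> ring
  have e2 : Gc (tr g u v w) i j t = Gc g (i + u) (j + v) (t + w) := by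
    funext c
    unfold Gc Gd
    simp only [mst_tr]
    congr 1
    · congr 1 <;> ring
    · congr 1 <;> ring
    · congr 1 <;> ring
    · congr 1 <;> ring
    · congr 2 <;> ring
    · congr 2 <;> ring
    · congr 2 <;> ring
    · congr 2 <;> ring
  rw [e1, e2]

end Pool.Agent.R200.DomT
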