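import Pool.Agent.R200.DomG

/-!
# From hidden spins to three-dimensional domino tilings
-/

namespace Pool.Agent.R200.DomT

open DomG

/-- Parity of an integer. -/
def par (n : ℤ) : Bool := decide (n % 2 = 1)

theorem par_succ (n : ℤ) : par (n + 1) = !par n := by
  unfold par
  rcases Int.emod_two_eq_zero_or_one n with h | h
  · have : (n + 1) % 2 = 1 := by omega
    simp [h, this]
  · have : (n + 1) % 2 = 0 := by omega
    simp [h, this]

theorem par_pred (n : ℤ) : par (n - 1) = !par n := by
  have := par_succ (n - 1)
  rw [sub_add_cancel] at this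
  rw [this, Bool.not_not]

theorem par_add (m n : ℤ) : par (m + n) = xor (par m) (par n) := by
  unfold par
  rcases Int.emod_two_eq_zero_or_one m with h | h <;>
  rcases Int.emod_two_eq_zero_or_one n with h' | h'
  · have : (m + n) % 2 = 0 := by omega
    simp [h, h', this]
  · have : (m + n) % 2 = 1 := by omega
    simp [h, h', this]
  · have : (m + n) % 2 = 1 := by omega
    simp [h, h', this]
  · have : (m + n) % 2 = 0 := by omega
    simp [h, h', this]

/-- The vertical occupation of the edge above `(i,j,t)` prescribed by the spins. -/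
def mst (g : ℤ → ℤ → ℤ → Bool) (i j t : ℤ) : Bool :=
  mfun (par (j + t)) (par t) (g i j t) (g (i + 1) j t) (g (i + 1) (j + 1) t) (g i (j + 1) t)

/-- A spin flip between times `t - 1` and `t`. -/
def ev (g : ℤ → ℤ → ℤ → Bool) (i j t : ℤ) : Prop := g i j t ≠ g i j (t - 1)

/-- Integer value of a bit. -/
def zz (a : Bool) : ℤ := if a then 1 else 0

theorem zz_inj {a b : Bool} (h : zz a = zz b) : a = b := by
  revert h; cases a <;> cases b <;> simp [zz]

theorem zz_cases (a : Bool) : zz a = 0 ∨ zz a = 1 := by cases a <;> simp [zz]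

/-- The gadget used around an event. -/
def Gd (g : ℤ → ℤ → ℤ → Bool) (p q r : ℤ) (a b : Bool) (s : ℕ) : D6 :=
  G (mst g (p - 1) (q - 1) (r - 1)) (mst g p (q - 1) (r - 1)) (mst g (p - 1) q (r - 1))
    (mst g p q (r - 1))
    (!mst g (p - 1) (q - 1) r) (!mst g p (q - 1) r) (!mst g (p - 1) q r) (!mst g p q r) a b s

/-- The cell is in the gadget of an event, at position `(a,b,s)`. -/
def act (g : ℤ → ℤ → ℤ → Bool) (i j t : ℤ) (c : Bool × Bool × Fin 4) : Prop :=
  ev g (i + 1 - zz c.1) (j + 1 - zz c.2.1) (t - (c.2.2 : ℕ))

open Classical in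
/-- The direction of the domino at a cell. -/
noncomputable def cd (g : ℤ → ℤ → ℤ → Bool) (i j t : ℤ) : D6 :=
  if h : ∃ c : Bool × Bool × Fin 4, act g i j t c then
    Gd g (i + 1 - zz h.choose.1) (j + 1 - zz h.choose.2.1) (t - (h.choose.2.2 : ℕ))
      h.choose.1 h.choose.2.1 h.choose.2.2
  else if mst g i j t then .u else .d

/-- Admissible spin fields: flips nearby are separated in time. -/
def Good (g : ℤ → ℤ → ℤ → Bool) : Prop :=
  ∀ i j t i' j' t', ev g i j t → ev g i' j' t' → i - i' ≤ 1 → i' - i ≤ 1 → j - j' ≤ 1 →
    j' - j ≤ 1 → t - t' < 4 → t' - t < 4 → i = i' ∧ j = j' ∧ t = t'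

variable {g : ℤ → ℤ → ℤ → Bool}

theorem cd_act (hg : Good g) {i j t : ℤ} {c : Bool × Bool × Fin 4} (h : act g i j t c) :
    cd g i j t = Gd g (i + 1 - zz c.1) (j + 1 - zz c.2.1) (t - (c.2.2 : ℕ)) c.1 c.2.1 c.2.2 := by
  have hex : ∃ c : Bool × Bool × Fin 4, act g i j t c := ⟨c, h⟩
  have key : hex.choose = c := by
    have hs := hex.choose_spec
    generalize hex.choose = c' at hs
    obtain ⟨a, b, s⟩ := c
    obtain ⟨a', b', s'⟩ := c'
    unfold act at h hs
    simp only at h hs
    have ha := zz_cases a
    have hb := zz_cases b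
    have ha' := zz_cases a'
    have hb' := zz_cases b'
    have h1 := hg _ _ _ _ _ _ h hs (by omega) (by omega) (by omega) (by omega) (by omega)
      (by omega)
    have e1 : a' = a := zz_inj (by omega)
    have e2 : b' = b := zz_inj (by omega)
    have e3 : s' = s := Fin.ext (by omega)
    rw [e1, e2, e3]
  unfold cd
  rw [dif_pos hex, key]

theorem cd_nact {i j t : ℤ} (h : ∀ c, ¬ act g i j t c) :
    cd g i j t = if mst g i j t then .u else .d := by
  unfold cd
  rw [dif_neg]
  rintro ⟨c, hc⟩
  exact h c hc

/-- No flip at time `t` in the four columns around the cell `(i,j)`. -/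
def quiet (g : ℤ → ℤ → ℤ → Bool) (i j t : ℤ) : Prop :=
  ∀ a b : Bool, ¬ ev g (i + 1 - zz a) (j + 1 - zz b) t

theorem quiet_mst {i j t : ℤ} (h : quiet g i j t) : mst g i j t = !mst g i j (t - 1) := by
  have h00 := h true true
  have h10 := h false true
  have h01 := h true false
  have h11 := h false false
  unfold ev at h00 h10 h01 h11
  simp only [zz, if_true, ne_eq, not_not, Bool.false_eq_true, if_false, add_sub_cancel_right,
    sub_zero] at h00 h10 h01 h11
  unfold mst
  rw [h00, h10, h01, h11]
  have e1 : par (j + t) = !par (j + (t - 1)) := by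
    rw [show j + (t - 1) = j + t - 1 by ring, par_pred, Bool.not_not]
  have e2 : par t = !par (t - 1) := by rw [par_pred, Bool.not_not]
  rw [e1, e2, mfun_flip]

/-- The conservation law at an event. -/
theorem cons_ev (hg : Good g) {p q r : ℤ} (h : ev g p q r) :
    cons (mst g (p - 1) (q - 1) (r - 1)) (mst g p (q - 1) (r - 1)) (mst g (p - 1) q (r - 1))
    (mst g p q (r - 1))
    (!mst g (p - 1) (q - 1) r) (!mst g p (q - 1) r) (!mst g (p - 1) q r) (!mst g p q r) := by
  have same : ∀ i j : ℤ, (i ≠ p ∨ j ≠ q) → i - p ≤ 1 → p - i ≤ 1 → j - q ≤ 1 → q - j ≤ 1 →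
      g i j r = g i j (r - 1) := by
    intro i j hne h1 h2 h3 h4
    by_contra hcon
    have := hg i j r p q r hcon h h1 h2 h3 h4 (by omega) (by omega)
    omega
  have hc : g p q r = !g p q (r - 1) := by
    unfold ev at h
    revert h
    cases g p q r <;> cases g p q (r - 1) <;> simp
  have a00 := same (p - 1) (q - 1) (by omega) (by omega) (by omega) (by omega) (by omega)
  have a10 := same p (q - 1) (by omega) (by omega) (by omega) (by omega) (by omega)
  have a20 := same (p + 1) (q - 1) (by omega) (by omega) (by omega) (by omega) (by omega)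
  have a01 := same (p - 1) q (by omega) (by omega) (by omega) (by omega) (by omega)
  have a21 := same (p + 1) q (by omega) (by omega) (by omega) (by omega) (by omega)
  have a02 := same (p - 1) (q + 1) (by omega) (by omega) (by omega) (by omega) (by omega)
  have a12 := same p (q + 1) (by omega) (by omega) (by omega) (by omega) (by omega)
  have a22 := same (p + 1) (q + 1) (by omega) (by omega) (by omega) (by omega) (by omega)
  have key := cons_flip (par (q - 1 + (r - 1))) (par (r - 1)) (g (p - 1) (q - 1) (r - 1))
    (g p (q - 1) (r - 1)) (g (p + 1) (q - 1) (r - 1)) (g (p - 1) q (r - 1)) (g p q (r - 1))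
    (g (p + 1) q (r - 1)) (g (p - 1) (q + 1) (r - 1)) (g p (q + 1) (r - 1))
    (g (p + 1) (q + 1) (r - 1))
  have e1 : (!par (q - 1 + (r - 1))) = par (q + (r - 1)) := by
    rw [show q - 1 + (r - 1) = q + (r - 1) - 1 by ring, par_pred, Bool.not_not]
  have e2 : (!par (r - 1)) = par r := by rw [par_pred, Bool.not_not]
  have e3 : par (q + (r - 1)) = par (q - 1 + r) := by congr 1; ring
  have e4 : par (q - 1 + (r - 1)) = par (q + r) := by
    rw [show q + r = q - 1 + (r - 1) + 1 + 1 by ring, par_succ, par_succ, Bool.not_not]
  unfold mst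
  simp only [sub_add_cancel]
  rw [a00, a10, a20, a01, a21, a02, a12, a22, hc]
  rw [e1, e2] at key
  rw [e3] at key ⊢
  rw [e4] at key ⊢
  exact key

theorem pick_in (p q r : ℤ) (a b : Bool) :
    pick (mst g (p - 1) (q - 1) (r - 1)) (mst g p (q - 1) (r - 1)) (mst g (p - 1) q (r - 1))
    (mst g p q (r - 1)) a b = mst g (p - 1 + zz a) (q - 1 + zz b) (r - 1) := by
  cases a <;> cases b <;> simp [pick, zz]

theorem pick_out (p q r : ℤ) (a b : Bool) :
    pick (!mst g (p - 1) (q - 1) r) (!mst g p (q - 1) r) (!mst g (p - 1) q r) (!mst g p q r) a b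
      = !mst g (p - 1 + zz a) (q - 1 + zz b) r := by
  cases a <;> cases b <;> simp [pick, zz]

/-- Going up. -/
theorem cd_up (hg : Good g) {i j t : ℤ} (hm : mst g i j t = true)
    (q0 : quiet g i j t) (q1 : quiet g i j (t - 1)) (q2 : quiet g i j (t - 2)) :
    cd g i j (t + 1) = .d := by
  by_cases hex : ∃ c, act g i j (t + 1) c
  · obtain ⟨⟨a, b, s⟩, hc⟩ := hex
    have hc' := hc
    unfold act at hc'
    simp only at hc'
    have hs : s = 0 := by
      fin_cases s
      · rfl
      · exfalso
        apply q0 a b
        have : t + 1 - ((1 : Fin 4) : ℕ) = t := by simp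
        simpa [this] using hc'
      · exfalso
        apply q1 a b
        have e : t + 1 - 2 = t - 1 := by ring
        have : t + 1 - (((2 : Fin 4) : ℕ) : ℤ) = t - 1 := by
          rw [← e]; rfl
        rw [← this]; exact hc'
      · exfalso
        apply q2 a b
        have e : t + 1 - 3 = t - 2 := by ring
        have : t + 1 - (((3 : Fin 4) : ℕ) : ℤ) = t - 2 := by
          rw [← e]; rfl
        rw [← this]; exact hc'
    subst hs
    rw [cd_act hg hc]
    have hev : ev g (i + 1 - zz a) (j + 1 - zz b) (t + 1) := by simpa using hc'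
    simp only [Fin.val_zero, Nat.cast_zero, sub_zero]
    unfold Gd
    apply G_bot _ _ _ _ _ _ _ _ (cons_ev hg hev)
    rw [pick_in]
    rw [show i + 1 - zz a - 1 + zz a = i by ring, show j + 1 - zz b - 1 + zz b = j by ring,
      show t + 1 - 1 = t by ring]
    exact hm
  · push Not at hex
    rw [cd_nact hex]
    have hq : quiet g i j (t + 1) := by
      intro a b he
      apply hex (a, b, 0)
      unfold act
      simpa using he
    rw [quiet_mst hq, show t + 1 - 1 = t by ring, hm]
    simp

/-- Going down. -/
theorem cd_down (hg : Good g) {i j t : ℤ} (hm : mst g i j t = true)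
    (q0 : quiet g i j t) (q1 : quiet g i j (t - 1)) (q2 : quiet g i j (t - 2)) :
    cd g i j t = .u := by
  by_cases hex : ∃ c, act g i j t c
  · obtain ⟨⟨a, b, s⟩, hc⟩ := hex
    have hc' := hc
    unfold act at hc'
    simp only at hc'
    have hs : s = 3 := by
      fin_cases s
      · exfalso
        apply q0 a b
        simpa using hc'
      · exfalso
        apply q1 a b
        simpa using hc'
      · exfalso
        apply q2 a b
        simpa using hc'
      · rfl
    subst hs
    rw [cd_act hg hc]
    have e3 : (((3 : Fin 4) : ℕ) : ℤ) = 3 := rfl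
    simp only [e3] at hc' ⊢
    unfold Gd
    apply G_top _ _ _ _ _ _ _ _ (cons_ev hg hc')
    rw [pick_out]
    rw [show i + 1 - zz a - 1 + zz a = i by ring, show j + 1 - zz b - 1 + zz b = j by ring]
    have m0 := quiet_mst q0
    have m1 := quiet_mst q1
    have m2 := quiet_mst q2
    rw [show t - 1 - 1 = t - 2 by ring] at m1
    rw [show t - 2 - 1 = t - 3 by ring] at m2
    rw [m0, m1, m2, Bool.not_not] at hm
    exact hm
  · push Not at hex
    rw [cd_nact hex, hm]
    simp

/-- Displacement of a direction. -/
def dx : D6 → ℤ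
  | .e => 1
  | .w => -1
  | _ => 0

/-- Displacement of a direction. -/
def dy : D6 → ℤ
  | .n => 1
  | .s => -1
  | _ => 0

/-- Displacement of a direction. -/
def dt : D6 → ℤ
  | .u => 1
  | .d => -1
  | _ => 0

theorem cd_tiling (hg : Good g) (i j t : ℤ) :
    cd g (i + dx (cd g i j t)) (j + dy (cd g i j t)) (t + dt (cd g i j t))
      = op (cd g i j t) := by
  by_cases hex : ∃ c, act g i j t c
  · obtain ⟨⟨a, b, s⟩, hc⟩ := hex
    have hcd := cd_act hg hc
    have hev := hc
    unfold act at hev
    simp only at hcd hev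
    set p := i + 1 - zz a with hp
    set q := j + 1 - zz b with hq
    set r := t - ((s : ℕ) : ℤ) with hr
    have hcons := cons_ev hg hev
    -- the other cells of the gadget
    have other : ∀ (a' b' : Bool) (s' : Fin 4) (i' j' t' : ℤ), i' = p - 1 + zz a' →
        j' = q - 1 + zz b' → t' = r + (s' : ℕ) → cd g i' j' t' = Gd g p q r a' b' s' := by
      intro a' b' s' i' j' t' h1 h2 h3
      have e1 : i' + 1 - zz a' = p := by omega
      have e2 : j' + 1 - zz b' = q := by omega
      have e3 : t' - ((s' : ℕ) : ℤ) = r := by omega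
      have h : act g i' j' t' (a', b', s') := by
        unfold act
        simp only
        rw [e1, e2, e3]
        exact hev
      have := cd_act hg h
      simp only at this
      rw [this, e1, e2, e3]
    -- quiet columns
    have nq : ∀ t' : ℤ, t' ≠ r → t' - r < 4 → r - t' < 4 → quiet g i j t' := by
      intro t' h1 h2 h3 a' b' he
      have ha := zz_cases a
      have hb := zz_cases b
      have ha' := zz_cases a'
      have hb' := zz_cases b'
      have := hg _ _ _ _ _ _ he hev (by omega) (by omega) (by omega) (by omega) (by omega)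
        (by omega)
      omega
    rw [hcd]
    have hs := s.isLt
    rcases hD : Gd g p q r a b s with _ | _ | _ | _ | _ | _
    · -- east
      simp only [dx, dy, dt, op, add_zero]
      obtain ⟨h1, h2⟩ := G_e _ _ _ _ _ _ _ _ hcons a b s hD
      rw [other true b s (i + 1) j t (by simp [zz, hp, h1]) (by omega) (by omega)]
      exact h2
    · -- west
      simp only [dx, dy, dt, op, add_zero]
      obtain ⟨h1, h2⟩ := G_w _ _ _ _ _ _ _ _ hcons a b s hD
      rw [other false b s (i + -1) j t (by simp [zz, hp, h1]; ring) (by omega) (by omega)]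
      exact h2
    · simp only [dx, dy, dt, op, add_zero]
      obtain ⟨h1, h2⟩ := G_n _ _ _ _ _ _ _ _ hcons a b s hD
      rw [other a true s i (j + 1) t (by omega) (by simp [zz, hq, h1]) (by omega)]
      exact h2
    · simp only [dx, dy, dt, op, add_zero]
      obtain ⟨h1, h2⟩ := G_s _ _ _ _ _ _ _ _ hcons a b s hD
      rw [other a false s i (j + -1) t (by omega) (by simp [zz, hq, h1]; ring) (by omega)]
      exact h2
    · simp only [dx, dy, dt, op, add_zero]
      rcases G_u _ _ _ _ _ _ _ _ hcons a b s hD with ⟨h1, h2⟩ | ⟨h1, h2⟩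
      · rw [pick_out] at h2
        subst h1
        have e3 : (((3 : Fin 4) : ℕ) : ℤ) = 3 := rfl
        rw [e3] at hr
        have q0 := nq t (by omega) (by omega) (by omega)
        have q1 := nq (t - 1) (by omega) (by omega) (by omega)
        have q2 := nq (t - 2) (by omega) (by omega) (by omega)
        apply cd_up hg _ q0 q1 q2
        have m0 := quiet_mst q0
        have m1 := quiet_mst q1
        have m2 := quiet_mst q2
        rw [show t - 1 - 1 = t - 2 by ring] at m1
        rw [show t - 2 - 1 = r by omega] at m2
        rw [m0, m1, m2, Bool.not_not]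
        rw [show p - 1 + zz a = i by omega, show q - 1 + zz b = j by omega] at h2
        exact h2
      · have hlt : (s : ℕ) + 1 < 4 := by omega
        rw [other a b ⟨(s : ℕ) + 1, hlt⟩ i j (t + 1) (by omega) (by omega)
          (by push_cast; omega)]
        exact h2
    · simp only [dx, dy, dt, op, add_zero]
      rcases G_d _ _ _ _ _ _ _ _ hcons a b s hD with ⟨h1, h2⟩ | ⟨h1, h2⟩
      · rw [pick_in] at h2
        subst h1
        have e3 : (((0 : Fin 4) : ℕ) : ℤ) = 0 := rfl
        rw [e3] at hr
        have q0 := nq (t + -1) (by omega) (by omega) (by omega)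
        have q1 := nq (t + -1 - 1) (by omega) (by omega) (by omega)
        have q2 := nq (t + -1 - 2) (by omega) (by omega) (by omega)
        apply cd_down hg _ q0 q1 q2
        rw [show p - 1 + zz a = i by omega, show q - 1 + zz b = j by omega,
          show r - 1 = t + -1 by omega] at h2
        exact h2
      · have hlt : (s : ℕ) - 1 < 4 := by omega
        rw [other a b ⟨(s : ℕ) - 1, hlt⟩ i j (t + -1) (by omega) (by omega)
          (by simp only; omega)]
        exact h2
  · push Not at hex
    have hcd := cd_nact hex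
    have nq : ∀ k : Fin 4, quiet g i j (t - (k : ℕ)) := by
      intro k a b he
      exact hex (a, b, k) he
    have n0 : quiet g i j t := by simpa using nq 0
    have n1 : quiet g i j (t - 1) := by simpa using nq 1
    have n2 : quiet g i j (t - 2) := by simpa using nq 2
    have n3 : quiet g i j (t - 3) := by
      have := nq 3
      have e3 : (((3 : Fin 4) : ℕ) : ℤ) = 3 := rfl
      rwa [e3] at this
    rw [hcd]
    by_cases hm : mst g i j t = true
    · rw [if_pos hm]
      simp only [dx, dy, dt, op, add_zero]
      exact cd_up hg hm n0 n1 n2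
    · rw [if_neg hm]
      simp only [dx, dy, dt, op, add_zero]
      have h0 := quiet_mst n0
      have hm' : mst g i j (t - 1) = true := by
        revert hm h0
        cases mst g i j t <;> cases mst g i j (t - 1) <;> simp
      have : t + -1 = t - 1 := by ring
      rw [this]
      apply cd_down hg hm' n1
      · rw [show t - 1 - 1 = t - 2 by ring]; exact n2
      · rw [show t - 1 - 2 = t - 3 by ring]; exact n3

end Pool.Agent.R200.DomT
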