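import Pool.Agent.R200.DomDefs
import Pool.Agent.R200.DomLoc

/-!
# A strongly irreducible subshift of domino tilings
-/

namespace Pool.Agent.R200.DomX

open DomG DomT

variable {n : ℕ}

/-- First coordinate. -/
def I0 : Fin (n + 3) := ⟨0, by omega⟩
/-- Second coordinate. -/
def I1 : Fin (n + 3) := ⟨1, by omega⟩
/-- Third coordinate. -/
def I2 : Fin (n + 3) := ⟨2, by omega⟩

/-- Setting the first three coordinates. -/
def st (v : Fin (n + 3) → ℤ) (i j t : ℤ) : Fin (n + 3) → ℤ := fun k =>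
  if k = I0 then i else if k = I1 then j else if k = I2 then t else v k

theorem I10 : ¬ ((I1 : Fin (n + 3)) = I0) := by simp [I1, I0]
theorem I20 : ¬ ((I2 : Fin (n + 3)) = I0) := by simp [I2, I0]
theorem I21 : ¬ ((I2 : Fin (n + 3)) = I1) := by simp [I2, I1]

theorem st0 (v : Fin (n + 3) → ℤ) (i j t : ℤ) : st v i j t I0 = i := by simp [st]
theorem st1 (v : Fin (n + 3) → ℤ) (i j t : ℤ) : st v i j t I1 = j := by simp [st, I10]
theorem st2 (v : Fin (n + 3) → ℤ) (i j t : ℤ) : st v i j t I2 = t := by simp [st, I20, I21]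
theorem st_ne (v : Fin (n + 3) → ℤ) (i j t : ℤ) {k : Fin (n + 3)} (h0 : k ≠ I0) (h1 : k ≠ I1)
    (h2 : k ≠ I2) : st v i j t k = v k := by simp [st, h0, h1, h2]

theorem st_self (v : Fin (n + 3) → ℤ) : st v (v I0) (v I1) (v I2) = v := by
  funext k
  unfold st
  split_ifs with h1 h2 h3
  · rw [h1]
  · rw [h2]
  · rw [h3]
  · rfl

theorem st_st (v : Fin (n + 3) → ℤ) (i j t i' j' t' : ℤ) :
    st (st v i' j' t') i j t = st v i j t := by
  funext k
  unfold st
  split_ifs <;> rfl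

/-- Three-dimensional slices of a field. -/
def slice (γ : (Fin (n + 3) → ℤ) → Bool) (v : Fin (n + 3) → ℤ) (i j t : ℤ) : Bool :=
  γ (st v i j t)

theorem slice_st (γ : (Fin (n + 3) → ℤ) → Bool) (v : Fin (n + 3) → ℤ) (i j t : ℤ) :
    slice γ (st v i j t) = slice γ v := by
  funext i' j' t'
  unfold slice
  rw [st_st]

/-- Translation of directions. -/
def toDir : D6 → Dir (n + 3)
  | .e => (I0, true)
  | .w => (I0, false)
  | .n => (I1, true)
  | .s => (I1, false)
  | .u => (I2, true)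
  | .d => (I2, false)

theorem toDir_op (D : D6) : toDir (n := n) (op D) = opp (toDir D) := by
  cases D <;> rfl

theorem add_vec (v : Fin (n + 3) → ℤ) (D : D6) :
    v + vec (toDir D) = st v (v I0 + dx D) (v I1 + dy D) (v I2 + dt D) := by
  funext k
  have h10 := I10 (n := n)
  have h20 := I20 (n := n)
  have h21 := I21 (n := n)
  have h01 : ¬ (I0 : Fin (n + 3)) = I1 := fun h => h10 h.symm
  have h02 : ¬ (I0 : Fin (n + 3)) = I2 := fun h => h20 h.symm
  have h12 : ¬ (I1 : Fin (n + 3)) = I2 := fun h => h21 h.symm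
  by_cases k0 : k = I0
  · subst k0
    rw [st0]
    cases D <;> simp [vec, toDir, dx, Pi.single_apply, h01, h02]
  · by_cases k1 : k = I1
    · subst k1
      rw [st1]
      cases D <;> simp [vec, toDir, dy, Pi.single_apply, h10, h12]
    · by_cases k2 : k = I2
      · subst k2
        rw [st2]
        cases D <;> simp [vec, toDir, dt, Pi.single_apply, h20, h21]
      · rw [st_ne _ _ _ _ k0 k1 k2]
        cases D <;> simp [vec, toDir, Pi.single_apply, k0, k1, k2]

/-- The coding of a spin field. -/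
noncomputable def code (γ : (Fin (n + 3) → ℤ) → Bool) (v : Fin (n + 3) → ℤ) : Dir (n + 3) :=
  toDir (cd (slice γ v) (v I0) (v I1) (v I2))

/-- Admissible fields. -/
def Gam (n : ℕ) : Set ((Fin (n + 3) → ℤ) → Bool) :=
  {γ | ∀ v, Good (slice γ v) ∧ Long (slice γ v)}

theorem code_tiling {γ : (Fin (n + 3) → ℤ) → Bool} (hγ : γ ∈ Gam n) :
    code γ ∈ dominoTilings (n + 3) := by
  intro v
  have h := cd_tiling (hγ v).1 (v I0) (v I1) (v I2)
  set D := cd (slice γ v) (v I0) (v I1) (v I2) with hD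
  have hc : code γ v = toDir D := rfl
  rw [hc, add_vec, ← toDir_op, ← h]
  unfold code
  rw [slice_st, st0, st1, st2]

/-- Fields agreeing near `v` have the same code at `v`. -/
theorem code_local {γ γ' : (Fin (n + 3) → ℤ) → Bool} {v : Fin (n + 3) → ℤ}
    (H : ∀ w, (∀ i, w i - v i ≤ 4 ∧ v i - w i ≤ 4) → γ w = γ' w) : code γ v = code γ' v := by
  unfold code
  rw [cd_local (g' := slice γ' v)]
  intro i' j' t' h1 h2 h3 h4 h5 h6
  unfold slice
  apply H
  intro k
  by_cases k0 : k = I0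
  · subst k0; rw [st0]; omega
  · by_cases k1 : k = I1
    · subst k1; rw [st1]; omega
    · by_cases k2 : k = I2
      · subst k2; rw [st2]; omega
      · rw [st_ne _ _ _ _ k0 k1 k2]; omega

/-- The finite window around a point. -/
noncomputable def win (v : Fin (n + 3) → ℤ) : Finset (Fin (n + 3) → ℤ) :=
  Fintype.piFinset fun i => Finset.Icc (v i - 4) (v i + 4)

theorem mem_win {v w : Fin (n + 3) → ℤ} :
    w ∈ win v ↔ ∀ i, w i - v i ≤ 4 ∧ v i - w i ≤ 4 := by
  unfold win
  simp only [Fintype.mem_piFinset, Finset.mem_Icc]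
  constructor
  · intro h i
    have := h i
    omega
  · intro h i
    have := h i
    omega

/-- A function depending on finitely many coordinates is continuous. -/
theorem continuous_of_finite_dep {V A : Type} [TopologicalSpace A] (f : (V → Bool) → A)
    (F : Finset V) (hF : ∀ γ γ' : V → Bool, (∀ w ∈ F, γ w = γ' w) → f γ = f γ') :
    Continuous f := by
  apply IsLocallyConstant.continuous
  rw [IsLocallyConstant.iff_exists_open]
  intro γ
  refine ⟨⋂ w ∈ F, {γ' : V → Bool | γ' w = γ w}, ?_, ?_, ?_⟩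
  · apply isOpen_biInter_finset
    intro w _
    have ho : IsOpen ((fun γ' : V → Bool => γ' w) ⁻¹' {γ w}) :=
      (isOpen_discrete _).preimage (continuous_apply w)
    exact ho
  · simp
  · intro γ' hγ'
    apply hF
    intro w hw
    simp only [Set.mem_iInter, Set.mem_ofPred_eq] at hγ'
    exact hγ' w hw

theorem continuous_code : Continuous (code (n := n)) := by
  apply continuous_pi
  intro v
  apply continuous_of_finite_dep _ (win v)
  intro γ γ' h
  apply code_local
  intro w hw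
  exact h w (mem_win.2 hw)

theorem isClosed_ev (v w : Fin (n + 3) → ℤ) (i j t i' j' t' : ℤ) :
    IsOpen {γ : (Fin (n + 3) → ℤ) → Bool | ev (slice γ v) i j t ∧ ev (slice γ w) i' j' t'} := by
  classical
  have hc : Continuous (fun γ : (Fin (n + 3) → ℤ) → Bool =>
      decide (ev (slice γ v) i j t ∧ ev (slice γ w) i' j' t')) := by
    apply continuous_of_finite_dep _
      {st v i j t, st v i j (t - 1), st w i' j' t', st w i' j' (t' - 1)}
    intro γ γ' h
    have h1 := h (st v i j t) (by simp)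
    have h2 := h (st v i j (t - 1)) (by simp)
    have h3 := h (st w i' j' t') (by simp)
    have h4 := h (st w i' j' (t' - 1)) (by simp)
    unfold ev slice
    rw [h1, h2, h3, h4]
  have := (isOpen_discrete {true}).preimage hc
  convert this using 1
  ext γ
  simp

theorem isClosed_Gam : IsClosed (Gam n) := by
  have : Gam n = ⋂ (v : Fin (n + 3) → ℤ), ((⋂ (i : ℤ) (j : ℤ) (t : ℤ) (i' : ℤ) (j' : ℤ) (t' : ℤ)
      (_ : i - i' ≤ 1 ∧ i' - i ≤ 1 ∧ j - j' ≤ 1 ∧ j' - j ≤ 1 ∧ t - t' < 4 ∧ t' - t < 4)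
      (_ : ¬ (i = i' ∧ j = j' ∧ t = t')),
      {γ : (Fin (n + 3) → ℤ) → Bool | ev (slice γ v) i j t ∧ ev (slice γ v) i' j' t'}ᶜ) ∩
      (⋂ (i : ℤ) (j : ℤ) (t : ℤ) (t' : ℤ) (_ : t - t' < 720 ∧ t' - t < 720) (_ : ¬ t = t'),
      {γ : (Fin (n + 3) → ℤ) → Bool | ev (slice γ v) i j t ∧ ev (slice γ v) i j t'}ᶜ)) := by
    ext γ
    simp only [Gam, Set.mem_ofPred_eq, Set.mem_iInter, Set.mem_inter_iff, Set.mem_compl_iff]
    constructor
    · intro h v
      refine ⟨?_, ?_⟩
      · intro i j t i' j' t' h1 h2 h3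
        exact h2 ((h v).1 _ _ _ _ _ _ h3.1 h3.2 h1.1 h1.2.1 h1.2.2.1 h1.2.2.2.1 h1.2.2.2.2.1
          h1.2.2.2.2.2)
      · intro i j t t' h1 h2 h3
        exact h2 ((h v).2 _ _ _ _ h3.1 h3.2 h1.1 h1.2)
    · intro h v
      refine ⟨?_, ?_⟩
      · intro i j t i' j' t' e1 e2 h1 h2 h3 h4 h5 h6
        by_contra hcon
        exact (h v).1 i j t i' j' t' ⟨h1, h2, h3, h4, h5, h6⟩ hcon ⟨e1, e2⟩
      · intro i j t t' e1 e2 h1 h2
        by_contra hcon
        exact (h v).2 i j t t' ⟨h1, h2⟩ hcon ⟨e1, e2⟩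
  rw [this]
  apply isClosed_iInter
  intro v
  apply IsClosed.inter
  · repeat (apply isClosed_iInter; intro)
    exact (isClosed_ev _ _ _ _ _ _ _ _).isClosed_compl
  · repeat (apply isClosed_iInter; intro)
    exact (isClosed_ev _ _ _ _ _ _ _ _).isClosed_compl

/-- The subshift. -/
def XX (n : ℕ) : Set ((Fin (n + 3) → ℤ) → Dir (n + 3)) := code '' (Gam n)

theorem XX_sub : XX n ⊆ dominoTilings (n + 3) := by
  rintro _ ⟨γ, hγ, rfl⟩
  exact code_tiling hγ

theorem XX_nonempty : (XX n).Nonempty := by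
  refine ⟨code (fun _ => false), (fun _ => false), ?_, rfl⟩
  intro v
  refine ⟨?_, ?_⟩
  · intro i j t i' j' t' h
    exact absurd rfl h
  · intro i j t t' h
    exact absurd rfl h

theorem XX_closed : IsClosed (XX n) :=
  (isClosed_Gam.isCompact.image continuous_code).isClosed

/-- Translation of a field, with gauge transformation. -/
def trV (γ : (Fin (n + 3) → ℤ) → Bool) (u : Fin (n + 3) → ℤ) (v : Fin (n + 3) → ℤ) : Bool :=
  xor (γ (u + v)) (par ((u I1 + u I2) * v I0 + u I2 * v I1))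

theorem slice_trV (γ : (Fin (n + 3) → ℤ) → Bool) (u v : Fin (n + 3) → ℤ) :
    slice (trV γ u) v = tr (slice γ (u + v)) (u I0) (u I1) (u I2) := by
  funext i j t
  unfold slice trV tr
  rw [st0, st1]
  congr 2
  funext k
  by_cases k0 : k = I0
  · subst k0; rw [Pi.add_apply, st0, st0]; ring
  · by_cases k1 : k = I1
    · subst k1; rw [Pi.add_apply, st1, st1]; ring
    · by_cases k2 : k = I2
      · subst k2; rw [Pi.add_apply, st2, st2]; ring
      · rw [Pi.add_apply, st_ne _ _ _ _ k0 k1 k2, st_ne _ _ _ _ k0 k1 k2, Pi.add_apply]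

theorem XX_shift : ∀ x ∈ XX n, ∀ u : Fin (n + 3) → ℤ, (fun v => x (u + v)) ∈ XX n := by
  rintro _ ⟨γ, hγ, rfl⟩ u
  refine ⟨trV γ u, ?_, ?_⟩
  · intro v
    rw [slice_trV]
    exact ⟨Good_tr (hγ _).1 _ _ _, Long_tr (hγ _).2 _ _ _⟩
  · funext v
    unfold code
    rw [slice_trV, cd_tr]
    simp only [Pi.add_apply]
    congr 2 <;> ring

theorem XX_irr : StronglyIrreducible (XX n) := by
  refine ⟨4340, ?_⟩
  rintro _ ⟨γ, hγ, rfl⟩ _ ⟨γ', hγ', rfl⟩ A B hAB
  -- enlarged sets
  let P : (Fin (n + 3) → ℤ) → ℤ → ℤ → ℤ → Prop := fun r i j t =>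
    ∃ a ∈ A, ∀ k, st r i j t k - a k ≤ 4 ∧ a k - st r i j t k ≤ 4
  let Q : (Fin (n + 3) → ℤ) → ℤ → ℤ → ℤ → Prop := fun r i j t =>
    ∃ b ∈ B, ∀ k, st r i j t k - b k ≤ 4 ∧ b k - st r i j t k ≤ 4
  have hsep : ∀ r, ∀ i j t i' j' t', P r i j t → Q r i' j' t' → i - i' ≤ 1 → i' - i ≤ 1 →
      j - j' ≤ 1 → j' - j ≤ 1 → t - t' < 4320 → t' - t < 4320 → False := by
    intro r i j t i' j' t' hP hQ h1 h2 h3 h4 h5 h6
    obtain ⟨a, ha, ha'⟩ := hP
    obtain ⟨b, hb, hb'⟩ := hQ
    obtain ⟨k, hk⟩ := hAB a ha b hb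
    have e1 := ha' k
    have e2 := hb' k
    have hlt : |a k - b k| < 4340 := by
      rw [abs_lt]
      by_cases k0 : k = I0
      · subst k0; rw [st0] at e1 e2; omega
      · by_cases k1 : k = I1
        · subst k1; rw [st1] at e1 e2; omega
        · by_cases k2 : k = I2
          · subst k2; rw [st2] at e1 e2; omega
          · rw [st_ne _ _ _ _ k0 k1 k2] at e1 e2; omega
    push_cast at hk
    omega
  choose h h1 h2 h3 h4 using fun r => glue (hγ r).1 (hγ r).2 (hγ' r).1 (hγ' r).2 (hsep r)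
  let γ'' : (Fin (n + 3) → ℤ) → Bool := fun v => h (st v 0 0 0) (v I0) (v I1) (v I2)
  have hsl : ∀ v, slice γ'' v = h (st v 0 0 0) := by
    intro v
    funext i j t
    show h (st (st v i j t) 0 0 0) (st v i j t I0) (st v i j t I1) (st v i j t I2) = _
    rw [st_st, st0, st1, st2]
  refine ⟨code γ'', ⟨γ'', ?_, rfl⟩, ?_, ?_⟩
  · intro v
    rw [hsl]
    exact ⟨h1 _, h2 _⟩
  · intro a ha
    apply code_local
    intro w hw
    have hp : P (st w 0 0 0) (w I0) (w I1) (w I2) := by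
      refine ⟨a, ha, ?_⟩
      rw [st_st, st_self]
      exact hw
    have := h3 (st w 0 0 0) _ _ _ hp
    show h (st w 0 0 0) (w I0) (w I1) (w I2) = γ w
    rw [this]
    unfold slice
    rw [st_st, st_self]
  · intro b hb
    apply code_local
    intro w hw
    have hp : Q (st w 0 0 0) (w I0) (w I1) (w I2) := by
      refine ⟨b, hb, ?_⟩
      rw [st_st, st_self]
      exact hw
    have := h4 (st w 0 0 0) _ _ _ hp
    show h (st w 0 0 0) (w I0) (w I1) (w I2) = γ' w
    rw [this]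
    unfold slice
    rw [st_st, st_self]

end Pool.Agent.R200.DomX
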