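import Pool.Agent.R200.IeMeas

/-!
# Averages over sets of words and the pressure bound
-/

namespace Pool.Agent.R200.Ie

open Filter Topology Finset

/-- Concatenations of a word of `S` and a word of `T`. -/
def app2 (S T : Finset (List Bool)) : Finset (List Bool) := (S ×ˢ T).image fun z => z.1 ++ z.2

theorem mem_app2 {S T : Finset (List Bool)} {w : List Bool} :
    w ∈ app2 S T ↔ ∃ u ∈ S, ∃ v ∈ T, w = u ++ v := by
  unfold app2
  rw [mem_image]
  constructor
  · rintro ⟨z, hz, rfl⟩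
    rw [mem_product] at hz
    exact ⟨z.1, hz.1, z.2, hz.2, rfl⟩
  · rintro ⟨u, hu, v, hv, rfl⟩
    exact ⟨(u, v), mem_product.2 ⟨hu, hv⟩, rfl⟩

theorem app2_injOn {S T : Finset (List Bool)} {l : ℕ} (hS : ∀ w ∈ S, w.length = l) :
    Set.InjOn (fun z : List Bool × List Bool => z.1 ++ z.2) (S ×ˢ T : Finset _) := by
  intro z hz z' hz' h
  rw [mem_coe, mem_product] at hz hz'
  have := List.append_inj h (by rw [hS _ hz.1, hS _ hz'.1])
  exact Prod.ext this.1 this.2

theorem sum_app2 {S T : Finset (List Bool)} {l : ℕ} (hS : ∀ w ∈ S, w.length = l)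
    (f : List Bool → ℝ) : ∑ w ∈ app2 S T, f w = ∑ u ∈ S, ∑ v ∈ T, f (u ++ v) := by
  unfold app2
  rw [sum_image (app2_injOn hS), sum_product]

theorem card_app2 {S T : Finset (List Bool)} {l : ℕ} (hS : ∀ w ∈ S, w.length = l) :
    (app2 S T).card = S.card * T.card := by
  unfold app2
  rw [card_image_of_injOn (app2_injOn hS), card_product]

theorem app2_nonempty {S T : Finset (List Bool)} (hS : S.Nonempty) (hT : T.Nonempty) :
    (app2 S T).Nonempty := by
  obtain ⟨u, hu⟩ := hS
  obtain ⟨v, hv⟩ := hT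
  exact ⟨u ++ v, mem_app2.2 ⟨u, hu, v, hv, rfl⟩⟩

/-- The average of `f` over `S`. -/
noncomputable def avg (S : Finset (List Bool)) (f : List Bool → ℝ) : ℝ := (∑ w ∈ S, f w) / S.card

theorem avg_nonneg {S : Finset (List Bool)} {f : List Bool → ℝ} (h : ∀ w, 0 ≤ f w) :
    0 ≤ avg S f := div_nonneg (sum_nonneg fun w _ => h w) (Nat.cast_nonneg _)

theorem sum_eq_avg {S : Finset (List Bool)} (hS : S.Nonempty) (f : List Bool → ℝ) :
    ∑ w ∈ S, f w = S.card * avg S f := by
  have : (0 : ℝ) < S.card := by exact_mod_cast card_pos.2 hS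
  unfold avg
  field_simp

theorem avg_union {S T : Finset (List Bool)} (hd : Disjoint S T) (hS : S.Nonempty)
    (hT : T.Nonempty) (f : List Bool → ℝ) :
    avg (S ∪ T) f = (S.card * avg S f + T.card * avg T f) / (S.card + T.card) := by
  conv_lhs => unfold avg
  rw [sum_union hd, card_union_of_disjoint hd, sum_eq_avg hS, sum_eq_avg hT]
  push_cast
  rfl

theorem avg_union_le {S T : Finset (List Bool)} (hd : Disjoint S T) (hS : S.Nonempty)
    (hT : T.Nonempty) (f : List Bool → ℝ) {b : ℝ} (h1 : avg S f ≤ b) (h2 : avg T f ≤ b) :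
    avg (S ∪ T) f ≤ b := by
  have c1 : (0 : ℝ) < S.card := by exact_mod_cast card_pos.2 hS
  have c2 : (0 : ℝ) < T.card := by exact_mod_cast card_pos.2 hT
  rw [avg_union hd hS hT, div_le_iff₀ (by positivity)]
  nlinarith [mul_le_mul_of_nonneg_left h1 c1.le, mul_le_mul_of_nonneg_left h2 c2.le]

theorem le_avg_union {S T : Finset (List Bool)} (hd : Disjoint S T) (hS : S.Nonempty)
    (hT : T.Nonempty) (f : List Bool → ℝ) {b : ℝ} (h1 : b ≤ avg S f) (h2 : b ≤ avg T f) :
    b ≤ avg (S ∪ T) f := by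
  have c1 : (0 : ℝ) < S.card := by exact_mod_cast card_pos.2 hS
  have c2 : (0 : ℝ) < T.card := by exact_mod_cast card_pos.2 hT
  rw [avg_union hd hS hT, le_div_iff₀ (by positivity)]
  nlinarith [mul_le_mul_of_nonneg_left h1 c1.le, mul_le_mul_of_nonneg_left h2 c2.le]

/-- Mean number of occurrences. -/
noncomputable def mn (p : List Bool) (S : Finset (List Bool)) : ℝ := avg S fun w => (occ p w : ℝ)

/-- Exponential moment. -/
noncomputable def gm (p : List Bool) (s : ℝ) (S : Finset (List Bool)) : ℝ :=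
  avg S fun w => Real.exp (s * (occ p w + p.length))

theorem mn_app2 {S T : Finset (List Bool)} {l : ℕ} (hS : ∀ w ∈ S, w.length = l)
    (hS0 : S.Nonempty) (hT0 : T.Nonempty) (p : List Bool) :
    mn p S + mn p T ≤ mn p (app2 S T) ∧ mn p (app2 S T) ≤ mn p S + mn p T + p.length := by
  have c1 : (0 : ℝ) < S.card := by exact_mod_cast card_pos.2 hS0
  have c2 : (0 : ℝ) < T.card := by exact_mod_cast card_pos.2 hT0
  have e : mn p (app2 S T) = (∑ u ∈ S, ∑ v ∈ T, (occ p (u ++ v) : ℝ)) / (S.card * T.card) := by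
    unfold mn avg
    rw [sum_app2 hS, card_app2 hS]
    push_cast
    rfl
  have e2 : ∀ b : ℝ, ∑ u ∈ S, ∑ v ∈ T, ((occ p u : ℝ) + occ p v + b) =
      (S.card * T.card) * (mn p S + mn p T + b) := by
    intro b
    have h1 : ∀ u ∈ S, ∑ v ∈ T, ((occ p u : ℝ) + occ p v + b) =
        T.card * (occ p u : ℝ) + (∑ v ∈ T, (occ p v : ℝ)) + T.card * b := by
      intro u _
      rw [sum_add_distrib, sum_add_distrib, sum_const, sum_const, nsmul_eq_mul, nsmul_eq_mul]
    rw [sum_congr rfl h1, sum_add_distrib, sum_add_distrib, ← mul_sum, sum_const, sum_const,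
      nsmul_eq_mul, nsmul_eq_mul, sum_eq_avg hS0, sum_eq_avg hT0]
    unfold mn
    ring
  constructor
  · rw [e, le_div_iff₀ (by positivity)]
    have h := e2 0
    have h2 : ∑ u ∈ S, ∑ v ∈ T, ((occ p u : ℝ) + occ p v + 0) ≤
        ∑ u ∈ S, ∑ v ∈ T, (occ p (u ++ v) : ℝ) := by
      apply sum_le_sum; intro u _
      apply sum_le_sum; intro v _
      rw [add_zero]
      exact_mod_cast occ_append_ge p u v
    rw [h] at h2
    linarith
  · rw [e, div_le_iff₀ (by positivity)]
    have h := e2 p.length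
    have h2 : ∑ u ∈ S, ∑ v ∈ T, (occ p (u ++ v) : ℝ) ≤
        ∑ u ∈ S, ∑ v ∈ T, ((occ p u : ℝ) + occ p v + p.length) := by
      apply sum_le_sum; intro u _
      apply sum_le_sum; intro v _
      exact_mod_cast occ_append_le p u v
    rw [h] at h2
    linarith

theorem gm_nonneg (p : List Bool) (s : ℝ) (S : Finset (List Bool)) : 0 ≤ gm p s S :=
  avg_nonneg fun _ => (Real.exp_pos _).le

theorem gm_app2 {S T : Finset (List Bool)} {l : ℕ} (hS : ∀ w ∈ S, w.length = l)
    (hS0 : S.Nonempty) (hT0 : T.Nonempty) (p : List Bool) {s : ℝ} (hs : 0 ≤ s) :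
    gm p s (app2 S T) ≤ gm p s S * gm p s T := by
  have c1 : (0 : ℝ) < S.card := by exact_mod_cast card_pos.2 hS0
  have c2 : (0 : ℝ) < T.card := by exact_mod_cast card_pos.2 hT0
  unfold gm avg
  rw [sum_app2 hS, card_app2 hS, div_mul_div_comm, sum_mul_sum]
  push_cast
  apply div_le_div_of_nonneg_right _ (by positivity)
  apply sum_le_sum; intro u _
  apply sum_le_sum; intro v _
  rw [← Real.exp_add, Real.exp_le_exp, ← mul_add]
  apply mul_le_mul_of_nonneg_left _ hs
  have : (occ p (u ++ v) : ℝ) ≤ occ p u + occ p v + p.length := by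
    exact_mod_cast occ_append_le p u v
  linarith

theorem gm_small {S : Finset (List Bool)} (hS0 : S.Nonempty) {l : ℕ}
    (hS : ∀ w ∈ S, w.length = l) (p : List Bool) {s : ℝ} (hs : 0 ≤ s)
    (hs1 : s * (l + p.length) ≤ 1) :
    gm p s S ≤ Real.exp (s * (mn p S + p.length) + s ^ 2 * (l + p.length) ^ 2) := by
  have c1 : (0 : ℝ) < S.card := by exact_mod_cast card_pos.2 hS0
  have h1 : ∀ w ∈ S, Real.exp (s * (occ p w + p.length)) ≤
      1 + s * (occ p w + p.length) + s ^ 2 * (l + p.length) ^ 2 := by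
    intro w hw
    have hocc : (occ p w : ℝ) ≤ l := by
      rw [← hS w hw]; exact_mod_cast occ_le_length p w
    have hx0 : 0 ≤ s * ((occ p w : ℝ) + p.length) := by positivity
    have hx1 : s * ((occ p w : ℝ) + p.length) ≤ s * (l + p.length) :=
      mul_le_mul_of_nonneg_left (by linarith) hs
    have h2 := Real.abs_exp_sub_one_sub_id_le (x := s * ((occ p w : ℝ) + p.length))
      (by rw [abs_of_nonneg hx0]; linarith)
    have h3 := (abs_le.1 h2).2
    have h4 : (s * ((occ p w : ℝ) + p.length)) ^ 2 ≤ (s * (l + p.length)) ^ 2 :=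
      pow_le_pow_left₀ hx0 hx1 2
    have h5 : (s * ((l : ℝ) + p.length)) ^ 2 = s ^ 2 * (l + p.length) ^ 2 := by ring
    linarith
  have h2 : gm p s S ≤ 1 + (s * (mn p S + p.length) + s ^ 2 * (l + p.length) ^ 2) := by
    unfold gm avg
    rw [div_le_iff₀ c1]
    refine (sum_le_sum h1).trans (le_of_eq ?_)
    rw [sum_add_distrib, sum_add_distrib, ← mul_sum, sum_add_distrib, sum_const, sum_const,
      sum_const, nsmul_eq_mul, nsmul_eq_mul, nsmul_eq_mul, sum_eq_avg hS0]
    unfold mn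
    ring
  refine h2.trans ?_
  have := Real.add_one_le_exp (s * (mn p S + p.length) + s ^ 2 * ((l : ℝ) + p.length) ^ 2)
  linarith

/-- Polynomial factors are absorbed. -/
theorem poly_absorb (C : ℕ) (g ε : ℝ) (hε : 0 < ε) : ∃ K > (0 : ℝ), ∀ N : ℕ,
    ((N + C + 1 : ℕ) : ℝ) ^ 2 * Real.exp (g * (N + C : ℕ)) ≤ K * Real.exp ((g + ε) * N) := by
  have hlim : Tendsto (fun N : ℕ => ((N + C + 1 : ℕ) : ℝ) ^ 2 * Real.exp (-(ε * N))) atTop
      (𝓝 0) := by
    have h1 : Tendsto (fun x : ℝ => x ^ 2 * Real.exp (-(ε * x))) atTop (𝓝 0) := by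
      have h0 := Real.tendsto_pow_mul_exp_neg_atTop_nhds_zero 2
      have h2 : Tendsto (fun x : ℝ => ε * x) atTop atTop := tendsto_id.const_mul_atTop hε
      have h3 := (h0.comp h2).const_mul (1 / ε ^ 2)
      rw [mul_zero] at h3
      refine h3.congr fun x => ?_
      simp only [Function.comp_apply]
      field_simp
    have h2 : Tendsto (fun N : ℕ => ((N + C + 1 : ℕ) : ℝ)) atTop atTop :=
      tendsto_natCast_atTop_atTop.comp
        (tendsto_atTop_mono (fun N => show id N ≤ N + C + 1 by simp only [id]; omega) tendsto_id)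
    have h3 := (h1.comp h2).const_mul (Real.exp (ε * (C + 1)))
    rw [mul_zero] at h3
    refine h3.congr fun N => ?_
    simp only [Function.comp_apply]
    rw [mul_comm, mul_assoc, ← Real.exp_add]
    congr 2
    push_cast
    ring
  obtain ⟨K, hK⟩ := (hlim.bddAbove_range)
  refine ⟨(|K| + 1) * Real.exp (g * C), by positivity, fun N => ?_⟩
  have h1 : ((N + C + 1 : ℕ) : ℝ) ^ 2 * Real.exp (-(ε * N)) ≤ |K| + 1 :=
    (hK ⟨N, rfl⟩).trans ((le_abs_self K).trans (by linarith))
  calc ((N + C + 1 : ℕ) : ℝ) ^ 2 * Real.exp (g * (N + C : ℕ))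
      = (((N + C + 1 : ℕ) : ℝ) ^ 2 * Real.exp (-(ε * N))) *
          (Real.exp (g * C) * Real.exp ((g + ε) * N)) := by
        rw [mul_assoc, ← Real.exp_add, ← Real.exp_add]
        congr 2
        push_cast
        ring
    _ ≤ (|K| + 1) * (Real.exp (g * C) * Real.exp ((g + ε) * N)) :=
        mul_le_mul_of_nonneg_right h1 (by positivity)
    _ = (|K| + 1) * Real.exp (g * C) * Real.exp ((g + ε) * N) := by ring

/-- The pressure bound from two families of blocks. -/
theorem hpr_of_blocks (L : Set (List Bool)) [DecidablePred (· ∈ L)] (h : ℝ) (hh : 0 ≤ h)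
    (F : List Bool → ℝ) (hF : Cons F) (B : ℕ → Bool → Finset (List Bool)) (len : ℕ → Bool → ℕ)
    (hne : ∀ n c, (B n c).Nonempty) (hlen : ∀ n c, ∀ w ∈ B n c, w.length = len n c)
    (htop : ∀ K : ℕ, ∀ᶠ n in atTop, ∀ c, K ≤ len n c)
    (hcard : ∀ ε > (0 : ℝ), ∀ᶠ n in atTop, ∀ c, Real.log (B n c).card ≤ (h + ε) * len n c)
    (hcov : ∀ n, ∃ C, ∀ w ∈ L, ∃ m, ∃ W ∈ conc (B n false ∪ B n true) m,
      w <:+: W ∧ W.length ≤ w.length + C)
    (hmgf : ∀ p : List Bool, p ≠ [] → ∀ δ > (0 : ℝ), ∃ s0 > (0 : ℝ), ∀ s : ℝ, 0 ≤ s → s ≤ s0 →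
      ∀ᶠ n in atTop, ∀ c, gm p s (B n c) ≤ Real.exp (s * (F p + δ) * len n c)) :
    ∀ p : List Bool, p ≠ [] → ∀ δ > (0 : ℝ), ∃ s0 > (0 : ℝ), ∀ s : ℝ, 0 ≤ s → s ≤ s0 →
      ∀ ε > (0 : ℝ), ∃ C > (0 : ℝ), ∀ N : ℕ, ∑ w ∈ (wds N).filter (· ∈ L), Real.exp (s * occ p w) ≤
        C * Real.exp ((h + s * (F p + δ) + ε) * N) := by
  intro p hp δ hδ
  obtain ⟨s0, hs0, hmgf⟩ := hmgf p hp δ hδ
  refine ⟨s0, hs0, ?_⟩
  intro s hs hss ε hε
  have hlog2 : (0 : ℝ) < Real.log 2 := Real.log_pos (by norm_num)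
  obtain ⟨K, hK⟩ := exists_nat_gt (Real.log 2 / (ε / 4))
  obtain ⟨n, hn1, hn2, hn3, hn4⟩ := ((hmgf s hs hss).and ((hcard (ε / 4) (by positivity)).and
    ((htop K).and (htop 1)))).exists
  obtain ⟨C, hC⟩ := hcov n
  set g : ℝ := h + s * (F p + δ) + ε / 2 with hg
  have hFp := hF.nonneg p
  have hg0 : 0 ≤ g := by positivity
  have hB0 : ∀ v ∈ B n false ∪ B n true, v ≠ [] := by
    intro v hv hv0
    rw [mem_union] at hv
    rcases hv with hv | hv
    · have := hlen n _ v hv
      have := hn4 false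
      rw [hv0] at *
      simp at *
      omega
    · have := hlen n _ v hv
      have := hn4 true
      rw [hv0] at *
      simp at *
      omega
  have hone : ∀ c, ∑ v ∈ B n c, Real.exp (s * (occ p v + p.length) - g * v.length) ≤ 1 / 2 := by
    intro c
    have hcpos : (0 : ℝ) < (B n c).card := by exact_mod_cast card_pos.2 (hne n c)
    have e1 : ∑ v ∈ B n c, Real.exp (s * (occ p v + p.length) - g * v.length) =
        Real.exp (-(g * len n c)) * ((B n c).card * gm p s (B n c)) := by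
      unfold gm
      rw [← sum_eq_avg (hne n c), mul_sum]
      apply sum_congr rfl
      intro v hv
      rw [← Real.exp_add, hlen n c v hv]
      congr 1
      ring
    rw [e1]
    have h1 : ((B n c).card : ℝ) ≤ Real.exp ((h + ε / 4) * len n c) := by
      rw [← Real.log_le_iff_le_exp hcpos]
      exact hn2 c
    calc Real.exp (-(g * len n c)) * ((B n c).card * gm p s (B n c))
        ≤ Real.exp (-(g * len n c)) * (Real.exp ((h + ε / 4) * len n c) *
            Real.exp (s * (F p + δ) * len n c)) := by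
          apply mul_le_mul_of_nonneg_left _ (Real.exp_pos _).le
          exact mul_le_mul h1 (hn1 c) (gm_nonneg _ _ _) (Real.exp_pos _).le
      _ = Real.exp (-(ε / 4 * len n c)) := by
          rw [← Real.exp_add, ← Real.exp_add]
          congr 1
          rw [hg]
          ring
      _ ≤ Real.exp (- Real.log 2) := by
          rw [Real.exp_le_exp, neg_le_neg_iff]
          have h2 : Real.log 2 < ε / 4 * K := by
            rw [div_lt_iff₀ (by positivity)] at hK
            linarith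
          have h3 : (K : ℝ) ≤ len n c := by exact_mod_cast hn3 c
          nlinarith [mul_le_mul_of_nonneg_left h3 (show (0 : ℝ) ≤ ε / 4 by positivity)]
      _ = 1 / 2 := by
          rw [Real.exp_neg, Real.exp_log (by norm_num)]
          norm_num
  have hsum : ∑ v ∈ B n false ∪ B n true,
      Real.exp (s * (occ p v + p.length) - g * v.length) ≤ 1 := by
    calc ∑ v ∈ B n false ∪ B n true, Real.exp (s * (occ p v + p.length) - g * v.length)
        ≤ ∑ v ∈ B n false, Real.exp (s * (occ p v + p.length) - g * v.length) +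
          ∑ v ∈ B n true, Real.exp (s * (occ p v + p.length) - g * v.length) := by
          rw [← sum_union_inter]
          have : 0 ≤ ∑ v ∈ B n false ∩ B n true,
            Real.exp (s * (occ p v + p.length) - g * v.length) :=
            sum_nonneg fun _ _ => (Real.exp_pos _).le
          linarith
      _ ≤ 1 / 2 + 1 / 2 := add_le_add (hone false) (hone true)
      _ = 1 := by norm_num
  obtain ⟨K', hK', hKb⟩ := poly_absorb C g (ε / 2) (by positivity)
  refine ⟨K', hK', fun N => ?_⟩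
  have h1 := pressure_of_blocks L (B n false ∪ B n true) C hB0 hC p s g hs hg0 hsum N
  refine h1.trans ((hKb N).trans (le_of_eq ?_))
  congr 2
  rw [hg]
  ring

end Pool.Agent.R200.Ie
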