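import Mathlib

/-!
# Random substitution subshifts and intrinsic ergodicity: definitions
-/

namespace Pool.Agent.R200.Ie

open MeasureTheory Filter Topology

/-- `Image θ u v`: the word `v` lies in `θ(u)`; each letter is replaced independently. -/
inductive Image (θ : Bool → List (List Bool)) : List Bool → List Bool → Prop
  | nil : Image θ [] []
  | cons {l : Bool} {v u w : List Bool} : v ∈ θ l → Image θ u w → Image θ (l :: u) (v ++ w)

/-- `Iter θ n u v`: the word `v` lies in `θ^n(u)`. -/
def Iter (θ : Bool → List (List Bool)) : ℕ → List Bool → List Bool → Prop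
  | 0, u, v => v = u
  | n + 1, u, v => ∃ w, Iter θ n u w ∧ Image θ w v

/-- A word is legal if it is a subword of an element of `θ^n(c)` for some `n ≥ 1`, `c` a letter. -/
def Legal (θ : Bool → List (List Bool)) (w : List Bool) : Prop :=
  ∃ (n : ℕ) (c : Bool) (v : List Bool), 1 ≤ n ∧ Iter θ n [c] v ∧ w <:+: v

/-- The subword `x_i x_{i+1} ⋯ x_{i+n-1}`. -/
def win (x : ℤ → Bool) (i : ℤ) (n : ℕ) : List Bool := (List.range n).map fun j : ℕ => x (i + (j : ℤ))

/-- The subshift of all sequences whose finite subwords are legal. -/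
def Subshift (θ : Bool → List (List Bool)) : Set (ℤ → Bool) :=
  {x | ∀ (i : ℤ) (n : ℕ), Legal θ (win x i n)}

/-- The left shift. -/
def sh (x : ℤ → Bool) : ℤ → Bool := fun n => x (n + 1)

/-- Shift-invariant Borel probability measures on `X`. -/
structure IsInv (X : Set (ℤ → Bool)) (ν : Measure (ℤ → Bool)) : Prop where
  prob : IsProbabilityMeasure ν
  supp : ν Xᶜ = 0
  inv : ν.map sh = ν

/-- Shannon entropy of the block of length `N`. -/
noncomputable def blockEntropy (ν : Measure (ℤ → Bool)) (N : ℕ) : ℝ :=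
  ∑ f : Fin N → Bool, Real.negMulLog (ν.real {x | ∀ i : Fin N, x ((i : ℕ) : ℤ) = f i})

/-- The entropy of the shift-invariant measure `ν` exists and equals `h`. -/
def HasEntropy (ν : Measure (ℤ → Bool)) (h : ℝ) : Prop :=
  Tendsto (fun N : ℕ => blockEntropy ν N / N) atTop (𝓝 h)

/-- `μ` is a measure of maximal entropy of `X`, with entropy `h`. -/
def IsMME (X : Set (ℤ → Bool)) (μ : Measure (ℤ → Bool)) (h : ℝ) : Prop :=
  IsInv X μ ∧ HasEntropy μ h ∧ ∀ ν, IsInv X ν → ∃ h', HasEntropy ν h' ∧ h' ≤ h

end Pool.Agent.R200.Ie
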