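import Pool.Agent.R200.IeWords

/-!
# Consistent weights on words and their entropy
-/

namespace Pool.Agent.R200.Ie

open Finset Filter Topology

/-- Weights of cylinders of a shift-invariant probability measure. -/
structure Cons (F : List Bool → ℝ) : Prop where
  nonneg : ∀ w, 0 ≤ F w
  nil : F [] = 1
  right : ∀ w, F w = F (w ++ [false]) + F (w ++ [true])
  left : ∀ w, F w = F (false :: w) + F (true :: w)

/-- Entropy of words of length `N`. -/
noncomputable def HH (F : List Bool → ℝ) (N : ℕ) : ℝ := ∑ w ∈ wds N, Real.negMulLog (F w)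

variable {F : List Bool → ℝ}

theorem Cons.sum_right (hF : Cons F) (u : List Bool) (n : ℕ) :
    ∑ v ∈ wds n, F (u ++ v) = F u := by
  induction n with
  | zero => simp [wds]
  | succ n ih =>
    rw [sum_wds_add n 1, ← ih]
    apply sum_congr rfl
    intro v _
    rw [sum_wds_one, hF.right (u ++ v), List.append_assoc, List.append_assoc]

theorem Cons.sum_left (hF : Cons F) (v : List Bool) (m : ℕ) :
    ∑ u ∈ wds m, F (u ++ v) = F v := by
  induction m with
  | zero => simp [wds]
  | succ m ih =>
    rw [sum_wds_succ, ← ih]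
    apply sum_congr rfl
    intro u _
    rw [hF.left (u ++ v)]
    rfl

theorem Cons.sum_one (hF : Cons F) (n : ℕ) : ∑ w ∈ wds n, F w = 1 := by
  have := hF.sum_right [] n
  rw [hF.nil] at this
  simpa using this

theorem Cons.append_le_left (hF : Cons F) (u v : List Bool) : F (u ++ v) ≤ F u := by
  rw [← hF.sum_right u v.length]
  exact single_le_sum (f := fun v => F (u ++ v)) (fun _ _ => hF.nonneg _) (mem_wds.2 rfl)

theorem Cons.append_le_right (hF : Cons F) (u v : List Bool) : F (u ++ v) ≤ F v := by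
  rw [← hF.sum_left v u.length]
  exact single_le_sum (f := fun u => F (u ++ v)) (fun _ _ => hF.nonneg _) (mem_wds.2 rfl)

theorem Cons.le_one (hF : Cons F) (w : List Bool) : F w ≤ 1 := by
  rw [← hF.sum_one w.length]
  exact single_le_sum (f := F) (fun _ _ => hF.nonneg _) (mem_wds.2 rfl)

theorem Cons.HH_nonneg (hF : Cons F) (N : ℕ) : 0 ≤ HH F N :=
  sum_nonneg fun w _ => Real.negMulLog_nonneg (hF.nonneg w) (hF.le_one w)

theorem Cons.HH_subadd (hF : Cons F) : Subadditive (HH F) := by
  intro M N
  have hS1 : ∑ z ∈ wds M ×ˢ wds N, F (z.1 ++ z.2) = 1 := by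
    rw [sum_product, ← sum_wds_add M N F, hF.sum_one]
  have hS2 : ∑ z ∈ wds M ×ˢ wds N, F z.1 * F z.2 = 1 := by
    rw [sum_product]
    have : ∀ u ∈ wds M, ∑ v ∈ wds N, F u * F v = F u := by
      intro u _
      rw [← mul_sum, hF.sum_one, mul_one]
    rw [sum_congr rfl this, hF.sum_one]
  have h := gibbs (wds M ×ˢ wds N) (fun z => F (z.1 ++ z.2)) (fun z => F z.1 * F z.2)
    (fun _ _ => hF.nonneg _) hS1 (fun _ _ => mul_nonneg (hF.nonneg _) (hF.nonneg _))
    (by
      intro z _ hz
      have hpos : 0 < F (z.1 ++ z.2) := lt_of_le_of_ne (hF.nonneg _) (Ne.symm hz)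
      exact mul_pos (hpos.trans_le (hF.append_le_left _ _))
        (hpos.trans_le (hF.append_le_right _ _)))
  rw [hS2, Real.log_one] at h
  have e1 : ∑ z ∈ wds M ×ˢ wds N, Real.negMulLog (F (z.1 ++ z.2)) = HH F (M + N) := by
    rw [sum_product]
    exact (sum_wds_add M N (fun w => Real.negMulLog (F w))).symm
  have e2 : ∑ z ∈ wds M ×ˢ wds N, F (z.1 ++ z.2) * Real.log (F z.1 * F z.2) =
      - HH F M - HH F N := by
    have hterm : ∀ z ∈ wds M ×ˢ wds N, F (z.1 ++ z.2) * Real.log (F z.1 * F z.2) =
        F (z.1 ++ z.2) * Real.log (F z.1) + F (z.1 ++ z.2) * Real.log (F z.2) := by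
      intro z _
      by_cases hz : F (z.1 ++ z.2) = 0
      · rw [hz]; ring
      · have hpos : 0 < F (z.1 ++ z.2) := lt_of_le_of_ne (hF.nonneg _) (Ne.symm hz)
        rw [Real.log_mul (hpos.trans_le (hF.append_le_left _ _)).ne'
          (hpos.trans_le (hF.append_le_right _ _)).ne']
        ring
    rw [sum_congr rfl hterm, sum_add_distrib]
    have a1 : ∑ z ∈ wds M ×ˢ wds N, F (z.1 ++ z.2) * Real.log (F z.1) = - HH F M := by
      rw [sum_product]
      unfold HH
      rw [← sum_neg_distrib]
      apply sum_congr rfl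
      intro u _
      show ∑ v ∈ wds N, F (u ++ v) * Real.log (F u) = _
      rw [← sum_mul, hF.sum_right]
      unfold Real.negMulLog
      ring
    have a2 : ∑ z ∈ wds M ×ˢ wds N, F (z.1 ++ z.2) * Real.log (F z.2) = - HH F N := by
      rw [sum_product_right]
      unfold HH
      rw [← sum_neg_distrib]
      apply sum_congr rfl
      intro v _
      show ∑ u ∈ wds M, F (u ++ v) * Real.log (F v) = _
      rw [← sum_mul, hF.sum_left]
      unfold Real.negMulLog
      ring
    rw [a1, a2]
    ring
  rw [e1, e2] at h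
  linarith

theorem Cons.exists_lim (hF : Cons F) : ∃ h' : ℝ, Tendsto (fun N : ℕ => HH F N / N) atTop (𝓝 h') := by
  refine ⟨_, hF.HH_subadd.tendsto_lim ?_⟩
  refine ⟨0, ?_⟩
  rintro _ ⟨n, rfl⟩
  exact div_nonneg (hF.HH_nonneg n) (Nat.cast_nonneg n)

theorem Cons.sum_prefix (hF : Cons F) (p : List Bool) (k : ℕ) :
    ∑ w ∈ wds (p.length + k), F w * (if p <+: w then 1 else 0) = F p := by
  rw [sum_wds_add]
  have h1 : ∀ u ∈ wds p.length, ∑ v ∈ wds k, F (u ++ v) * (if p <+: u ++ v then 1 else 0) =
      if u = p then F p else 0 := by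
    intro u hu
    have hlen := mem_wds.1 hu
    by_cases hup : u = p
    · subst hup
      rw [if_pos rfl]
      have : ∀ v ∈ wds k, F (u ++ v) * (if u <+: u ++ v then (1 : ℝ) else 0) = F (u ++ v) := by
        intro v _
        rw [if_pos (List.prefix_append u v), mul_one]
      rw [sum_congr rfl this, hF.sum_right]
    · rw [if_neg hup]
      apply sum_eq_zero
      intro v _
      rw [if_neg, mul_zero]
      intro h
      rw [prefix_append_iff hlen.ge] at h
      exact hup (h.eq_of_length hlen.symm).symm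
  rw [sum_congr rfl h1, sum_ite_eq' , if_pos (mem_wds.2 rfl)]

theorem Cons.sum_occ (hF : Cons F) {p : List Bool} (hp : p ≠ []) (k : ℕ) :
    ∑ w ∈ wds (p.length + k), F w * (occ p w : ℝ) = (k + 1) * F p := by
  have hstep : ∀ N : ℕ, ∑ w ∈ wds (N + 1), F w * (occ p w : ℝ) =
      ∑ w ∈ wds N, F w * (occ p w : ℝ) +
        ∑ w ∈ wds (N + 1), F w * (if p <+: w then (1 : ℝ) else 0) := by
    intro N
    rw [sum_wds_succ, sum_wds_succ, ← sum_add_distrib]
    apply sum_congr rfl
    intro w _
    rw [occ_cons, occ_cons, hF.left w]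
    push_cast
    ring
  induction k with
  | zero =>
    obtain ⟨l, hl⟩ : ∃ l, p.length = l + 1 := by
      have := List.length_pos_iff.2 hp
      exact ⟨p.length - 1, by omega⟩
    have h0 : ∑ w ∈ wds l, F w * (occ p w : ℝ) = 0 := by
      apply sum_eq_zero
      intro w hw
      rw [occ_eq_zero (by rw [mem_wds.1 hw, hl]; omega)]
      simp
    have h1 := hF.sum_prefix p 0
    rw [Nat.add_zero] at h1 ⊢
    rw [hl] at h1 ⊢
    rw [hstep, h0, h1]
    simp
  | succ k ih =>
    have h1 := hF.sum_prefix p (k + 1)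
    rw [← Nat.add_assoc] at h1 ⊢
    rw [hstep, ih, h1]
    push_cast
    ring

/-- The basic variational inequality. -/
theorem Cons.variational (hF : Cons F) (L : Set (List Bool)) [DecidablePred (· ∈ L)]
    (hsupp : ∀ w, w ∉ L → F w = 0) {p : List Bool} (hp : p ≠ []) {s g C : ℝ} (hC : 0 < C)
    (hpr : ∀ N : ℕ, ∑ w ∈ (wds N).filter (· ∈ L), Real.exp (s * occ p w) ≤ C * Real.exp (g * N))
    {h' : ℝ} (hlim : Tendsto (fun N : ℕ => HH F N / N) atTop (𝓝 h')) :
    h' + s * F p ≤ g := by
  have hfin : ∀ k : ℕ, HH F (p.length + k) + s * ((k + 1) * F p) ≤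
      Real.log C + g * (p.length + k : ℕ) := by
    intro k
    set N := p.length + k with hN
    have hsub : ∀ G : List Bool → ℝ, (∀ w, F w = 0 → G w = 0) →
        ∑ w ∈ wds N, G w = ∑ w ∈ (wds N).filter (· ∈ L), G w := by
      intro G hG
      rw [sum_filter]
      apply sum_congr rfl
      intro w _
      by_cases hw : w ∈ L
      · rw [if_pos hw]
      · rw [if_neg hw, hG w (hsupp w hw)]
    have hg := gibbs ((wds N).filter (· ∈ L)) F (fun w => Real.exp (s * occ p w))
      (fun _ _ => hF.nonneg _) (by rw [← hsub F (fun _ h => h), hF.sum_one])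
      (fun _ _ => (Real.exp_pos _).le) (fun _ _ _ => Real.exp_pos _)
    rw [← hsub (fun w => Real.negMulLog (F w)) (fun w hw => by rw [hw]; simp)] at hg
    have e1 : ∑ w ∈ (wds N).filter (· ∈ L), F w * Real.log (Real.exp (s * occ p w)) =
        s * ((k + 1) * F p) := by
      rw [← hF.sum_occ hp k, mul_sum,
        hsub (fun w => s * (F w * (occ p w : ℝ))) (fun w hw => by rw [hw]; ring)]
      apply sum_congr rfl
      intro w _
      rw [Real.log_exp]
      ring
    rw [e1] at hg
    refine hg.trans ?_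
    have hpos : 0 < ∑ w ∈ (wds N).filter (· ∈ L), Real.exp (s * occ p w) := by
      have hex : ∃ w ∈ (wds N).filter (· ∈ L), F w ≠ 0 := by
        by_contra hcon
        push Not at hcon
        have h1 := hsub F (fun _ h => h)
        rw [sum_eq_zero hcon, hF.sum_one] at h1
        exact one_ne_zero h1
      obtain ⟨w, hw, -⟩ := hex
      exact lt_of_lt_of_le (Real.exp_pos _)
        (single_le_sum (f := fun w => Real.exp (s * (occ p w : ℝ)))
          (fun _ _ => (Real.exp_pos _).le) hw)
    calc Real.log (∑ w ∈ (wds N).filter (· ∈ L), Real.exp (s * occ p w))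
        ≤ Real.log (C * Real.exp (g * N)) := Real.log_le_log hpos (hpr N)
      _ = Real.log C + g * N := by
          rw [Real.log_mul hC.ne' (Real.exp_pos _).ne', Real.log_exp]
  -- pass to the limit
  have hN : Tendsto (fun k : ℕ => p.length + k) atTop atTop :=
    tendsto_atTop_mono (fun k => Nat.le_add_left k _) tendsto_id
  have hinv : Tendsto (fun k : ℕ => (1 : ℝ) / ((p.length + k : ℕ) : ℝ)) atTop (𝓝 0) :=
    tendsto_one_div_atTop_nhds_zero_nat.comp hN
  have l1 : Tendsto (fun k : ℕ => HH F (p.length + k) / ((p.length + k : ℕ) : ℝ) +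
      s * F p * (1 + (1 - p.length) * (1 / ((p.length + k : ℕ) : ℝ)))) atTop
      (𝓝 (h' + s * F p * (1 + (1 - p.length) * 0))) :=
    (hlim.comp hN).add ((((hinv.const_mul _).const_add _)).const_mul _)
  have l2 : Tendsto (fun k : ℕ => Real.log C * (1 / ((p.length + k : ℕ) : ℝ)) + g) atTop
      (𝓝 (Real.log C * 0 + g)) := (hinv.const_mul _).add_const _
  have hle := le_of_tendsto_of_tendsto l1 l2 (by
    filter_upwards [eventually_gt_atTop 0] with k hk
    have hpos : (0 : ℝ) < ((p.length + k : ℕ) : ℝ) := by exact_mod_cast (by omega)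
    have h1 := div_le_div_of_nonneg_right (hfin k) hpos.le
    have e1 : (HH F (p.length + k) + s * ((k + 1) * F p)) / ((p.length + k : ℕ) : ℝ) =
        HH F (p.length + k) / ((p.length + k : ℕ) : ℝ) +
      s * F p * (1 + (1 - p.length) * (1 / ((p.length + k : ℕ) : ℝ))) := by
      field_simp
      push_cast
      ring
    have e2 : (Real.log C + g * (p.length + k : ℕ)) / ((p.length + k : ℕ) : ℝ) =
        Real.log C * (1 / ((p.length + k : ℕ) : ℝ)) + g := by
      field_simp
    rw [e1, e2] at h1
    exact h1)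
  simpa using hle

end Pool.Agent.R200.Ie
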