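import Pool.Agent.R200.IePd

/-!
# The random Fibonacci subshift is intrinsically ergodic
-/

namespace Pool.Agent.R200.Ie

open Filter Topology Finset

/-- The random Fibonacci substitution: `a ↦ {ab, ba}`, `b ↦ {a}`
(`a` is `false`, `b` is `true`). -/
def thF : Bool → List (List Bool)
  | false => [[false, true], [true, false]]
  | true => [[false]]

/-- Inflation words: `WF n = ϑ^n(b)`, `WF (n+1) = ϑ^n(a)`. -/
def WF : ℕ → Finset (List Bool)
  | 0 => {[true]}
  | 1 => {[false]}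
  | n + 2 => app2 (WF (n + 1)) (WF n) ∪ app2 (WF n) (WF (n + 1))

/-- Lengths of inflation words. -/
def fl : ℕ → ℕ
  | 0 => 1
  | 1 => 1
  | n + 2 => fl (n + 1) + fl n

theorem WF_ss (n : ℕ) : WF (n + 2) = app2 (WF (n + 1)) (WF n) ∪ app2 (WF n) (WF (n + 1)) := rfl

theorem fl_ss (n : ℕ) : fl (n + 2) = fl (n + 1) + fl n := rfl

theorem mem_WF_ss {n : ℕ} {w : List Bool} : w ∈ WF (n + 2) ↔
    (∃ u ∈ WF (n + 1), ∃ v ∈ WF n, w = u ++ v) ∨ (∃ u ∈ WF n, ∃ v ∈ WF (n + 1), w = u ++ v) := by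
  rw [WF_ss, mem_union, mem_app2, mem_app2]

theorem fl_pos : ∀ n, 0 < fl n ∧ 0 < fl (n + 1) := by
  intro n
  induction n with
  | zero => exact ⟨Nat.one_pos, Nat.one_pos⟩
  | succ n ih => exact ⟨ih.2, by rw [fl_ss]; omega⟩

theorem WF_len_aux : ∀ n, (∀ w ∈ WF n, w.length = fl n) ∧ ∀ w ∈ WF (n + 1), w.length = fl (n + 1) := by
  intro n
  induction n with
  | zero =>
    constructor
    · intro w hw
      rw [show WF 0 = {[true]} from rfl, mem_singleton] at hw
      rw [hw]; rfl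
    · intro w hw
      rw [show WF (0 + 1) = {[false]} from rfl, mem_singleton] at hw
      rw [hw]; rfl
  | succ n ih =>
    refine ⟨ih.2, ?_⟩
    intro w hw
    rw [show n + 1 + 1 = n + 2 from rfl, mem_WF_ss] at hw
    rw [show n + 1 + 1 = n + 2 from rfl, fl_ss]
    rcases hw with ⟨u, hu, v, hv, rfl⟩ | ⟨u, hu, v, hv, rfl⟩
    · rw [List.length_append, ih.2 u hu, ih.1 v hv]
    · rw [List.length_append, ih.1 u hu, ih.2 v hv, add_comm]

theorem WF_len (n : ℕ) : ∀ w ∈ WF n, w.length = fl n := (WF_len_aux n).1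

theorem WF_ne_aux : ∀ n, (WF n).Nonempty ∧ (WF (n + 1)).Nonempty := by
  intro n
  induction n with
  | zero => exact ⟨⟨[true], mem_singleton_self _⟩, ⟨[false], mem_singleton_self _⟩⟩
  | succ n ih => exact ⟨ih.2, (app2_nonempty ih.2 ih.1).mono subset_union_left⟩

theorem WF_ne (n : ℕ) : (WF n).Nonempty := (WF_ne_aux n).1

theorem mem_WF : ∀ (n : ℕ) (w : List Bool),
    (w ∈ WF n ↔ Iter thF n [true] w) ∧ (w ∈ WF (n + 1) ↔ Iter thF n [false] w) := by
  intro n
  induction n with
  | zero =>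
    intro w
    constructor
    · rw [show WF 0 = {[true]} from rfl, mem_singleton]; rfl
    · rw [show WF (0 + 1) = {[false]} from rfl, mem_singleton]; rfl
  | succ n ih =>
    intro w
    constructor
    · rw [(ih w).2, Iter.succ_iff]
      constructor
      · intro h
        exact ⟨_, image_single.2 (by simp [thF]), h⟩
      · rintro ⟨u, hu, h⟩
        have := image_single.1 hu
        simp only [thF, List.mem_cons, List.not_mem_nil, or_false] at this
        rw [this] at h
        exact h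
    · rw [show n + 1 + 1 = n + 2 from rfl, mem_WF_ss, Iter.succ_iff]
      constructor
      · rintro (⟨u, hu, v, hv, rfl⟩ | ⟨u, hu, v, hv, rfl⟩)
        · exact ⟨[false, true], image_single.2 (by simp [thF]),
            Iter.append n (u := [false]) ((ih u).2.1 hu) ((ih v).1.1 hv)⟩
        · exact ⟨[true, false], image_single.2 (by simp [thF]),
            Iter.append n (u := [true]) ((ih u).1.1 hu) ((ih v).2.1 hv)⟩
      · rintro ⟨u, hu, h⟩
        have := image_single.1 hu
        simp only [thF, List.mem_cons, List.not_mem_nil, or_false] at this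
        rcases this with rfl | rfl
        · obtain ⟨x, y, rfl, h1, h2⟩ := Iter.split n (u := [false]) (u' := [true]) h
          exact Or.inl ⟨x, (ih x).2.2 h1, y, (ih y).1.2 h2, rfl⟩
        · obtain ⟨x, y, rfl, h1, h2⟩ := Iter.split n (u := [true]) (u' := [false]) h
          exact Or.inr ⟨x, (ih x).1.2 h1, y, (ih y).2.2 h2, rfl⟩

/-! ### Factorisation properties -/

theorem split_le {x1 x2 u z : List Bool} (h : x1 ++ x2 = u ++ z) (hl : x1.length ≤ u.length) :
    ∃ t, u = x1 ++ t ∧ x2 = t ++ z := by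
  rcases List.append_eq_append_iff.1 h with ⟨t, h1, h2⟩ | ⟨t, h1, h2⟩
  · exact ⟨t, h1, h2⟩
  · rw [h1, List.length_append] at hl
    have : t = [] := List.length_eq_zero_iff.1 (by omega)
    subst this
    refine ⟨[], ?_, ?_⟩
    · rw [h1]; simp
    · rw [h2]; simp

theorem WF_PQ : ∀ n : ℕ,
    (∀ x ∈ WF (n + 2), ∀ u ∈ WF (n + 1), ∀ z, x = u ++ z → z ∈ WF n) ∧
    (∀ x ∈ WF (n + 2), ∀ u ∈ WF n, ∀ z, x = u ++ z → z ∈ WF (n + 1)) := by
  intro n
  induction n with
  | zero =>
    constructor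
    · intro x hx u hu z hxz
      rw [show WF (0 + 1) = {[false]} from rfl, mem_singleton] at hu
      rw [mem_WF_ss] at hx
      subst hu
      rcases hx with ⟨u', hu', v, hv, hx⟩ | ⟨u', hu', v, hv, hx⟩
      · rw [show WF (0 + 1) = {[false]} from rfl, mem_singleton] at hu'
        rw [show WF 0 = {[true]} from rfl, mem_singleton] at hv ⊢
        subst hu' hv
        rw [hx] at hxz
        simpa using hxz.symm
      · rw [show WF (0 + 1) = {[false]} from rfl, mem_singleton] at hv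
        rw [show WF 0 = {[true]} from rfl, mem_singleton] at hu'
        subst hu' hv
        rw [hx] at hxz
        simp at hxz
    · intro x hx u hu z hxz
      rw [show WF 0 = {[true]} from rfl, mem_singleton] at hu
      rw [mem_WF_ss] at hx
      subst hu
      rcases hx with ⟨u', hu', v, hv, hx⟩ | ⟨u', hu', v, hv, hx⟩
      · rw [show WF (0 + 1) = {[false]} from rfl, mem_singleton] at hu'
        rw [show WF 0 = {[true]} from rfl, mem_singleton] at hv
        subst hu' hv
        rw [hx] at hxz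
        simp at hxz
      · rw [show WF (0 + 1) = {[false]} from rfl, mem_singleton] at hv ⊢
        rw [show WF 0 = {[true]} from rfl, mem_singleton] at hu'
        subst hu' hv
        rw [hx] at hxz
        simpa using hxz.symm
  | succ n ih =>
    obtain ⟨ihP, ihQ⟩ := ih
    have hmono : fl (n + 1) ≤ fl (n + 2) := by rw [fl_ss]; omega
    constructor
    · intro x hx u hu z hxz
      rw [show n + 1 + 2 = (n + 1) + 2 from rfl, mem_WF_ss] at hx
      rcases hx with ⟨x1, h1, x2, h2, hx⟩ | ⟨x1, h1, x2, h2, hx⟩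
      · rw [hx] at hxz
        have := List.append_inj hxz (by rw [WF_len _ _ h1, WF_len _ _ hu])
        rw [← this.2]; exact h2
      · rw [hx] at hxz
        obtain ⟨t, ht1, ht2⟩ := split_le hxz (by rw [WF_len _ _ h1, WF_len _ _ hu]; exact hmono)
        have ht := ihP u hu x1 h1 t ht1
        exact ihQ x2 h2 t ht z ht2
    · intro x hx u hu z hxz
      rw [show n + 1 + 2 = (n + 1) + 2 from rfl, mem_WF_ss] at hx
      rcases hx with ⟨x1, h1, x2, h2, hx⟩ | ⟨x1, h1, x2, h2, hx⟩
      · rw [hx] at hxz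
        obtain ⟨t, ht1, ht2⟩ := split_le hxz.symm
          (by rw [WF_len _ _ h1, WF_len _ _ hu]; exact hmono)
        have ht := ihP x1 h1 u hu t ht1
        rw [ht2]
        exact mem_WF_ss.2 (Or.inr ⟨t, ht, x2, h2, rfl⟩)
      · rw [hx] at hxz
        have := List.append_inj hxz (by rw [WF_len _ _ h1, WF_len _ _ hu])
        rw [← this.2]; exact h2

theorem WF_reverse_aux : ∀ n, (∀ w ∈ WF n, w.reverse ∈ WF n) ∧ ∀ w ∈ WF (n + 1), w.reverse ∈ WF (n + 1) := by
  intro n
  induction n with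
  | zero =>
    constructor
    · intro w hw
      rw [show WF 0 = {[true]} from rfl, mem_singleton] at *
      rw [hw]; rfl
    · intro w hw
      rw [show WF (0 + 1) = {[false]} from rfl, mem_singleton] at *
      rw [hw]; rfl
  | succ n ih =>
    refine ⟨ih.2, ?_⟩
    intro w hw
    rw [show n + 1 + 1 = n + 2 from rfl, mem_WF_ss] at *
    rcases hw with ⟨u, hu, v, hv, rfl⟩ | ⟨u, hu, v, hv, rfl⟩
    · exact Or.inr ⟨_, ih.1 v hv, _, ih.2 u hu, List.reverse_append⟩
    · exact Or.inl ⟨_, ih.2 v hv, _, ih.1 u hu, List.reverse_append⟩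

theorem WF_reverse (n : ℕ) : ∀ w ∈ WF n, w.reverse ∈ WF n := (WF_reverse_aux n).1

theorem WF_P' (n : ℕ) {x u z : List Bool} (hx : x ∈ WF (n + 2)) (hu : u ∈ WF (n + 1))
    (h : x = z ++ u) : z ∈ WF n := by
  have h1 := (WF_PQ n).1 _ (WF_reverse _ _ hx) _ (WF_reverse _ _ hu) z.reverse
    (by rw [h, List.reverse_append])
  have := WF_reverse _ _ h1
  rwa [List.reverse_reverse] at this

/-- Level `n+2` words that are not of the form `WF (n+1) WF n`. -/
def RF (n : ℕ) : Finset (List Bool) := WF (n + 2) \ app2 (WF (n + 1)) (WF n)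

/-- Level `n+2` words that are not of the form `WF n WF (n+1)`. -/
def TF (n : ℕ) : Finset (List Bool) := WF (n + 2) \ app2 (WF n) (WF (n + 1))

theorem RF_succ (n : ℕ) : RF (n + 1) = app2 (WF (n + 1)) (TF n) := by
  ext w
  unfold RF TF
  rw [Finset.mem_sdiff]
  constructor
  · rintro ⟨h1, h2⟩
    rw [show n + 1 + 2 = (n + 1) + 2 from rfl, mem_WF_ss] at h1
    rcases h1 with h1 | ⟨u, hu, v, hv, rfl⟩
    · exact absurd (mem_app2.2 h1) h2
    · refine mem_app2.2 ⟨u, hu, v, Finset.mem_sdiff.2 ⟨hv, ?_⟩, rfl⟩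
      intro h3
      obtain ⟨z, hz, y, hy, rfl⟩ := mem_app2.1 h3
      apply h2
      rw [mem_app2]
      exact ⟨u ++ z, mem_WF_ss.2 (Or.inl ⟨u, hu, z, hz, rfl⟩), y, hy, by rw [List.append_assoc]⟩
  · intro hw
    obtain ⟨u, hu, v, hv, rfl⟩ := mem_app2.1 hw
    rw [Finset.mem_sdiff] at hv
    refine ⟨mem_WF_ss.2 (Or.inr ⟨u, hu, v, hv.1, rfl⟩), ?_⟩
    intro h3
    obtain ⟨x, hx, y, hy, h4⟩ := mem_app2.1 h3
    obtain ⟨z, h5, h6⟩ := split_le h4 (by
      rw [WF_len _ _ hu, WF_len _ _ hx, show n + 1 + 1 = n + 2 from rfl, fl_ss]; omega)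
    apply hv.2
    rw [mem_app2]
    exact ⟨z, (WF_PQ n).1 x hx u hu z h5, y, hy, h6⟩

theorem TF_succ (n : ℕ) : TF (n + 1) = app2 (RF n) (WF (n + 1)) := by
  ext w
  unfold RF TF
  rw [Finset.mem_sdiff]
  constructor
  · rintro ⟨h1, h2⟩
    rw [show n + 1 + 2 = (n + 1) + 2 from rfl, mem_WF_ss] at h1
    rcases h1 with ⟨v, hv, u, hu, rfl⟩ | h1
    · refine mem_app2.2 ⟨v, Finset.mem_sdiff.2 ⟨hv, ?_⟩, u, hu, rfl⟩
      intro h3
      obtain ⟨y, hy, z, hz, rfl⟩ := mem_app2.1 h3
      apply h2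
      rw [mem_app2]
      exact ⟨y, hy, z ++ u, mem_WF_ss.2 (Or.inr ⟨z, hz, u, hu, rfl⟩), by rw [List.append_assoc]⟩
    · exact absurd (mem_app2.2 h1) h2
  · intro hw
    obtain ⟨v, hv, u, hu, rfl⟩ := mem_app2.1 hw
    rw [Finset.mem_sdiff] at hv
    refine ⟨mem_WF_ss.2 (Or.inl ⟨v, hv.1, u, hu, rfl⟩), ?_⟩
    intro h3
    obtain ⟨y, hy, x, hx, h4⟩ := mem_app2.1 h3
    obtain ⟨z, h5, h6⟩ := split_le h4.symm (by
      rw [WF_len _ _ hy, WF_len _ _ hv.1, fl_ss]; omega)
    apply hv.2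
    rw [mem_app2]
    exact ⟨y, hy, z, WF_P' n hx hu h6, h5⟩

theorem WF_disj (n : ℕ) : Disjoint (app2 (WF (n + 1)) (WF n)) (RF n) := by
  unfold RF
  exact Finset.disjoint_sdiff

theorem WF_union (n : ℕ) : WF (n + 2) = app2 (WF (n + 1)) (WF n) ∪ RF n := by
  unfold RF
  rw [Finset.union_sdiff_of_subset]
  rw [WF_ss]
  exact subset_union_left

theorem TR_ne : ∀ n, (TF n).Nonempty ∧ (RF n).Nonempty := by
  intro n
  induction n with
  | zero =>
    constructor
    · refine ⟨[false, true], ?_⟩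
      decide
    · refine ⟨[true, false], ?_⟩
      decide
  | succ n ih =>
    rw [RF_succ, TF_succ]
    exact ⟨app2_nonempty ih.2 (WF_ne _), app2_nonempty (WF_ne _) ih.1⟩

theorem RF_len (n : ℕ) : ∀ w ∈ RF n, w.length = fl (n + 2) := by
  intro w hw
  unfold RF at hw
  rw [Finset.mem_sdiff] at hw
  exact WF_len _ _ hw.1

theorem TF_len (n : ℕ) : ∀ w ∈ TF n, w.length = fl (n + 2) := by
  intro w hw
  unfold TF at hw
  rw [Finset.mem_sdiff] at hw
  exact WF_len _ _ hw.1

theorem card_TR : ∀ n, (TF n).card = (RF n).card ∧ (WF (n + 2)).card = (n + 2) * (TF n).card := by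
  intro n
  induction n with
  | zero => decide
  | succ n ih =>
    have e1 : (RF (n + 1)).card = (WF (n + 1)).card * (TF n).card := by
      rw [RF_succ, card_app2 (WF_len _)]
    have e2 : (TF (n + 1)).card = (RF n).card * (WF (n + 1)).card := by
      rw [TF_succ, card_app2 (RF_len n)]
    refine ⟨by rw [e1, e2, ih.1]; ring, ?_⟩
    rw [show n + 1 + 2 = (n + 1) + 2 from rfl, WF_union, card_union_of_disjoint (WF_disj _),
      card_app2 (WF_len _), e1, e2, ← ih.1]
    rw [show n + 1 + 1 = n + 2 from rfl, ih.2]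
    ring

end Pool.Agent.R200.Ie
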