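import Pool.Agent.R200.IeFib

/-!
# The random Fibonacci subshift: limits, exponential moments, main theorem
-/

namespace Pool.Agent.R200.Ie

open Filter Topology Finset

theorem fl_ge : ∀ n : ℕ, ((3 : ℝ) / 2) ^ n ≤ fl (n + 1) ∧ ((3 : ℝ) / 2) ^ (n + 1) ≤ fl (n + 2) := by
  intro n
  induction n with
  | zero =>
    constructor
    · rw [show fl (0 + 1) = 1 from rfl]; norm_num
    · rw [show fl (0 + 2) = 2 from rfl]; norm_num
  | succ n ih =>
    refine ⟨ih.2, ?_⟩
    have e : (fl (n + 1 + 2) : ℝ) = fl (n + 2) + fl (n + 1) := by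
      rw [show n + 1 + 2 = (n + 1) + 2 from rfl, fl_ss]
      push_cast
      rfl
    rw [e]
    have hp : (0 : ℝ) < (3 / 2) ^ n := by positivity
    have h1 := ih.1
    have h2 := ih.2
    rw [pow_succ] at h2
    have e2 : ((3 : ℝ) / 2) ^ (n + 1 + 1) = (3 / 2) ^ n * (9 / 4) := by ring
    rw [e2]
    nlinarith

theorem fl_tendsto : Tendsto fl atTop atTop := by
  have h1 : Tendsto (fun n : ℕ => (fl (n + 1) : ℝ)) atTop atTop :=
    tendsto_atTop_mono (fun n => (fl_ge n).1) (tendsto_pow_atTop_atTop_of_one_lt (by norm_num))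
  have h2 : Tendsto (fun n : ℕ => fl (n + 1)) atTop atTop := by
    exact tendsto_natCast_atTop_iff.1 h1
  exact (tendsto_add_atTop_iff_nat 1).1 h2

theorem fl_pos' (n : ℕ) : (0 : ℝ) < fl n := by exact_mod_cast (fl_pos n).1

/-- Perturbed Fibonacci recursions. -/
theorem fib_limit (x : ℕ → ℝ) (A : ℝ) (hA : 0 ≤ A)
    (h : ∀ n, |x (n + 2) - x (n + 1) - x n| ≤ A * ((n + 1 : ℕ) : ℝ) ^ 2) :
    ∃ a : ℝ, Tendsto (fun n => x n / fl n) atTop (𝓝 a) := by
  obtain ⟨z, hz⟩ : ∃ z : ℕ → ℝ, z = fun n => x n / fl n := ⟨_, rfl⟩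
  have hzx : ∀ n, x n = z n * fl n := by
    intro n
    rw [hz]
    have := fl_pos' n
    field_simp
  obtain ⟨C, hC⟩ : ∃ C, C = 3 * A + |z 1 - z 0| := ⟨_, rfl⟩
  have hC0 : 0 ≤ C := by rw [hC]; have := abs_nonneg (z 1 - z 0); linarith
  have hC1 : |z 1 - z 0| ≤ C := by rw [hC]; linarith
  have hC2 : 3 * A ≤ C := by rw [hC]; have := abs_nonneg (z 1 - z 0); linarith
  have key : ∀ n : ℕ, |z (n + 1) - z n| ≤ C * ((n + 1 : ℕ) : ℝ) ^ 2 * (3 / 4) ^ n := by
    intro n
    induction n with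
    | zero => simpa using hC1
    | succ n ih =>
      have f0 := fl_pos' n
      have f1 := fl_pos' (n + 1)
      have f2 := fl_pos' (n + 2)
      have efl : (fl (n + 2) : ℝ) = fl (n + 1) + fl n := by rw [fl_ss]; push_cast; rfl
      have hmono : (fl n : ℝ) ≤ fl (n + 1) := by
        cases n with
        | zero => rw [show fl 0 = 1 from rfl, show fl (0 + 1) = 1 from rfl]
        | succ m => rw [show fl (m + 1 + 1) = fl (m + 1) + fl m from rfl]; push_cast; have := fl_pos' m; linarith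
      have e1 : z (n + 2) - z (n + 1) = -(fl n / fl (n + 2)) * (z (n + 1) - z n) +
          (x (n + 2) - x (n + 1) - x n) / fl (n + 2) := by
        rw [hzx (n + 2), hzx (n + 1), hzx n]
        field_simp
        rw [efl]
        ring
      have h1 : |z (n + 2) - z (n + 1)| ≤ 1 / 2 * |z (n + 1) - z n| +
          A * ((n + 1 : ℕ) : ℝ) ^ 2 / fl (n + 2) := by
        rw [e1]
        refine (abs_add_le _ _).trans ?_
        apply add_le_add
        · rw [abs_mul, abs_neg, abs_of_pos (by positivity)]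
          apply mul_le_mul_of_nonneg_right _ (abs_nonneg _)
          rw [div_le_iff₀ f2, efl]
          linarith
        · rw [abs_div, abs_of_pos f2]
          exact div_le_div_of_nonneg_right (h n) f2.le
      have h2 : A * ((n + 1 : ℕ) : ℝ) ^ 2 / fl (n + 2) ≤
          A * ((n + 1 : ℕ) : ℝ) ^ 2 * (3 / 4) ^ (n + 1) := by
        rw [div_le_iff₀ f2]
        have h3 := (fl_ge n).2
        have h4 : (1 : ℝ) ≤ (3 / 4) ^ (n + 1) * (3 / 2) ^ (n + 1) := by
          rw [← mul_pow]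
          exact one_le_pow₀ (by norm_num)
        have h5 : (1 : ℝ) ≤ (3 / 4) ^ (n + 1) * fl (n + 2) :=
          h4.trans (mul_le_mul_of_nonneg_left h3 (by positivity))
        have h6 : 0 ≤ A * ((n + 1 : ℕ) : ℝ) ^ 2 := by positivity
        calc A * ((n + 1 : ℕ) : ℝ) ^ 2 = A * ((n + 1 : ℕ) : ℝ) ^ 2 * 1 := by ring
          _ ≤ A * ((n + 1 : ℕ) : ℝ) ^ 2 * ((3 / 4) ^ (n + 1) * fl (n + 2)) :=
              mul_le_mul_of_nonneg_left h5 h6
          _ = _ := by ring
      have hsq : ((n + 1 : ℕ) : ℝ) ^ 2 ≤ ((n + 1 + 1 : ℕ) : ℝ) ^ 2 := by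
        push_cast
        have : (0 : ℝ) ≤ n := Nat.cast_nonneg n
        nlinarith
      have hr : (0 : ℝ) < (3 / 4) ^ (n + 1) := by positivity
      calc |z (n + 1 + 1) - z (n + 1)| ≤ 1 / 2 * |z (n + 1) - z n| +
          A * ((n + 1 : ℕ) : ℝ) ^ 2 / fl (n + 2) := h1
        _ ≤ 1 / 2 * (C * ((n + 1 : ℕ) : ℝ) ^ 2 * (3 / 4) ^ n) +
          A * ((n + 1 : ℕ) : ℝ) ^ 2 * (3 / 4) ^ (n + 1) := by linarith
        _ = (2 / 3 * C + A) * ((n + 1 : ℕ) : ℝ) ^ 2 * (3 / 4) ^ (n + 1) := by ring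
        _ ≤ C * ((n + 1 : ℕ) : ℝ) ^ 2 * (3 / 4) ^ (n + 1) := by
            apply mul_le_mul_of_nonneg_right _ hr.le
            apply mul_le_mul_of_nonneg_right _ (by positivity)
            linarith
        _ ≤ C * ((n + 1 + 1 : ℕ) : ℝ) ^ 2 * (3 / 4) ^ (n + 1) := by
            apply mul_le_mul_of_nonneg_right _ hr.le
            exact mul_le_mul_of_nonneg_left hsq hC0
  obtain ⟨a, ha⟩ := exists_limit (z := z) (by norm_num) (by norm_num) key
  exact ⟨a, by rw [hz] at ha; exact ha⟩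

/-! ### Cardinalities -/

theorem WF_card_pos (n : ℕ) : (0 : ℝ) < (WF n).card := by exact_mod_cast card_pos.2 (WF_ne n)

theorem WF_log_rec (n : ℕ) : |Real.log (WF (n + 2)).card - Real.log (WF (n + 1)).card -
    Real.log (WF n).card| ≤ 1 * ((n + 1 : ℕ) : ℝ) ^ 2 := by
  have c0 := WF_card_pos n
  have c1 := WF_card_pos (n + 1)
  have c2 := WF_card_pos (n + 2)
  have hn1 : (1 : ℝ) ≤ ((n + 1 : ℕ) : ℝ) ^ 2 := by
    push_cast
    have : (0 : ℝ) ≤ n := Nat.cast_nonneg n
    nlinarith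
  have h1 : ((WF (n + 1)).card : ℝ) * (WF n).card ≤ (WF (n + 2)).card := by
    have : (app2 (WF (n + 1)) (WF n)).card ≤ (WF (n + 2)).card := by
      apply card_le_card
      rw [WF_ss]
      exact subset_union_left
    rw [card_app2 (WF_len _)] at this
    exact_mod_cast this
  have h2 : ((WF (n + 2)).card : ℝ) ≤ 2 * (((WF (n + 1)).card : ℝ) * (WF n).card) := by
    have : (WF (n + 2)).card ≤ (app2 (WF (n + 1)) (WF n)).card + (app2 (WF n) (WF (n + 1))).card := by
      rw [WF_ss]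
      exact card_union_le _ _
    rw [card_app2 (WF_len _), card_app2 (WF_len _)] at this
    have h3 : (WF (n + 2)).card ≤ 2 * ((WF (n + 1)).card * (WF n).card) := by
      rw [mul_comm (WF n).card] at this
      omega
    exact_mod_cast h3
  have h3 := Real.log_le_log (by positivity) h1
  have h4 := Real.log_le_log c2 h2
  rw [Real.log_mul c1.ne' c0.ne'] at h3
  rw [Real.log_mul (by norm_num) (by positivity), Real.log_mul c1.ne' c0.ne'] at h4
  have h5 := Real.log_two_lt_d9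
  rw [abs_le]
  constructor <;> linarith

theorem WF_ent_lim : ∃ η : ℝ, Tendsto (fun n => Real.log (WF n).card / fl n) atTop (𝓝 η) :=
  fib_limit (fun n => Real.log (WF n).card) 1 (by norm_num) WF_log_rec

/-! ### Mean frequencies -/

/-- The recursion for the means. -/
theorem WF_mn (p : List Bool) (n : ℕ) :
    |mn p (TF (n + 1)) - (mn p (RF n) + mn p (WF (n + 1)))| ≤ p.length ∧
    |mn p (RF (n + 1)) - (mn p (WF (n + 1)) + mn p (TF n))| ≤ p.length ∧
    |((n : ℝ) + 3) * mn p (WF (n + 3)) - (((n : ℝ) + 2) * (mn p (WF (n + 2)) + mn p (WF (n + 1))) +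
      mn p (RF (n + 1)))| ≤ (n + 2) * p.length := by
  have hK : (0 : ℝ) ≤ p.length := Nat.cast_nonneg _
  refine ⟨?_, ?_, ?_⟩
  · rw [TF_succ]
    have h := mn_app2 (RF_len n) (TR_ne n).2 (WF_ne (n + 1)) p
    rw [abs_le]
    constructor <;> linarith [h.1, h.2]
  · rw [RF_succ]
    have h := mn_app2 (WF_len (n + 1)) (WF_ne (n + 1)) (TR_ne n).1 p
    rw [abs_le]
    constructor <;> linarith [h.1, h.2]
  · have h := mn_app2 (WF_len (n + 2)) (WF_ne (n + 2)) (WF_ne (n + 1)) p
    have hu := avg_union (WF_disj (n + 1)) (app2_nonempty (WF_ne (n + 2)) (WF_ne (n + 1)))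
      (TR_ne (n + 1)).2 (fun w => (occ p w : ℝ))
    have ht : (0 : ℝ) < (TF (n + 1)).card := by exact_mod_cast card_pos.2 (TR_ne (n + 1)).1
    have e1 : (((app2 (WF (n + 2)) (WF (n + 1))).card : ℕ) : ℝ) = (n + 2) * (TF (n + 1)).card := by
      have a1 := (card_TR n).2
      have a2 : (TF (n + 1)).card = (TF n).card * (WF (n + 1)).card := by
        rw [TF_succ, card_app2 (RF_len n), (card_TR n).1]
      rw [card_app2 (WF_len _), a1, a2]
      push_cast
      ring
    have e2 : ((RF (n + 1)).card : ℝ) = (TF (n + 1)).card := by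
      exact_mod_cast (card_TR (n + 1)).1.symm
    have e3 : mn p (WF (n + 3)) = avg (app2 (WF (n + 1 + 1)) (WF (n + 1)) ∪ RF (n + 1))
        (fun w => (occ p w : ℝ)) := by
      rw [← WF_union (n + 1)]
      rfl
    have e4 : ((n : ℝ) + 3) * mn p (WF (n + 3)) =
        (n + 2) * mn p (app2 (WF (n + 2)) (WF (n + 1))) + mn p (RF (n + 1)) := by
      rw [e3, hu]
      rw [show n + 1 + 1 = n + 2 from rfl] at *
      rw [e1, e2]
      unfold mn
      have hn : (0 : ℝ) < n + 3 := by positivity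
      have hne : ((n : ℝ) + 2) * (TF (n + 1)).card + (TF (n + 1)).card ≠ 0 := by positivity
      field_simp
      ring
    rw [e4]
    have hn : (0 : ℝ) ≤ n := Nat.cast_nonneg n
    rw [abs_le]
    constructor
    · nlinarith [h.1, h.2, mul_nonneg hn hK]
    · nlinarith [h.1, h.2, mul_nonneg hn hK]

theorem fib_means (M A A' : ℕ → ℝ) (K : ℝ) (hK : 0 ≤ K)
    (h : ∀ n : ℕ, |A (n + 1) - (A' n + M (n + 1))| ≤ K ∧ |A' (n + 1) - (M (n + 1) + A n)| ≤ K ∧
      |((n : ℝ) + 3) * M (n + 3) - (((n : ℝ) + 2) * (M (n + 2) + M (n + 1)) + A' (n + 1))| ≤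
        (n + 2) * K) :
    ∃ f : ℝ, Tendsto (fun n => M n / fl n) atTop (𝓝 f) ∧
      Tendsto (fun n => A n / fl (n + 2)) atTop (𝓝 f) ∧
      Tendsto (fun n => A' n / fl (n + 2)) atTop (𝓝 f) := by
  obtain ⟨D, hD⟩ : ∃ D, D = |A 0 - M 2| + |A' 0 - M 2| := ⟨_, rfl⟩
  have hD0 : 0 ≤ D := by rw [hD]; positivity
  -- bounds for the differences
  have hdiff : ∀ n : ℕ, |A n - M (n + 2)| ≤ (n + 3) * (D + 3 * K * n) ∧
      |A' n - M (n + 2)| ≤ (n + 3) * (D + 3 * K * n) := by
    intro n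
    induction n with
    | zero =>
      have a1 := abs_nonneg (A 0 - M 2)
      have a2 := abs_nonneg (A' 0 - M 2)
      constructor
      · show |A 0 - M 2| ≤ _
        rw [hD]; push_cast; nlinarith
      · show |A' 0 - M 2| ≤ _
        rw [hD]; push_cast; nlinarith
    | succ n ih =>
      obtain ⟨h1, h2, h3⟩ := h n
      obtain ⟨i1, i2⟩ := ih
      have hn : (0 : ℝ) ≤ n := Nat.cast_nonneg n
      have hn3 : (0 : ℝ) < (n : ℝ) + 3 := by positivity
      obtain ⟨B, hB⟩ : ∃ B, B = D + 3 * K * n := ⟨_, rfl⟩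
      rw [← hB] at i1 i2
      have hB0 : 0 ≤ B := by rw [hB]; positivity
      -- M (n+3) = M (n+2) + M (n+1) + (A n - M (n+2)) / (n+3) + error 2K
      have hM : |M (n + 3) - (M (n + 2) + M (n + 1)) - (A n - M (n + 2)) / (n + 3)| ≤ 2 * K := by
        have e : M (n + 3) - (M (n + 2) + M (n + 1)) - (A n - M (n + 2)) / (n + 3) =
            ((((n : ℝ) + 3) * M (n + 3) - (((n : ℝ) + 2) * (M (n + 2) + M (n + 1)) + A' (n + 1))) +
              (A' (n + 1) - (M (n + 1) + A n))) / (n + 3) := by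
          field_simp
          ring
        rw [e, abs_div, abs_of_pos hn3, div_le_iff₀ hn3]
        refine (abs_add_le _ _).trans ?_
        nlinarith
      have hq : |(A n - M (n + 2)) / ((n : ℝ) + 3)| ≤ B := by
        rw [abs_div, abs_of_pos hn3, div_le_iff₀ hn3]
        linarith
      have hgoal : ((n + 1 : ℕ) : ℝ) + 3 = n + 4 := by push_cast; ring
      have hB' : D + 3 * K * ((n + 1 : ℕ) : ℝ) = B + 3 * K := by rw [hB]; push_cast; ring
      rw [hgoal, hB', show n + 1 + 2 = n + 3 from rfl]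
      obtain ⟨q, hqd⟩ : ∃ q, q = (A n - M (n + 2)) / ((n : ℝ) + 3) := ⟨_, rfl⟩
      rw [← hqd] at hM hq
      rw [abs_le] at h1 h2 i1 i2 hM hq
      have hnK : 0 ≤ n * K := mul_nonneg hn hK
      constructor
      · rw [abs_le]
        constructor <;> nlinarith [h1.1, h1.2, i2.1, i2.2, hM.1, hM.2, hq.1, hq.2]
      · rw [abs_le]
        constructor <;> nlinarith [h2.1, h2.2, i1.1, i1.2, hM.1, hM.2, hq.1, hq.2]
  have hMrec : ∀ n : ℕ, |M (n + 3) - M (n + 2) - M (n + 1)| ≤
      (D + 5 * K) * ((n + 1 : ℕ) : ℝ) ^ 2 := by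
    intro n
    obtain ⟨h1, h2, h3⟩ := h n
    obtain ⟨i1, i2⟩ := hdiff n
    have hn : (0 : ℝ) ≤ n := Nat.cast_nonneg n
    have hn3 : (0 : ℝ) < (n : ℝ) + 3 := by positivity
    have e : M (n + 3) - M (n + 2) - M (n + 1) =
        (A n - M (n + 2)) / (n + 3) +
        ((((n : ℝ) + 3) * M (n + 3) - (((n : ℝ) + 2) * (M (n + 2) + M (n + 1)) + A' (n + 1))) +
              (A' (n + 1) - (M (n + 1) + A n))) / (n + 3) := by
      field_simp
      ring
    have b1 : |(A n - M (n + 2)) / ((n : ℝ) + 3)| ≤ D + 3 * K * n := by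
      rw [abs_div, abs_of_pos hn3, div_le_iff₀ hn3]
      linarith
    have b2 : |((((n : ℝ) + 3) * M (n + 3) - (((n : ℝ) + 2) * (M (n + 2) + M (n + 1)) +
        A' (n + 1))) + (A' (n + 1) - (M (n + 1) + A n))) / ((n : ℝ) + 3)| ≤ 2 * K := by
      rw [abs_div, abs_of_pos hn3, div_le_iff₀ hn3]
      refine (abs_add_le _ _).trans ?_
      nlinarith
    rw [e]
    refine (abs_add_le _ _).trans ((add_le_add b1 b2).trans ?_)
    push_cast
    have hnK : 0 ≤ n * K := mul_nonneg hn hK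
    have hnD : 0 ≤ n * D := mul_nonneg hn hD0
    nlinarith [mul_nonneg hn hnK, mul_nonneg hn hnD]
  obtain ⟨A0, hA0⟩ : ∃ A0, A0 = (D + 5 * K) + |M 2 - M 1 - M 0| := ⟨_, rfl⟩
  obtain ⟨f, hf⟩ := fib_limit M A0 (by rw [hA0]; positivity) (by
    intro n
    cases n with
    | zero =>
      rw [hA0]
      have : 0 ≤ D + 5 * K := by positivity
      show |M 2 - M 1 - M 0| ≤ _
      push_cast
      nlinarith
    | succ n =>
      refine (hMrec n).trans ?_
      rw [hA0]
      have a1 : 0 ≤ |M 2 - M 1 - M 0| := abs_nonneg _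
      have a2 : 0 ≤ D + 5 * K := by positivity
      have hn : (0 : ℝ) ≤ n := Nat.cast_nonneg n
      have a3 : ((n + 1 : ℕ) : ℝ) ^ 2 ≤ ((n + 1 + 1 : ℕ) : ℝ) ^ 2 := by
        push_cast
        nlinarith
      have a4 : (0 : ℝ) ≤ ((n + 1 + 1 : ℕ) : ℝ) ^ 2 := by positivity
      nlinarith [mul_le_mul_of_nonneg_left a3 a2, mul_nonneg a1 a4])
  have hf2 : Tendsto (fun n => M (n + 2) / fl (n + 2)) atTop (𝓝 f) :=
    hf.comp (tendsto_add_atTop_nat 2)
  -- differences are negligible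
  have hzero : Tendsto (fun n : ℕ => ((n : ℝ) + 3) * (D + 3 * K * n) / fl (n + 2)) atTop (𝓝 0) := by
    have b1 : Tendsto (fun n : ℕ => ((n : ℝ) ^ 2 * (2 / 3) ^ n)) atTop (𝓝 0) :=
      (summable_pow_mul_geometric_of_norm_lt_one 2
        (show ‖(2 / 3 : ℝ)‖ < 1 by rw [Real.norm_eq_abs, abs_of_pos] <;> norm_num)).tendsto_atTop_zero
    have b2 : Tendsto (fun n : ℕ => ((n : ℝ) ^ 1 * (2 / 3) ^ n)) atTop (𝓝 0) :=
      (summable_pow_mul_geometric_of_norm_lt_one 1
        (show ‖(2 / 3 : ℝ)‖ < 1 by rw [Real.norm_eq_abs, abs_of_pos] <;> norm_num)).tendsto_atTop_zero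
    have b3 : Tendsto (fun n : ℕ => ((2 / 3 : ℝ) ^ n)) atTop (𝓝 0) :=
      tendsto_pow_atTop_nhds_zero_of_lt_one (by norm_num) (by norm_num)
    have b4 := ((b1.const_mul (3 * K)).add (b2.const_mul (D + 9 * K))).add (b3.const_mul (3 * D))
    rw [mul_zero, mul_zero, mul_zero, add_zero, add_zero] at b4
    apply squeeze_zero' _ _ b4
    · exact Filter.Eventually.of_forall fun n => by
        have := fl_pos' (n + 2)
        positivity
    · exact Filter.Eventually.of_forall fun n => by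
        have hfp := fl_pos' (n + 2)
        rw [div_le_iff₀ hfp]
        have h3 : ((3 : ℝ) / 2) ^ n ≤ fl (n + 2) := by
          refine le_trans ?_ (fl_ge n).2
          exact pow_le_pow_right₀ (by norm_num) (by omega)
        have h4 : (1 : ℝ) ≤ (2 / 3) ^ n * fl (n + 2) := by
          have : (1 : ℝ) = (2 / 3) ^ n * (3 / 2) ^ n := by rw [← mul_pow]; norm_num
          rw [this]
          exact mul_le_mul_of_nonneg_left h3 (by positivity)
        have h5 : 0 ≤ ((n : ℝ) + 3) * (D + 3 * K * n) := by positivity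
        calc ((n : ℝ) + 3) * (D + 3 * K * n) = ((n : ℝ) + 3) * (D + 3 * K * n) * 1 := by ring
          _ ≤ ((n : ℝ) + 3) * (D + 3 * K * n) * ((2 / 3) ^ n * fl (n + 2)) :=
              mul_le_mul_of_nonneg_left h4 h5
          _ = _ := by ring
  have hz : ∀ B : ℕ → ℝ, (∀ n, |B n - M (n + 2)| ≤ (n + 3) * (D + 3 * K * n)) →
      Tendsto (fun n => B n / fl (n + 2)) atTop (𝓝 f) := by
    intro B hB
    have h1 : Tendsto (fun n => (B n - M (n + 2)) / fl (n + 2)) atTop (𝓝 0) := by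
      apply squeeze_zero_norm _ hzero
      intro n
      rw [Real.norm_eq_abs, abs_div, abs_of_pos (fl_pos' _)]
      exact div_le_div_of_nonneg_right (hB n) (fl_pos' _).le
    have h2 := h1.add hf2
    rw [zero_add] at h2
    refine h2.congr fun n => ?_
    ring
  exact ⟨f, hf, hz A fun n => (hdiff n).1, hz A' fun n => (hdiff n).2⟩

theorem WF_limit (p : List Bool) : ∃ f : ℝ, Tendsto (fun n => mn p (WF n) / fl n) atTop (𝓝 f) ∧
      Tendsto (fun n => mn p (TF n) / fl (n + 2)) atTop (𝓝 f) ∧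
      Tendsto (fun n => mn p (RF n) / fl (n + 2)) atTop (𝓝 f) :=
  fib_means (fun n => mn p (WF n)) (fun n => mn p (TF n)) (fun n => mn p (RF n)) p.length
    (Nat.cast_nonneg _) (WF_mn p)

open Classical in
/-- The frequency of the word `p`. -/
noncomputable def FFb (p : List Bool) : ℝ := if p = [] then 1 else (WF_limit p).choose

theorem FFb_lim {p : List Bool} (hp : p ≠ []) :
    Tendsto (fun n => mn p (WF n) / fl n) atTop (𝓝 (FFb p)) ∧
      Tendsto (fun n => mn p (TF n) / fl (n + 2)) atTop (𝓝 (FFb p)) ∧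
      Tendsto (fun n => mn p (RF n) / fl (n + 2)) atTop (𝓝 (FFb p)) := by
  unfold FFb
  rw [if_neg hp]
  exact (WF_limit p).choose_spec

theorem freqF : Freq WF fl FFb where
  ne := WF_ne
  len := WF_len
  top := fl_tendsto
  nil := by unfold FFb; rw [if_pos rfl]
  lim := by
    intro p hp
    refine (FFb_lim hp).1.congr fun n => ?_
    unfold mn avg
    rw [div_div]

theorem WF_mgf (p : List Bool) (hp : p ≠ []) (δ : ℝ) (hδ : 0 < δ) :
    ∃ s0 > (0 : ℝ), ∀ s : ℝ, 0 ≤ s → s ≤ s0 →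
      ∀ᶠ n in atTop, gm p s (WF (n + 1)) ≤ Real.exp (s * (FFb p + δ) * fl (n + 1)) ∧
        gm p s (WF n) ≤ Real.exp (s * (FFb p + δ) * fl n) := by
  obtain ⟨l1, l2, l3⟩ := FFb_lim hp
  have hlt : FFb p < FFb p + δ / 4 := by linarith
  have e1 := (l1.comp (tendsto_add_atTop_nat 1)).eventually (gt_mem_nhds hlt)
  have e2 := (l1.comp (tendsto_add_atTop_nat 2)).eventually (gt_mem_nhds hlt)
  have e3 := l2.eventually (gt_mem_nhds hlt)
  have e4 := l3.eventually (gt_mem_nhds hlt)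
  have e5 : ∀ᶠ n : ℕ in atTop, (p.length : ℝ) ≤ δ / 4 * fl (n + 1) := by
    have h1 : Tendsto (fun n : ℕ => δ / 4 * (fl (n + 1) : ℝ)) atTop atTop :=
      ((tendsto_natCast_atTop_atTop.comp fl_tendsto).comp
        (tendsto_add_atTop_nat 1)).const_mul_atTop (by positivity)
    exact h1.eventually_ge_atTop _
  obtain ⟨n0, h1, h2, h3, h4, h5⟩ := (e1.and (e2.and (e3.and (e4.and e5)))).exists
  simp only [Function.comp_apply] at h1 h2
  have h6 : (p.length : ℝ) ≤ δ / 4 * fl (n0 + 2) := by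
    refine h5.trans ?_
    apply mul_le_mul_of_nonneg_left _ (by positivity)
    rw [fl_ss]; push_cast; have := fl_pos' n0; linarith
  rw [div_lt_iff₀ (fl_pos' _)] at h1 h2 h3 h4
  obtain ⟨s1, hs1, g1⟩ := gm_start (WF_ne (n0 + 1)) (fl_pos (n0 + 1)).1 (WF_len _) p hδ h1.le h5
  obtain ⟨s2, hs2, g2⟩ := gm_start (WF_ne (n0 + 2)) (fl_pos (n0 + 2)).1 (WF_len _) p hδ h2.le h6
  obtain ⟨s3, hs3, g3⟩ := gm_start (TR_ne n0).1 (fl_pos (n0 + 2)).1 (TF_len _) p hδ h3.le h6
  obtain ⟨s4, hs4, g4⟩ := gm_start (TR_ne n0).2 (fl_pos (n0 + 2)).1 (RF_len _) p hδ h4.le h6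
  refine ⟨min (min s1 s2) (min s3 s4), lt_min (lt_min hs1 hs2) (lt_min hs3 hs4), ?_⟩
  intro s hs hss
  have hss1 : s ≤ s1 := hss.trans ((min_le_left _ _).trans (min_le_left _ _))
  have hss2 : s ≤ s2 := hss.trans ((min_le_left _ _).trans (min_le_right _ _))
  have hss3 : s ≤ s3 := hss.trans ((min_le_right _ _).trans (min_le_left _ _))
  have hss4 : s ≤ s4 := hss.trans ((min_le_right _ _).trans (min_le_right _ _))
  have key : ∀ k : ℕ, gm p s (WF (n0 + k + 1)) ≤ Real.exp (s * (FFb p + δ) * fl (n0 + k + 1)) ∧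
      gm p s (WF (n0 + k + 2)) ≤ Real.exp (s * (FFb p + δ) * fl (n0 + k + 2)) ∧
      gm p s (TF (n0 + k)) ≤ Real.exp (s * (FFb p + δ) * fl (n0 + k + 2)) ∧
      gm p s (RF (n0 + k)) ≤ Real.exp (s * (FFb p + δ) * fl (n0 + k + 2)) := by
    intro k
    induction k with
    | zero => exact ⟨g1 s hs hss1, g2 s hs hss2, g3 s hs hss3, g4 s hs hss4⟩
    | succ k ih =>
      obtain ⟨i1, i2, i3, i4⟩ := ih
      rw [← Nat.add_assoc]
      obtain ⟨n, hn⟩ : ∃ n, n = n0 + k := ⟨_, rfl⟩
      rw [← hn] at i1 i2 i3 i4 ⊢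
      have e : Real.exp (s * (FFb p + δ) * fl (n + 1)) * Real.exp (s * (FFb p + δ) * fl (n + 2)) =
          Real.exp (s * (FFb p + δ) * fl (n + 1 + 2)) := by
        rw [← Real.exp_add]
        congr 1
        rw [fl_ss (n + 1)]
        push_cast
        ring
      have hR : gm p s (RF (n + 1)) ≤ Real.exp (s * (FFb p + δ) * fl (n + 1 + 2)) := by
        rw [RF_succ, ← e]
        exact (gm_app2 (WF_len _) (WF_ne _) (TR_ne n).1 p hs).trans
          (mul_le_mul i1 i3 (gm_nonneg _ _ _) (Real.exp_pos _).le)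
      have hT : gm p s (TF (n + 1)) ≤ Real.exp (s * (FFb p + δ) * fl (n + 1 + 2)) := by
        rw [TF_succ, ← e, mul_comm]
        exact (gm_app2 (RF_len _) (TR_ne n).2 (WF_ne _) p hs).trans
          (mul_le_mul i4 i1 (gm_nonneg _ _ _) (Real.exp_pos _).le)
      refine ⟨i2, ?_, hT, hR⟩
      rw [WF_union (n + 1)]
      apply avg_union_le (WF_disj (n + 1)) (app2_nonempty (WF_ne _) (WF_ne _)) (TR_ne _).2 _ _ hR
      rw [← e, mul_comm]
      exact (gm_app2 (WF_len _) (WF_ne _) (WF_ne _) p hs).trans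
        (mul_le_mul i2 i1 (gm_nonneg _ _ _) (Real.exp_pos _).le)
  rw [eventually_atTop]
  refine ⟨n0 + 1, fun n hn => ?_⟩
  obtain ⟨k, rfl⟩ := Nat.exists_eq_add_of_le hn
  have := key k
  rw [show n0 + 1 + k = n0 + k + 1 by ring]
  exact ⟨this.2.1, this.1⟩

theorem thF_ne : ∀ c, thF c ≠ [] := by
  intro c; cases c <;> simp [thF]

theorem FFb_illegal (w : List Bool) (hw : ¬ Legal thF w) : FFb w = 0 := by
  have hw0 : w ≠ [] := by
    rintro rfl
    exact hw ⟨1, false, [false, true], le_rfl,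
      ⟨[false], rfl, image_single.2 (by simp [thF])⟩, List.nil_infix⟩
  have h0 : ∀ᶠ n : ℕ in atTop, mn w (WF n) / fl n = 0 := by
    filter_upwards [eventually_ge_atTop 2] with n hn
    obtain ⟨k, rfl⟩ : ∃ k, n = k + 1 + 1 := ⟨n - 2, by omega⟩
    have : mn w (WF (k + 1 + 1)) = 0 := by
      unfold mn avg
      rw [sum_eq_zero, zero_div]
      intro v hv
      by_contra hne
      have hpos : 0 < occ w v := by
        rcases Nat.eq_zero_or_pos (occ w v) with h | h
        · rw [h] at hne; simp at hne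
        · exact h
      exact hw ⟨k + 1, false, v, by omega, ((mem_WF (k + 1) v).2).1 hv, infix_of_occ_pos hpos⟩
    rw [this, zero_div]
  exact tendsto_nhds_unique (FFb_lim hw0).1
    (tendsto_const_nhds.congr' (h0.mono fun n hn => hn.symm))

/-- Main theorem for the random Fibonacci subshift. -/
theorem fib_main : ∃ (μ : MeasureTheory.Measure (ℤ → Bool)) (h : ℝ),
    IsMME (Subshift thF) μ h ∧
      (∀ w, μ.real (cyl 0 w) = FFb w) ∧
      (Tendsto (fun n => Real.log (WF n).card / fl n) atTop (𝓝 h)) ∧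
      ∀ ν, IsInv (Subshift thF) ν → HasEntropy ν h → ν = μ := by
  classical
  obtain ⟨η, hη⟩ := WF_ent_lim
  have hη0 : 0 ≤ η := by
    apply ge_of_tendsto' hη
    intro n
    apply div_nonneg _ (fl_pos' n).le
    apply Real.log_nonneg
    exact_mod_cast card_pos.2 (WF_ne n)
  let B : ℕ → Bool → Finset (List Bool) := fun n c => if c then WF n else WF (n + 1)
  let len : ℕ → Bool → ℕ := fun n c => if c then fl n else fl (n + 1)
  obtain ⟨μ, h1, h2, h3⟩ := unique_mme {w | Legal thF w} η FFb freqF.cons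
    (fun w hw => FFb_illegal w hw) (fun M => freqF.entropy hη M)
    (hpr_of_blocks {w | Legal thF w} η hη0 FFb freqF.cons B len
      (fun n c => by cases c; exacts [WF_ne (n + 1), WF_ne n])
      (fun n c => by cases c; exacts [WF_len (n + 1), WF_len n])
      (fun K => by
        filter_upwards [fl_tendsto.eventually_ge_atTop K,
          (fl_tendsto.comp (tendsto_add_atTop_nat 1)).eventually_ge_atTop K] with n hn hn'
        intro c
        cases c
        · exact hn'
        · exact hn)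
      (fun ε hε => by
        have hlt : η < η + ε := by linarith
        filter_upwards [hη.eventually (gt_mem_nhds hlt),
          (hη.comp (tendsto_add_atTop_nat 1)).eventually (gt_mem_nhds hlt)] with n hn hn'
        intro c
        cases c
        · simp only [Function.comp_apply] at hn'
          rw [div_lt_iff₀ (fl_pos' _)] at hn'
          exact hn'.le
        · rw [div_lt_iff₀ (fl_pos' _)] at hn
          exact hn.le)
      (fun n => by
        have := cover_of_blocks thF_ne ⟨[], [true], by simp [thF]⟩ ⟨[false], [], by simp [thF]⟩ n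
          (B n) (fun c w h => by
            cases c
            · exact ((mem_WF n w).2).2 h
            · exact ((mem_WF n w).1).2 h)
        exact this)
      (fun p hp δ hδ => by
        obtain ⟨s0, hs0, hs⟩ := WF_mgf p hp δ hδ
        refine ⟨s0, hs0, fun s h0 hss => ?_⟩
        filter_upwards [hs s h0 hss] with n hn
        intro c
        cases c
        · exact hn.1
        · exact hn.2))
  exact ⟨μ, η, h1, fun w => h2 0 w, hη, h3⟩

end Pool.Agent.R200.Ie
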