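import Pool.Agent.R200.IeBlocks

/-!
# Iterates of a random substitution, coverings by blocks, real sequences
-/

namespace Pool.Agent.R200.Ie

open Filter Topology Finset

variable {θ : Bool → List (List Bool)}

theorem Image.append {u v u' v' : List Bool} (h : Image θ u v) (h' : Image θ u' v') :
    Image θ (u ++ u') (v ++ v') := by
  induction h with
  | nil => exact h'
  | cons hl _ ih =>
    rw [List.cons_append, List.append_assoc]
    exact Image.cons hl ih

theorem Image.split : ∀ (u u' v : List Bool), Image θ (u ++ u') v →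
    ∃ v1 v2, v = v1 ++ v2 ∧ Image θ u v1 ∧ Image θ u' v2 := by
  intro u
  induction u with
  | nil => intro u' v h; exact ⟨[], v, rfl, Image.nil, h⟩
  | cons l u ih =>
    intro u' v h
    rw [List.cons_append] at h
    cases h with
    | @cons _ s _ w hl hw =>
      obtain ⟨v1, v2, rfl, h1, h2⟩ := ih u' w hw
      exact ⟨s ++ v1, v2, by rw [List.append_assoc], Image.cons hl h1, h2⟩

theorem image_single {c : Bool} {v : List Bool} : Image θ [c] v ↔ v ∈ θ c := by
  constructor
  · intro h
    cases h with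
    | cons hl hw =>
      cases hw
      rw [List.append_nil]
      exact hl
  · intro h
    have := Image.cons (θ := θ) h Image.nil
    rwa [List.append_nil] at this

theorem Iter.append : ∀ (n : ℕ) {u v u' v' : List Bool}, Iter θ n u v → Iter θ n u' v' →
    Iter θ n (u ++ u') (v ++ v') := by
  intro n
  induction n with
  | zero => intro u v u' v' h h'; rw [show v = u from h, show v' = u' from h']; exact rfl
  | succ n ih =>
    rintro u v u' v' ⟨w, h1, h2⟩ ⟨w', h1', h2'⟩
    exact ⟨w ++ w', ih h1 h1', h2.append h2'⟩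

theorem Iter.split : ∀ (n : ℕ) {u u' v : List Bool}, Iter θ n (u ++ u') v →
    ∃ v1 v2, v = v1 ++ v2 ∧ Iter θ n u v1 ∧ Iter θ n u' v2 := by
  intro n
  induction n with
  | zero => intro u u' v h; exact ⟨u, u', h, rfl, rfl⟩
  | succ n ih =>
    rintro u u' v ⟨w, h1, h2⟩
    obtain ⟨w1, w2, rfl, h3, h4⟩ := ih h1
    obtain ⟨v1, v2, rfl, h5, h6⟩ := Image.split _ _ _ h2
    exact ⟨v1, v2, rfl, ⟨w1, h3, h5⟩, ⟨w2, h4, h6⟩⟩

theorem Iter.succ_iff : ∀ (n : ℕ) {u v : List Bool},
    Iter θ (n + 1) u v ↔ ∃ w, Image θ u w ∧ Iter θ n w v := by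
  intro n
  induction n with
  | zero =>
    intro u v
    constructor
    · rintro ⟨w, h1, h2⟩
      rw [show w = u from h1] at h2
      exact ⟨v, h2, rfl⟩
    · rintro ⟨w, h1, h2⟩
      rw [← show v = w from h2] at h1
      exact ⟨u, rfl, h1⟩
  | succ n ih =>
    intro u v
    constructor
    · rintro ⟨w, h1, h2⟩
      obtain ⟨w', h3, h4⟩ := ih.1 h1
      exact ⟨w', h3, w, h4, h2⟩
    · rintro ⟨w', h3, w, h4, h2⟩
      exact ⟨w, ih.2 ⟨w', h3, h4⟩, h2⟩

theorem Iter.add : ∀ (n m : ℕ) {u v : List Bool}, Iter θ (m + n) u v →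
    ∃ w, Iter θ m u w ∧ Iter θ n w v := by
  intro n
  induction n with
  | zero => intro m u v h; exact ⟨v, h, rfl⟩
  | succ n ih =>
    intro m u v h
    obtain ⟨w, h1, h2⟩ := h
    obtain ⟨w', h3, h4⟩ := ih m h1
    exact ⟨w', h3, w, h4, h2⟩

theorem Iter.exists_image (hθ : ∀ c, θ c ≠ []) (n : ℕ) (u : List Bool) : ∃ v, Iter θ n u v := by
  have hI : ∀ u : List Bool, ∃ v, Image θ u v := by
    intro u
    induction u with
    | nil => exact ⟨[], Image.nil⟩
    | cons l u ih =>
      obtain ⟨v, hv⟩ := ih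
      obtain ⟨s, hs⟩ := List.exists_mem_of_ne_nil _ (hθ l)
      exact ⟨s ++ v, Image.cons hs hv⟩
  induction n with
  | zero => exact ⟨u, rfl⟩
  | succ n ih =>
    obtain ⟨w, hw⟩ := ih
    obtain ⟨v, hv⟩ := hI w
    exact ⟨v, w, hw, hv⟩

/-- If some realisation of `a` contains the letter `c`, level `k` words of `c` occur in level
`k + 1` words of `a`. -/
theorem Iter.up (hθ : ∀ c, θ c ≠ []) {c : Bool} {s t : List Bool} (hs : s ++ c :: t ∈ θ false)
    {k : ℕ} {v : List Bool} (h : Iter θ k [c] v) :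
    ∃ v', Iter θ (k + 1) [false] v' ∧ v <:+: v' := by
  obtain ⟨x, hx⟩ := Iter.exists_image hθ k s
  obtain ⟨y, hy⟩ := Iter.exists_image hθ k t
  refine ⟨x ++ (v ++ y), ?_, ⟨x, y, by rw [List.append_assoc]⟩⟩
  rw [Iter.succ_iff]
  refine ⟨s ++ c :: t, image_single.2 hs, ?_⟩
  exact Iter.append k hx (Iter.append k (u := [c]) h hy)

theorem legal_large (hθ : ∀ c, θ c ≠ []) (ha : ∃ s t, s ++ false :: t ∈ θ false)
    (hb : ∃ s t, s ++ true :: t ∈ θ false) {w : List Bool} (hw : Legal θ w) (n : ℕ) :
    ∃ k v, n ≤ k ∧ Iter θ k [false] v ∧ w <:+: v := by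
  obtain ⟨k, c, v, hk, hv, hwv⟩ := hw
  have h1 : ∃ k v, Iter θ k [false] v ∧ w <:+: v := by
    cases c
    · exact ⟨k, v, hv, hwv⟩
    · obtain ⟨s, t, hst⟩ := hb
      obtain ⟨v', h1, h2⟩ := Iter.up hθ hst hv
      exact ⟨k + 1, v', h1, hwv.trans h2⟩
  obtain ⟨k, v, hv, hwv⟩ := h1
  have h2 : ∀ j : ℕ, ∃ v, Iter θ (k + j) [false] v ∧ w <:+: v := by
    intro j
    induction j with
    | zero => exact ⟨v, hv, hwv⟩
    | succ j ih =>
      obtain ⟨v, hv, hwv⟩ := ih
      obtain ⟨s, t, hst⟩ := ha
      obtain ⟨v', h1, h2⟩ := Iter.up hθ hst hv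
      exact ⟨v', h1, hwv.trans h2⟩
  obtain ⟨v, h3, h4⟩ := h2 n
  exact ⟨k + n, v, by omega, h3, h4⟩

/-! ### Coverings -/

theorem conc_trim_front {B : Finset (List Bool)} {K : ℕ} (hK : ∀ v ∈ B, v.length ≤ K) :
    ∀ (m : ℕ) (W : List Bool), W ∈ conc B m → ∀ s r, s ++ r = W →
      ∃ m' s', s' ++ r ∈ conc B m' ∧ s'.length ≤ K := by
  intro m
  induction m with
  | zero =>
    intro W hW s r hsr
    rw [show conc B 0 = {[]} from rfl, mem_singleton] at hW
    rw [hW] at hsr
    obtain ⟨rfl, rfl⟩ := List.append_eq_nil_iff.1 hsr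
    exact ⟨0, [], by simp [conc], by simp⟩
  | succ m ih =>
    intro W hW s r hsr
    have hW' := hW
    unfold conc at hW
    rw [mem_image] at hW
    obtain ⟨⟨v, W'⟩, hz, hzW⟩ := hW
    rw [mem_product] at hz
    simp only at hzW hz
    by_cases hl : v.length ≤ s.length
    · have hv : v = s.take v.length := by
        have h1 : (s ++ r).take v.length = v := by rw [hsr, ← hzW, List.take_left]
        rw [List.take_append_of_le_length hl] at h1
        exact h1.symm
      have hs : s = v ++ s.drop v.length := by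
        conv_lhs => rw [← List.take_append_drop v.length s]
        rw [← hv]
      have h2 : s.drop v.length ++ r = W' := by
        have : v ++ (s.drop v.length ++ r) = v ++ W' := by
          rw [← List.append_assoc, ← hs, hsr, hzW]
        exact List.append_cancel_left this
      exact ih W' hz.2 _ r h2
    · refine ⟨m + 1, s, ?_, ?_⟩
      · rw [hsr]; exact hW'
      · have := hK v hz.1
        omega

theorem conc_trim_back {B : Finset (List Bool)} {K : ℕ} (hK : ∀ v ∈ B, v.length ≤ K) :
    ∀ (m : ℕ) (W : List Bool), W ∈ conc B m → ∀ r t, r ++ t = W →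
      ∃ m' t', r ++ t' ∈ conc B m' ∧ t'.length ≤ K := by
  intro m
  induction m with
  | zero =>
    intro W hW r t hrt
    rw [show conc B 0 = {[]} from rfl, mem_singleton] at hW
    rw [hW] at hrt
    obtain ⟨rfl, rfl⟩ := List.append_eq_nil_iff.1 hrt
    exact ⟨0, [], by simp [conc], by simp⟩
  | succ m ih =>
    intro W hW r t hrt
    unfold conc at hW
    rw [mem_image] at hW
    obtain ⟨⟨v, W'⟩, hz, hzW⟩ := hW
    rw [mem_product] at hz
    simp only at hzW hz
    by_cases hl : v.length ≤ r.length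
    · have hv : v = r.take v.length := by
        have h1 : (r ++ t).take v.length = v := by rw [hrt, ← hzW, List.take_left]
        rw [List.take_append_of_le_length hl] at h1
        exact h1.symm
      have hs : r = v ++ r.drop v.length := by
        conv_lhs => rw [← List.take_append_drop v.length r]
        rw [← hv]
      have h2 : r.drop v.length ++ t = W' := by
        have : v ++ (r.drop v.length ++ t) = v ++ W' := by
          rw [← List.append_assoc, ← hs, hrt, hzW]
        exact List.append_cancel_left this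
      obtain ⟨m', t', h3, h4⟩ := ih W' hz.2 _ t h2
      refine ⟨m' + 1, t', ?_, h4⟩
      unfold conc
      rw [mem_image]
      refine ⟨(v, r.drop v.length ++ t'), mem_product.2 ⟨hz.1, h3⟩, ?_⟩
      show v ++ (r.drop v.length ++ t') = r ++ t'
      rw [← List.append_assoc, ← hs]
    · have h1 : r = v.take r.length := by
        have h1 : (v ++ W').take r.length = r := by rw [hzW, ← hrt, List.take_left]
        rw [List.take_append_of_le_length (by omega)] at h1
        exact h1.symm
      refine ⟨1, v.drop r.length, ?_, ?_⟩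
      · have h2 : r ++ v.drop r.length = v := by
          have h3 := List.take_append_drop r.length v
          rw [← h1] at h3
          exact h3
        rw [h2]
        unfold conc
        rw [mem_image]
        exact ⟨(v, []), mem_product.2 ⟨hz.1, by simp [conc]⟩, by simp⟩
      · have := hK v hz.1
        rw [List.length_drop]
        omega

theorem cover_of_blocks (hθ : ∀ c, θ c ≠ []) (ha : ∃ s t, s ++ false :: t ∈ θ false)
    (hb : ∃ s t, s ++ true :: t ∈ θ false) (n : ℕ) (B : Bool → Finset (List Bool))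
    (hB : ∀ c w, Iter θ n [c] w → w ∈ B c) :
    ∃ C, ∀ w, Legal θ w → ∃ m, ∃ W ∈ conc (B false ∪ B true) m,
      w <:+: W ∧ W.length ≤ w.length + C := by
  set K : ℕ := (B false ∪ B true).sup List.length with hKdef
  have hK : ∀ v ∈ B false ∪ B true, v.length ≤ K := fun v hv => Finset.le_sup (f := List.length) hv
  refine ⟨K + K, ?_⟩
  intro w hw
  obtain ⟨k, v, hk, hv, hwv⟩ := legal_large hθ ha hb hw n
  obtain ⟨j, rfl⟩ : ∃ j, k = j + n := ⟨k - n, by omega⟩
  obtain ⟨u, -, huv⟩ := Iter.add n j hv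
  have hconc : ∀ (u v : List Bool), Iter θ n u v → v ∈ conc (B false ∪ B true) u.length := by
    intro u
    induction u with
    | nil =>
      intro v hv
      have hnil : ∀ n v, Iter θ n [] v → v = [] := by
        intro n
        induction n with
        | zero => intro v h; exact h
        | succ n ih =>
          rintro v ⟨w, h1, h2⟩
          rw [ih w h1] at h2
          cases h2
          rfl
      rw [hnil n v hv]
      simp [conc]
    | cons c u ih =>
      intro v hv
      obtain ⟨v1, v2, rfl, h1, h2⟩ := Iter.split n (u := [c]) (u' := u) hv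
      rw [List.length_cons]
      unfold conc
      rw [mem_image]
      refine ⟨(v1, v2), mem_product.2 ⟨?_, ih v2 h2⟩, rfl⟩
      rw [mem_union]
      have := hB c v1 h1
      cases c
      · exact Or.inl this
      · exact Or.inr this
  obtain ⟨s, t, hst⟩ := hwv
  have h1 := hconc u v huv
  rw [List.append_assoc] at hst
  obtain ⟨m', s', h2, h3⟩ := conc_trim_front hK _ v h1 s (w ++ t) hst
  obtain ⟨m'', t', h4, h5⟩ := conc_trim_back hK _ _ h2 (s' ++ w) t (by rw [List.append_assoc])
  refine ⟨m'', _, h4, ⟨s', t', rfl⟩, ?_⟩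
  rw [List.length_append, List.length_append]
  omega

/-! ### Real sequences -/

theorem exists_limit {z : ℕ → ℝ} {A r : ℝ} (hr0 : 0 < r) (hr1 : r < 1)
    (h : ∀ n, |z (n + 1) - z n| ≤ A * ((n + 1 : ℕ) : ℝ) ^ 2 * r ^ n) :
    ∃ a, Tendsto z atTop (𝓝 a) := by
  have hs : Summable (fun n : ℕ => A * ((n + 1 : ℕ) : ℝ) ^ 2 * r ^ n) := by
    have h1 : Summable (fun n : ℕ => ((n : ℕ) : ℝ) ^ 2 * r ^ n) :=
      summable_pow_mul_geometric_of_norm_lt_one 2 (by rw [Real.norm_eq_abs, abs_of_pos hr0]; exact hr1)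
    have h2 := ((summable_nat_add_iff 1).2 h1).mul_left (A / r)
    refine h2.congr fun n => ?_
    rw [pow_succ r n]
    field_simp
  have hc : CauchySeq z := by
    apply cauchySeq_of_dist_le_of_summable _ _ hs
    intro n
    rw [dist_comm, Real.dist_eq]
    exact h n
  exact cauchySeq_tendsto_of_complete hc

/-- The starting point of the exponential moment recursion. -/
theorem gm_start {S : Finset (List Bool)} (hS0 : S.Nonempty) {l : ℕ} (hl : 0 < l)
    (hS : ∀ w ∈ S, w.length = l) (p : List Bool) {f δ : ℝ} (hδ : 0 < δ)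
    (h1 : mn p S ≤ (f + δ / 4) * l) (h2 : (p.length : ℝ) ≤ δ / 4 * l) :
    ∃ s0 > (0 : ℝ), ∀ s : ℝ, 0 ≤ s → s ≤ s0 → gm p s S ≤ Real.exp (s * (f + δ) * l) := by
  have hl' : (0 : ℝ) < l := by exact_mod_cast hl
  have hK : (0 : ℝ) < (l : ℝ) + p.length := by positivity
  refine ⟨min (1 / (l + p.length)) (δ / 4 * l / (l + p.length) ^ 2), by positivity, ?_⟩
  intro s hs hss
  have hs1 : s * (l + p.length) ≤ 1 := by
    have := hss.trans (min_le_left _ _)
    rwa [le_div_iff₀ hK] at this
  have hs2 : s * ((l : ℝ) + p.length) ^ 2 ≤ δ / 4 * l := by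
    have := hss.trans (min_le_right _ _)
    rwa [le_div_iff₀ (by positivity)] at this
  refine (gm_small hS0 hS p hs hs1).trans ?_
  rw [Real.exp_le_exp]
  have h3 := mul_le_mul_of_nonneg_left h1 hs
  have h4 := mul_le_mul_of_nonneg_left h2 hs
  have h5 := mul_le_mul_of_nonneg_left hs2 hs
  nlinarith [mul_nonneg hs hl'.le, mul_nonneg (mul_nonneg hs hl'.le) hδ.le]

end Pool.Agent.R200.Ie
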