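import Pool.Agent.R200.IeEnt

/-!
# Limit frequencies are consistent and have large entropy
-/

namespace Pool.Agent.R200.Ie

open Finset Filter Topology

/-! ### Counting identities -/

theorem occ_left {p : List Bool} (hp : p ≠ []) (w : List Bool) :
    occ p w = occ (false :: p) w + occ (true :: p) w + if p <+: w then 1 else 0 := by
  induction w with
  | nil =>
    have : ¬ p <+: [] := by simpa using hp
    simp [occ, this]
  | cons c w ih =>
    rw [occ_cons, occ_cons, occ_cons, ih]
    have h1 : (if false :: p <+: c :: w then 1 else 0) + (if true :: p <+: c :: w then 1 else 0) =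
        if p <+: w then 1 else 0 := by
      cases c <;> simp [List.cons_prefix_cons]
    omega

theorem occ_right_le {p : List Bool} (w : List Bool) :
    occ (p ++ [false]) w + occ (p ++ [true]) w ≤ occ p w ∧
      occ p w ≤ occ (p ++ [false]) w + occ (p ++ [true]) w + 1 := by
  have key : ∀ w : List Bool, ∃ δ : ℕ, δ ≤ (if p.length ≤ w.length then 1 else 0) ∧
      occ p w = occ (p ++ [false]) w + occ (p ++ [true]) w + δ := by
    intro w
    induction w with
    | nil => exact ⟨0, by simp, by simp [occ]⟩
    | cons c w ih =>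
      obtain ⟨δ, h1, h2⟩ := ih
      have h3 : (if p <+: c :: w then 1 else 0) = (if p ++ [false] <+: c :: w then 1 else 0) +
          (if p ++ [true] <+: c :: w then 1 else 0) + (if p = c :: w then 1 else 0) := by
        by_cases hpre : p <+: c :: w
        · obtain ⟨t, ht⟩ := hpre
          rw [if_pos ⟨t, ht⟩, ← ht]
          cases t with
          | nil =>
            have h5 : ∀ b : Bool, ¬ (p ++ [b] <+: p ++ []) := by
              intro b hb
              have := hb.length_le
              simp at this
            rw [if_neg (h5 false), if_neg (h5 true), if_pos (by simp)]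
          | cons d t =>
            have e1 : ∀ b : Bool, (p ++ [b] <+: p ++ d :: t) ↔ b = d := by
              intro b
              rw [List.prefix_append_right_inj]
              simp
            rw [if_congr (e1 false) rfl rfl, if_congr (e1 true) rfl rfl]
            cases d <;> simp
        · have h4 : ∀ b : Bool, ¬ (p ++ [b] <+: c :: w) := fun b hb =>
            hpre ((List.prefix_append p [b]).trans hb)
          rw [if_neg hpre, if_neg (h4 false), if_neg (h4 true), if_neg]
          intro h5
          exact hpre (by rw [← h5])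
      refine ⟨δ + if p = c :: w then 1 else 0, ?_, ?_⟩
      · by_cases hpe : p = c :: w
        · have hl : p.length = w.length + 1 := by rw [hpe]; rfl
          rw [if_neg (by omega)] at h1
          rw [if_pos hpe, if_pos (by rw [List.length_cons]; omega)]
          omega
        · rw [if_neg hpe]
          by_cases hl : p.length ≤ w.length
          · rw [if_pos hl] at h1
            rw [if_pos (by rw [List.length_cons]; omega)]
            omega
          · rw [if_neg hl] at h1
            omega
      · rw [occ_cons, occ_cons, occ_cons, h2, h3]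
        omega
  obtain ⟨δ, h1, h2⟩ := key w
  have h3 : (if p.length ≤ w.length then 1 else 0) ≤ 1 := by split_ifs <;> omega
  omega

theorem sum_prefix_wds (N : ℕ) (w : List Bool) (G : List Bool → ℝ) :
    ∑ p ∈ wds N, (if p <+: w then (1 : ℝ) else 0) * G p =
      if N ≤ w.length then G (w.take N) else 0 := by
  by_cases h : N ≤ w.length
  · rw [if_pos h]
    have h1 : ∀ p ∈ wds N, (if p <+: w then (1 : ℝ) else 0) * G p =
        if p = w.take N then G p else 0 := by
      intro p hp
      have hl := mem_wds.1 hp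
      by_cases hpw : p <+: w
      · have : p = w.take N := by rw [← hl]; exact (List.prefix_iff_eq_take.1 hpw)
        rw [if_pos hpw, if_pos this, one_mul]
      · have : p ≠ w.take N := by
          intro h2
          exact hpw (h2 ▸ List.take_prefix N w)
        rw [if_neg hpw, if_neg this, zero_mul]
    rw [sum_congr rfl h1, sum_ite_eq', if_pos]
    rw [mem_wds, List.length_take]
    omega
  · rw [if_neg h]
    apply sum_eq_zero
    intro p hp
    rw [if_neg, zero_mul]
    intro hpw
    have := hpw.length_le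
    rw [mem_wds.1 hp] at this
    exact h this

theorem sum_occ_wds (M : ℕ) (w : List Bool) :
    ∑ p ∈ wds (M + 1), (occ p w : ℝ) = ((w.length - M : ℕ) : ℝ) := by
  induction w with
  | nil => simp [occ]
  | cons c w ih =>
    have h1 : ∀ p ∈ wds (M + 1), (occ p (c :: w) : ℝ) =
        occ p w + (if p <+: c :: w then (1 : ℝ) else 0) * 1 := by
      intro p _
      rw [occ_cons]
      push_cast
      ring
    rw [sum_congr rfl h1, sum_add_distrib, ih, sum_prefix_wds (M + 1) (c :: w) (fun _ => 1),
      List.length_cons]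
    by_cases h : M + 1 ≤ w.length + 1
    · rw [if_pos h]
      have : w.length + 1 - M = (w.length - M) + 1 := by omega
      rw [this]
      push_cast
      ring
    · rw [if_neg h]
      have : w.length + 1 - M = 0 := by omega
      have h2 : w.length - M = 0 := by omega
      rw [this, h2]
      simp

/-! ### Block products -/

/-- Product of weights over consecutive blocks of length `M + 1`. -/
noncomputable def bq (M : ℕ) (π : List Bool → ℝ) (w : List Bool) : ℝ :=
  if M + 1 ≤ w.length then π (w.take (M + 1)) * bq M π (w.drop (M + 1)) else 1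
termination_by w.length
decreasing_by
  rw [List.length_drop]
  omega

theorem bq_of_le {M : ℕ} {π : List Bool → ℝ} {w : List Bool} (h : M + 1 ≤ w.length) :
    bq M π w = π (w.take (M + 1)) * bq M π (w.drop (M + 1)) := by
  rw [bq, if_pos h]

theorem bq_of_lt {M : ℕ} {π : List Bool → ℝ} {w : List Bool} (h : w.length < M + 1) :
    bq M π w = 1 := by
  rw [bq, if_neg (by omega)]

theorem bq_pos {M : ℕ} {π : List Bool → ℝ} : ∀ (n : ℕ) (w : List Bool), w.length ≤ n →
    (∀ p ∈ wds (M + 1), 0 < occ p w → 0 < π p) → 0 < bq M π w := by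
  intro n
  induction n with
  | zero =>
    intro w hw _
    rw [bq_of_lt (by omega)]
    norm_num
  | succ n ih =>
    intro w hw h
    by_cases hl : M + 1 ≤ w.length
    · rw [bq_of_le hl]
      apply mul_pos
      · apply h
        · rw [mem_wds, List.length_take]; omega
        · cases w with
          | nil => simp at hl
          | cons c w =>
            rw [occ_cons, if_pos (List.take_prefix _ _)]
            omega
      · apply ih
        · rw [List.length_drop]; omega
        · intro p hp hocc
          apply h p hp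
          exact lt_of_lt_of_le hocc (occ_infix (List.drop_suffix _ _).isInfix)
    · rw [bq_of_lt (by omega)]
      norm_num

theorem bq_nonneg {M : ℕ} {π : List Bool → ℝ} (hπ : ∀ p, 0 ≤ π p) : ∀ (n : ℕ) (w : List Bool),
    w.length ≤ n → 0 ≤ bq M π w := by
  intro n
  induction n with
  | zero =>
    intro w hw
    rw [bq_of_lt (by omega)]
    norm_num
  | succ n ih =>
    intro w hw
    by_cases hl : M + 1 ≤ w.length
    · rw [bq_of_le hl]
      exact mul_nonneg (hπ _) (ih _ (by rw [List.length_drop]; omega))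
    · rw [bq_of_lt (by omega)]
      norm_num

theorem sum_bq {M : ℕ} {π : List Bool → ℝ}
    (hsum : ∑ p ∈ wds (M + 1), π p = 1) : ∀ (n L : ℕ), L ≤ n →
    ∑ w ∈ wds L, bq M π w ≤ 2 ^ (M + 1) := by
  have hcard : ∀ L : ℕ, ∑ w ∈ wds L, (1 : ℝ) = 2 ^ L := by
    intro L
    induction L with
    | zero => simp [wds]
    | succ L ih =>
      rw [sum_wds_succ, sum_add_distrib, ih]
      ring
  intro n
  induction n with
  | zero =>
    intro L hL
    have : L = 0 := by omega
    subst this
    rw [show wds 0 = {[]} from rfl, sum_singleton, bq_of_lt (by simp)]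
    exact one_le_pow₀ (by norm_num)
  | succ n ih =>
    intro L hL
    by_cases hl : M + 1 ≤ L
    · obtain ⟨k, rfl⟩ := Nat.exists_eq_add_of_le hl
      rw [sum_wds_add]
      have h1 : ∀ p ∈ wds (M + 1), ∑ v ∈ wds k, bq M π (p ++ v) =
          π p * ∑ v ∈ wds k, bq M π v := by
        intro p hp
        rw [mul_sum]
        apply sum_congr rfl
        intro v _
        have hpl := mem_wds.1 hp
        rw [bq_of_le (by rw [List.length_append]; omega), ← hpl, List.take_left, List.drop_left]
      rw [sum_congr rfl h1, ← sum_mul, hsum, one_mul]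
      exact ih k (by omega)
    · have h1 : ∀ w ∈ wds L, bq M π w = 1 := by
        intro w hw
        rw [bq_of_lt]
        rw [mem_wds.1 hw]; omega
      rw [sum_congr rfl h1, hcard]
      exact pow_le_pow_right₀ (by norm_num) (by omega)

theorem sum_bq_drop {M : ℕ} {π : List Bool → ℝ}
    (hsum : ∑ p ∈ wds (M + 1), π p = 1) (j L : ℕ) (hj : j ≤ M) (hjL : j ≤ L) :
    ∑ w ∈ wds L, bq M π (w.drop j) ≤ 2 ^ (M + 1) * 2 ^ (M + 1) := by
  obtain ⟨k, rfl⟩ := Nat.exists_eq_add_of_le hjL
  rw [sum_wds_add]
  have h1 : ∀ u ∈ wds j, ∑ v ∈ wds k, bq M π ((u ++ v).drop j) ≤ 2 ^ (M + 1) := by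
    intro u hu
    have : ∀ v ∈ wds k, bq M π ((u ++ v).drop j) = bq M π v := by
      intro v _
      rw [← mem_wds.1 hu, List.drop_left]
    rw [sum_congr rfl this]
    exact sum_bq hsum k k le_rfl
  have hcard : ∀ L : ℕ, ∑ w ∈ wds L, (1 : ℝ) = 2 ^ L := by
    intro L
    induction L with
    | zero => simp [wds]
    | succ L ih =>
      rw [sum_wds_succ, sum_add_distrib, ih]
      ring
  calc ∑ u ∈ wds j, ∑ v ∈ wds k, bq M π ((u ++ v).drop j)
      ≤ ∑ u ∈ wds j, 1 * (2 : ℝ) ^ (M + 1) := sum_le_sum fun u hu => by rw [one_mul]; exact h1 u hu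
    _ = 2 ^ j * 2 ^ (M + 1) := by rw [← sum_mul, hcard]
    _ ≤ 2 ^ (M + 1) * 2 ^ (M + 1) := by
        apply mul_le_mul_of_nonneg_right _ (by positivity)
        exact pow_le_pow_right₀ (by norm_num) (by omega)

theorem sum_log_bq {M : ℕ} {π : List Bool → ℝ} (w : List Bool)
    (h : ∀ p ∈ wds (M + 1), 0 < occ p w → 0 < π p) :
    ∑ j ∈ range (M + 1), Real.log (bq M π (w.drop j)) =
      ∑ p ∈ wds (M + 1), (occ p w : ℝ) * Real.log (π p) := by
  induction w with
  | nil =>
    have h1 : ∀ j ∈ range (M + 1), Real.log (bq M π (([] : List Bool).drop j)) = 0 := by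
      intro j _
      rw [List.drop_nil, bq_of_lt (by simp), Real.log_one]
    rw [sum_congr rfl h1, sum_const_zero, eq_comm]
    apply sum_eq_zero
    intro p _
    simp [occ]
  | cons c w ih =>
    have hw : ∀ p ∈ wds (M + 1), 0 < occ p w → 0 < π p := by
      intro p hp hocc
      exact h p hp (lt_of_lt_of_le hocc (occ_infix (List.suffix_cons c w).isInfix))
    have ih := ih hw
    rw [sum_range_succ'] at *
    have e1 : ∀ j, (c :: w).drop (j + 1) = w.drop j := fun j => rfl
    simp only [e1, List.drop_zero]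
    rw [List.drop_zero] at ih
    -- telescoping
    have hshift : ∑ j ∈ range M, Real.log (bq M π (w.drop j)) + Real.log (bq M π (w.drop M)) =
        ∑ j ∈ range M, Real.log (bq M π (w.drop (j + 1))) + Real.log (bq M π w) := by
      have a1 := sum_range_succ (fun j => Real.log (bq M π (w.drop j))) M
      have a2 := sum_range_succ' (fun j => Real.log (bq M π (w.drop j))) M
      rw [a1] at a2
      rw [List.drop_zero] at a2
      exact a2
    have hocc : ∑ p ∈ wds (M + 1), (occ p (c :: w) : ℝ) * Real.log (π p) =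
        ∑ p ∈ wds (M + 1), (occ p w : ℝ) * Real.log (π p) +
          if M + 1 ≤ (c :: w).length then Real.log (π ((c :: w).take (M + 1))) else 0 := by
      rw [← sum_prefix_wds (M + 1) (c :: w) (fun p => Real.log (π p)), ← sum_add_distrib]
      apply sum_congr rfl
      intro p _
      rw [occ_cons]
      push_cast
      ring
    rw [hocc, ← ih]
    by_cases hl : M + 1 ≤ (c :: w).length
    · rw [if_pos hl, bq_of_le hl]
      have hpos1 : 0 < π ((c :: w).take (M + 1)) := by
        apply h
        · rw [mem_wds, List.length_take]; omega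
        · rw [occ_cons, if_pos (List.take_prefix _ _)]
          omega
      have hpos2 : 0 < bq M π ((c :: w).drop (M + 1)) := by
        apply bq_pos _ _ le_rfl
        intro p hp hocc'
        apply h p hp
        exact lt_of_lt_of_le hocc' (occ_infix (List.drop_suffix _ _).isInfix)
      rw [Real.log_mul hpos1.ne' hpos2.ne', e1]
      linarith
    · rw [if_neg hl, bq_of_lt (by omega)]
      have h2 : bq M π (w.drop M) = 1 := by
        apply bq_of_lt
        rw [List.length_drop]
        rw [List.length_cons] at hl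
        omega
      rw [h2] at hshift
      rw [Real.log_one] at *
      linarith

/-- The finite entropy estimate. -/
theorem mis (W : Finset (List Bool)) (hW : W.Nonempty) (L M : ℕ) (hlen : ∀ w ∈ W, w.length = L)
    (hML : M < L) :
    ((M + 1 : ℕ) : ℝ) * Real.log W.card ≤
      ((L - M : ℕ) : ℝ) * ∑ p ∈ wds (M + 1),
        Real.negMulLog ((∑ w ∈ W, (occ p w : ℝ)) / (W.card * ((L - M : ℕ) : ℝ))) +
      2 * ((M + 1 : ℕ) : ℝ) ^ 2 * Real.log 2 := by
  set c : ℝ := (W.card : ℝ) with hc
  set l : ℝ := ((L - M : ℕ) : ℝ) with hl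
  have hcpos : 0 < c := by rw [hc]; exact_mod_cast card_pos.2 hW
  have hlpos : 0 < l := by rw [hl]; exact_mod_cast (by omega : 0 < L - M)
  set π : List Bool → ℝ := fun p => (∑ w ∈ W, (occ p w : ℝ)) / (c * l) with hπdef
  have hπ : ∀ p, 0 ≤ π p := fun p => by
    apply div_nonneg
    · exact sum_nonneg fun _ _ => Nat.cast_nonneg _
    · positivity
  have hsum : ∑ p ∈ wds (M + 1), π p = 1 := by
    rw [hπdef, ← sum_div, sum_comm]
    have : ∀ w ∈ W, ∑ p ∈ wds (M + 1), (occ p w : ℝ) = l := by
      intro w hw
      rw [sum_occ_wds, hlen w hw]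
    rw [sum_congr rfl this, sum_const, nsmul_eq_mul]
    exact div_self (by positivity)
  have hπpos : ∀ w ∈ W, ∀ p ∈ wds (M + 1), 0 < occ p w → 0 < π p := by
    intro w hw p _ hocc
    apply div_pos _ (by positivity)
    have h1 : (0 : ℝ) < occ p w := by exact_mod_cast hocc
    exact lt_of_lt_of_le h1
      (single_le_sum (f := fun w => (occ p w : ℝ)) (fun _ _ => Nat.cast_nonneg _) hw)
  have hj : ∀ j ∈ range (M + 1), Real.log c + ∑ w ∈ W, c⁻¹ * Real.log (bq M π (w.drop j)) ≤
      2 * ((M + 1 : ℕ) : ℝ) * Real.log 2 := by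
    intro j hj
    rw [mem_range] at hj
    have hpos : ∀ w ∈ W, 0 < bq M π (w.drop j) := by
      intro w hw
      apply bq_pos _ _ le_rfl
      intro p hp hocc
      exact hπpos w hw p hp (lt_of_lt_of_le hocc (occ_infix (List.drop_suffix _ _).isInfix))
    have hg := gibbs W (fun _ => c⁻¹) (fun w => bq M π (w.drop j))
      (fun _ _ => by positivity) (by rw [sum_const, nsmul_eq_mul]; exact mul_inv_cancel₀ hcpos.ne')
      (fun w hw => (hpos w hw).le) (fun w hw _ => hpos w hw)
    have e1 : ∑ w ∈ W, Real.negMulLog c⁻¹ = Real.log c := by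
      rw [sum_const, nsmul_eq_mul]
      unfold Real.negMulLog
      rw [Real.log_inv, ← hc]
      field_simp
    rw [e1] at hg
    refine hg.trans ?_
    have hle : ∑ w ∈ W, bq M π (w.drop j) ≤ 2 ^ (M + 1) * 2 ^ (M + 1) := by
      refine le_trans ?_ (sum_bq_drop hsum j L (by omega) (by omega))
      apply sum_le_sum_of_subset_of_nonneg
      · intro w hw
        rw [mem_wds]; exact hlen w hw
      · intro w _ _
        exact bq_nonneg hπ _ _ le_rfl
    have hpos' : 0 < ∑ w ∈ W, bq M π (w.drop j) := sum_pos hpos hW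
    calc Real.log (∑ w ∈ W, bq M π (w.drop j)) ≤ Real.log (2 ^ (M + 1) * 2 ^ (M + 1)) :=
          Real.log_le_log hpos' hle
      _ = 2 * ((M + 1 : ℕ) : ℝ) * Real.log 2 := by
          rw [← pow_add, Real.log_pow]
          push_cast
          ring
  have htot := sum_le_sum hj
  rw [sum_add_distrib, sum_const, sum_const, card_range, nsmul_eq_mul, nsmul_eq_mul, sum_comm] at htot
  have e2 : ∑ w ∈ W, ∑ j ∈ range (M + 1), c⁻¹ * Real.log (bq M π (w.drop j)) =
      - (l * ∑ p ∈ wds (M + 1), Real.negMulLog (π p)) := by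
    have h1 : ∀ w ∈ W, ∑ j ∈ range (M + 1), c⁻¹ * Real.log (bq M π (w.drop j)) =
        ∑ p ∈ wds (M + 1), c⁻¹ * ((occ p w : ℝ) * Real.log (π p)) := by
      intro w hw
      rw [← mul_sum, sum_log_bq w (hπpos w hw), mul_sum]
    rw [sum_congr rfl h1, sum_comm, mul_sum, ← sum_neg_distrib]
    apply sum_congr rfl
    intro p _
    have h2 : ∑ w ∈ W, c⁻¹ * ((occ p w : ℝ) * Real.log (π p)) =
        (∑ w ∈ W, (occ p w : ℝ)) * (c⁻¹ * Real.log (π p)) := by
      rw [sum_mul]
      apply sum_congr rfl
      intro w _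
      ring
    have h3 : (∑ w ∈ W, (occ p w : ℝ)) = π p * (c * l) := by
      rw [hπdef]
      field_simp
    rw [h2, h3]
    unfold Real.negMulLog
    field_simp
  rw [e2] at htot
  nlinarith [htot]

/-- Limit frequencies of a sequence of finite sets of words. -/
structure Freq (W : ℕ → Finset (List Bool)) (ℓ : ℕ → ℕ) (μ : List Bool → ℝ) : Prop where
  ne : ∀ n, (W n).Nonempty
  len : ∀ n, ∀ w ∈ W n, w.length = ℓ n
  top : Tendsto ℓ atTop atTop
  nil : μ [] = 1
  lim : ∀ p, p ≠ [] → Tendsto (fun n => (∑ w ∈ W n, (occ p w : ℝ)) / ((W n).card * (ℓ n : ℝ)))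
    atTop (𝓝 (μ p))

variable {W : ℕ → Finset (List Bool)} {ℓ : ℕ → ℕ} {μ : List Bool → ℝ}

theorem Freq.inv_tendsto (h : Freq W ℓ μ) : Tendsto (fun n => 1 / (ℓ n : ℝ)) atTop (𝓝 0) :=
  tendsto_one_div_atTop_nhds_zero_nat.comp h.top

/-- Two combinations of occurrence numbers that differ by at most one have the same limits. -/
theorem Freq.lim_eq (h : Freq W ℓ μ) {f : List Bool → ℝ} {a b : ℝ}
    (ha : Tendsto (fun n => (∑ w ∈ W n, f w) / ((W n).card * (ℓ n : ℝ))) atTop (𝓝 a))
    {g : List Bool → ℝ}
    (hb : Tendsto (fun n => (∑ w ∈ W n, g w) / ((W n).card * (ℓ n : ℝ))) atTop (𝓝 b))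
    (hfg : ∀ w, |f w - g w| ≤ 1) : a = b := by
  have hdiff : Tendsto (fun n => (∑ w ∈ W n, f w) / ((W n).card * (ℓ n : ℝ)) -
      (∑ w ∈ W n, g w) / ((W n).card * (ℓ n : ℝ))) atTop (𝓝 0) := by
    apply squeeze_zero_norm' _ h.inv_tendsto
    filter_upwards [h.top.eventually_gt_atTop 0] with n hn
    have hc : (0 : ℝ) < (W n).card := by exact_mod_cast card_pos.2 (h.ne n)
    have hl : (0 : ℝ) < ℓ n := by exact_mod_cast hn
    rw [← sub_div, ← sum_sub_distrib, Real.norm_eq_abs, abs_div, abs_of_pos (mul_pos hc hl),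
      div_le_div_iff₀ (mul_pos hc hl) hl]
    have h1 : |∑ w ∈ W n, (f w - g w)| ≤ (W n).card := by
      refine (abs_sum_le_sum_abs _ _).trans ?_
      refine (sum_le_sum fun w _ => hfg w).trans ?_
      simp
    nlinarith
  have h2 := ha.sub hb
  have := tendsto_nhds_unique h2 hdiff
  linarith

theorem Freq.cons (h : Freq W ℓ μ) : Cons μ where
  nonneg := by
    intro w
    by_cases hw : w = []
    · rw [hw, h.nil]; norm_num
    · apply ge_of_tendsto' (h.lim w hw)
      intro n
      exact div_nonneg (sum_nonneg fun _ _ => Nat.cast_nonneg _) (by positivity)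
  nil := h.nil
  right := by
    intro p
    by_cases hp : p = []
    · subst hp
      rw [h.nil]
      have h1 := (h.lim [false] (by simp)).add (h.lim [true] (by simp))
      have h2 : Tendsto (fun n => (∑ w ∈ W n, (occ [false] w : ℝ)) / ((W n).card * (ℓ n : ℝ)) +
          (∑ w ∈ W n, (occ [true] w : ℝ)) / ((W n).card * (ℓ n : ℝ))) atTop (𝓝 1) := by
        apply tendsto_const_nhds.congr'
        filter_upwards [h.top.eventually_gt_atTop 0] with n hn
        have hc : (0 : ℝ) < (W n).card := by exact_mod_cast card_pos.2 (h.ne n)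
        have hl : (0 : ℝ) < ℓ n := by exact_mod_cast hn
        rw [← add_div, ← sum_add_distrib]
        have : ∀ w ∈ W n, (occ [false] w : ℝ) + occ [true] w = ℓ n := by
          intro w hw
          have := sum_occ_wds 0 w
          rw [zero_add, sum_wds_one, h.len n w hw] at this
          simpa using this
        rw [sum_congr rfl this, sum_const, nsmul_eq_mul, div_self (mul_pos hc hl).ne']
      exact tendsto_nhds_unique h2 h1
    · have h1 := (h.lim (p ++ [false]) (by simp)).add (h.lim (p ++ [true]) (by simp))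
      apply h.lim_eq (h.lim p hp)
        (g := fun w => (occ (p ++ [false]) w : ℝ) + occ (p ++ [true]) w)
      · refine h1.congr fun n => ?_
        rw [← add_div, ← sum_add_distrib]
      · intro w
        obtain ⟨h2, h3⟩ := occ_right_le (p := p) w
        have h2' : (occ (p ++ [false]) w : ℝ) + occ (p ++ [true]) w ≤ occ p w := by exact_mod_cast h2
        have h3' : (occ p w : ℝ) ≤ occ (p ++ [false]) w + occ (p ++ [true]) w + 1 := by
          exact_mod_cast h3
        rw [abs_le]
        constructor <;> linarith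
  left := by
    intro p
    by_cases hp : p = []
    · subst hp
      rw [h.nil]
      have h1 := (h.lim [false] (by simp)).add (h.lim [true] (by simp))
      have h2 : Tendsto (fun n => (∑ w ∈ W n, (occ [false] w : ℝ)) / ((W n).card * (ℓ n : ℝ)) +
          (∑ w ∈ W n, (occ [true] w : ℝ)) / ((W n).card * (ℓ n : ℝ))) atTop (𝓝 1) := by
        apply tendsto_const_nhds.congr'
        filter_upwards [h.top.eventually_gt_atTop 0] with n hn
        have hc : (0 : ℝ) < (W n).card := by exact_mod_cast card_pos.2 (h.ne n)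
        have hl : (0 : ℝ) < ℓ n := by exact_mod_cast hn
        rw [← add_div, ← sum_add_distrib]
        have : ∀ w ∈ W n, (occ [false] w : ℝ) + occ [true] w = ℓ n := by
          intro w hw
          have := sum_occ_wds 0 w
          rw [zero_add, sum_wds_one, h.len n w hw] at this
          simpa using this
        rw [sum_congr rfl this, sum_const, nsmul_eq_mul, div_self (mul_pos hc hl).ne']
      exact tendsto_nhds_unique h2 h1
    · have h1 := (h.lim (false :: p) (by simp)).add (h.lim (true :: p) (by simp))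
      apply h.lim_eq (h.lim p hp)
        (g := fun w => (occ (false :: p) w : ℝ) + occ (true :: p) w)
      · refine h1.congr fun n => ?_
        rw [← add_div, ← sum_add_distrib]
      · intro w
        rw [occ_left hp w]
        push_cast
        split_ifs <;> rw [abs_le] <;> constructor <;> linarith

/-- The entropy of limit frequencies. -/
theorem Freq.entropy (h : Freq W ℓ μ) {η : ℝ}
    (hη : Tendsto (fun n => Real.log (W n).card / (ℓ n : ℝ)) atTop (𝓝 η)) (M : ℕ) :
    ((M + 1 : ℕ) : ℝ) * η ≤ HH μ (M + 1) := by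
  -- ratio `(ℓ - M) / ℓ → 1`
  have hratio : Tendsto (fun n => ((ℓ n - M : ℕ) : ℝ) / (ℓ n : ℝ)) atTop (𝓝 1) := by
    have h1 : Tendsto (fun n => 1 - (M : ℝ) * (1 / (ℓ n : ℝ))) atTop (𝓝 (1 - M * 0)) :=
      (h.inv_tendsto.const_mul _).const_sub _
    rw [mul_zero, sub_zero] at h1
    refine h1.congr' ?_
    filter_upwards [h.top.eventually_gt_atTop M] with n hn
    have hl : (0 : ℝ) < ℓ n := by exact_mod_cast (by omega : 0 < ℓ n)
    rw [Nat.cast_sub (by omega)]
    field_simp
  have hπ : ∀ p, p ≠ [] → Tendsto (fun n => (∑ w ∈ W n, (occ p w : ℝ)) /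
      ((W n).card * ((ℓ n - M : ℕ) : ℝ))) atTop (𝓝 (μ p)) := by
    intro p hp
    have h1 := (h.lim p hp).div hratio one_ne_zero
    rw [div_one] at h1
    refine h1.congr' ?_
    filter_upwards [h.top.eventually_gt_atTop M] with n hn
    have hl : (0 : ℝ) < ℓ n := by exact_mod_cast (by omega : 0 < ℓ n)
    have hl2 : (0 : ℝ) < ((ℓ n - M : ℕ) : ℝ) := by exact_mod_cast (by omega : 0 < ℓ n - M)
    have hc : (0 : ℝ) < (W n).card := by exact_mod_cast card_pos.2 (h.ne n)
    simp only [Pi.div_apply]
    field_simp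
  have hJ : Tendsto (fun n => ∑ p ∈ wds (M + 1), Real.negMulLog ((∑ w ∈ W n, (occ p w : ℝ)) /
      ((W n).card * ((ℓ n - M : ℕ) : ℝ)))) atTop (𝓝 (HH μ (M + 1))) := by
    apply tendsto_finsetSum
    intro p hp
    have hp' : p ≠ [] := by
      intro h0
      rw [mem_wds, h0] at hp
      simp at hp
    exact (Real.continuous_negMulLog.tendsto _).comp (hπ p hp')
  have l1 : Tendsto (fun n => ((M + 1 : ℕ) : ℝ) * (Real.log (W n).card / (ℓ n : ℝ))) atTop
      (𝓝 (((M + 1 : ℕ) : ℝ) * η)) := hη.const_mul _
  have l2 : Tendsto (fun n => ((ℓ n - M : ℕ) : ℝ) / (ℓ n : ℝ) * (∑ p ∈ wds (M + 1),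
      Real.negMulLog ((∑ w ∈ W n, (occ p w : ℝ)) / ((W n).card * ((ℓ n - M : ℕ) : ℝ)))) +
      2 * ((M + 1 : ℕ) : ℝ) ^ 2 * Real.log 2 * (1 / (ℓ n : ℝ))) atTop
      (𝓝 (1 * HH μ (M + 1) + 2 * ((M + 1 : ℕ) : ℝ) ^ 2 * Real.log 2 * 0)) :=
    (hratio.mul hJ).add (h.inv_tendsto.const_mul _)
  have hle := le_of_tendsto_of_tendsto l1 l2 (by
    filter_upwards [h.top.eventually_gt_atTop M] with n hn
    have hl : (0 : ℝ) < ℓ n := by exact_mod_cast (by omega : 0 < ℓ n)
    have := mis (W n) (h.ne n) (ℓ n) M (h.len n) hn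
    have h3 := div_le_div_of_nonneg_right this hl.le
    calc ((M + 1 : ℕ) : ℝ) * (Real.log (W n).card / (ℓ n : ℝ))
        = ((M + 1 : ℕ) : ℝ) * Real.log (W n).card / (ℓ n : ℝ) := by ring
      _ ≤ _ := h3
      _ = _ := by ring)
  simpa using hle

end Pool.Agent.R200.Ie
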