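import Pool.Agent.R200.IeDefs
import Pool.Agent.R200.IeMis

/-!
# From consistent weights to invariant measures, and the abstract uniqueness theorem
-/

namespace Pool.Agent.R200.Ie

open MeasureTheory Filter Topology Finset

theorem win_length (x : ℤ → Bool) (i : ℤ) (n : ℕ) : (win x i n).length = n := by simp [win]

theorem win_add (x : ℤ → Bool) (i : ℤ) (m n : ℕ) :
    win x i (m + n) = win x i m ++ win x (i + m) n := by
  unfold win
  rw [List.range_add, List.map_append, List.map_map]
  congr 1
  apply List.map_congr_left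
  intro j _
  simp only [Function.comp_apply]
  congr 1
  push_cast
  ring

theorem win_one (x : ℤ → Bool) (i : ℤ) : win x i 1 = [x i] := by
  simp [win]

theorem win_succ (x : ℤ → Bool) (i : ℤ) (n : ℕ) : win x i (n + 1) = x i :: win x (i + 1) n := by
  rw [add_comm n 1, win_add, win_one]
  rfl

theorem win_snoc (x : ℤ → Bool) (i : ℤ) (n : ℕ) : win x i (n + 1) = win x i n ++ [x (i + n)] := by
  rw [win_add, win_one]

theorem win_sh (x : ℤ → Bool) (i : ℤ) (n : ℕ) : win (sh x) i n = win x (i + 1) n := by
  unfold win sh
  apply List.map_congr_left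
  intro j _
  have e : i + (j : ℤ) + 1 = i + 1 + j := by ring
  rw [e]

theorem win_congr {x y : ℤ → Bool} {i : ℤ} {n : ℕ} (h : ∀ j, i ≤ j → j < i + n → x j = y j) :
    win x i n = win y i n := by
  unfold win
  apply List.map_congr_left
  intro j hj
  rw [List.mem_range] at hj
  exact h _ (by omega) (by omega)

/-- The cylinder of the word `w` at position `i`. -/
def cyl (i : ℤ) (w : List Bool) : Set (ℤ → Bool) := {x | win x i w.length = w}

theorem isClopen_cyl (i : ℤ) (w : List Bool) : IsClopen (cyl i w) := by
  have hc : Continuous (fun x : ℤ → Bool => win x i w.length) := by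
    have : ∀ n : ℕ, Continuous (fun x : ℤ → Bool => win x i n) := by
      intro n
      apply IsLocallyConstant.continuous
      rw [IsLocallyConstant.iff_exists_open]
      intro x
      refine ⟨⋂ j ∈ Finset.Ico i (i + n), (fun y : ℤ → Bool => y j) ⁻¹' {x j}, ?_, ?_, ?_⟩
      · apply isOpen_biInter_finset
        intro w _
        exact (isOpen_discrete _).preimage (continuous_apply w)
      · simp
      · intro y hy
        simp only [Set.mem_iInter, Set.mem_preimage, Set.mem_singleton_iff] at hy
        exact win_congr fun j h1 h2 => hy j (Finset.mem_Ico.2 ⟨h1, h2⟩)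
    exact this _
  let _ : TopologicalSpace (List Bool) := ⊥
  have : DiscreteTopology (List Bool) := ⟨rfl⟩
  have hc' : Continuous (fun x : ℤ → Bool => win x i w.length) := by
    apply IsLocallyConstant.continuous
    rw [IsLocallyConstant.iff_exists_open]
    intro x
    refine ⟨⋂ j ∈ Finset.Ico i (i + w.length), (fun y : ℤ → Bool => y j) ⁻¹' {x j}, ?_, ?_, ?_⟩
    · apply isOpen_biInter_finset
      intro w _
      exact (isOpen_discrete _).preimage (continuous_apply w)
    · simp
    · intro y hy
      simp only [Set.mem_iInter, Set.mem_preimage, Set.mem_singleton_iff] at hy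
      exact win_congr fun j h1 h2 => hy j (Finset.mem_Ico.2 ⟨h1, h2⟩)
  exact (isClopen_discrete ({w} : Set (List Bool))).preimage hc'

theorem measurableSet_cyl (i : ℤ) (w : List Bool) : MeasurableSet (cyl i w) :=
  (isClopen_cyl i w).isOpen.measurableSet

theorem measurable_sh : Measurable sh := by
  apply measurable_pi_lambda
  intro n
  exact measurable_pi_apply (n + 1)

theorem sh_preimage_cyl (i : ℤ) (w : List Bool) : sh ⁻¹' (cyl i w) = cyl (i + 1) w := by
  ext x
  show win (sh x) i w.length = w ↔ win x (i + 1) w.length = w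
  rw [win_sh]

theorem cyl_nil (i : ℤ) : cyl i [] = Set.univ := by
  ext x
  simp [cyl, win]

theorem cyl_snoc (i : ℤ) (w : List Bool) (b : Bool) :
    cyl i (w ++ [b]) = cyl i w ∩ {x | x (i + w.length) = b} := by
  ext x
  show win x i (w ++ [b]).length = w ++ [b] ↔ win x i w.length = w ∧ x (i + w.length) = b
  rw [List.length_append, List.length_singleton, win_snoc]
  constructor
  · intro h
    have := List.append_inj h (by rw [win_length])
    exact ⟨this.1, by simpa using this.2⟩
  · rintro ⟨h1, h2⟩
    rw [h1, h2]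

theorem cyl_cons (i : ℤ) (w : List Bool) (b : Bool) :
    cyl i (b :: w) = cyl (i + 1) w ∩ {x | x i = b} := by
  ext x
  show win x i (b :: w).length = b :: w ↔ win x (i + 1) w.length = w ∧ x i = b
  rw [List.length_cons, win_succ]
  constructor
  · intro h
    have := List.cons.inj h
    exact ⟨this.2, this.1⟩
  · rintro ⟨h1, h2⟩
    rw [h1, h2]

theorem measurableSet_coord (i : ℤ) (b : Bool) : MeasurableSet {x : ℤ → Bool | x i = b} := by
  have h : Measurable (fun x : ℤ → Bool => x i) := measurable_pi_apply i
  exact h (measurableSet_singleton b)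

theorem real_split (ν : Measure (ℤ → Bool)) [IsProbabilityMeasure ν] {A : Set (ℤ → Bool)}
    (_ : MeasurableSet A) (j : ℤ) :
    ν.real A = ν.real (A ∩ {x | x j = false}) + ν.real (A ∩ {x | x j = true}) := by
  have h := measureReal_inter_add_sdiff (μ := ν) (s := A) (measurableSet_coord j false)
  have e : A \ {x : ℤ → Bool | x j = false} = A ∩ {x | x j = true} := by
    ext x
    simp
  rw [e] at h
  exact h.symm

variable {X : Set (ℤ → Bool)} {ν : Measure (ℤ → Bool)}

theorem IsInv.cyl_succ (h : IsInv X ν) (i : ℤ) (w : List Bool) :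
    ν.real (cyl (i + 1) w) = ν.real (cyl i w) := by
  unfold Measure.real
  rw [← sh_preimage_cyl, ← Measure.map_apply measurable_sh (measurableSet_cyl i w), h.inv]

theorem IsInv.cyl_eq (h : IsInv X ν) (i : ℤ) (w : List Bool) :
    ν.real (cyl i w) = ν.real (cyl 0 w) := by
  induction i using Int.induction_on with
  | zero => rfl
  | succ i ih => rw [h.cyl_succ, ih]
  | pred i ih =>
    have := h.cyl_succ (-i - 1) w
    rw [sub_add_cancel] at this
    rw [← this, ih]

theorem IsInv.cons (h : IsInv X ν) : Cons fun w => ν.real (cyl 0 w) where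
  nonneg := fun w => measureReal_nonneg
  nil := by
    have := h.prob
    simp only [cyl_nil]
    exact probReal_univ
  right := by
    intro w
    have := h.prob
    simp only [cyl_snoc]
    exact real_split ν (measurableSet_cyl 0 w) _
  left := by
    intro w
    have := h.prob
    simp only [cyl_cons]
    rw [← h.cyl_succ]
    exact real_split ν (measurableSet_cyl _ w) _

theorem sum_fin_eq (N : ℕ) (G : List Bool → ℝ) :
    ∑ f : Fin N → Bool, G (List.ofFn f) = ∑ w ∈ wds N, G w := by
  have hinj : Function.Injective (List.ofFn : (Fin N → Bool) → List Bool) := List.ofFn_injective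
  rw [← Finset.sum_image (f := G) (s := Finset.univ) (g := List.ofFn) (fun _ _ _ _ h => hinj h)]
  apply Finset.sum_congr _ (fun _ _ => rfl)
  ext w
  rw [mem_image, mem_wds]
  constructor
  · rintro ⟨f, -, rfl⟩
    simp
  · intro hw
    subst hw
    exact ⟨w.get, mem_univ _, List.ofFn_get w⟩

theorem blockEntropy_eq (ν : Measure (ℤ → Bool)) (N : ℕ) :
    blockEntropy ν N = HH (fun w => ν.real (cyl 0 w)) N := by
  unfold blockEntropy HH
  rw [← sum_fin_eq]
  apply Finset.sum_congr rfl
  intro f _
  congr 2
  ext x
  show (∀ i : Fin N, x ((i : ℕ) : ℤ) = f i) ↔ win x 0 (List.ofFn f).length = List.ofFn f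
  rw [List.length_ofFn]
  constructor
  · intro h
    apply List.ext_getElem
    · rw [win_length, List.length_ofFn]
    · intro j h1 h2
      rw [win_length] at h1
      simp only [win, List.getElem_map, List.getElem_range, List.getElem_ofFn, zero_add]
      exact h ⟨j, h1⟩
  · intro h i
    have h2 := congrArg (fun l => l[(i : ℕ)]?) h
    simp only [win, List.getElem?_map, List.getElem?_range i.2, List.getElem?_ofFn,
      Option.map_some, zero_add] at h2
    rw [dif_pos i.2] at h2
    exact Option.some.inj h2

theorem IsInv.exists_entropy (h : IsInv X ν) : ∃ h', HasEntropy ν h' := by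
  obtain ⟨h', hh⟩ := h.cons.exists_lim
  refine ⟨h', ?_⟩
  unfold HasEntropy
  simp only [blockEntropy_eq]
  exact hh

/-- Invariant measures are determined by their cylinder weights. -/
theorem measure_ext {μ ν : Measure (ℤ → Bool)} [IsProbabilityMeasure μ] [IsProbabilityMeasure ν]
    (h : ∀ i w, μ.real (cyl i w) = ν.real (cyl i w)) : μ = ν := by
  classical
  let C : Set (Set (ℤ → Bool)) := {s | s = ∅ ∨ ∃ (n : ℕ) (w : List Bool), w.length = 2 * n + 1 ∧
    s = cyl (-n) w}
  have hsub : ∀ (n n' : ℕ) (w w' : List Bool), w.length = 2 * n + 1 → w'.length = 2 * n' + 1 →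
      n ≤ n' → cyl (-n) w ∩ cyl (-n') w' = ∅ ∨ cyl (-n) w ∩ cyl (-n') w' = cyl (-n') w' := by
    intro n n' w w' hw hw' hnn
    by_cases hne : (cyl (-n) w ∩ cyl (-n') w') = ∅
    · exact Or.inl hne
    · right
      obtain ⟨x, hx1, hx2⟩ := Set.nonempty_iff_ne_empty.2 hne
      apply Set.inter_eq_right.2
      intro y hy
      have hx2' : win x (-n') w'.length = w' := hx2
      have hy' : win y (-n') w'.length = w' := hy
      have hx1' : win x (-n) w.length = w := hx1
      show win y (-n) w.length = w
      have hxy := hy'.trans hx2'.symm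
      have hlen : w'.length = (n' - n) + (w.length + (n' - n)) := by omega
      rw [hlen, win_add, win_add, win_add, win_add] at hxy
      have h1 := List.append_inj hxy (by rw [win_length, win_length])
      have h2 := List.append_inj h1.2 (by rw [win_length, win_length])
      have e : (-(n' : ℤ) + ((n' - n : ℕ) : ℤ)) = -n := by omega
      rw [e] at h2
      exact h2.1.trans hx1'
  have hpi : IsPiSystem C := by
    rintro s (rfl | ⟨n, w, hw, rfl⟩) t (rfl | ⟨n', w', hw', rfl⟩) _
    · left; simp
    · left; simp
    · left; simp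
    · rcases le_total n n' with hnn | hnn
      · rcases hsub n n' w w' hw hw' hnn with h1 | h1
        · exact Or.inl h1
        · exact Or.inr ⟨n', w', hw', h1⟩
      · rw [Set.inter_comm]
        rcases hsub n' n w' w hw' hw hnn with h1 | h1
        · exact Or.inl h1
        · exact Or.inr ⟨n, w, hw, h1⟩
  have hgen : (MeasurableSpace.pi : MeasurableSpace (ℤ → Bool)) = MeasurableSpace.generateFrom C := by
    apply le_antisymm
    · apply iSup_le
      intro i
      rw [MeasurableSpace.comap_le_iff_le_map]
      intro s _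
      show MeasurableSet[MeasurableSpace.generateFrom C] ((fun x : ℤ → Bool => x i) ⁻¹' s)
      have hU : (fun x : ℤ → Bool => x i) ⁻¹' s =
          ⋃ w ∈ (wds (2 * i.natAbs + 1)).filter (fun w => w.getD (i + i.natAbs).toNat false ∈ s),
            cyl (-i.natAbs) w := by
        ext x
        simp only [Set.mem_preimage, Set.mem_iUnion, exists_prop, mem_filter, mem_wds]
        have key : (win x (-i.natAbs) (2 * i.natAbs + 1)).getD (i + i.natAbs).toNat false = x i := by
          have hlt : (i + i.natAbs).toNat < 2 * i.natAbs + 1 := by omega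
          have hlen : (i + i.natAbs).toNat < (win x (-i.natAbs) (2 * i.natAbs + 1)).length := by
            rw [win_length]; exact hlt
          rw [List.getD_eq_getElem _ _ hlen]
          simp only [win, List.getElem_map, List.getElem_range]
          congr 1
          omega
        constructor
        · intro hx
          refine ⟨win x (-i.natAbs) (2 * i.natAbs + 1), ⟨win_length _ _ _, ?_⟩, ?_⟩
          · rw [key]; exact hx
          · show win x _ (win x _ _).length = _
            rw [win_length]
        · rintro ⟨w, ⟨hw1, hw2⟩, hw3⟩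
          have hw3' : win x (-i.natAbs) w.length = w := hw3
          rw [hw1] at hw3'
          rw [← hw3', key] at hw2
          exact hw2
      rw [hU]
      apply Finset.measurableSet_biUnion
      intro w hw
      rw [mem_filter, mem_wds] at hw
      exact MeasurableSpace.measurableSet_generateFrom (Or.inr ⟨_, w, hw.1, rfl⟩)
    · apply MeasurableSpace.generateFrom_le
      rintro s (rfl | ⟨n, w, _, rfl⟩)
      · exact MeasurableSet.empty
      · exact measurableSet_cyl _ _
  apply ext_of_generate_finite C hgen hpi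
  · rintro s (rfl | ⟨n, w, _, rfl⟩)
    · simp
    · have := h (-n) w
      unfold Measure.real at this
      exact (ENNReal.toReal_eq_toReal_iff' (measure_ne_top _ _) (measure_ne_top _ _)).1 this
  · simp

/-! ### Construction of an invariant measure with given weights -/

/-- A point extending a word of length `2N+1` centred at the origin. -/
def pt (N : ℕ) (w : List Bool) : ℤ → Bool := fun j => w.getD (j + N).toNat false

/-- The finitely supported approximation. -/
noncomputable def apx (F : List Bool → ℝ) (N : ℕ) : Measure (ℤ → Bool) :=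
  ∑ w ∈ wds (2 * N + 1), ENNReal.ofReal (F w) • Measure.dirac (pt N w)

theorem apx_apply {F : List Bool → ℝ} (hF : Cons F) (N : ℕ) {A : Set (ℤ → Bool)}
    (hA : MeasurableSet A) [DecidablePred (· ∈ A)] :
    apx F N A = ENNReal.ofReal (∑ w ∈ wds (2 * N + 1), F w * (if pt N w ∈ A then 1 else 0)) := by
  unfold apx
  rw [Measure.finsetSum_apply, ENNReal.ofReal_sum_of_nonneg (fun w _ => by
    apply mul_nonneg (hF.nonneg w); split_ifs <;> norm_num)]
  apply Finset.sum_congr rfl
  intro w _
  rw [Measure.smul_apply, Measure.dirac_apply' _ hA, smul_eq_mul]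
  by_cases h : pt N w ∈ A
  · rw [if_pos h, Set.indicator_of_mem h]; simp
  · rw [if_neg h, Set.indicator_of_notMem h]; simp

theorem apx_prob {F : List Bool → ℝ} (hF : Cons F) (N : ℕ) : IsProbabilityMeasure (apx F N) := by
  classical
  constructor
  rw [apx_apply hF N MeasurableSet.univ]
  simp only [Set.mem_univ, if_true, mul_one]
  rw [hF.sum_one, ENNReal.ofReal_one]

theorem apx_cyl {F : List Bool → ℝ} (hF : Cons F) (N : ℕ) (i : ℤ) (p : List Bool)
    (h1 : -(N : ℤ) ≤ i) (h2 : i + p.length ≤ N + 1) : apx F N (cyl i p) = ENNReal.ofReal (F p) := by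
  classical
  rw [apx_apply hF N (measurableSet_cyl i p)]
  congr 1
  obtain ⟨a, ha⟩ := Int.eq_ofNat_of_zero_le (show 0 ≤ i + N by omega)
  obtain ⟨b, hb⟩ := Int.eq_ofNat_of_zero_le (show 0 ≤ (N : ℤ) + 1 - (i + p.length) by omega)
  have hlen : 2 * N + 1 = a + (p.length + b) := by omega
  rw [hlen, sum_wds_add]
  have hmem : ∀ u ∈ wds a, ∀ q ∈ wds p.length, ∀ v ∈ wds b,
      (pt N (u ++ (q ++ v)) ∈ cyl i p ↔ q = p) := by
    intro u hu q hq v hv
    rw [mem_wds] at hu hq hv
    have : win (pt N (u ++ (q ++ v))) i p.length = q := by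
      apply List.ext_getElem
      · rw [win_length, hq]
      · intro j hj1 hj2
        rw [win_length] at hj1
        simp only [win, List.getElem_map, List.getElem_range, pt]
        have e : (i + (j : ℤ) + N).toNat = a + j := by omega
        rw [e, List.getD_append_right _ _ _ _ (by omega), hu, Nat.add_sub_cancel_left,
          List.getD_append _ _ _ _ (by omega), List.getD_eq_getElem _ _ hj2]
    show win (pt N (u ++ (q ++ v))) i p.length = p ↔ q = p
    rw [this]
  have hin : ∀ u ∈ wds a, ∑ w ∈ wds (p.length + b),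
      F (u ++ w) * (if pt N (u ++ w) ∈ cyl i p then (1 : ℝ) else 0) = F (u ++ p) := by
    intro u hu
    rw [sum_wds_add]
    have : ∀ q ∈ wds p.length, ∑ v ∈ wds b, F (u ++ (q ++ v)) *
        (if pt N (u ++ (q ++ v)) ∈ cyl i p then (1 : ℝ) else 0) = if q = p then F (u ++ q) else 0 := by
      intro q hq
      by_cases hqp : q = p
      · rw [if_pos hqp, ← hF.sum_right (u ++ q) b]
        apply Finset.sum_congr rfl
        intro v hv
        rw [if_pos ((hmem u hu q hq v hv).2 hqp), mul_one, List.append_assoc]
      · rw [if_neg hqp]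
        apply Finset.sum_eq_zero
        intro v hv
        rw [if_neg (fun h => hqp ((hmem u hu q hq v hv).1 h)), mul_zero]
    rw [Finset.sum_congr rfl this, Finset.sum_ite_eq', if_pos (mem_wds.2 rfl)]
  rw [Finset.sum_congr rfl hin, hF.sum_left]

theorem exists_measure {F : List Bool → ℝ} (hF : Cons F) :
    ∃ m : Measure (ℤ → Bool), IsProbabilityMeasure m ∧ ∀ i w, m.real (cyl i w) = F w := by
  let P : ℕ → ProbabilityMeasure (ℤ → Bool) := fun N => ⟨apx F N, apx_prob hF N⟩
  obtain ⟨m, hm⟩ := exists_clusterPt_of_compactSpace (Filter.map P atTop)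
  obtain ⟨U, hU, hUm⟩ := mapClusterPt_iff_ultrafilter.1 hm
  refine ⟨m, m.2, ?_⟩
  intro i w
  have h1 := ProbabilityMeasure.tendsto_measure_of_isClopen_of_tendsto hUm (isClopen_cyl i w)
  have h2 : Tendsto (fun N => P N (cyl i w)) U (𝓝 (Real.toNNReal (F w))) := by
    apply tendsto_const_nhds.congr'
    have hev : ∀ᶠ N : ℕ in atTop, Real.toNNReal (F w) = P N (cyl i w) := by
      filter_upwards [eventually_ge_atTop (i.natAbs + w.length)] with N hN
      have h3 := apx_cyl hF N i w (by omega) (by omega)
      show Real.toNNReal (F w) = (apx F N (cyl i w)).toNNReal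
      rw [h3]
      rfl
    exact hU hev
  have h3 := tendsto_nhds_unique h1 h2
  have h4 : (m : Measure (ℤ → Bool)).real (cyl i w) = ((m (cyl i w) : NNReal) : ℝ) := rfl
  rw [h4, h3, Real.coe_toNNReal _ (hF.nonneg w)]

/-- The abstract theorem. -/
theorem unique_mme (L : Set (List Bool)) [DecidablePred (· ∈ L)] (h : ℝ) (F : List Bool → ℝ)
    (hF : Cons F) (hsupp : ∀ w, w ∉ L → F w = 0)
    (hent : ∀ M : ℕ, ((M + 1 : ℕ) : ℝ) * h ≤ HH F (M + 1))
    (hpr : ∀ p : List Bool, p ≠ [] → ∀ δ > (0 : ℝ), ∃ s0 > (0 : ℝ), ∀ s : ℝ, 0 ≤ s → s ≤ s0 →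
      ∀ ε > (0 : ℝ), ∃ C > (0 : ℝ), ∀ N : ℕ, ∑ w ∈ (wds N).filter (· ∈ L), Real.exp (s * occ p w) ≤
        C * Real.exp ((h + s * (F p + δ) + ε) * N)) :
    ∃ μ : Measure (ℤ → Bool), IsMME {x | ∀ i n, win x i n ∈ L} μ h ∧
      (∀ i w, μ.real (cyl i w) = F w) ∧
      ∀ ν, IsInv {x | ∀ i n, win x i n ∈ L} ν → HasEntropy ν h → ν = μ := by
  set X : Set (ℤ → Bool) := {x | ∀ i n, win x i n ∈ L} with hX
  -- invariant measures on X are supported on L
  have hsuppν : ∀ ν, IsInv X ν → ∀ w, w ∉ L → ν.real (cyl 0 w) = 0 := by
    intro ν hν w hw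
    have hsub : cyl 0 w ⊆ Xᶜ := by
      intro x hx hxX
      have hx' : win x 0 w.length = w := hx
      exact hw (hx' ▸ hxX 0 w.length)
    have h0 : ν (cyl 0 w) = 0 := measure_mono_null hsub hν.supp
    unfold Measure.real
    rw [h0]; rfl
  -- upper bound and uniqueness of weights
  have hvar : ∀ G : List Bool → ℝ, Cons G → (∀ w, w ∉ L → G w = 0) → ∀ h' : ℝ,
      Tendsto (fun N : ℕ => HH G N / N) atTop (𝓝 h') →
      h' ≤ h ∧ (h' = h → ∀ p, p ≠ [] → G p ≤ F p) := by
    intro G hG hGs h' hlim
    constructor
    · apply le_of_forall_pos_le_add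
      intro ε hε
      obtain ⟨s0, hs0, hs⟩ := hpr [false] (by simp) 1 one_pos
      obtain ⟨C, hC, hCb⟩ := hs 0 le_rfl hs0.le ε hε
      have := hG.variational L hGs (p := [false]) (by simp) (s := 0) hC hCb hlim
      linarith
    · intro hh p hp
      apply le_of_forall_pos_le_add
      intro δ hδ
      obtain ⟨s0, hs0, hs⟩ := hpr p hp δ hδ
      have h1 : ∀ ε > (0 : ℝ), h' + s0 * G p ≤ h + s0 * (F p + δ) + ε := by
        intro ε hε
        obtain ⟨C, hC, hCb⟩ := hs s0 hs0.le le_rfl ε hε
        exact hG.variational L hGs hp hC hCb hlim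
      have h2 : h' + s0 * G p ≤ h + s0 * (F p + δ) :=
        le_of_forall_pos_le_add h1
      rw [hh] at h2
      have h3 : s0 * G p ≤ s0 * (F p + δ) := by linarith
      exact le_of_mul_le_mul_left h3 hs0
  obtain ⟨m, hm, hmF⟩ := exists_measure hF
  have hminv : m.map sh = m := by
    have : IsProbabilityMeasure (m.map sh) := Measure.isProbabilityMeasure_map measurable_sh.aemeasurable
    apply measure_ext
    intro i w
    have e : (m.map sh).real (cyl i w) = m.real (cyl (i + 1) w) := by
      unfold Measure.real
      rw [Measure.map_apply measurable_sh (measurableSet_cyl i w), sh_preimage_cyl]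
    rw [e, hmF, hmF]
  have hmsupp : m Xᶜ = 0 := by
    have hU : Xᶜ ⊆ ⋃ (i : ℤ) (w : {w : List Bool // w ∉ L}), cyl i w.1 := by
      intro x hx
      rw [hX, Set.mem_compl_iff, Set.mem_ofPred_eq] at hx
      push Not at hx
      obtain ⟨i, n, hin⟩ := hx
      rw [Set.mem_iUnion]
      refine ⟨i, ?_⟩
      rw [Set.mem_iUnion]
      refine ⟨⟨win x i n, hin⟩, ?_⟩
      show win x i (win x i n).length = win x i n
      rw [win_length]
    apply measure_mono_null hU
    rw [measure_iUnion_null_iff]
    intro i
    rw [measure_iUnion_null_iff]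
    rintro ⟨w, hw⟩
    have := hmF i w
    rw [hsupp w hw] at this
    unfold Measure.real at this
    exact ((ENNReal.toReal_eq_zero_iff _).1 this).resolve_right (measure_ne_top _ _)
  have hmI : IsInv X m := ⟨hm, hmsupp, hminv⟩
  have hfun : (fun w => m.real (cyl 0 w)) = F := funext fun w => hmF 0 w
  have hmE : HasEntropy m h := by
    obtain ⟨h', hlim⟩ := hF.exists_lim
    have hle := (hvar F hF hsupp h' hlim).1
    have hge : h ≤ h' := by
      apply ge_of_tendsto hlim
      filter_upwards [eventually_gt_atTop 0] with N hN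
      obtain ⟨M, rfl⟩ : ∃ M, N = M + 1 := ⟨N - 1, by omega⟩
      rw [le_div_iff₀ (by positivity)]
      have := hent M
      linarith
    have : h' = h := le_antisymm hle hge
    rw [this] at hlim
    unfold HasEntropy
    simp only [blockEntropy_eq, hfun]
    exact hlim
  refine ⟨m, ⟨hmI, hmE, ?_⟩, hmF, ?_⟩
  · intro ν hν
    obtain ⟨h', hh'⟩ := hν.exists_entropy
    refine ⟨h', hh', ?_⟩
    unfold HasEntropy at hh'
    simp only [blockEntropy_eq] at hh'
    exact (hvar _ hν.cons (hsuppν ν hν) h' hh').1
  · intro ν hν hνh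
    have := hν.prob
    have := hm
    unfold HasEntropy at hνh
    simp only [blockEntropy_eq] at hνh
    have hle := (hvar _ hν.cons (hsuppν ν hν) h hνh).2 rfl
    have heq : ∀ w, ν.real (cyl 0 w) = F w := by
      intro w
      by_cases hw : w = []
      · subst hw
        rw [hF.nil]
        exact hν.cons.nil
      · have hsum : ∑ u ∈ wds w.length, ν.real (cyl 0 u) = ∑ u ∈ wds w.length, F u := by
          rw [hF.sum_one]
          exact hν.cons.sum_one w.length
        have hne : ∀ u ∈ wds w.length, u ≠ [] := by
          intro u hu h0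
          rw [mem_wds, h0] at hu
          exact hw (List.length_eq_zero_iff.1 hu.symm)
        exact (Finset.sum_eq_sum_iff_of_le (fun u hu => hle u (hne u hu))).1 hsum w
          (mem_wds.2 rfl)
    apply measure_ext
    intro i w
    rw [hν.cyl_eq, heq, hmF]

end Pool.Agent.R200.Ie
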