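import Pool.Agent.R200.IeIter

/-!
# The random period doubling subshift is intrinsically ergodic
-/

namespace Pool.Agent.R200.Ie

open Filter Topology Finset

/-- The random period doubling substitution: `a ↦ {ab, ba}`, `b ↦ {aa}`
(`a` is `false`, `b` is `true`). -/
def thP : Bool → List (List Bool)
  | false => [[false, true], [true, false]]
  | true => [[false, false]]

/-- Level `n` words of the letter `c`. -/
def WP : ℕ → Bool → Finset (List Bool)
  | 0, c => {[c]}
  | n + 1, false => app2 (WP n false) (WP n true) ∪ app2 (WP n true) (WP n false)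
  | n + 1, true => app2 (WP n false) (WP n false)

theorem WP_succ_f (n : ℕ) : WP (n + 1) false =
    app2 (WP n false) (WP n true) ∪ app2 (WP n true) (WP n false) := rfl

theorem WP_succ_t (n : ℕ) : WP (n + 1) true = app2 (WP n false) (WP n false) := rfl

theorem WP_len : ∀ (n : ℕ) (c : Bool), ∀ w ∈ WP n c, w.length = 2 ^ n := by
  intro n
  induction n with
  | zero =>
    intro c w hw
    rw [show WP 0 c = {[c]} from rfl, mem_singleton] at hw
    rw [hw]; rfl
  | succ n ih =>
    intro c w hw
    cases c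
    · rw [WP_succ_f, mem_union, mem_app2, mem_app2] at hw
      rcases hw with ⟨u, hu, v, hv, rfl⟩ | ⟨u, hu, v, hv, rfl⟩
      · rw [List.length_append, ih _ _ hu, ih _ _ hv]; ring
      · rw [List.length_append, ih _ _ hu, ih _ _ hv]; ring
    · rw [WP_succ_t, mem_app2] at hw
      obtain ⟨u, hu, v, hv, rfl⟩ := hw
      rw [List.length_append, ih _ _ hu, ih _ _ hv]; ring

theorem WP_ne : ∀ (n : ℕ) (c : Bool), (WP n c).Nonempty := by
  intro n
  induction n with
  | zero => intro c; exact ⟨[c], mem_singleton_self _⟩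
  | succ n ih =>
    intro c
    cases c
    · exact (app2_nonempty (ih false) (ih true)).mono subset_union_left
    · exact app2_nonempty (ih false) (ih false)

theorem mem_WP : ∀ (n : ℕ) (c : Bool) (w : List Bool), w ∈ WP n c ↔ Iter thP n [c] w := by
  intro n
  induction n with
  | zero =>
    intro c w
    rw [show WP 0 c = {[c]} from rfl, mem_singleton]
    rfl
  | succ n ih =>
    have hpair : ∀ (x y : Bool) (w : List Bool), w ∈ app2 (WP n x) (WP n y) ↔
        Iter thP n [x, y] w := by
      intro x y w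
      rw [mem_app2]
      constructor
      · rintro ⟨u, hu, v, hv, rfl⟩
        exact Iter.append n ((ih x u).1 hu) ((ih y v).1 hv)
      · intro h
        obtain ⟨u, v, rfl, h1, h2⟩ := Iter.split n (u := [x]) (u' := [y]) h
        exact ⟨u, (ih x u).2 h1, v, (ih y v).2 h2, rfl⟩
    intro c w
    rw [Iter.succ_iff]
    cases c
    · rw [WP_succ_f, mem_union, hpair, hpair]
      constructor
      · rintro (h | h)
        · exact ⟨_, image_single.2 (by simp [thP]), h⟩
        · exact ⟨_, image_single.2 (by simp [thP]), h⟩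
      · rintro ⟨u, hu, h⟩
        have := image_single.1 hu
        simp only [thP, List.mem_cons, List.not_mem_nil, or_false] at this
        rcases this with rfl | rfl
        · exact Or.inl h
        · exact Or.inr h
    · rw [WP_succ_t, hpair]
      constructor
      · intro h
        exact ⟨_, image_single.2 (by simp [thP]), h⟩
      · rintro ⟨u, hu, h⟩
        have := image_single.1 hu
        simp only [thP, List.mem_cons, List.not_mem_nil, or_false] at this
        rw [this] at h
        exact h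

/-- Number of letters `a` in level `n` words. -/
def cA : ℕ → Bool → ℕ
  | 0, false => 1
  | 0, true => 0
  | n + 1, false => cA n false + cA n true
  | n + 1, true => cA n false + cA n false

theorem WP_count : ∀ (n : ℕ) (c : Bool), ∀ w ∈ WP n c, w.count false = cA n c := by
  intro n
  induction n with
  | zero =>
    intro c w hw
    rw [show WP 0 c = {[c]} from rfl, mem_singleton] at hw
    rw [hw]
    cases c <;> rfl
  | succ n ih =>
    intro c w hw
    cases c
    · rw [WP_succ_f, mem_union, mem_app2, mem_app2] at hw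
      rcases hw with ⟨u, hu, v, hv, rfl⟩ | ⟨u, hu, v, hv, rfl⟩
      · rw [List.count_append, ih _ _ hu, ih _ _ hv]; rfl
      · rw [List.count_append, ih _ _ hu, ih _ _ hv, add_comm]; rfl
    · rw [WP_succ_t, mem_app2] at hw
      obtain ⟨u, hu, v, hv, rfl⟩ := hw
      rw [List.count_append, ih _ _ hu, ih _ _ hv]; rfl

theorem cA_ne : ∀ n : ℕ, cA n false = cA n true + 1 ∨ cA n true = cA n false + 1 := by
  intro n
  induction n with
  | zero => exact Or.inl rfl
  | succ n ih =>
    have e1 : cA (n + 1) false = cA n false + cA n true := rfl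
    have e2 : cA (n + 1) true = cA n false + cA n false := rfl
    rw [e1, e2]
    omega

theorem WP_disj (n : ℕ) : Disjoint (app2 (WP n false) (WP n true))
    (app2 (WP n true) (WP n false)) := by
  rw [disjoint_left]
  intro w h1 h2
  rw [mem_app2] at h1 h2
  obtain ⟨u, hu, v, hv, rfl⟩ := h1
  obtain ⟨u', hu', v', hv', h⟩ := h2
  have := (List.append_inj h (by rw [WP_len _ _ _ hu, WP_len _ _ _ hu'])).1
  have c1 := WP_count _ _ _ hu
  have c2 := WP_count _ _ _ hu'
  rw [← this, c1] at c2
  have := cA_ne n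
  omega

theorem WP_card_f (n : ℕ) : (WP (n + 1) false).card =
    2 * ((WP n false).card * (WP n true).card) := by
  rw [WP_succ_f, card_union_of_disjoint (WP_disj n),
    card_app2 (WP_len n false), card_app2 (WP_len n true)]
  ring

theorem WP_card_t (n : ℕ) : (WP (n + 1) true).card = (WP n false).card * (WP n false).card := by
  rw [WP_succ_t, card_app2 (WP_len n false)]

theorem WP_card_exact : ∀ n : ℕ,
    ((WP n false).card ^ 3 * 4 = 4 ^ 2 ^ n ∧ (WP n true).card ^ 3 * 4 = 4 ^ 2 ^ n) ∨
    ((WP n false).card ^ 3 * 2 = 4 ^ 2 ^ n ∧ (WP n true).card ^ 3 * 16 = 4 ^ 2 ^ n) := by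
  intro n
  induction n with
  | zero => left; constructor <;> rfl
  | succ n ih =>
    have e : (4 : ℕ) ^ 2 ^ (n + 1) = 4 ^ 2 ^ n * 4 ^ 2 ^ n := by
      rw [← pow_add]
      congr 1
      ring
    rcases ih with ⟨h1, h2⟩ | ⟨h1, h2⟩
    · right
      constructor
      · rw [WP_card_f, e]
        nth_rewrite 1 [← h1]
        rw [← h2]
        ring
      · rw [WP_card_t, e, ← h1]
        ring
    · left
      constructor
      · rw [WP_card_f, e]
        nth_rewrite 1 [← h1]
        rw [← h2]
        ring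
      · rw [WP_card_t, e, ← h1]
        ring

theorem WP_log (n : ℕ) (c : Bool) :
    Real.log (WP n c).card ≤ 2 / 3 * Real.log 2 * 2 ^ n ∧
      2 / 3 * Real.log 2 * 2 ^ n - 2 * Real.log 2 ≤ Real.log (WP n c).card := by
  have hpos : (0 : ℝ) < (WP n c).card := by exact_mod_cast card_pos.2 (WP_ne n c)
  have hl2 : 0 < Real.log 2 := Real.log_pos (by norm_num)
  have hl4 : Real.log 4 = 2 * Real.log 2 := by
    rw [show (4 : ℝ) = 2 ^ 2 by norm_num, Real.log_pow]; norm_num
  have hl16 : Real.log 16 = 4 * Real.log 2 := by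
    rw [show (16 : ℝ) = 2 ^ 4 by norm_num, Real.log_pow]; norm_num
  have key : ∀ k : ℕ, 0 < k → (WP n c).card ^ 3 * k = 4 ^ 2 ^ n →
      3 * Real.log (WP n c).card + Real.log k = 2 ^ n * (2 * Real.log 2) := by
    intro k hk h
    have h1 : ((WP n c).card : ℝ) ^ 3 * k = (4 : ℝ) ^ (2 ^ n) := by exact_mod_cast h
    have hk' : (0 : ℝ) < k := by exact_mod_cast hk
    have h2 := congrArg Real.log h1
    rw [Real.log_mul (by positivity) hk'.ne', Real.log_pow, Real.log_pow, hl4] at h2
    push_cast at h2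
    exact h2
  rcases WP_card_exact n with ⟨h1, h2⟩ | ⟨h1, h2⟩
  · cases c
    · have := key 4 (by norm_num) h1
      push_cast at this
      rw [hl4] at this
      constructor <;> linarith
    · have := key 4 (by norm_num) h2
      push_cast at this
      rw [hl4] at this
      constructor <;> linarith
  · cases c
    · have := key 2 (by norm_num) h1
      push_cast at this
      constructor <;> linarith
    · have := key 16 (by norm_num) h2
      push_cast at this
      rw [hl16] at this
      constructor <;> linarith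

/-! ### Mean frequencies -/

theorem WP_mn (p : List Bool) (n : ℕ) :
    (mn p (WP n false) + mn p (WP n true) ≤ mn p (WP (n + 1) false) ∧
      mn p (WP (n + 1) false) ≤ mn p (WP n false) + mn p (WP n true) + p.length) ∧
    (mn p (WP n false) + mn p (WP n false) ≤ mn p (WP (n + 1) true) ∧
      mn p (WP (n + 1) true) ≤ mn p (WP n false) + mn p (WP n false) + p.length) := by
  have h1 := mn_app2 (WP_len n false) (WP_ne n false) (WP_ne n true) p
  have h2 := mn_app2 (WP_len n true) (WP_ne n true) (WP_ne n false) p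
  have h3 := mn_app2 (WP_len n false) (WP_ne n false) (WP_ne n false) p
  refine ⟨⟨?_, ?_⟩, h3⟩
  · exact le_avg_union (WP_disj n) (app2_nonempty (WP_ne _ _) (WP_ne _ _))
      (app2_nonempty (WP_ne _ _) (WP_ne _ _)) _ h1.1 (by have := h2.1; unfold mn at *; linarith)
  · exact avg_union_le (WP_disj n) (app2_nonempty (WP_ne _ _) (WP_ne _ _))
      (app2_nonempty (WP_ne _ _) (WP_ne _ _)) _ h1.2 (by have := h2.2; unfold mn at *; linarith)

theorem pd_limit (x y : ℕ → ℝ) (K : ℝ) (hK0 : 0 ≤ K)
    (h : ∀ n, (x n + y n ≤ x (n + 1) ∧ x (n + 1) ≤ x n + y n + K) ∧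
      (x n + x n ≤ y (n + 1) ∧ y (n + 1) ≤ x n + x n + K)) :
    ∃ f : ℝ, Tendsto (fun n => x n / 2 ^ n) atTop (𝓝 f) ∧
      Tendsto (fun n => y n / 2 ^ n) atTop (𝓝 f) := by
  obtain ⟨d0, hd0⟩ : ∃ d0, d0 = |x 0 - y 0| := ⟨_, rfl⟩
  have hd00 : 0 ≤ d0 := by rw [hd0]; exact abs_nonneg _
  have hd : ∀ n : ℕ, |x n - y n| ≤ d0 + n * K := by
    intro n
    induction n with
    | zero => rw [hd0]; simp
    | succ n ih =>
      obtain ⟨⟨h1, h2⟩, h3, h4⟩ := h n
      rw [abs_le] at ih ⊢
      push_cast
      constructor <;> linarith [ih.1, ih.2]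
  have hstep : ∀ n : ℕ, |x (n + 1) / 2 ^ (n + 1) - x n / 2 ^ n| ≤
      (d0 + K) * ((n + 1 : ℕ) : ℝ) ^ 2 * (1 / 2) ^ n := by
    intro n
    obtain ⟨⟨h1, h2⟩, h3, h4⟩ := h n
    have h5 := hd n
    rw [abs_le] at h5
    have hp : (0 : ℝ) < 2 ^ n := by positivity
    have e1 : x (n + 1) / 2 ^ (n + 1) - x n / 2 ^ n =
        (x (n + 1) - 2 * x n) / 2 * (1 / 2) ^ n := by
      rw [pow_succ, one_div, inv_pow]
      field_simp
    rw [e1, abs_mul, abs_of_pos (show (0 : ℝ) < (1 / 2) ^ n by positivity)]
    apply mul_le_mul_of_nonneg_right _ (by positivity)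
    have h6 : |x (n + 1) - 2 * x n| ≤ d0 + n * K + K := by
      rw [abs_le]
      constructor <;> linarith
    rw [abs_div, abs_of_pos (show (0 : ℝ) < 2 by norm_num)]
    have hn : (0 : ℝ) ≤ n := Nat.cast_nonneg n
    have h7 : d0 + n * K + K ≤ (d0 + K) * ((n + 1 : ℕ) : ℝ) := by
      push_cast
      have := mul_nonneg hn hd00
      linarith
    have h8 : (d0 + K) * ((n + 1 : ℕ) : ℝ) ≤ (d0 + K) * ((n + 1 : ℕ) : ℝ) ^ 2 := by
      apply mul_le_mul_of_nonneg_left _ (by positivity)
      push_cast
      nlinarith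
    have h10 := abs_nonneg (x (n + 1) - 2 * x n)
    linarith
  obtain ⟨f, hf⟩ := exists_limit (z := fun n => x n / 2 ^ n) (by norm_num)
    (by norm_num) hstep
  have hdiff : Tendsto (fun n : ℕ => (x n - y n) / 2 ^ n) atTop (𝓝 0) := by
    have h1 : Tendsto (fun n : ℕ => (d0 + n * K) / 2 ^ n) atTop (𝓝 0) := by
      have a1 : Tendsto (fun n : ℕ => ((n : ℝ) ^ 1 * (1 / 2) ^ n)) atTop (𝓝 0) :=
        (summable_pow_mul_geometric_of_norm_lt_one 1
          (show ‖(1 / 2 : ℝ)‖ < 1 by rw [Real.norm_eq_abs, abs_of_pos] <;> norm_num)).tendsto_atTop_zero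
      have a2 : Tendsto (fun n : ℕ => ((1 / 2 : ℝ) ^ n)) atTop (𝓝 0) :=
        tendsto_pow_atTop_nhds_zero_of_lt_one (by norm_num) (by norm_num)
      have a3 := (a2.const_mul d0).add (a1.const_mul K)
      rw [mul_zero, mul_zero, add_zero] at a3
      refine a3.congr fun n => ?_
      rw [one_div, inv_pow, pow_one]
      field_simp
    apply squeeze_zero_norm _ h1
    intro n
    rw [Real.norm_eq_abs, abs_div, abs_of_pos (show (0 : ℝ) < 2 ^ n by positivity)]
    exact div_le_div_of_nonneg_right (hd n) (by positivity)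
  refine ⟨f, hf, ?_⟩
  have h1 := hf.sub hdiff
  rw [sub_zero] at h1
  refine h1.congr fun n => ?_
  ring

theorem WP_limit (p : List Bool) : ∃ f : ℝ, ∀ c,
    Tendsto (fun n => mn p (WP n c) / 2 ^ n) atTop (𝓝 f) := by
  obtain ⟨f, h1, h2⟩ := pd_limit (fun n => mn p (WP n false)) (fun n => mn p (WP n true))
    (p.length : ℝ) (Nat.cast_nonneg _) (fun n => WP_mn p n)
  refine ⟨f, fun c => ?_⟩
  cases c
  · exact h1
  · exact h2

open Classical in
/-- The frequency of the word `p`. -/
noncomputable def FP (p : List Bool) : ℝ := if p = [] then 1 else (WP_limit p).choose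

theorem FP_lim {p : List Bool} (hp : p ≠ []) (c : Bool) :
    Tendsto (fun n => mn p (WP n c) / 2 ^ n) atTop (𝓝 (FP p)) := by
  unfold FP
  rw [if_neg hp]
  exact (WP_limit p).choose_spec c

theorem freqP : Freq (fun n => WP n false) (fun n => 2 ^ n) FP where
  ne := fun n => WP_ne n false
  len := fun n => WP_len n false
  top := tendsto_pow_atTop_atTop_of_one_lt (by norm_num)
  nil := by unfold FP; rw [if_pos rfl]
  lim := by
    intro p hp
    refine (FP_lim hp false).congr fun n => ?_
    unfold mn avg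
    rw [div_div]
    push_cast
    rfl

theorem WP_entropy : Tendsto (fun n => Real.log (WP n false).card / ((2 ^ n : ℕ) : ℝ)) atTop
    (𝓝 (2 / 3 * Real.log 2)) := by
  have h1 : Tendsto (fun n : ℕ => 2 / 3 * Real.log 2 - 2 * Real.log 2 * (1 / 2 : ℝ) ^ n) atTop
      (𝓝 (2 / 3 * Real.log 2 - 2 * Real.log 2 * 0)) :=
    ((tendsto_pow_atTop_nhds_zero_of_lt_one (by norm_num) (by norm_num)).const_mul _).const_sub _
  rw [mul_zero, sub_zero] at h1
  apply tendsto_of_tendsto_of_tendsto_of_le_of_le h1 tendsto_const_nhds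
  · intro n
    have h := (WP_log n false).2
    have hp : (0 : ℝ) < 2 ^ n := by positivity
    push_cast
    show 2 / 3 * Real.log 2 - 2 * Real.log 2 * (1 / 2 : ℝ) ^ n ≤
      Real.log (WP n false).card / 2 ^ n
    rw [le_div_iff₀ hp, one_div, inv_pow]
    have : (2 / 3 * Real.log 2 - 2 * Real.log 2 * ((2 : ℝ) ^ n)⁻¹) * 2 ^ n =
        2 / 3 * Real.log 2 * 2 ^ n - 2 * Real.log 2 := by
      field_simp
    rw [this]
    exact h
  · intro n
    have h := (WP_log n false).1
    have hp : (0 : ℝ) < 2 ^ n := by positivity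
    push_cast
    show Real.log (WP n false).card / 2 ^ n ≤ 2 / 3 * Real.log 2
    rw [div_le_iff₀ hp]
    exact h

theorem WP_mgf (p : List Bool) (hp : p ≠ []) (δ : ℝ) (hδ : 0 < δ) :
    ∃ s0 > (0 : ℝ), ∀ s : ℝ, 0 ≤ s → s ≤ s0 →
      ∀ᶠ n in atTop, ∀ c, gm p s (WP n c) ≤ Real.exp (s * (FP p + δ) * ((2 ^ n : ℕ) : ℝ)) := by
  have hev : ∀ c, ∀ᶠ n : ℕ in atTop, mn p (WP n c) / 2 ^ n < FP p + δ / 4 := fun c =>
    (FP_lim hp c).eventually (gt_mem_nhds (by linarith))
  have hev2 : ∀ᶠ n : ℕ in atTop, (p.length : ℝ) ≤ δ / 4 * ((2 ^ n : ℕ) : ℝ) := by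
    have h1 : Tendsto (fun n : ℕ => δ / 4 * ((2 ^ n : ℕ) : ℝ)) atTop atTop :=
      (tendsto_natCast_atTop_atTop.comp
        (tendsto_pow_atTop_atTop_of_one_lt (by norm_num))).const_mul_atTop (by positivity)
    exact h1.eventually_ge_atTop _
  obtain ⟨n0, ⟨ha, hb⟩, hc⟩ := (((hev false).and (hev true)).and hev2).exists
  have hmn : ∀ c, mn p (WP n0 c) ≤ (FP p + δ / 4) * ((2 ^ n0 : ℕ) : ℝ) := by
    intro c
    have : mn p (WP n0 c) / 2 ^ n0 < FP p + δ / 4 := by cases c <;> assumption
    rw [div_lt_iff₀ (by positivity)] at this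
    push_cast
    exact this.le
  obtain ⟨s1, hs1, h1⟩ := gm_start (WP_ne n0 false) (by positivity) (WP_len n0 false) p hδ
    (hmn false) hc
  obtain ⟨s2, hs2, h2⟩ := gm_start (WP_ne n0 true) (by positivity) (WP_len n0 true) p hδ
    (hmn true) hc
  refine ⟨min s1 s2, lt_min hs1 hs2, ?_⟩
  intro s hs hss
  rw [eventually_atTop]
  refine ⟨n0, ?_⟩
  intro n hn
  obtain ⟨k, rfl⟩ := Nat.exists_eq_add_of_le hn
  clear hn
  induction k with
  | zero =>
    intro c
    cases c
    · exact h1 s hs (hss.trans (min_le_left _ _))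
    · exact h2 s hs (hss.trans (min_le_right _ _))
  | succ k ih =>
    intro c
    rw [← Nat.add_assoc]
    set n := n0 + k
    have e : Real.exp (s * (FP p + δ) * ((2 ^ n : ℕ) : ℝ)) *
        Real.exp (s * (FP p + δ) * ((2 ^ n : ℕ) : ℝ)) =
        Real.exp (s * (FP p + δ) * ((2 ^ (n + 1) : ℕ) : ℝ)) := by
      rw [← Real.exp_add]
      congr 1
      push_cast
      ring
    have hmul : ∀ x y : Bool, gm p s (app2 (WP n x) (WP n y)) ≤
        Real.exp (s * (FP p + δ) * ((2 ^ (n + 1) : ℕ) : ℝ)) := by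
      intro x y
      refine (gm_app2 (WP_len n x) (WP_ne n x) (WP_ne n y) p hs).trans ?_
      rw [← e]
      exact mul_le_mul (ih x) (ih y) (gm_nonneg _ _ _) (Real.exp_pos _).le
    cases c
    · exact avg_union_le (WP_disj n) (app2_nonempty (WP_ne _ _) (WP_ne _ _))
        (app2_nonempty (WP_ne _ _) (WP_ne _ _)) _ (hmul false true) (hmul true false)
    · exact hmul false false

theorem thP_ne : ∀ c, thP c ≠ [] := by
  intro c; cases c <;> simp [thP]

theorem FP_illegal (w : List Bool) (hw : ¬ Legal thP w) : FP w = 0 := by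
  have hw0 : w ≠ [] := by
    rintro rfl
    exact hw ⟨1, false, [false, true], le_rfl,
      ⟨[false], rfl, image_single.2 (by simp [thP])⟩, List.nil_infix⟩
  have h0 : ∀ᶠ n : ℕ in atTop, mn w (WP n false) / 2 ^ n = 0 := by
    filter_upwards [eventually_ge_atTop 1] with n hn
    have : mn w (WP n false) = 0 := by
      unfold mn avg
      rw [sum_eq_zero, zero_div]
      intro v hv
      by_contra hne
      have hpos : 0 < occ w v := by
        rcases Nat.eq_zero_or_pos (occ w v) with h | h
        · rw [h] at hne; simp at hne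
        · exact h
      exact hw ⟨n, false, v, hn, (mem_WP n false v).1 hv, infix_of_occ_pos hpos⟩
    rw [this, zero_div]
  exact tendsto_nhds_unique (FP_lim hw0 false) (tendsto_const_nhds.congr' (h0.mono fun n hn => hn.symm))

/-- Main theorem for the random period doubling subshift. -/
theorem pd_main : ∃ μ : MeasureTheory.Measure (ℤ → Bool),
    IsMME (Subshift thP) μ (2 / 3 * Real.log 2) ∧
      (∀ w, μ.real (cyl 0 w) = FP w) ∧
      ∀ ν, IsInv (Subshift thP) ν → HasEntropy ν (2 / 3 * Real.log 2) → ν = μ := by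
  classical
  have hh : (0 : ℝ) ≤ 2 / 3 * Real.log 2 := by
    have := Real.log_pos (show (1 : ℝ) < 2 by norm_num)
    positivity
  obtain ⟨μ, h1, h2, h3⟩ := unique_mme {w | Legal thP w} (2 / 3 * Real.log 2) FP freqP.cons
    (fun w hw => FP_illegal w hw) (fun M => freqP.entropy WP_entropy M)
    (hpr_of_blocks {w | Legal thP w} (2 / 3 * Real.log 2) hh FP freqP.cons WP (fun n _ => 2 ^ n)
      WP_ne WP_len
      (fun K => by
        filter_upwards [(tendsto_pow_atTop_atTop_of_one_lt
          (show (1 : ℕ) < 2 by norm_num)).eventually_ge_atTop K] with n hn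
        intro c; exact hn)
      (fun ε hε => Filter.Eventually.of_forall fun n c => by
        have := (WP_log n c).1
        have hp : (0 : ℝ) < ((2 ^ n : ℕ) : ℝ) := by positivity
        push_cast at *
        nlinarith)
      (fun n => cover_of_blocks thP_ne ⟨[], [true], by simp [thP]⟩ ⟨[false], [], by simp [thP]⟩ n
        (WP n) (fun c w h => (mem_WP n c w).2 h))
      WP_mgf)
  exact ⟨μ, h1, fun w => h2 0 w, h3⟩

/-- An abstract measure of maximal entropy equals the given one. -/
theorem mme_unique {X : Set (ℤ → Bool)} {μ ν : MeasureTheory.Measure (ℤ → Bool)} {h h' : ℝ}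
    (hμ : IsMME X μ h) (hu : ∀ ν, IsInv X ν → HasEntropy ν h → ν = μ) (hν : IsMME X ν h') :
    ν = μ := by
  obtain ⟨a, ha, ha'⟩ := hμ.2.2 ν hν.1
  obtain ⟨b, hb, hb'⟩ := hν.2.2 μ hμ.1
  have e1 : a = h' := tendsto_nhds_unique ha hν.2.1
  have e2 : b = h := tendsto_nhds_unique hb hμ.2.1
  have e3 : h' = h := by subst e1; subst e2; exact le_antisymm ha' hb'
  exact hu ν hν.1 (e3 ▸ hν.2.1)

end Pool.Agent.R200.Ie
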