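import Mathlib

/-!
# Words, occurrences, Gibbs' inequality, pressure bound
-/

namespace Pool.Agent.R200.Ie

open Finset

/-- All binary words of length `n`. -/
def wds : ℕ → Finset (List Bool)
  | 0 => {[]}
  | n + 1 => (wds n).image (List.cons false) ∪ (wds n).image (List.cons true)

theorem mem_wds {n : ℕ} {w : List Bool} : w ∈ wds n ↔ w.length = n := by
  induction n generalizing w with
  | zero =>
    unfold wds
    rw [mem_singleton, List.length_eq_zero_iff]
  | succ n ih =>
    unfold wds
    rw [mem_union, mem_image, mem_image]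
    constructor
    · rintro (⟨a, ha, rfl⟩ | ⟨a, ha, rfl⟩)
      · rw [List.length_cons, ih.1 ha]
      · rw [List.length_cons, ih.1 ha]
    · intro h
      cases w with
      | nil => simp at h
      | cons c w =>
        have hw : w ∈ wds n := ih.2 (by simpa using h)
        cases c
        · exact Or.inl ⟨w, hw, rfl⟩
        · exact Or.inr ⟨w, hw, rfl⟩

theorem sum_wds_succ (n : ℕ) (G : List Bool → ℝ) :
    ∑ w ∈ wds (n + 1), G w = ∑ w ∈ wds n, (G (false :: w) + G (true :: w)) := by
  have hdisj : Disjoint ((wds n).image (List.cons false)) ((wds n).image (List.cons true)) := by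
    rw [disjoint_left]
    intro w h1 h2
    rw [mem_image] at h1 h2
    obtain ⟨a, _, rfl⟩ := h1
    obtain ⟨b, _, hb⟩ := h2
    exact absurd (List.cons.inj hb).1 (by simp)
  show ∑ w ∈ (wds n).image (List.cons false) ∪ (wds n).image (List.cons true), G w = _
  rw [sum_union hdisj, sum_image (fun x _ y _ h => (List.cons.inj h).2),
    sum_image (fun x _ y _ h => (List.cons.inj h).2), ← sum_add_distrib]

theorem sum_wds_add (m n : ℕ) (G : List Bool → ℝ) :
    ∑ w ∈ wds (m + n), G w = ∑ u ∈ wds m, ∑ v ∈ wds n, G (u ++ v) := by
  induction m generalizing G with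
  | zero => rw [Nat.zero_add]; simp [wds]
  | succ m ih =>
    rw [show m + 1 + n = (m + n) + 1 by ring, sum_wds_succ, ih, sum_wds_succ]
    apply sum_congr rfl
    intro u _
    rw [sum_add_distrib]
    rfl

theorem sum_wds_one (G : List Bool → ℝ) : ∑ w ∈ wds 1, G w = G [false] + G [true] := by
  rw [sum_wds_succ]; simp [wds]

/-- The number of occurrences of the nonempty word `p` in a word. -/
def occ (p : List Bool) : List Bool → ℕ
  | [] => 0
  | c :: w => occ p w + if p <+: c :: w then 1 else 0

theorem occ_cons (p : List Bool) (c : Bool) (w : List Bool) :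
    occ p (c :: w) = occ p w + if p <+: c :: w then 1 else 0 := rfl

theorem prefix_append_iff {p u v : List Bool} (h : p.length ≤ u.length) :
    p <+: u ++ v ↔ p <+: u := by
  constructor
  · intro h1
    exact List.prefix_of_prefix_length_le h1 (List.prefix_append u v) h
  · intro h1
    exact h1.trans (List.prefix_append u v)

theorem occ_append_le' (p u v : List Bool) :
    occ p (u ++ v) ≤ occ p u + occ p v + min u.length p.length := by
  induction u with
  | nil => simp [occ]
  | cons c u ih =>
    rw [List.cons_append, occ_cons, occ_cons]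
    by_cases h : p.length ≤ (c :: u).length
    · have h2 : (p <+: c :: (u ++ v)) ↔ (p <+: c :: u) := by
        rw [← List.cons_append]; exact prefix_append_iff h
      rw [if_congr h2 rfl rfl]
      rw [List.length_cons] at h ⊢
      omega
    · have h3 : (if p <+: c :: (u ++ v) then 1 else 0) ≤ 1 := by split_ifs <;> omega
      rw [List.length_cons] at h ⊢
      omega

theorem occ_append_le (p u v : List Bool) :
    occ p (u ++ v) ≤ occ p u + occ p v + p.length := by
  have := occ_append_le' p u v
  omega

theorem occ_append_ge (p u v : List Bool) : occ p u + occ p v ≤ occ p (u ++ v) := by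
  induction u with
  | nil => simp [occ]
  | cons c u ih =>
    rw [List.cons_append, occ_cons, occ_cons]
    have h : (if p <+: c :: u then 1 else 0) ≤ (if p <+: c :: (u ++ v) then 1 else 0) := by
      by_cases h1 : p <+: c :: u
      · rw [if_pos h1, if_pos (h1.trans (by rw [← List.cons_append]; exact List.prefix_append _ _))]
      · rw [if_neg h1]; omega
    omega

theorem occ_infix {p u w : List Bool} (h : u <:+: w) : occ p u ≤ occ p w := by
  obtain ⟨s, t, rfl⟩ := h
  have h1 := occ_append_ge p (s ++ u) t
  have h2 := occ_append_ge p s u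
  omega

theorem occ_le_length (p w : List Bool) : occ p w ≤ w.length := by
  induction w with
  | nil => simp [occ]
  | cons c w ih =>
    rw [occ_cons, List.length_cons]
    split_ifs <;> omega

theorem occ_eq_zero {p w : List Bool} (h : w.length < p.length) : occ p w = 0 := by
  induction w with
  | nil => rfl
  | cons c w ih =>
    rw [List.length_cons] at h
    rw [occ_cons, ih (by omega), if_neg]
    intro h1
    have := h1.length_le
    rw [List.length_cons] at this
    omega

theorem infix_of_occ_pos {p w : List Bool} (h : 0 < occ p w) : p <:+: w := by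
  induction w with
  | nil => simp [occ] at h
  | cons c w ih =>
    rw [occ_cons] at h
    by_cases h1 : p <+: c :: w
    · exact h1.isInfix
    · rw [if_neg h1] at h
      exact (ih (by omega)).trans (List.suffix_cons c w).isInfix

/-! ### Gibbs' inequality -/

theorem gibbs {ι : Type*} (S : Finset ι) (p q : ι → ℝ) (hp : ∀ i ∈ S, 0 ≤ p i)
    (hsum : ∑ i ∈ S, p i = 1) (hq : ∀ i ∈ S, 0 ≤ q i) (hpq : ∀ i ∈ S, p i ≠ 0 → 0 < q i) :
    ∑ i ∈ S, Real.negMulLog (p i) + ∑ i ∈ S, p i * Real.log (q i) ≤
      Real.log (∑ i ∈ S, q i) := by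
  have hZ : 0 < ∑ i ∈ S, q i := by
    have hex : ∃ i ∈ S, p i ≠ 0 := by
      by_contra hcon
      push Not at hcon
      rw [sum_eq_zero hcon] at hsum
      exact zero_ne_one hsum
    obtain ⟨i, hi, hi2⟩ := hex
    exact lt_of_lt_of_le (hpq i hi hi2) (single_le_sum hq hi)
  set Z := ∑ i ∈ S, q i with hZdef
  have hterm : ∀ i ∈ S, Real.negMulLog (p i) + p i * Real.log (q i) ≤
      p i * Real.log Z + (q i / Z - p i) := by
    intro i hi
    by_cases h0 : p i = 0
    · rw [h0]
      simp only [Real.negMulLog_zero, zero_mul, add_zero, zero_add, sub_zero]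
      exact div_nonneg (hq i hi) hZ.le
    · have hpi : 0 < p i := lt_of_le_of_ne (hp i hi) (Ne.symm h0)
      have hqi := hpq i hi h0
      have h1 : Real.log (q i / (p i * Z)) ≤ q i / (p i * Z) - 1 :=
        Real.log_le_sub_one_of_pos (by positivity)
      rw [Real.log_div hqi.ne' (by positivity), Real.log_mul hpi.ne' hZ.ne'] at h1
      have h2 := mul_le_mul_of_nonneg_left h1 hpi.le
      have h3 : p i * (q i / (p i * Z) - 1) = q i / Z - p i := by
        field_simp
      rw [h3] at h2
      unfold Real.negMulLog
      nlinarith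
  have h := sum_le_sum hterm
  rw [sum_add_distrib, sum_add_distrib, ← sum_mul, hsum, sum_sub_distrib, ← sum_div, hsum,
    ← hZdef, div_self hZ.ne'] at h
  linarith

/-! ### Covering sums -/

theorem sum_le_of_cover {α ι : Type*} (S : Finset α) (I : Finset ι) (π : ι → α) (f : α → ℝ)
    (g : ι → ℝ) (hg : ∀ i ∈ I, 0 ≤ g i) (h : ∀ a ∈ S, ∃ i ∈ I, π i = a ∧ f a ≤ g i) :
    ∑ a ∈ S, f a ≤ ∑ i ∈ I, g i := by
  classical
  rcases S.eq_empty_or_nonempty with rfl | ⟨a0, ha0⟩
  · rw [sum_empty]; exact sum_nonneg hg
  obtain ⟨i0, -, -⟩ := h a0 ha0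
  have : Nonempty ι := ⟨i0⟩
  choose! c hc using h
  have hinj : Set.InjOn c (S : Set α) := by
    intro a ha b hb hab
    rw [← (hc a ha).2.1, ← (hc b hb).2.1, hab]
  calc ∑ a ∈ S, f a ≤ ∑ a ∈ S, g (c a) := sum_le_sum fun a ha => (hc a ha).2.2
    _ = ∑ i ∈ S.image c, g i := (sum_image hinj).symm
    _ ≤ ∑ i ∈ I, g i := by
        apply sum_le_sum_of_subset_of_nonneg
        · intro i hi
          rw [mem_image] at hi
          obtain ⟨a, ha, rfl⟩ := hi
          exact (hc a ha).1
        · intro i hi _
          exact hg i hi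

/-- Concatenations of `m` blocks from `B`. -/
def conc (B : Finset (List Bool)) : ℕ → Finset (List Bool)
  | 0 => {[]}
  | m + 1 => (B ×ˢ conc B m).image fun z => z.1 ++ z.2

theorem sum_conc (B : Finset (List Bool)) (p : List Bool) (s g : ℝ) (hs : 0 ≤ s)
    (hB : ∑ v ∈ B, Real.exp (s * (occ p v + p.length) - g * v.length) ≤ 1) (m : ℕ) :
    ∑ w ∈ conc B m, Real.exp (s * occ p w - g * w.length) ≤ 1 := by
  induction m with
  | zero => simp [conc, occ]
  | succ m ih =>
    calc ∑ w ∈ conc B (m + 1), Real.exp (s * occ p w - g * w.length)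
        ≤ ∑ z ∈ B ×ˢ conc B m, Real.exp (s * (occ p z.1 + p.length) - g * z.1.length) *
            Real.exp (s * occ p z.2 - g * z.2.length) := by
          apply sum_le_of_cover _ _ (fun z => z.1 ++ z.2)
          · intro z _; positivity
          · intro w hw
            unfold conc at hw
            rw [mem_image] at hw
            obtain ⟨z, hz, rfl⟩ := hw
            refine ⟨z, hz, rfl, ?_⟩
            rw [← Real.exp_add, Real.exp_le_exp, List.length_append]
            have h1 : (occ p (z.1 ++ z.2) : ℝ) ≤ occ p z.1 + occ p z.2 + p.length := by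
              exact_mod_cast occ_append_le p z.1 z.2
            push_cast
            nlinarith [mul_le_mul_of_nonneg_left h1 hs]
      _ = (∑ v ∈ B, Real.exp (s * (occ p v + p.length) - g * v.length)) *
            ∑ w ∈ conc B m, Real.exp (s * occ p w - g * w.length) := by
          rw [sum_product, sum_mul]
          apply sum_congr rfl
          intro v _
          rw [mul_sum]
      _ ≤ 1 * 1 := by
          apply mul_le_mul hB ih
          · exact sum_nonneg fun _ _ => (Real.exp_pos _).le
          · norm_num
      _ = 1 := one_mul 1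

/-- The pressure bound from a block covering. -/
theorem pressure_of_blocks (L : Set (List Bool)) [DecidablePred (· ∈ L)] (B : Finset (List Bool))
    (C : ℕ) (hB0 : ∀ v ∈ B, v ≠ [])
    (hL : ∀ w ∈ L, ∃ m, ∃ W ∈ conc B m, w <:+: W ∧ W.length ≤ w.length + C)
    (p : List Bool) (s g : ℝ) (hs : 0 ≤ s) (hg : 0 ≤ g)
    (hB : ∑ v ∈ B, Real.exp (s * (occ p v + p.length) - g * v.length) ≤ 1) (N : ℕ) :
    ∑ w ∈ (wds N).filter (· ∈ L), Real.exp (s * occ p w) ≤
      ((N + C + 1 : ℕ) : ℝ) ^ 2 * Real.exp (g * (N + C : ℕ)) := by
  have hlen : ∀ m, ∀ W ∈ conc B m, m ≤ W.length := by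
    intro m
    induction m with
    | zero => intro W _; exact Nat.zero_le _
    | succ m ih =>
      intro W hW
      unfold conc at hW
      rw [mem_image] at hW
      obtain ⟨z, hz, rfl⟩ := hW
      rw [mem_product] at hz
      have h1 := ih _ hz.2
      have h2 : 0 < z.1.length := List.length_pos_iff.2 (hB0 _ hz.1)
      rw [List.length_append]
      omega
  calc ∑ w ∈ (wds N).filter (· ∈ L), Real.exp (s * occ p w)
      ≤ ∑ z ∈ (range (N + C + 1)).sigma (fun m => conc B m ×ˢ range (N + C + 1)),
          (Real.exp (s * occ p z.2.1 - g * z.2.1.length) * Real.exp (g * (N + C : ℕ))) := by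
        apply sum_le_of_cover _ _ (fun z : (_ : ℕ) × (List Bool × ℕ) =>
          (z.2.1.drop z.2.2).take N)
        · intro z _; positivity
        · intro w hw
          rw [mem_filter, mem_wds] at hw
          obtain ⟨m, W, hW, ⟨a, b, hab⟩, hWlen⟩ := hL w hw.2
          have hm := hlen m W hW
          rw [hw.1] at hWlen
          have hlenW : W.length = a.length + w.length + b.length := by
            rw [← hab, List.length_append, List.length_append]
          refine ⟨⟨m, (W, a.length)⟩, ?_, ?_, ?_⟩
          · rw [mem_sigma, mem_product, mem_range, mem_range]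
            exact ⟨by simp only; omega, hW, by simp only; omega⟩
          · show (W.drop a.length).take N = w
            rw [← hab, List.append_assoc, List.drop_left, ← hw.1, List.take_left]
          · rw [← Real.exp_add, Real.exp_le_exp]
            have h1 : (occ p w : ℝ) ≤ occ p W := by
              exact_mod_cast occ_infix (p := p) ⟨a, b, hab⟩
            have h2 : (W.length : ℝ) ≤ ((N + C : ℕ) : ℝ) := by exact_mod_cast hWlen
            have h3 := mul_le_mul_of_nonneg_left h1 hs
            have h4 := mul_le_mul_of_nonneg_left h2 hg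
            show s * (occ p w : ℝ) ≤ s * occ p W - g * W.length + g * (N + C : ℕ)
            linarith
    _ = ∑ m ∈ range (N + C + 1), (∑ W ∈ conc B m, Real.exp (s * occ p W - g * W.length)) *
          (((N + C + 1 : ℕ) : ℝ) * Real.exp (g * (N + C : ℕ))) := by
        rw [sum_sigma]
        apply sum_congr rfl
        intro m _
        rw [sum_product, sum_mul]
        apply sum_congr rfl
        intro W _
        show ∑ y ∈ range (N + C + 1), Real.exp (s * ↑(occ p W) - g * ↑W.length) *
          Real.exp (g * ↑(N + C)) = _
        rw [sum_const, card_range, nsmul_eq_mul]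
        ring
    _ ≤ ∑ m ∈ range (N + C + 1), 1 * (((N + C + 1 : ℕ) : ℝ) * Real.exp (g * (N + C : ℕ))) := by
        apply sum_le_sum
        intro m _
        exact mul_le_mul_of_nonneg_right (sum_conc B p s g hs hB m) (by positivity)
    _ = ((N + C + 1 : ℕ) : ℝ) ^ 2 * Real.exp (g * (N + C : ℕ)) := by
        rw [sum_const, card_range, nsmul_eq_mul]
        ring

end Pool.Agent.R200.Ie
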