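import Mathlib

/-!
Definitions for the problem MP_86c582_an (isolated transitive multidimensional shifts).
-/

set_option autoImplicit false

namespace Pool.Agent.R200.Iso

/-- A configuration: a map from the lattice to the integers (the alphabets are finite subsets of
the integers). -/
abbrev Config (d : ℕ) := (Fin d → ℤ) → ℤ

/-- The translation action: `(shiftBy u x) v = x (u + v)`. -/
def shiftBy {d : ℕ} (u : Fin d → ℤ) (x : Config d) : Config d := fun v => x (u + v)

/-- The sup norm of a lattice point, as a natural number. -/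
def supNorm {d : ℕ} (n : Fin d → ℤ) : ℕ := Finset.univ.sup fun i => (n i).natAbs

open Classical in
/-- `delta x y = 2 ^ (- min {‖n‖ : x n ≠ y n})`, and `0` if `x = y`. -/
noncomputable def delta {d : ℕ} (x y : Config d) : ℝ :=
  if x = y then 0 else (1 / 2 : ℝ) ^ sInf {m : ℕ | ∃ n, supNorm n = m ∧ x n ≠ y n}

/-- The Hausdorff distance of two sets of configurations. -/
noncomputable def hausDelta {d : ℕ} (X Z : Set (Config d)) : ℝ :=
  max (⨆ x : X, ⨅ z : Z, delta (x : Config d) (z : Config d))
    (⨆ z : Z, ⨅ x : X, delta (x : Config d) (z : Config d))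

/-- A `d`-dimensional shift: a compact (for the product topology of the discrete topologies, which
is the topology of `delta`), translation invariant set of configurations over some finite alphabet
of integers. -/
structure IsShift {d : ℕ} (X : Set (Config d)) : Prop where
  alphabet : ∃ A : Finset ℤ, ∀ x ∈ X, ∀ v, x v ∈ A
  compact : IsCompact X
  invariant : ∀ u : Fin d → ℤ, ∀ x ∈ X, shiftBy u x ∈ X

/-- A transitive shift: some point has a dense orbit. -/
def IsTransitive {d : ℕ} (X : Set (Config d)) : Prop :=
  IsShift X ∧ ∃ x ∈ X, X ⊆ closure (Set.range fun u => shiftBy u x)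

/-- `X` is isolated in the space of transitive `d`-dimensional shifts with the Hausdorff
distance. -/
def IsIsolatedTransitive {d : ℕ} (X : Set (Config d)) : Prop :=
  IsTransitive X ∧ ∃ ε : ℝ, 0 < ε ∧ ∀ Y : Set (Config d), IsTransitive Y →
    hausDelta X Y < ε → Y = X

/-- The patterns on `{0, ..., n-1}^d` that appear in configurations of `X`. -/
def patterns {d : ℕ} (X : Set (Config d)) (n : ℕ) : Set ((Fin d → Fin n) → ℤ) :=
  {p | ∃ x ∈ X, ∃ u : Fin d → ℤ, ∀ i, p i = x (fun k => u k + ((i k : ℕ) : ℤ))}

/-- `X` has topological entropy `h`. -/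
def HasEntropy {d : ℕ} (X : Set (Config d)) (h : ℝ) : Prop :=
  Filter.Tendsto (fun n : ℕ => Real.log ((patterns X n).ncard) / (n : ℝ) ^ d) Filter.atTop
    (nhds h)

end Pool.Agent.R200.Iso
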