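import Pool.Agent.R200.IsoFin

/-!
Isolated transitive shifts have zero entropy.
-/

set_option autoImplicit false

open Filter Topology

namespace Pool.Agent.R200.Iso

variable {d : ℕ}

lemma tendsto_layer (n : ℕ) :
    Tendsto (fun N : ℕ => ((N : ℝ) ^ d - ((N - 2 * n : ℕ) : ℝ) ^ d) / (N : ℝ) ^ d) atTop (𝓝 0) := by
  have h1 : Tendsto (fun N : ℕ => ((N - 2 * n : ℕ) : ℝ) / (N : ℝ)) atTop (𝓝 1) := by
    have h2 : Tendsto (fun N : ℕ => 1 - (2 * n : ℝ) / (N : ℝ)) atTop (𝓝 (1 - 0)) :=
      tendsto_const_nhds.sub (tendsto_const_nhds.div_atTop tendsto_natCast_atTop_atTop)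
    rw [sub_zero] at h2
    refine h2.congr' ?_
    filter_upwards [eventually_ge_atTop (2 * n + 1)] with N hN
    have hN0 : (N : ℝ) ≠ 0 := by
      have : 0 < N := by omega
      exact_mod_cast this.ne'
    rw [Nat.cast_sub (by omega)]
    field_simp
    push_cast
    ring
  have h2 : Tendsto (fun N : ℕ => 1 - (((N - 2 * n : ℕ) : ℝ) / (N : ℝ)) ^ d) atTop
      (𝓝 (1 - 1 ^ d)) := tendsto_const_nhds.sub (h1.pow d)
  rw [one_pow, sub_self] at h2
  refine h2.congr' ?_
  filter_upwards [eventually_gt_atTop 0] with N hN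
  have hN0 : (N : ℝ) ^ d ≠ 0 := by
    have : (N : ℝ) ≠ 0 := by exact_mod_cast hN.ne'
    positivity
  rw [sub_div, div_self hN0, div_pow]

lemma tendsto_log_div (hd : 1 ≤ d) (C : ℕ) :
    Tendsto (fun M : ℕ => Real.log ((C + 1 : ℝ) * (M : ℝ) ^ d + 1) / (M : ℝ) ^ d) atTop (𝓝 0) := by
  have hpow : Tendsto (fun M : ℕ => (M : ℝ) ^ d) atTop atTop :=
    (tendsto_pow_atTop (by omega)).comp tendsto_natCast_atTop_atTop
  have h1 : Tendsto (fun t : ℝ => Real.log ((C + 1 : ℝ) * t + 1) / t) atTop (𝓝 0) := by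
    have ht : Tendsto (fun t : ℝ => (C + 1 : ℝ) * t + 1) atTop atTop :=
      tendsto_atTop_add_const_right _ _ (tendsto_id.const_mul_atTop (by positivity))
    have h2 := Real.isLittleO_log_id_atTop.comp_tendsto ht
    have h3 : (fun t : ℝ => (C + 1 : ℝ) * t + 1) =O[atTop] (fun t : ℝ => t) := by
      refine Asymptotics.IsBigO.of_bound (C + 2) ?_
      filter_upwards [eventually_ge_atTop 1] with t ht
      rw [Real.norm_of_nonneg (by positivity), Real.norm_of_nonneg (by positivity)]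
      linarith
    have h4 := h2.trans_isBigO h3
    exact h4.tendsto_div_nhds_zero
  exact h1.comp hpow

theorem entropy_zero (hd : 1 ≤ d) {X : Set (Config d)} (hX : IsIsolatedTransitive X) :
    HasEntropy X 0 := by
  obtain ⟨A, n, hAne, hbound⟩ := isolated_bound hX
  have ha : 1 ≤ A.card := hAne.card_pos
  have hL : 0 ≤ Real.log A.card := Real.log_natCast_nonneg _
  unfold HasEntropy
  rw [Metric.tendsto_atTop]
  intro η hη
  -- choose the cube size
  have h1 : ∀ᶠ N : ℕ in atTop,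
      ((N : ℝ) ^ d - ((N - 2 * n : ℕ) : ℝ) ^ d) / (N : ℝ) ^ d * Real.log A.card < η := by
    have := (tendsto_layer (d := d) n).mul_const (Real.log A.card)
    rw [zero_mul] at this
    exact this.eventually_lt_const hη
  obtain ⟨N, hN1, hN0⟩ := (h1.and (eventually_gt_atTop 0)).exists
  obtain ⟨C, hC⟩ := hbound N hN0
  set b := Nat.card (Bd d N n) with hb
  have hNR : (0 : ℝ) < N := by exact_mod_cast hN0
  have hf : (1 / (N : ℝ)) ^ d * b * Real.log A.card < η := by
    refine lt_of_le_of_lt ?_ hN1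
    have := card_Bd (d := d) N n
    rw [one_div, inv_pow, div_eq_mul_inv, mul_comm (((N : ℝ) ^ d)⁻¹)]
    gcongr
  -- the bound on the logarithm
  have hlog : ∀ M : ℕ, 1 ≤ M → Real.log ((patterns X M).ncard) / (M : ℝ) ^ d ≤
      d * Real.log N / (M : ℝ) ^ d + (1 / (N : ℝ) + 2 / (M : ℝ)) ^ d * b * Real.log A.card +
        Real.log ((C + 1 : ℝ) * (M : ℝ) ^ d + 1) / (M : ℝ) ^ d := by
    intro M hM
    have hMR : (0 : ℝ) < M := by exact_mod_cast hM
    have hMd : (0 : ℝ) < (M : ℝ) ^ d := by positivity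
    have e1 : (1 / (N : ℝ) + 2 / (M : ℝ)) ^ d * b * Real.log A.card =
        (((M : ℝ) / N + 2) ^ d * b * Real.log A.card) / (M : ℝ) ^ d := by
      have : (1 / (N : ℝ) + 2 / (M : ℝ)) = ((M : ℝ) / N + 2) / M := by field_simp
      rw [this, div_pow]
      ring
    rw [e1, ← add_div, ← add_div]
    apply div_le_div_of_nonneg_right _ hMd.le
    have hR : 0 ≤ d * Real.log N + ((M : ℝ) / N + 2) ^ d * b * Real.log A.card +
        Real.log ((C + 1 : ℝ) * (M : ℝ) ^ d + 1) := by
      have := Real.log_natCast_nonneg N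
      have h3 : 0 ≤ Real.log ((C + 1 : ℝ) * (M : ℝ) ^ d + 1) := by
        apply Real.log_nonneg
        have : 0 ≤ (C + 1 : ℝ) * (M : ℝ) ^ d := by positivity
        linarith
      positivity
    rcases Nat.eq_zero_or_pos (patterns X M).ncard with h0 | hpos
    · rw [h0]; simpa using hR
    · have h2 : ((patterns X M).ncard : ℝ) ≤
          ((N : ℝ) ^ d * ((A.card : ℝ) ^ b) ^ ((M / N + 2) ^ d)) *
            ((C + 1 : ℝ) * (M : ℝ) ^ d + 1) := by
        have h3 : ((patterns X M).ncard : ℝ) ≤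
            (N : ℝ) ^ d * ((A.card : ℝ) ^ b) ^ ((M / N + 2) ^ d) + C * (M : ℝ) ^ d := by
          exact_mod_cast hC M
        have h4 : (1 : ℝ) ≤ (N : ℝ) ^ d * ((A.card : ℝ) ^ b) ^ ((M / N + 2) ^ d) := by
          have : 1 ≤ N ^ d * (A.card ^ b) ^ ((M / N + 2) ^ d) :=
            Nat.one_le_iff_ne_zero.2 (by positivity)
          exact_mod_cast this
        have h5 : 0 ≤ (C : ℝ) * (M : ℝ) ^ d := by positivity
        nlinarith
      have hlog1 : Real.log ((patterns X M).ncard) ≤ Real.log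
          (((N : ℝ) ^ d * ((A.card : ℝ) ^ b) ^ ((M / N + 2) ^ d)) *
            ((C + 1 : ℝ) * (M : ℝ) ^ d + 1)) :=
        Real.log_le_log (by exact_mod_cast hpos) h2
      have hA0 : (A.card : ℝ) ≠ 0 := by
        have : 0 < A.card := ha
        exact_mod_cast this.ne'
      rw [Real.log_mul (by positivity) (by positivity), Real.log_mul (by positivity) (by positivity),
        Real.log_pow, Real.log_pow, Real.log_pow] at hlog1
      refine hlog1.trans ?_
      have h6 : (((M / N + 2) ^ d : ℕ) : ℝ) ≤ ((M : ℝ) / N + 2) ^ d := by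
        push_cast
        gcongr
        exact Nat.cast_div_le
      have h7 : (((M / N + 2) ^ d : ℕ) : ℝ) * (b * Real.log A.card) ≤
          ((M : ℝ) / N + 2) ^ d * b * Real.log A.card := by
        rw [mul_assoc]
        gcongr
      linarith
  have hT : Tendsto (fun M : ℕ =>
      d * Real.log N / (M : ℝ) ^ d + (1 / (N : ℝ) + 2 / (M : ℝ)) ^ d * b * Real.log A.card +
        Real.log ((C + 1 : ℝ) * (M : ℝ) ^ d + 1) / (M : ℝ) ^ d) atTop
      (𝓝 (0 + (1 / (N : ℝ) + 0) ^ d * b * Real.log A.card + 0)) := by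
    have hpow : Tendsto (fun M : ℕ => (M : ℝ) ^ d) atTop atTop :=
      (tendsto_pow_atTop (by omega)).comp tendsto_natCast_atTop_atTop
    refine (Tendsto.add (tendsto_const_nhds.div_atTop hpow) ?_).add (tendsto_log_div hd C)
    exact ((((tendsto_const_nhds.add (tendsto_const_nhds.div_atTop
      tendsto_natCast_atTop_atTop)).pow d).mul_const _).mul_const _)
  rw [zero_add, add_zero, add_zero] at hT
  obtain ⟨M0, hM0⟩ := eventually_atTop.1 (hT.eventually_lt_const hf)
  refine ⟨max M0 1, fun M hM => ?_⟩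
  have hM1 : 1 ≤ M := le_of_max_le_right hM
  rw [Real.dist_eq, sub_zero, abs_of_nonneg]
  · exact lt_of_le_of_lt (hlog M hM1) (hM0 M (le_of_max_le_left hM))
  · exact div_nonneg (Real.log_natCast_nonneg _) (by positivity)

end Pool.Agent.R200.Iso
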