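import Pool.Agent.R200.IsoMain

/-!
Counting patterns of the modified configuration and the final theorem.
-/

set_option autoImplicit false

open Filter Topology

namespace Pool.Agent.R200.Iso

variable {d : ℕ}

/-- A finite set of positions where all `m`-windows of `X` are seen in the transitive point. -/
lemma exists_positions {X : Set (Config d)} (A : Finset ℤ) (hA : ∀ x ∈ X, ∀ v, x v ∈ A)
    {x : Config d} (hx : x ∈ X)
    (hdense : X ⊆ closure (Set.range fun u => shiftBy u x)) (m : ℕ) :
    ∃ U : Finset (Fin d → ℤ), ∀ z ∈ X, ∃ u ∈ U, ∀ w : Fin d → ℤ, supNorm w ≤ m →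
      x (u + w) = z w := by
  classical
  let W : Finset (Fin d → ℤ) := Fintype.piFinset fun _ => Finset.Icc (-(m : ℤ)) m
  have hW : ∀ w : Fin d → ℤ, supNorm w ≤ m ↔ w ∈ W := by
    intro w
    rw [supNorm_le, Fintype.mem_piFinset]
    simp [Finset.mem_Icc]
  let P := W → A
  let f : P → (Fin d → ℤ) := fun p =>
    if h : ∃ u : Fin d → ℤ, ∀ w : W, x (u + w) = p w then h.choose else 0
  refine ⟨Finset.univ.image f, fun z hz => ?_⟩
  obtain ⟨u, hu⟩ := exists_agree_of_mem_closure (hdense hz) W
  let p : P := fun w => ⟨z w, hA z hz w⟩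
  have h : ∃ u : Fin d → ℤ, ∀ w : W, x (u + w) = p w := ⟨u, fun w => hu w w.2⟩
  refine ⟨f p, Finset.mem_image_of_mem _ (Finset.mem_univ _), fun w hw => ?_⟩
  have h1 : f p = h.choose := dif_pos h
  rw [h1]
  exact h.choose_spec ⟨w, (hW w).1 hw⟩

/-- boundary positions of the cube -/
abbrev Bd (d N n : ℕ) := {t : Fin d → Fin N // ¬ inner N n t}

open Classical in
/-- extend a boundary pattern by zero -/
noncomputable def unmask (N n : ℕ) {A : Finset ℤ} (μ : Bd d N n → A) : (Fin d → Fin N) → ℤ :=
  fun t => if h : ¬ inner N n t then (μ ⟨t, h⟩ : ℤ) else 0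

/-- The number of patterns of the modified configuration. -/
lemma count_patterns (N n : ℕ) [NeZero N] {X : Set (Config d)} (A : Finset ℤ)
    (hA : ∀ x ∈ X, ∀ v, x v ∈ A) {x : Config d} (hx : x ∈ X) (S : Finset (Fin d → ℤ)) (M : ℕ) :
    ((patterns (closure (Set.range fun u => shiftBy u (modif N n X x S))) M).ncard) ≤
      N ^ d * (A.card ^ Nat.card (Bd d N n)) ^ ((M / N + 2) ^ d) + S.card * N ^ d * M ^ d := by
  classical
  have h0 : (0 : ℤ) < N := by exact_mod_cast Nat.pos_of_ne_zero (NeZero.ne N)
  set y := modif N n X x S with hy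
  -- the finite set of windows meeting the special cubes
  let U' : Finset (Fin d → ℤ) :=
    ((S ×ˢ (Finset.univ : Finset (Fin d → Fin N))) ×ˢ (Finset.univ : Finset (Fin d → Fin M))).image
      fun p => fun k => cell N p.1.1 p.1.2 k - ((p.2 k : ℕ) : ℤ)
  have hU' : U'.card ≤ S.card * N ^ d * M ^ d := by
    refine Finset.card_image_le.trans ?_
    simp [Finset.card_product]
  let G : ((Fin d → Fin N) × ((Fin d → Fin (M / N + 2)) → (Bd d N n → A))) →
      ((Fin d → Fin M) → ℤ) := fun p i =>
    fill N n X (unmask N n (p.2 fun k => ⟨((p.1 k : ℕ) + (i k : ℕ)) / N, by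
      have h1 := (p.1 k).isLt
      have h2 := (i k).isLt
      have hN : 0 < N := Nat.pos_of_ne_zero (NeZero.ne N)
      have h3 : ((p.1 k : ℕ) + (i k : ℕ)) / N ≤ (M + N) / N := Nat.div_le_div_right (by omega)
      rw [Nat.add_div_right _ hN] at h3
      omega⟩))
      (fun k => ⟨((p.1 k : ℕ) + (i k : ℕ)) % N, Nat.mod_lt _ (Nat.pos_of_ne_zero (NeZero.ne N))⟩)
  have hsub : patterns (closure (Set.range fun u => shiftBy u y)) M ⊆
      Set.range G ∪ ((fun u : Fin d → ℤ => fun i : Fin d → Fin M =>
        y (fun k => u k + ((i k : ℕ) : ℤ))) '' (U' : Set (Fin d → ℤ))) := by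
    rintro p ⟨z, hz, u0, hp⟩
    obtain ⟨u1, hu1⟩ := exists_agree_of_mem_closure hz
      ((Finset.univ : Finset (Fin d → Fin M)).image fun i => fun k => u0 k + ((i k : ℕ) : ℤ))
    have hp' : ∀ i, p i = y (fun k => (u1 + u0) k + ((i k : ℕ) : ℤ)) := by
      intro i
      rw [hp i, ← hu1 _ (Finset.mem_image_of_mem _ (Finset.mem_univ i))]
      congr 1
      funext k
      simp [add_assoc]
    set u := u1 + u0
    by_cases hU : u ∈ U'
    · right
      exact ⟨u, hU, by funext i; exact (hp' i).symm⟩
    · left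
      refine ⟨⟨cr N u, fun κ => fun b => ⟨cubePat N x (fun k => cq N u k + ((κ k : ℕ) : ℤ)) b.1,
        hA x hx _⟩⟩, ?_⟩
      funext i
      rw [hp' i]
      have hns : cq N (fun k => u k + ((i k : ℕ) : ℤ)) ∉ S := by
        intro hS
        apply hU
        rw [Finset.mem_image]
        refine ⟨((cq N (fun k => u k + ((i k : ℕ) : ℤ)), cr N (fun k => u k + ((i k : ℕ) : ℤ))), i),
          ?_, ?_⟩
        · simp [hS]
        · funext k
          simp only [cell_cq_cr]
          ring
      have hns' : cq N (fun k => u k + ((i k : ℕ) : ℤ)) ∉ (S : Set (Fin d → ℤ)) := hns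
      rw [hy, modif, if_neg hns']
      have key : ∀ k, (u k + ((i k : ℕ) : ℤ)) / (N : ℤ) =
          u k / N + (((cr N u k : ℕ) + (i k : ℕ)) / N : ℕ) ∧
          (u k + ((i k : ℕ) : ℤ)) % (N : ℤ) = (((cr N u k : ℕ) + (i k : ℕ)) % N : ℕ) := by
        intro k
        have e1 := Int.mul_ediv_add_emod (u k) N
        have e2 := cr_val N u k
        have e3 : u k + ((i k : ℕ) : ℤ) = ((cr N u k : ℕ) + (i k : ℕ) : ℤ) + (N : ℤ) * (u k / N) := by
          rw [e2]; linarith
        constructor
        · rw [e3, Int.add_mul_ediv_left _ _ h0.ne']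
          push_cast
          ring
        · rw [e3, Int.add_mul_emod_self_left]
          push_cast
          rfl
      have e1 : (mask N n (cubePat N x (cq N fun k => u k + ((i k : ℕ) : ℤ)))) =
          unmask N n (A := A) (fun b => ⟨cubePat N x (fun k => cq N u k +
            ((((cr N u k : ℕ) + (i k : ℕ)) / N : ℕ) : ℤ)) b.1, hA x hx _⟩) := by
        funext t
        unfold mask unmask
        by_cases ht : inner N n t
        · rw [if_pos ht, dif_neg (not_not.2 ht)]
        · rw [if_neg ht, dif_pos ht]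
          congr 1
          funext k
          exact (key k).1
      rw [e1]
      have e0 : (fun k => (⟨((cr N u k : ℕ) + (i k : ℕ)) % N,
          Nat.mod_lt _ (Nat.pos_of_ne_zero (NeZero.ne N))⟩ : Fin N)) =
          cr N (fun k => u k + ((i k : ℕ) : ℤ)) := by
        funext k
        apply Fin.ext
        have e2 := cr_val N (fun k => u k + ((i k : ℕ) : ℤ)) k
        rw [(key k).2] at e2
        exact_mod_cast e2.symm
      rw [← e0]
  refine (Set.ncard_le_ncard hsub ?_).trans ((Set.ncard_union_le _ _).trans ?_)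
  · exact (Set.finite_range G).union (U'.finite_toSet.image _)
  · apply Nat.add_le_add
    · have h1 : (Set.range G).ncard ≤ Nat.card ((Fin d → Fin N) ×
          ((Fin d → Fin (M / N + 2)) → (Bd d N n → A))) := by
        rw [← Set.image_univ]
        refine (Set.ncard_image_le Set.finite_univ).trans ?_
        rw [Set.ncard_univ]
      refine h1.trans (le_of_eq ?_)
      have c1 : Nat.card (Fin d → Fin N) = N ^ d := by
        rw [Nat.card_eq_fintype_card]; simp
      have c2 : Nat.card (Fin d → Fin (M / N + 2)) = (M / N + 2) ^ d := by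
        rw [Nat.card_eq_fintype_card]; simp
      have c3 : Nat.card A = A.card := by
        rw [Nat.card_eq_fintype_card]; simp
      rw [Nat.card_prod, Nat.card_fun (α := Fin d → Fin (M / N + 2)),
        Nat.card_fun (α := Bd d N n), c1, c2, c3]
    · refine (Set.ncard_image_le U'.finite_toSet).trans ?_
      rw [Set.ncard_coe_finset]
      exact hU'

/-- The number of boundary positions. -/
lemma card_Bd (N n : ℕ) : (Nat.card (Bd d N n) : ℝ) ≤ (N : ℝ) ^ d - ((N - 2 * n : ℕ) : ℝ) ^ d := by
  classical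
  have h1 : Nat.card (Bd d N n) + Nat.card {t : Fin d → Fin N // inner N n t} = N ^ d := by
    rw [Nat.card_eq_fintype_card, Nat.card_eq_fintype_card]
    have h2 : Fintype.card (Fin d → Fin N) = N ^ d := by simp
    rw [← h2, Fintype.card_subtype, Fintype.card_subtype, add_comm,
      Finset.card_filter_add_card_filter_not]
    rfl
  have h2 : (N - 2 * n) ^ d ≤ Nat.card {t : Fin d → Fin N // inner N n t} := by
    let e : (Fin d → Fin (N - 2 * n)) → {t : Fin d → Fin N // inner N n t} := fun s =>
      ⟨fun k => ⟨(s k : ℕ) + n, by have := (s k).isLt; omega⟩, by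
        intro k
        have := (s k).isLt
        simp only
        omega⟩
    have he : Function.Injective e := by
      intro s s' h
      funext k
      have := congrArg (fun t : {t : Fin d → Fin N // inner N n t} => ((t.1 k : Fin N) : ℕ)) h
      simp only [e] at this
      exact Fin.ext (by omega)
    have := Nat.card_le_card_of_injective e he
    simpa using this
  have h3 : (Nat.card (Bd d N n) : ℝ) + (Nat.card {t : Fin d → Fin N // inner N n t} : ℝ) =
      (N : ℝ) ^ d := by exact_mod_cast h1
  have h4 : ((N - 2 * n : ℕ) : ℝ) ^ d ≤ (Nat.card {t : Fin d → Fin N // inner N n t} : ℝ) := by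
    exact_mod_cast h2
  linarith

/-- For an isolated transitive shift the number of patterns satisfies the bound for all `N`. -/
lemma isolated_bound {X : Set (Config d)} (hX : IsIsolatedTransitive X) :
    ∃ (A : Finset ℤ) (n : ℕ), A.Nonempty ∧ ∀ N : ℕ, 0 < N → ∃ C : ℕ, ∀ M : ℕ,
      (patterns X M).ncard ≤
        N ^ d * (A.card ^ Nat.card (Bd d N n)) ^ ((M / N + 2) ^ d) + C * M ^ d := by
  classical
  obtain ⟨⟨⟨⟨A, hA⟩, hcomp, hinv⟩, x, hx, hdense⟩, ε, hε, hiso⟩ := hX
  obtain ⟨m, hm⟩ : ∃ m : ℕ, (1 / 2 : ℝ) ^ m < ε := exists_pow_lt_of_lt_one hε (by norm_num)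
  refine ⟨A, 2 * m + 1, ⟨x 0, hA x hx 0⟩, fun N hN => ?_⟩
  haveI : NeZero N := ⟨hN.ne'⟩
  obtain ⟨U, hU⟩ := exists_positions A hA hx hdense m
  let W : Finset (Fin d → ℤ) := Fintype.piFinset fun _ => Finset.Icc (-(m : ℤ)) m
  have hW : ∀ w : Fin d → ℤ, supNorm w ≤ m ↔ w ∈ W := by
    intro w
    rw [supNorm_le, Fintype.mem_piFinset]
    simp [Finset.mem_Icc]
  let S : Finset (Fin d → ℤ) := (U ×ˢ W).image fun p => cq N (p.1 + p.2)
  refine ⟨S.card * N ^ d, fun M => ?_⟩
  let y := modif N (2 * m + 1) X x S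
  have hyA : ∀ v, y v ∈ A := by
    intro v
    obtain ⟨z, hz, h⟩ := modif_local N (2 * m + 1) hinv hx (S : Set (Fin d → ℤ)) m le_rfl v
    have := h 0 (by rw [supNorm_le]; simp)
    rw [add_zero] at this
    change modif N (2 * m + 1) X x S v ∈ A
    rw [← this]
    exact hA z hz 0
  have hYt := orbitClosure_transitive A hyA
  have hYX : closure (Set.range fun u => shiftBy u y) = X := by
    apply hiso _ hYt
    have h1 : hausDelta X (closure (Set.range fun u => shiftBy u y)) ≤ (1 / 2 : ℝ) ^ (m + 1) := by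
      apply hausDelta_le ⟨x, hx⟩ (hYt.2.choose_spec.1 |> fun h => ⟨_, h⟩)
      · intro z hz
        obtain ⟨u, hu, h⟩ := hU z hz
        refine ⟨shiftBy u y, subset_closure ⟨u, rfl⟩, fun w hw => ?_⟩
        rw [← h w hw]
        have hmem : cq N (u + w) ∈ (S : Set (Fin d → ℤ)) := by
          have : cq N (u + w) ∈ S := by
            rw [Finset.mem_image]
            exact ⟨⟨u, w⟩, by simp [hu, (hW w).1 hw], rfl⟩
          exact this
        change x (u + w) = modif N (2 * m + 1) X x S (u + w)
        rw [modif, if_pos hmem]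
      · intro z hz
        obtain ⟨u, hu⟩ := exists_agree_of_mem_closure hz W
        obtain ⟨z', hz', h⟩ := modif_local N (2 * m + 1) hinv hx (S : Set (Fin d → ℤ)) m le_rfl u
        refine ⟨z', hz', fun w hw => ?_⟩
        rw [h w hw, ← hu w ((hW w).1 hw)]
    refine lt_of_le_of_lt h1 (lt_of_le_of_lt ?_ hm)
    exact pow_le_pow_of_le_one (by norm_num) (by norm_num) (Nat.le_succ m)
  have := count_patterns N (2 * m + 1) A hA hx S M
  rw [show closure (Set.range fun u => shiftBy u (modif N (2 * m + 1) X x (S : Set (Fin d → ℤ)))) = X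
    from hYX] at this
  exact this

end Pool.Agent.R200.Iso
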