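import Pool.Agent.R200.IsoDefs

/-!
The construction: canonical fill-ins of the cubes of a grid outside a finite region.
-/

set_option autoImplicit false

open Filter Topology

namespace Pool.Agent.R200.Iso

variable {d : ℕ}

lemma exists_agree_of_mem_closure {y y' : Config d}
    (h : y' ∈ closure (Set.range fun u => shiftBy u y)) (F : Finset (Fin d → ℤ)) :
    ∃ u, ∀ v ∈ F, y (u + v) = y' v := by
  have hopen : IsOpen {z : Config d | ∀ v ∈ F, z v = y' v} := by
    have : {z : Config d | ∀ v ∈ F, z v = y' v} = ⋂ v ∈ F, (fun z : Config d => z v) ⁻¹' {y' v} := by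
      ext z; simp
    rw [this]
    exact isOpen_biInter_finset fun v _ => (isOpen_discrete _).preimage (continuous_apply v)
  obtain ⟨z, hz1, ⟨u, rfl⟩⟩ := mem_closure_iff.1 h _ hopen (fun v _ => rfl)
  exact ⟨u, fun v hv => hz1 v hv⟩

lemma continuous_shiftBy (u : Fin d → ℤ) : Continuous (shiftBy u : Config d → Config d) := by
  apply continuous_pi
  intro v
  exact continuous_apply (u + v)

/-- The orbit closure of a configuration over a finite alphabet is a transitive shift. -/
lemma orbitClosure_transitive {y : Config d} (A : Finset ℤ) (hy : ∀ v, y v ∈ A) :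
    IsTransitive (closure (Set.range fun u => shiftBy u y)) := by
  have hsub : closure (Set.range fun u => shiftBy u y) ⊆ Set.pi Set.univ (fun _ => (A : Set ℤ)) := by
    apply closure_minimal
    · rintro _ ⟨u, rfl⟩ v _
      exact hy _
    · exact isClosed_set_pi fun v _ => isClosed_discrete _
  refine ⟨⟨⟨A, fun x hx v => hsub hx v (Set.mem_univ v)⟩, ?_, ?_⟩, y, ?_, le_rfl⟩
  · exact (isCompact_univ_pi fun _ => (A.finite_toSet).isCompact).of_isClosed_subset
      isClosed_closure hsub
  · intro u x hx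
    refine map_mem_closure (continuous_shiftBy u) hx ?_
    rintro _ ⟨w, rfl⟩
    refine ⟨w + u, ?_⟩
    funext v
    simp [shiftBy, add_assoc]
  · apply subset_closure
    refine ⟨0, ?_⟩
    funext v
    simp [shiftBy]

lemma delta_le {x y : Config d} {m : ℕ} (h : ∀ w : Fin d → ℤ, supNorm w ≤ m → x w = y w) :
    delta x y ≤ (1 / 2 : ℝ) ^ (m + 1) := by
  unfold delta
  split_ifs with hxy
  · positivity
  · have hne : {k : ℕ | ∃ n, supNorm n = k ∧ x n ≠ y n}.Nonempty := by
      by_contra hcon
      apply hxy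
      funext n
      by_contra hn
      exact hcon ⟨_, n, rfl, hn⟩
    obtain ⟨n, hn1, hn2⟩ := Nat.sInf_mem hne
    apply pow_le_pow_of_le_one (by norm_num) (by norm_num)
    by_contra hlt
    push Not at hlt
    exact hn2 (h n (by omega))

lemma delta_nonneg (x y : Config d) : 0 ≤ delta x y := by
  unfold delta
  split_ifs
  · exact le_rfl
  · positivity

lemma hausDelta_le {X Y : Set (Config d)} (hX : X.Nonempty) (hY : Y.Nonempty) {m : ℕ}
    (h1 : ∀ x ∈ X, ∃ y ∈ Y, ∀ w : Fin d → ℤ, supNorm w ≤ m → x w = y w)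
    (h2 : ∀ y ∈ Y, ∃ x ∈ X, ∀ w : Fin d → ℤ, supNorm w ≤ m → x w = y w) :
    hausDelta X Y ≤ (1 / 2 : ℝ) ^ (m + 1) := by
  haveI := hX.to_subtype
  haveI := hY.to_subtype
  unfold hausDelta
  apply max_le
  · apply ciSup_le
    rintro ⟨x, hx⟩
    obtain ⟨y, hy, hxy⟩ := h1 x hx
    refine (ciInf_le ⟨0, ?_⟩ (⟨y, hy⟩ : Y)).trans (delta_le hxy)
    rintro _ ⟨z, rfl⟩
    exact delta_nonneg _ _
  · apply ciSup_le
    rintro ⟨y, hy⟩
    obtain ⟨x, hx, hxy⟩ := h2 y hy
    refine (ciInf_le ⟨0, ?_⟩ (⟨x, hx⟩ : X)).trans (delta_le hxy)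
    rintro _ ⟨z, rfl⟩
    exact delta_nonneg _ _

lemma supNorm_le {m : ℕ} {w : Fin d → ℤ} : supNorm w ≤ m ↔ ∀ k, -(m : ℤ) ≤ w k ∧ w k ≤ m := by
  unfold supNorm
  rw [Finset.sup_le_iff]
  constructor
  · intro h k
    have := h k (Finset.mem_univ k)
    omega
  · intro h k _
    have := h k
    omega

section construction

variable (N : ℕ) (n : ℕ)

/-- cube index -/
def cq (v : Fin d → ℤ) : Fin d → ℤ := fun k => v k / (N : ℤ)

/-- position inside the cube -/
def cr [NeZero N] (v : Fin d → ℤ) : Fin d → Fin N := fun k =>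
  ⟨(v k % (N : ℤ)).toNat, by
    have h0 : (0 : ℤ) < N := by exact_mod_cast Nat.pos_of_ne_zero (NeZero.ne N)
    have h1 := Int.emod_nonneg (v k) h0.ne'
    have h2 := Int.emod_lt_of_pos (v k) h0
    omega⟩

lemma cr_val [NeZero N] (v : Fin d → ℤ) (k : Fin d) : (((cr N v k : Fin N) : ℕ) : ℤ) = v k % N := by
  have h0 : (0 : ℤ) < N := by exact_mod_cast Nat.pos_of_ne_zero (NeZero.ne N)
  have h1 := Int.emod_nonneg (v k) h0.ne'
  simp only [cr]
  omega

/-- the cell of the cube `g` with position `t` -/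
def cell (g : Fin d → ℤ) (t : Fin d → Fin N) : Fin d → ℤ := fun k => g k * N + ((t k : ℕ) : ℤ)

lemma cell_cq_cr [NeZero N] (v : Fin d → ℤ) : cell N (cq N v) (cr N v) = v := by
  funext k
  simp only [cell, cr_val, cq]
  have := Int.mul_ediv_add_emod (v k) N
  linarith [mul_comm (v k / (N : ℤ)) (N : ℤ)]

lemma cq_cell [NeZero N] (g : Fin d → ℤ) (t : Fin d → Fin N) : cq N (cell N g t) = g := by
  funext k
  simp only [cell, cq]
  have h0 : (0 : ℤ) < N := by exact_mod_cast Nat.pos_of_ne_zero (NeZero.ne N)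
  rw [add_comm, Int.add_mul_ediv_right _ _ h0.ne', Int.ediv_eq_zero_of_lt (by positivity)]
  · simp
  · exact_mod_cast (t k).isLt

/-- the pattern of `x` in the cube `g` -/
def cubePat (x : Config d) (g : Fin d → ℤ) : (Fin d → Fin N) → ℤ := fun t => x (cell N g t)

/-- inner positions of the cube -/
def inner (t : Fin d → Fin N) : Prop := ∀ k, n ≤ (t k : ℕ) ∧ (t k : ℕ) + n < N

open Classical in
/-- erase the inner positions -/
noncomputable def mask (p : (Fin d → Fin N) → ℤ) : (Fin d → Fin N) → ℤ :=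
  fun t => if inner N n t then 0 else p t

open Classical in
/-- canonical fill-in -/
noncomputable def fill (X : Set (Config d)) (b : (Fin d → Fin N) → ℤ) : (Fin d → Fin N) → ℤ :=
  if h : ∃ q ∈ patterns X N, mask N n q = b then h.choose else b

open Classical in
/-- the modified configuration -/
noncomputable def modif [NeZero N] (X : Set (Config d)) (x : Config d)
    (S : Set (Fin d → ℤ)) : Config d := fun v =>
  if cq N v ∈ S then x v else fill N n X (mask N n (cubePat N x (cq N v))) (cr N v)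

lemma cubePat_mem {X : Set (Config d)} {x : Config d} (hx : x ∈ X) (g : Fin d → ℤ) :
    cubePat N x g ∈ patterns X N :=
  ⟨x, hx, fun k => g k * N, fun _ => rfl⟩

lemma fill_spec {X : Set (Config d)} {x : Config d} (hx : x ∈ X) (g : Fin d → ℤ) :
    fill N n X (mask N n (cubePat N x g)) ∈ patterns X N ∧
      mask N n (fill N n X (mask N n (cubePat N x g))) = mask N n (cubePat N x g) := by
  have h : ∃ q ∈ patterns X N, mask N n q = mask N n (cubePat N x g) :=
    ⟨_, cubePat_mem N hx g, rfl⟩
  unfold fill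
  rw [dif_pos h]
  exact h.choose_spec

lemma modif_eq_of_not_inner [NeZero N] {X : Set (Config d)} {x : Config d} (hx : x ∈ X)
    (S : Set (Fin d → ℤ)) {v : Fin d → ℤ} (hv : ¬ inner N n (cr N v)) :
    modif N n X x S v = x v := by
  unfold modif
  split_ifs with h
  · rfl
  · have h1 := congrFun (fill_spec N n hx (cq N v)).2 (cr N v)
    simp only [mask, if_neg hv] at h1
    rw [h1]
    simp [cubePat, cell_cq_cr]

lemma modif_local [NeZero N] {X : Set (Config d)} (hinv : ∀ u : Fin d → ℤ, ∀ x ∈ X, shiftBy u x ∈ X)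
    {x : Config d} (hx : x ∈ X) (S : Set (Fin d → ℤ)) (m : ℕ) (hm : 2 * m + 1 ≤ n)
    (u : Fin d → ℤ) :
    ∃ z ∈ X, ∀ w : Fin d → ℤ, supNorm w ≤ m → z w = modif N n X x S (u + w) := by
  have h0 : (0 : ℤ) < N := by exact_mod_cast Nat.pos_of_ne_zero (NeZero.ne N)
  by_cases hc : ∀ k, (u k - m) / (N : ℤ) = (u k + m) / (N : ℤ)
  · -- the window lies in one cube
    have hcq : ∀ w : Fin d → ℤ, supNorm w ≤ m → cq N (u + w) = cq N u := by
      intro w hw
      rw [supNorm_le] at hw
      funext k
      have h1 := hw k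
      simp only [cq, Pi.add_apply]
      have a1 : (u k - m) / (N : ℤ) ≤ (u k + w k) / (N : ℤ) := Int.ediv_le_ediv h0 (by linarith)
      have a2 : (u k + w k) / (N : ℤ) ≤ (u k + m) / (N : ℤ) := Int.ediv_le_ediv h0 (by linarith)
      have a3 : (u k - m) / (N : ℤ) ≤ (u k) / (N : ℤ) := Int.ediv_le_ediv h0 (by linarith)
      have a4 : (u k) / (N : ℤ) ≤ (u k + m) / (N : ℤ) := Int.ediv_le_ediv h0 (by linarith)
      have := hc k
      omega
    by_cases hS : cq N u ∈ S
    · refine ⟨shiftBy u x, hinv u x hx, fun w hw => ?_⟩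
      have hS' : cq N (u + w) ∈ S := by rw [hcq w hw]; exact hS
      rw [modif, if_pos hS']
      rfl
    · obtain ⟨⟨x0, hx0, u0, h1⟩, -⟩ := fill_spec N n hx (cq N u)
      refine ⟨shiftBy (fun k => u0 k + u k - cq N u k * N) x0, hinv _ x0 hx0, fun w hw => ?_⟩
      have hS' : cq N (u + w) ∉ S := by rw [hcq w hw]; exact hS
      rw [modif, if_neg hS', hcq w hw, h1]
      unfold shiftBy
      congr 1
      funext k
      rw [cr_val]
      have h2 := congrFun (hcq w hw) k
      simp only [cq, Pi.add_apply] at h2 ⊢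
      have h3 := Int.mul_ediv_add_emod (u k + w k) N
      rw [h2] at h3
      linarith [mul_comm (u k / (N : ℤ)) (N : ℤ)]
  · push Not at hc
    obtain ⟨k, hk⟩ := hc
    refine ⟨shiftBy u x, hinv u x hx, fun w hw => ?_⟩
    rw [modif_eq_of_not_inner N n hx S]
    · rfl
    · intro hin
      have h1 := hin k
      have h2 := cr_val N (u + w) k
      rw [supNorm_le] at hw
      have h3 := hw k
      have h4 := Int.mul_ediv_add_emod ((u + w) k) N
      simp only [Pi.add_apply] at h2 h4
      set a := (u k + w k) / (N : ℤ)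
      set t := (u k + w k) % (N : ℤ)
      apply hk
      have e1 : (u k - m) / (N : ℤ) = a := by
        rw [Int.ediv_eq_iff_of_pos h0]
        constructor
        · nlinarith
        · nlinarith
      have e2 : (u k + m) / (N : ℤ) = a := by
        rw [Int.ediv_eq_iff_of_pos h0]
        constructor
        · nlinarith
        · nlinarith
      rw [e1, e2]

end construction

end Pool.Agent.R200.Iso
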