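import Mathlib

/-!
# Random substitutions with probabilities and the Parry measure of the golden mean shift
-/

namespace Pool.Agent.R200.Parry

open MeasureTheory Filter Topology

variable {A : Type}

/-- A random substitution with probabilities: `θ a` is the law of the random image of `a`; it is
supported on finitely many nonempty words (the realisations, each of positive probability). -/
def IsRandomSubstitution (θ : A → PMF (List A)) : Prop :=
  ∀ a, (θ a).support.Finite ∧ [] ∉ (θ a).support

/-- The law of the random image of a word: letters are replaced independently. -/
noncomputable def act (θ : A → PMF (List A)) : List A → PMF (List A)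
  | [] => PMF.pure []
  | a :: u => (θ a).bind fun s => (act θ u).bind fun w => PMF.pure (s ++ w)

/-- The law of the `n`-th random iterate of the word `u`. -/
noncomputable def iter (θ : A → PMF (List A)) (u : List A) : ℕ → PMF (List A)
  | 0 => PMF.pure u
  | n + 1 => (iter θ u n).bind (act θ)

/-- The substitution matrix: expected number of `b`s in the image of `a`. -/
noncomputable def substMatrix [DecidableEq A] (θ : A → PMF (List A)) : Matrix A A ℝ :=
  Matrix.of fun b a => ∑' s : List A, (θ a s).toReal * (s.count b : ℝ)

/-- Primitivity. -/
def Primitive [Fintype A] [DecidableEq A] (θ : A → PMF (List A)) : Prop :=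
  ∃ p : ℕ, 1 ≤ p ∧ ∀ i j : A, 0 < (substMatrix θ ^ p) i j

/-- The number of occurrences of the word `v` in the word `w`. -/
def occ [DecidableEq A] (v w : List A) : ℕ := (w.tails.filter fun t => decide (v <+: t)).length

/-- `f` gives the almost sure frequencies of words in the random iterates of `θ`: whenever the
random words `W n`, `n ≥ 0`, on a probability space are such that `W n` is distributed as the
`n`-th iterate of the letter `α`, the relative frequency of every nonempty word `v` in `W n`
converges almost surely to `f v`. -/
def HasFrequencies [DecidableEq A] (θ : A → PMF (List A)) (f : List A → ℝ) : Prop :=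
  ∀ (α : A) (Ω : Type) (_ : MeasurableSpace Ω) (P : Measure Ω) (_ : IsProbabilityMeasure P)
    (W : ℕ → Ω → List A),
    (∀ n w, MeasurableSet (W n ⁻¹' {w}) ∧ P (W n ⁻¹' {w}) = iter θ [α] n w) →
    ∀ v : List A, v ≠ [] →
      ∀ᵐ ω ∂P, Tendsto (fun n => (occ v (W n ω) : ℝ) / ((W n ω).length : ℝ)) atTop (𝓝 (f v))

/-- The golden mean. -/
noncomputable def tau : ℝ := (1 + √5) / 2

/-- Transition probabilities of the Parry measure; `false` is the letter `a`, `true` is `b`. -/
noncomputable def trans : Bool → Bool → ℝ
  | false, false => tau⁻¹
  | false, true => (tau ^ 2)⁻¹
  | true, false => 1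
  | true, true => 0

/-- Stationary distribution of the Parry measure. -/
noncomputable def init : Bool → ℝ
  | false => tau ^ 2 / (tau ^ 2 + 1)
  | true => 1 / (tau ^ 2 + 1)

/-- Product of transition probabilities along a word. -/
noncomputable def chain : Bool → List Bool → ℝ
  | _, [] => 1
  | x, y :: l => trans x y * chain y l

/-- Parry measure of the cylinder `[v]`. -/
noncomputable def parry : List Bool → ℝ
  | [] => 1
  | x :: l => init x * chain x l

end Pool.Agent.R200.Parry
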