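import Pool.Agent.R200.ParryTail

/-!
# Large deviations for the Parry measure, II: exponential tail bound
-/

namespace Pool.Agent.R200.Parry

open Finset

/-- Words of length `ℓ` without `bb`. -/
def words : ℕ → Finset (List Bool)
  | 0 => {[]}
  | n + 1 => (words n).image (List.cons false) ∪
      ((words n).filter fun w => w.head? ≠ some true).image (List.cons true)

theorem sum_words (n : ℕ) (G : List Bool → ℝ) :
    ∑ w ∈ words (n + 1), G w
      = ∑ w ∈ words n, (G (false :: w) + if w.head? ≠ some true then G (true :: w) else 0) := by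
  have hinj1 : Set.InjOn (List.cons false) (words n : Set (List Bool)) := by
    intro x _ y _ h
    exact (List.cons.inj h).2
  have hinj2 : Set.InjOn (List.cons true)
      (((words n).filter fun w => w.head? ≠ some true : Finset (List Bool)) :
        Set (List Bool)) := by
    intro x _ y _ h
    exact (List.cons.inj h).2
  have hdisj : Disjoint ((words n).image (List.cons false))
      (((words n).filter fun w => w.head? ≠ some true).image (List.cons true)) := by
    rw [disjoint_left]
    intro w h1 h2
    rw [mem_image] at h1 h2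
    obtain ⟨a, _, rfl⟩ := h1
    obtain ⟨b, _, hb⟩ := h2
    exact absurd (List.cons.inj hb).1 (by simp)
  show ∑ w ∈ (words n).image (List.cons false) ∪
      ((words n).filter fun w => w.head? ≠ some true).image (List.cons true), G w = _
  rw [sum_union hdisj, sum_image hinj1, sum_image hinj2, sum_filter, ← sum_add_distrib]

theorem words_length {n : ℕ} {w : List Bool} (h : w ∈ words n) : w.length = n := by
  induction n generalizing w with
  | zero =>
    unfold words at h
    rw [mem_singleton] at h
    rw [h]
    rfl
  | succ n ih =>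
    unfold words at h
    rw [mem_union, mem_image, mem_image] at h
    rcases h with ⟨a, ha, rfl⟩ | ⟨a, ha, rfl⟩
    · rw [List.length_cons, ih ha]
    · rw [List.length_cons, ih (mem_filter.1 ha).1]

/-- No two consecutive `b`s. -/
def NoBB : List Bool → Prop
  | x :: y :: l => ¬ (x = true ∧ y = true) ∧ NoBB (y :: l)
  | _ => True

theorem noBB_tail {x : Bool} {l : List Bool} (h : NoBB (x :: l)) : NoBB l := by
  cases l with
  | nil => trivial
  | cons y l => exact h.2

theorem mem_words {w : List Bool} (h : NoBB w) : w ∈ words w.length := by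
  induction w with
  | nil => simp [words]
  | cons x w ih =>
    have hw := ih (noBB_tail h)
    rw [List.length_cons]
    unfold words
    rw [mem_union, mem_image, mem_image]
    cases x
    · exact Or.inl ⟨w, hw, rfl⟩
    · right
      refine ⟨w, mem_filter.2 ⟨hw, ?_⟩, rfl⟩
      cases w with
      | nil => simp
      | cons y w =>
        intro hy
        have : y = true := by simpa using hy
        exact h.1 ⟨rfl, this⟩

theorem occ_cons (v w : List Bool) (z : Bool) :
    (occ v (z :: w) : ℝ) = occ v w + dd v (z :: w) := by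
  unfold occ dd
  rw [List.tails_cons, List.filter_cons]
  by_cases h : v <+: z :: w
  · simp [h]
  · simp [h]

theorem occ_nil {v : List Bool} (hv : v ≠ []) : occ v [] = 0 := by
  unfold occ
  simp [hv]

/-- The corrected discrepancy. -/
noncomputable def FF (v w : List Bool) : ℝ :=
  (occ v w : ℝ) - parry v * w.length + phi v w

theorem FF_cons (v w : List Bool) (z : Bool) :
    FF v (z :: w) - FF v w = dd v (z :: w) - parry v + phi v (z :: w) - phi v w := by
  unfold FF
  rw [occ_cons, List.length_cons]
  push_cast
  ring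

theorem FF_diff (v w : List Bool) (z : Bool) :
    |FF v (z :: w) - FF v w| ≤ 4 * v.length + 1 := by
  rw [FF_cons]
  have h1 := dd_bd v (z :: w)
  have h2 := parry_bd v
  have h3 := abs_le.1 (phi_bd v (z :: w))
  have h4 := abs_le.1 (phi_bd v w)
  rw [abs_le]
  constructor <;> linarith

theorem exp_bd {x : ℝ} (h : |x| ≤ 1) : Real.exp x ≤ 1 + x + x ^ 2 := by
  have := Real.abs_exp_sub_one_sub_id_le h
  have := (abs_le.1 this).2
  linarith

/-- Weight of the last letter added. -/
noncomputable def hh (w : List Bool) : ℝ := if w.head? = some true then q else 1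

theorem hh_bd (w : List Bool) : q ≤ hh w ∧ hh w ≤ 1 := by
  have h1 := q_lt_one
  unfold hh
  split_ifs <;> constructor <;> linarith

/-- One step of the exponential moment bound. -/
theorem step (v : List Bool) (hv : v ≠ []) (s C : ℝ) (hC : C = 4 * v.length + 1)
    (hs : |s| * C ≤ 1) (w : List Bool) :
    q * (hh (false :: w) * Real.exp (s * FF v (false :: w)) +
      if w.head? ≠ some true then hh (true :: w) * Real.exp (s * FF v (true :: w)) else 0)
      ≤ hh w * Real.exp (s * FF v w) * (1 + s ^ 2 * C ^ 2) := by
  have hq := q_pos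
  have hp := poisson v hv w
  have e1 : hh (false :: w) = 1 := by simp [hh]
  have e2 : hh (true :: w) = q := by simp [hh]
  have hE : ∀ z, Real.exp (s * FF v (z :: w))
      = Real.exp (s * FF v w) * Real.exp (s * (FF v (z :: w) - FF v w)) := by
    intro z
    rw [← Real.exp_add]
    congr 1
    ring
  have hbd : ∀ z, |s * (FF v (z :: w) - FF v w)| ≤ 1 := by
    intro z
    rw [abs_mul]
    have := FF_diff v w z
    rw [← hC] at this
    calc |s| * |FF v (z :: w) - FF v w| ≤ |s| * C := by
          apply mul_le_mul_of_nonneg_left this (abs_nonneg s)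
      _ ≤ 1 := hs
  have hsq : ∀ z, (s * (FF v (z :: w) - FF v w)) ^ 2 ≤ s ^ 2 * C ^ 2 := by
    intro z
    rw [mul_pow]
    have := FF_diff v w z
    rw [← hC] at this
    apply mul_le_mul_of_nonneg_left _ (sq_nonneg s)
    rw [← sq_abs]
    exact pow_le_pow_left₀ (abs_nonneg _) this 2
  have hexp : ∀ z, Real.exp (s * (FF v (z :: w) - FF v w))
      ≤ 1 + s * (FF v (z :: w) - FF v w) + s ^ 2 * C ^ 2 := by
    intro z
    have := exp_bd (hbd z)
    have := hsq z
    linarith
  have hE0 : 0 < Real.exp (s * FF v w) := Real.exp_pos _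
  rw [e1, e2, hE, hE]
  by_cases hw : w.head? = some true
  · have h1 := hp.1 hw
    have h2 : FF v (false :: w) - FF v w = 0 := by
      rw [FF_cons]; linarith
    rw [if_neg (not_not.2 hw), h2, mul_zero, Real.exp_zero]
    have e3 : hh w = q := by simp [hh, hw]
    rw [e3]
    have : 0 ≤ s ^ 2 * C ^ 2 := by positivity
    have h3 : 0 < q * Real.exp (s * FF v w) := by positivity
    nlinarith
  · have h1 := hp.2 hw
    rw [if_pos hw]
    have e3 : hh w = 1 := by simp [hh, hw]
    rw [e3]
    have h2 := FF_cons v w false
    have h3 := FF_cons v w true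
    have hqs := q_sq
    have h4 : q * (FF v (false :: w) - FF v w) + q ^ 2 * (FF v (true :: w) - FF v w) = 0 := by
      rw [h2, h3]
      linear_combination h1 - phi v w * hqs
    have g1 := hexp false
    have g2 := hexp true
    have : q * Real.exp (s * (FF v (false :: w) - FF v w)) +
        q ^ 2 * Real.exp (s * (FF v (true :: w) - FF v w)) ≤ 1 + s ^ 2 * C ^ 2 := by
      have k1 := mul_le_mul_of_nonneg_left g1 hq.le
      have k2 := mul_le_mul_of_nonneg_left g2 (sq_nonneg q)
      have k3 : q * (1 + s * (FF v (false :: w) - FF v w) + s ^ 2 * C ^ 2) +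
          q ^ 2 * (1 + s * (FF v (true :: w) - FF v w) + s ^ 2 * C ^ 2) =
          (q + q ^ 2) * (1 + s ^ 2 * C ^ 2) + s * (q * (FF v (false :: w) - FF v w) +
            q ^ 2 * (FF v (true :: w) - FF v w)) := by ring
      rw [h4] at k3
      have k4 : q + q ^ 2 = 1 := by linarith
      rw [k4] at k3
      linarith
    calc q * (1 * (Real.exp (s * FF v w) * Real.exp (s * (FF v (false :: w) - FF v w))) +
          q * (Real.exp (s * FF v w) * Real.exp (s * (FF v (true :: w) - FF v w))))
        = Real.exp (s * FF v w) * (q * Real.exp (s * (FF v (false :: w) - FF v w)) +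
          q ^ 2 * Real.exp (s * (FF v (true :: w) - FF v w))) := by ring
      _ ≤ Real.exp (s * FF v w) * (1 + s ^ 2 * C ^ 2) :=
          mul_le_mul_of_nonneg_left this hE0.le
      _ = 1 * Real.exp (s * FF v w) * (1 + s ^ 2 * C ^ 2) := by ring

theorem mgf (v : List Bool) (hv : v ≠ []) (s C : ℝ) (hC : C = 4 * v.length + 1)
    (hs : |s| * C ≤ 1) (n : ℕ) :
    ∑ w ∈ words n, q ^ n * (hh w * Real.exp (s * FF v w))
      ≤ Real.exp (s * FF v []) * (1 + s ^ 2 * C ^ 2) ^ n := by
  induction n with
  | zero => simp [words, hh]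
  | succ n ih =>
    rw [sum_words]
    calc ∑ w ∈ words n, (q ^ (n + 1) * (hh (false :: w) * Real.exp (s * FF v (false :: w))) +
          if w.head? ≠ some true then
            q ^ (n + 1) * (hh (true :: w) * Real.exp (s * FF v (true :: w))) else 0)
        = ∑ w ∈ words n, q ^ n * (q * (hh (false :: w) * Real.exp (s * FF v (false :: w)) +
          if w.head? ≠ some true then
            hh (true :: w) * Real.exp (s * FF v (true :: w)) else 0)) := by
          apply sum_congr rfl
          intro w _
          split_ifs <;> ring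
      _ ≤ ∑ w ∈ words n, q ^ n * (hh w * Real.exp (s * FF v w) * (1 + s ^ 2 * C ^ 2)) := by
          apply sum_le_sum
          intro w _
          apply mul_le_mul_of_nonneg_left (step v hv s C hC hs w)
          have := q_pos
          positivity
      _ = (∑ w ∈ words n, q ^ n * (hh w * Real.exp (s * FF v w))) * (1 + s ^ 2 * C ^ 2) := by
          rw [sum_mul]
          apply sum_congr rfl
          intro w _
          ring
      _ ≤ Real.exp (s * FF v []) * (1 + s ^ 2 * C ^ 2) ^ n * (1 + s ^ 2 * C ^ 2) := by
          apply mul_le_mul_of_nonneg_right ih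
          positivity
      _ = _ := by ring

/-- The discrepancy. -/
noncomputable def disc (v w : List Bool) : ℝ := (occ v w : ℝ) - parry v * w.length

theorem one_side (v : List Bool) (hv : v ≠ []) (ε : ℝ) (hε : 0 < ε) (σ : ℝ)
    (hσ : σ = 1 ∨ σ = -1) :
    ∃ K ρ : ℝ, 0 ≤ K ∧ 0 ≤ ρ ∧ ρ < 1 ∧ ∀ n : ℕ,
      ∑ w ∈ (words n).filter (fun w => ε * n < σ * disc v w), q ^ n ≤ K * ρ ^ n := by
  set C : ℝ := 4 * v.length + 1 with hC
  have hC1 : 1 ≤ C := by
    have : (0 : ℝ) ≤ v.length := Nat.cast_nonneg _
    rw [hC]; linarith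
  have hC0 : 0 < C := by linarith
  obtain ⟨s, hs0, hsC, hsε⟩ : ∃ s : ℝ, 0 < s ∧ s * C ≤ 1 ∧ s * C ^ 2 < ε := by
    refine ⟨min (1 / C) (ε / (2 * C ^ 2)), ?_, ?_, ?_⟩
    · apply lt_min <;> positivity
    · calc min (1 / C) (ε / (2 * C ^ 2)) * C ≤ 1 / C * C := by
            apply mul_le_mul_of_nonneg_right (min_le_left _ _) hC0.le
        _ = 1 := by field_simp
    · calc min (1 / C) (ε / (2 * C ^ 2)) * C ^ 2 ≤ ε / (2 * C ^ 2) * C ^ 2 := by
            apply mul_le_mul_of_nonneg_right (min_le_right _ _) (by positivity)
        _ = ε / 2 := by field_simp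
        _ < ε := by linarith
  have hqp := q_pos
  refine ⟨q⁻¹ * Real.exp (s * C) * Real.exp (σ * s * FF v []),
    (1 + s ^ 2 * C ^ 2) * Real.exp (-(s * ε)), by positivity, by positivity, ?_, ?_⟩
  · have h1 : 1 + s ^ 2 * C ^ 2 ≤ Real.exp (s ^ 2 * C ^ 2) := by
      have := Real.add_one_le_exp (s ^ 2 * C ^ 2)
      linarith
    calc (1 + s ^ 2 * C ^ 2) * Real.exp (-(s * ε))
        ≤ Real.exp (s ^ 2 * C ^ 2) * Real.exp (-(s * ε)) :=
          mul_le_mul_of_nonneg_right h1 (Real.exp_pos _).le
      _ = Real.exp (s * (s * C ^ 2 - ε)) := by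
          rw [← Real.exp_add]; congr 1; ring
      _ < Real.exp 0 := by
          apply Real.exp_lt_exp.2
          have : s * C ^ 2 - ε < 0 := by linarith
          nlinarith
      _ = 1 := Real.exp_zero
  · intro n
    have hσ2 : (σ * s) ^ 2 = s ^ 2 := by
      rcases hσ with h | h <;> rw [h] <;> ring
    have habs : |σ * s| * C ≤ 1 := by
      rcases hσ with h | h <;> rw [h]
      · rw [one_mul, abs_of_pos hs0]; exact hsC
      · rw [neg_one_mul, abs_neg, abs_of_pos hs0]; exact hsC
    have hm := mgf v hv (σ * s) C hC habs n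
    rw [hσ2] at hm
    calc ∑ w ∈ (words n).filter (fun w => ε * n < σ * disc v w), q ^ n
        ≤ ∑ w ∈ (words n).filter (fun w => ε * n < σ * disc v w),
          q⁻¹ * Real.exp (s * C) * Real.exp (-(s * ε)) ^ n *
            (q ^ n * (hh w * Real.exp (σ * s * FF v w))) := by
          apply sum_le_sum
          intro w hw
          rw [mem_filter] at hw
          have hlen := words_length hw.1
          have h1 : (1 : ℝ) ≤ q⁻¹ * hh w := by
            have := (hh_bd w).1
            calc (1 : ℝ) = q⁻¹ * q := by field_simp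
              _ ≤ q⁻¹ * hh w := mul_le_mul_of_nonneg_left this (by positivity)
          have h2 : (1 : ℝ) ≤ Real.exp (s * C) * Real.exp (-(s * ε)) ^ n *
              Real.exp (σ * s * FF v w) := by
            rw [← Real.exp_nat_mul, ← Real.exp_add, ← Real.exp_add]
            apply Real.one_le_exp
            have hphi := abs_le.1 (phi_bd v w)
            have hF : σ * FF v w ≥ σ * disc v w - 2 * v.length := by
              unfold FF disc
              rcases hσ with h | h <;> rw [h] <;> linarith
            have hlt := hw.2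
            have hC' : 2 * (v.length : ℝ) ≤ C := by
              have : (0 : ℝ) ≤ v.length := Nat.cast_nonneg _
              rw [hC]; linarith
            have : 0 ≤ s * (σ * FF v w - ε * n + C) := by
              apply mul_nonneg hs0.le
              linarith
            linarith
          calc q ^ n = 1 * (1 * q ^ n) := by ring
            _ ≤ (q⁻¹ * hh w) * ((Real.exp (s * C) * Real.exp (-(s * ε)) ^ n *
              Real.exp (σ * s * FF v w)) * q ^ n) := by
                apply mul_le_mul h1 _ (by positivity) (by linarith)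
                exact mul_le_mul_of_nonneg_right h2 (by positivity)
            _ = _ := by ring
      _ ≤ ∑ w ∈ words n, q⁻¹ * Real.exp (s * C) * Real.exp (-(s * ε)) ^ n *
            (q ^ n * (hh w * Real.exp (σ * s * FF v w))) := by
          apply sum_le_sum_of_subset_of_nonneg (filter_subset _ _)
          intro w _ _
          have := (hh_bd w).1
          have : 0 ≤ hh w := by linarith
          positivity
      _ = q⁻¹ * Real.exp (s * C) * Real.exp (-(s * ε)) ^ n *
            ∑ w ∈ words n, (q ^ n * (hh w * Real.exp (σ * s * FF v w))) := by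
          rw [mul_sum]
      _ ≤ q⁻¹ * Real.exp (s * C) * Real.exp (-(s * ε)) ^ n *
            (Real.exp (σ * s * FF v []) * (1 + s ^ 2 * C ^ 2) ^ n) := by
          apply mul_le_mul_of_nonneg_left hm
          positivity
      _ = _ := by
          rw [mul_pow]
          ring

/-- Exponential tail bound for the frequencies of a word. -/
theorem tail (v : List Bool) (hv : v ≠ []) (ε : ℝ) (hε : 0 < ε) :
    ∃ K ρ : ℝ, 0 ≤ K ∧ 0 ≤ ρ ∧ ρ < 1 ∧ ∀ n : ℕ,
      ∑ w ∈ (words n).filter (fun w => ε * n < |disc v w|), q ^ n ≤ K * ρ ^ n := by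
  obtain ⟨K₁, ρ₁, a1, a2, a3, a4⟩ := one_side v hv ε hε 1 (Or.inl rfl)
  obtain ⟨K₂, ρ₂, b1, b2, b3, b4⟩ := one_side v hv ε hε (-1) (Or.inr rfl)
  refine ⟨K₁ + K₂, max ρ₁ ρ₂, by positivity, le_max_of_le_left a2, max_lt a3 b3, ?_⟩
  intro n
  have hq := q_pos
  calc ∑ w ∈ (words n).filter (fun w => ε * n < |disc v w|), q ^ n
      ≤ ∑ w ∈ ((words n).filter (fun w => ε * n < 1 * disc v w)) ∪
          ((words n).filter (fun w => ε * n < -1 * disc v w)), q ^ n := by
        apply sum_le_sum_of_subset_of_nonneg
        · intro w hw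
          rw [mem_filter] at hw
          rw [mem_union, mem_filter, mem_filter]
          rcases lt_abs.1 hw.2 with h | h
          · left; exact ⟨hw.1, by linarith⟩
          · right; exact ⟨hw.1, by linarith⟩
        · intro w _ _
          positivity
    _ ≤ (∑ w ∈ (words n).filter (fun w => ε * n < 1 * disc v w), q ^ n) +
          ∑ w ∈ (words n).filter (fun w => ε * n < -1 * disc v w), q ^ n := by
        rw [← sum_union_inter]
        have : 0 ≤ ∑ w ∈ ((words n).filter (fun w => ε * n < 1 * disc v w)) ∩
          ((words n).filter (fun w => ε * n < -1 * disc v w)), q ^ n := by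
          apply sum_nonneg
          intro w _
          positivity
        linarith
    _ ≤ K₁ * ρ₁ ^ n + K₂ * ρ₂ ^ n := add_le_add (a4 n) (b4 n)
    _ ≤ K₁ * (max ρ₁ ρ₂) ^ n + K₂ * (max ρ₁ ρ₂) ^ n := by
        apply add_le_add
        · exact mul_le_mul_of_nonneg_left (pow_le_pow_left₀ a2 (le_max_left _ _) n) a1
        · exact mul_le_mul_of_nonneg_left (pow_le_pow_left₀ b2 (le_max_right _ _) n) b1
    _ = _ := by ring

end Pool.Agent.R200.Parry
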