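import Pool.Agent.R200.ParrySub

/-!
# Almost sure frequencies
-/

namespace Pool.Agent.R200.Parry

open scoped ENNReal
open MeasureTheory Filter Topology

section

variable {Ω : Type} [MeasurableSpace Ω] {P : Measure Ω} [IsProbabilityMeasure P]
  {W : ℕ → Ω → List Bool} {α : Bool}

/-- Almost surely all the random words are in the support. -/
theorem ae_supp (hW : ∀ n w, MeasurableSet (W n ⁻¹' {w}) ∧ P (W n ⁻¹' {w}) = iter th [α] n w) :
    ∀ᵐ ω ∂P, ∀ n, iter th [α] n (W n ω) ≠ 0 := by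
  rw [ae_all_iff]
  intro n
  have h : ∀ w : List Bool, ∀ᵐ ω ∂P, W n ω = w → iter th [α] n w ≠ 0 := by
    intro w
    by_cases hw : iter th [α] n w = 0
    · rw [ae_iff]
      have h2 : {ω | ¬ (W n ω = w → iter th [α] n w ≠ 0)} = W n ⁻¹' {w} := by
        ext ω
        simp [hw]
      rw [h2, (hW n w).2, hw]
    · exact Filter.Eventually.of_forall fun ω _ => hw
  have h' := ae_all_iff.2 h
  filter_upwards [h'] with ω hω
  exact hω _ rfl

/-- The probability that the `n`-th word is bad is small. -/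
theorem prob_bad (hW : ∀ n w, MeasurableSet (W n ⁻¹' {w}) ∧ P (W n ⁻¹' {w}) = iter th [α] n w)
    (v : List Bool) (ε K ρ : ℝ) (hK : 0 ≤ K) (hρ : 0 ≤ ρ)
    (htail : ∀ n : ℕ,
      ∑ w ∈ (words n).filter (fun w => ε * n < |disc v w|), q ^ n ≤ K * ρ ^ n) (n : ℕ) :
    P {ω | ε * (W n ω).length < |disc v (W n ω)| ∧ iter th [α] n (W n ω) ≠ 0} ≤
      ∑' l : ℕ, if n < l then ENNReal.ofReal (q⁻¹ * K * ρ ^ l) else 0 := by
  have hsub : {ω | ε * (W n ω).length < |disc v (W n ω)| ∧ iter th [α] n (W n ω) ≠ 0} ⊆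
      ⋃ l : ℕ, ⋃ w ∈ (words l).filter (fun w => ε * l < |disc v w|),
        (if n < l then W n ⁻¹' {w} else ∅) := by
    intro ω hω
    obtain ⟨h1, h2⟩ := hω
    obtain ⟨h3, h4⟩ := (iter_props α n (W n ω)).1 h2
    rw [Set.mem_iUnion]
    refine ⟨(W n ω).length, ?_⟩
    rw [Set.mem_iUnion₂]
    refine ⟨W n ω, Finset.mem_filter.2 ⟨mem_words h3, h1⟩, ?_⟩
    rw [if_pos (by omega)]
    rfl
  refine (measure_mono hsub).trans ?_
  refine (measure_iUnion_le _).trans ?_
  apply ENNReal.tsum_le_tsum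
  intro l
  by_cases hl : n < l
  · rw [if_pos hl]
    refine (measure_biUnion_finset_le _ _).trans ?_
    have h1 : ∀ w ∈ (words l).filter (fun w => ε * l < |disc v w|),
        P (if n < l then W n ⁻¹' {w} else ∅) ≤ ENNReal.ofReal (q⁻¹ * q ^ l) := by
      intro w hw
      rw [if_pos hl, (hW n w).2]
      have h2 := (iter_props α n w).2
      rw [words_length (Finset.mem_filter.1 hw).1] at h2
      have h3 : iter th [α] n w ≤ tq ^ l / tq := by
        rw [ENNReal.le_div_iff_mul_le (Or.inl tq_pos.ne')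
          (Or.inl (by unfold tq; exact ENNReal.ofReal_ne_top))]
        exact h2
      refine h3.trans (le_of_eq ?_)
      unfold tq
      rw [← ENNReal.ofReal_pow q_pos.le, ← ENNReal.ofReal_div_of_pos q_pos]
      congr 1
      field_simp
    refine (Finset.sum_le_sum h1).trans ?_
    rw [← ENNReal.ofReal_sum_of_nonneg]
    · apply ENNReal.ofReal_le_ofReal
      rw [← Finset.mul_sum, mul_assoc]
      apply mul_le_mul_of_nonneg_left (htail l)
      have := q_pos
      positivity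
    · intro w _
      have := q_pos
      positivity
  · rw [if_neg hl]
    have : (⋃ w ∈ (words l).filter (fun w => ε * l < |disc v w|),
        (if n < l then W n ⁻¹' {w} else ∅)) = (∅ : Set Ω) := by
      simp [hl]
    rw [this, measure_empty]

theorem sum_bad_ne_top (K ρ : ℝ) (hK : 0 ≤ K) (hρ : 0 ≤ ρ) (hρ1 : ρ < 1) :
    (∑' n : ℕ, ∑' l : ℕ, if n < l then ENNReal.ofReal (q⁻¹ * K * ρ ^ l) else 0) ≠ ∞ := by
  rw [ENNReal.tsum_comm]
  have hqp := q_pos
  have h1 : ∀ l : ℕ, (∑' n : ℕ, if n < l then ENNReal.ofReal (q⁻¹ * K * ρ ^ l) else 0)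
      = ENNReal.ofReal (q⁻¹ * K * (l * ρ ^ l)) := by
    intro l
    rw [tsum_eq_sum (s := Finset.range l)]
    · rw [Finset.sum_congr rfl (g := fun _ => ENNReal.ofReal (q⁻¹ * K * ρ ^ l))]
      · rw [Finset.sum_const, Finset.card_range, nsmul_eq_mul]
        rw [← ENNReal.ofReal_natCast, ← ENNReal.ofReal_mul (Nat.cast_nonneg l)]
        congr 1
        ring
      · intro n hn
        rw [if_pos (Finset.mem_range.1 hn)]
    · intro n hn
      rw [if_neg (fun h => hn (Finset.mem_range.2 h))]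
  simp_rw [h1]
  have hs : Summable fun l : ℕ => q⁻¹ * K * ((l : ℝ) * ρ ^ l) := by
    apply Summable.mul_left
    have := summable_pow_mul_geometric_of_norm_lt_one 1 (r := ρ)
      (by rw [Real.norm_eq_abs, abs_of_nonneg hρ]; exact hρ1)
    simpa using this
  exact hs.tsum_ofReal_ne_top

/-- Almost surely, eventually, the `n`-th word is not bad. -/
theorem ae_eventually (hW : ∀ n w, MeasurableSet (W n ⁻¹' {w}) ∧
    P (W n ⁻¹' {w}) = iter th [α] n w) (v : List Bool) (hv : v ≠ []) (ε : ℝ) (hε : 0 < ε) :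
    ∀ᵐ ω ∂P, ∀ᶠ n in atTop, |disc v (W n ω)| ≤ ε * (W n ω).length := by
  obtain ⟨K, ρ, hK, hρ, hρ1, htail⟩ := tail v hv ε hε
  have h1 : ∑' n : ℕ, P {ω | ε * (W n ω).length < |disc v (W n ω)| ∧
      iter th [α] n (W n ω) ≠ 0} ≠ ∞ := by
    apply ne_top_of_le_ne_top (sum_bad_ne_top K ρ hK hρ hρ1)
    apply ENNReal.tsum_le_tsum
    intro n
    exact prob_bad hW v ε K ρ hK hρ htail n
  have h2 := ae_eventually_notMem h1
  filter_upwards [h2, ae_supp hW] with ω h3 h4
  filter_upwards [h3] with n h5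
  by_contra hcon
  exact h5 ⟨not_le.1 hcon, h4 n⟩

end

theorem th_freq : HasFrequencies th parry := by
  intro α Ω _ P _ W hW v hv
  have h1 : ∀ᵐ ω ∂P, ∀ k : ℕ, ∀ᶠ n in atTop,
      |disc v (W n ω)| ≤ (1 / ((k : ℝ) + 1)) * (W n ω).length := by
    rw [ae_all_iff]
    intro k
    exact ae_eventually hW v hv _ (by positivity)
  filter_upwards [h1, ae_supp hW] with ω h2 h3
  rw [Metric.tendsto_atTop]
  intro ε hε
  obtain ⟨k, hk⟩ := exists_nat_one_div_lt hε
  obtain ⟨N, hN⟩ := eventually_atTop.1 (h2 k)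
  refine ⟨N, fun n hn => ?_⟩
  have h4 := hN n hn
  have h5 := ((iter_props α n (W n ω)).1 (h3 n)).2
  have h6 : (0 : ℝ) < (W n ω).length := by
    have : 0 < (W n ω).length := by omega
    exact_mod_cast this
  rw [Real.dist_eq]
  have h7 : (occ v (W n ω) : ℝ) / ((W n ω).length : ℝ) - parry v
      = disc v (W n ω) / (W n ω).length := by
    unfold disc
    field_simp
  rw [h7, abs_div, abs_of_pos h6, div_lt_iff₀ h6]
  calc |disc v (W n ω)| ≤ (1 / ((k : ℝ) + 1)) * (W n ω).length := h4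
    _ < ε * (W n ω).length := mul_lt_mul_of_pos_right hk h6

end Pool.Agent.R200.Parry
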