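import Pool.Agent.R200.ParryLD

/-!
# The random substitution
-/

namespace Pool.Agent.R200.Parry

open scoped ENNReal

/-- The inverse golden mean, as an extended nonnegative real. -/
noncomputable def tq : ℝ≥0∞ := ENNReal.ofReal q

theorem tq_add : tq + tq ^ 2 = 1 := by
  unfold tq
  rw [← ENNReal.ofReal_pow q_pos.le, ← ENNReal.ofReal_add q_pos.le (sq_nonneg q), q_sq]
  simp

/-- The realisations. -/
def real : Bool → Finset (List Bool)
  | false => {[false, false], [false, true, false, false], [false, true, false, true, false]}
  | true => {[true, false], [true, false, true]}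

/-- The weights. -/
noncomputable def wt (α : Bool) (s : List Bool) : ℝ≥0∞ :=
  if s ∈ real α then tq ^ (s.length - 1) else 0

theorem wt_sum (α : Bool) : ∑ s ∈ real α, wt α s = 1 := by
  have h : ∑ s ∈ real α, wt α s = ∑ s ∈ real α, tq ^ (s.length - 1) := by
    apply Finset.sum_congr rfl
    intro s hs
    unfold wt
    rw [if_pos hs]
  rw [h]
  have h2 := tq_add
  cases α
  · have e : real false =
        {[false, false], [false, true, false, false], [false, true, false, true, false]} := rfl
    rw [e, Finset.sum_insert (by decide), Finset.sum_insert (by decide), Finset.sum_singleton]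
    simp only [List.length_cons, List.length_nil]
    calc tq ^ (0 + 1 + 1 - 1) + (tq ^ (0 + 1 + 1 + 1 + 1 - 1) + tq ^ (0 + 1 + 1 + 1 + 1 + 1 - 1))
        = tq + tq ^ 2 * (tq + tq ^ 2) := by ring
      _ = 1 := by rw [h2, mul_one, h2]
  · have e : real true = {[true, false], [true, false, true]} := rfl
    rw [e, Finset.sum_insert (by decide), Finset.sum_singleton]
    simp only [List.length_cons, List.length_nil]
    calc tq ^ (0 + 1 + 1 - 1) + tq ^ (0 + 1 + 1 + 1 - 1) = tq + tq ^ 2 := by ring
      _ = 1 := h2

/-- The random substitution `a ↦ aa, abaa, ababa` with probabilities `τ⁻¹, τ⁻³, τ⁻⁴` and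
`b ↦ ba, bab` with probabilities `τ⁻¹, τ⁻²`. -/
noncomputable def th (α : Bool) : PMF (List Bool) :=
  PMF.ofFinset (wt α) (real α) (wt_sum α) (by
    intro s hs
    unfold wt
    rw [if_neg hs])

theorem th_apply (α : Bool) (s : List Bool) : th α s = wt α s := rfl

theorem tq_pos : 0 < tq := by
  unfold tq
  rw [ENNReal.ofReal_pos]
  exact q_pos

theorem th_supp {α : Bool} {s : List Bool} : th α s ≠ 0 ↔ s ∈ real α := by
  rw [th_apply]
  unfold wt
  constructor
  · intro h
    by_contra h'
    rw [if_neg h'] at h
    exact h rfl
  · intro h
    rw [if_pos h]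
    exact pow_ne_zero _ tq_pos.ne'

theorem th_rs : IsRandomSubstitution th := by
  intro a
  constructor
  · apply Set.Finite.subset (Finset.finite_toSet (real a))
    intro s hs
    exact th_supp.1 hs
  · intro h
    have h1 := th_supp.1 h
    cases a
    · exact absurd h1 (by decide)
    · exact absurd h1 (by decide)

/-- Decoding. -/
def decode : List Bool → List Bool
  | false :: false :: l => false :: decode l
  | false :: true :: false :: false :: l => false :: decode l
  | false :: true :: false :: true :: false :: l => false :: decode l
  | true :: false :: true :: l => true :: decode l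
  | true :: false :: l => true :: decode l
  | _ => []

theorem act_supp {α : Bool} {u w : List Bool} (h : act th (α :: u) w ≠ 0) :
    ∃ s ∈ real α, ∃ w', act th u w' ≠ 0 ∧ w = s ++ w' := by
  have h1 : w ∈ (act th (α :: u)).support := h
  unfold act at h1
  rw [PMF.mem_support_bind_iff] at h1
  obtain ⟨s, hs, h2⟩ := h1
  rw [PMF.mem_support_bind_iff] at h2
  obtain ⟨w', hw', h3⟩ := h2
  rw [PMF.mem_support_pure_iff] at h3
  exact ⟨s, th_supp.1 hs, w', hw', h3⟩

theorem act_nil {w : List Bool} (h : act th [] w ≠ 0) : w = [] := by
  have h1 : w ∈ (act th []).support := h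
  unfold act at h1
  rwa [PMF.mem_support_pure_iff] at h1

theorem real_cases {α : Bool} {s : List Bool} (h : s ∈ real α) :
    (α = false ∧ (s = [false, false] ∨ s = [false, true, false, false] ∨
      s = [false, true, false, true, false])) ∨
    (α = true ∧ (s = [true, false] ∨ s = [true, false, true])) := by
  cases α
  · left
    refine ⟨rfl, ?_⟩
    have e : real false =
        {[false, false], [false, true, false, false], [false, true, false, true, false]} := rfl
    rw [e] at h
    simpa using h
  · right
    refine ⟨rfl, ?_⟩
    have e : real true = {[true, false], [true, false, true]} := rfl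
    rw [e] at h
    simpa using h

theorem noBB_cons_false {w : List Bool} (h : NoBB w) : NoBB (false :: w) := by
  cases w with
  | nil => trivial
  | cons x w => exact ⟨by simp, h⟩

theorem noBB_true_false {w : List Bool} (h : NoBB w) : NoBB (true :: false :: w) :=
  ⟨by simp, noBB_cons_false h⟩

theorem act_props (u : List Bool) (hu : NoBB u) (w : List Bool) (h : act th u w ≠ 0) :
    w.head? = u.head? ∧ NoBB w ∧ decode w = u ∧ 2 * u.length ≤ w.length := by
  induction u generalizing w with
  | nil =>
    rw [act_nil h]
    exact ⟨rfl, trivial, by simp [decode], by simp⟩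
  | cons α u ih =>
    obtain ⟨s, hs, w', hw', rfl⟩ := act_supp h
    obtain ⟨i1, i2, i3, i4⟩ := ih (noBB_tail hu) w' hw'
    rcases real_cases hs with ⟨rfl, rfl | rfl | rfl⟩ | ⟨rfl, rfl | rfl⟩
    · refine ⟨rfl, ?_, ?_, ?_⟩
      · exact noBB_cons_false (noBB_cons_false i2)
      · show false :: decode w' = _
        rw [i3]
      · simp only [List.length_append, List.length_cons, List.length_nil]; omega
    · refine ⟨rfl, ?_, ?_, ?_⟩
      · exact noBB_cons_false (noBB_true_false (noBB_cons_false i2))
      · show false :: decode w' = _
        rw [i3]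
      · simp only [List.length_append, List.length_cons, List.length_nil]; omega
    · refine ⟨rfl, ?_, ?_, ?_⟩
      · exact noBB_cons_false (noBB_true_false (noBB_true_false i2))
      · show false :: decode w' = _
        rw [i3]
      · simp only [List.length_append, List.length_cons, List.length_nil]; omega
    · refine ⟨rfl, ?_, ?_, ?_⟩
      · exact noBB_true_false i2
      · cases w' with
        | nil =>
          rw [← i3]
          simp [decode]
        | cons x w' =>
          cases x
          · show true :: decode (false :: w') = _
            rw [i3]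
          · exfalso
            cases u with
            | nil => simp at i1
            | cons y u =>
              have : y = true := by simpa using i1.symm
              exact hu.1 ⟨rfl, this⟩
      · simp only [List.length_append, List.length_cons, List.length_nil]; omega
    · refine ⟨rfl, ?_, ?_, ?_⟩
      · show NoBB (true :: false :: true :: w')
        refine ⟨by simp, by simp, ?_⟩
        cases w' with
        | nil => trivial
        | cons x w' =>
          refine ⟨?_, i2⟩
          rintro ⟨-, rfl⟩
          cases u with
          | nil => simp at i1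
          | cons y u =>
            have : y = true := by simpa using i1.symm
            exact hu.1 ⟨rfl, this⟩
      · show true :: decode w' = _
        rw [i3]
      · simp only [List.length_append, List.length_cons, List.length_nil]; omega

theorem act_uniq {α : Bool} {u : List Bool} (hu : NoBB (α :: u)) {s₁ s₂ w₁ w₂ : List Bool}
    (h₁ : s₁ ∈ real α) (h₂ : s₂ ∈ real α) (a₁ : act th u w₁ ≠ 0) (a₂ : act th u w₂ ≠ 0)
    (h : s₁ ++ w₁ = s₂ ++ w₂) : s₁ = s₂ ∧ w₁ = w₂ := by
  have key : ∀ w w' : List Bool, act th u w ≠ 0 → α = true → w = true :: w' → False := by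
    intro w w' hw hα hw'
    have h1 := (act_props u (noBB_tail hu) w hw).1
    rw [hw'] at h1
    cases u with
    | nil => simp at h1
    | cons y u =>
      have : y = true := by simpa using h1.symm
      exact hu.1 ⟨hα, this⟩
  rcases real_cases h₁ with ⟨rfl, rfl | rfl | rfl⟩ | ⟨rfl, rfl | rfl⟩ <;>
  rcases real_cases h₂ with ⟨e, rfl | rfl | rfl⟩ | ⟨e, rfl | rfl⟩ <;>
  first
  | exact ⟨rfl, List.append_cancel_left h⟩
  | (exfalso; simp at h; done)
  | (exfalso; simp at e; done)
  | (exfalso
     simp only [List.cons_append, List.nil_append, List.cons.injEq, true_and] at h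
     exact key _ _ a₁ rfl h)
  | (exfalso
     simp only [List.cons_append, List.nil_append, List.cons.injEq, true_and] at h
     exact key _ _ a₂ rfl h.symm)

theorem act_cons_apply (α : Bool) (u w : List Bool) :
    act th (α :: u) w = ∑' s, th α s * ∑' w', act th u w' * (if w = s ++ w' then 1 else 0) := by
  show ((th α).bind fun s => (act th u).bind fun w => PMF.pure (s ++ w)) w = _
  rw [PMF.bind_apply]
  congr 1
  funext s
  rw [PMF.bind_apply]
  congr 2
  funext w'
  rw [PMF.pure_apply]
  split_ifs <;> rfl

theorem act_bd (u : List Bool) (hu : NoBB u) (w : List Bool) :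
    act th u w * tq ^ u.length ≤ tq ^ w.length := by
  induction u generalizing w with
  | nil =>
    by_cases h : act th [] w = 0
    · rw [h, zero_mul]; exact zero_le
    · rw [act_nil h]
      simp only [List.length_nil, pow_zero, mul_one]
      exact PMF.coe_le_one _ _
  | cons α u ih =>
    by_cases h : act th (α :: u) w = 0
    · rw [h, zero_mul]; exact zero_le
    · obtain ⟨s₀, hs₀, w₀, hw₀, e₀⟩ := act_supp h
      have h1 : act th (α :: u) w = th α s₀ * act th u w₀ := by
        rw [act_cons_apply, tsum_eq_single s₀]
        · congr 1
          rw [tsum_eq_single w₀]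
          · rw [if_pos e₀, mul_one]
          · intro w' hw'
            by_cases h2 : act th u w' = 0
            · rw [h2, zero_mul]
            · rw [if_neg, mul_zero]
              intro h3
              rw [e₀] at h3
              exact hw' (List.append_cancel_left h3).symm
        · intro s hs
          by_cases h2 : th α s = 0
          · rw [h2, zero_mul]
          · have h3 : ∑' w', act th u w' * (if w = s ++ w' then 1 else 0) = 0 := by
              rw [ENNReal.tsum_eq_zero]
              intro w'
              by_cases h4 : act th u w' = 0
              · rw [h4, zero_mul]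
              · rw [if_neg, mul_zero]
                intro h5
                rw [e₀] at h5
                exact hs (act_uniq hu hs₀ (th_supp.1 h2) hw₀ h4 h5).1.symm
            rw [h3, mul_zero]
      rw [h1, th_apply]
      unfold wt
      rw [if_pos hs₀, e₀, List.length_append, List.length_cons]
      have hlen : 1 ≤ s₀.length := by
        rcases real_cases hs₀ with ⟨-, rfl | rfl | rfl⟩ | ⟨-, rfl | rfl⟩ <;> simp
      calc tq ^ (s₀.length - 1) * act th u w₀ * tq ^ (u.length + 1)
          = tq ^ (s₀.length - 1 + 1) * (act th u w₀ * tq ^ u.length) := by ring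
        _ ≤ tq ^ (s₀.length - 1 + 1) * tq ^ w₀.length := by
            exact mul_le_mul_right (ih (noBB_tail hu) w₀) _
        _ = tq ^ (s₀.length + w₀.length) := by
            rw [← pow_add, Nat.sub_add_cancel hlen]

theorem iter_props (α : Bool) (n : ℕ) (w : List Bool) :
    (iter th [α] n w ≠ 0 → NoBB w ∧ n + 1 ≤ w.length) ∧
      iter th [α] n w * tq ≤ tq ^ w.length := by
  induction n generalizing w with
  | zero =>
    constructor
    · intro h
      have h1 : w ∈ (iter th [α] 0).support := h
      unfold iter at h1
      rw [PMF.mem_support_pure_iff] at h1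
      rw [h1]
      exact ⟨trivial, by simp⟩
    · by_cases h : iter th [α] 0 w = 0
      · rw [h, zero_mul]; exact zero_le
      · have h1 : w ∈ (iter th [α] 0).support := h
        unfold iter at h1
        rw [PMF.mem_support_pure_iff] at h1
        rw [h1]
        calc iter th [α] 0 [α] * tq ≤ 1 * tq := by
              exact mul_le_mul_left (PMF.coe_le_one _ _) _
          _ = tq ^ [α].length := by simp
  | succ n ih =>
    have hu : ∀ u, iter th [α] n u ≠ 0 → act th u w ≠ 0 →
        u = decode w ∧ NoBB w ∧ n + 2 ≤ w.length := by
      intro u h1 h2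
      obtain ⟨a1, a2⟩ := (ih u).1 h1
      obtain ⟨b1, b2, b3, b4⟩ := act_props u a1 w h2
      exact ⟨b3.symm, b2, by omega⟩
    constructor
    · intro h
      have h1 : w ∈ (iter th [α] (n + 1)).support := h
      unfold iter at h1
      rw [PMF.mem_support_bind_iff] at h1
      obtain ⟨u, hu1, hu2⟩ := h1
      exact (hu u hu1 hu2).2
    · have e : iter th [α] (n + 1) w = iter th [α] n (decode w) * act th (decode w) w := by
        show ((iter th [α] n).bind (act th)) w = _
        rw [PMF.bind_apply, tsum_eq_single (decode w)]
        intro u hne
        by_cases h1 : iter th [α] n u = 0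
        · rw [h1, zero_mul]
        · by_cases h2 : act th u w = 0
          · rw [h2, mul_zero]
          · exact absurd (hu u h1 h2).1 hne
      rw [e]
      by_cases h1 : iter th [α] n (decode w) = 0
      · rw [h1, zero_mul, zero_mul]; exact zero_le
      · calc iter th [α] n (decode w) * act th (decode w) w * tq
            = iter th [α] n (decode w) * tq * act th (decode w) w := by ring
          _ ≤ tq ^ (decode w).length * act th (decode w) w := by
              exact mul_le_mul_left (ih (decode w)).2 _
          _ = act th (decode w) w * tq ^ (decode w).length := by ring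
          _ ≤ tq ^ w.length := act_bd _ ((ih _).1 h1).1 w

/-! ### Primitivity -/

theorem tsum_th (α : Bool) (g : List Bool → ℝ) :
    ∑' s : List Bool, (th α s).toReal * g s = ∑ s ∈ real α, (tq ^ (s.length - 1)).toReal * g s := by
  rw [tsum_eq_sum (s := real α)]
  · apply Finset.sum_congr rfl
    intro s hs
    rw [th_apply]
    unfold wt
    rw [if_pos hs]
  · intro s hs
    rw [th_apply]
    unfold wt
    rw [if_neg hs]
    simp

theorem tq_toReal (k : ℕ) : 0 < (tq ^ k).toReal := by
  unfold tq
  rw [← ENNReal.ofReal_pow q_pos.le, ENNReal.toReal_ofReal (pow_nonneg q_pos.le k)]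
  exact pow_pos q_pos k

theorem th_primitive : Primitive th := by
  refine ⟨1, le_refl 1, ?_⟩
  intro i j
  rw [pow_one]
  show 0 < ∑' s : List Bool, (th j s).toReal * ((s.count i : ℕ) : ℝ)
  rw [tsum_th]
  have hnn : ∀ s ∈ real j, 0 ≤ (tq ^ (s.length - 1)).toReal * ((s.count i : ℕ) : ℝ) := by
    intro s _
    exact mul_nonneg (tq_toReal _).le (Nat.cast_nonneg _)
  apply Finset.sum_pos' hnn
  have hall : ∀ i j : Bool, ∃ s ∈ real j, 0 < s.count i := by decide
  obtain ⟨s, hs, hc⟩ := hall i j
  exact ⟨s, hs, mul_pos (tq_toReal _) (by exact_mod_cast hc)⟩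

end Pool.Agent.R200.Parry
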