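import Pool.Agent.R200.ParryDefs

/-!
# Large deviations for the Parry measure by an explicit corrector
-/

namespace Pool.Agent.R200.Parry

/-- The inverse of the golden mean. -/
noncomputable def q : ℝ := tau⁻¹

theorem tau_pos : 0 < tau := by unfold tau; positivity

theorem tau_sq : tau ^ 2 = tau + 1 := by
  unfold tau
  have : (√5) ^ 2 = 5 := Real.sq_sqrt (by norm_num)
  nlinarith

theorem q_pos : 0 < q := inv_pos.2 tau_pos

theorem q_sq : q ^ 2 = 1 - q := by
  have h1 := tau_sq
  have h2 : tau * q = 1 := mul_inv_cancel₀ tau_pos.ne'
  have h3 : tau ^ 2 * q ^ 2 = 1 := by rw [← mul_pow, h2, one_pow]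
  have h4 : (tau + 1) * q ^ 2 = 1 := by rw [← h1]; exact h3
  nlinarith

theorem q_lt_one : q < 1 := by
  have := q_sq
  have := q_pos
  nlinarith

theorem trans_ff : trans false false = q := rfl
theorem trans_ft : trans false true = q ^ 2 := by
  unfold trans q
  rw [inv_pow]
theorem trans_tf : trans true false = 1 := rfl
theorem trans_tt : trans true true = 0 := rfl

theorem init_t : init true = 1 / (tau ^ 2 + 1) := rfl
theorem init_f : init false = 1 - init true := by
  unfold init
  have : tau ^ 2 + 1 ≠ 0 := by positivity
  field_simp
  ring

theorem init_rel : q ^ 2 * (1 - init true) = init true := by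
  rw [init_t]
  have h : tau ^ 2 + 1 ≠ 0 := by positivity
  have h' : tau ≠ 0 := tau_pos.ne'
  unfold q
  field_simp
  ring

theorem init_pos (x : Bool) : 0 < init x := by
  have := tau_pos
  cases x <;> unfold init <;> positivity

theorem init_le_one (x : Bool) : init x ≤ 1 := by
  have h1 := init_pos true
  have h2 := init_pos false
  have h3 := init_f
  cases x <;> linarith

theorem trans_nonneg (x y : Bool) : 0 ≤ trans x y := by
  have := q_pos
  cases x <;> cases y
  · rw [trans_ff]; positivity
  · rw [trans_ft]; positivity
  · rw [trans_tf]; positivity
  · rw [trans_tt]

theorem trans_le_one (x y : Bool) : trans x y ≤ 1 := by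
  have h1 := q_pos
  have h2 := q_lt_one
  have h3 := q_sq
  cases x <;> cases y
  · rw [trans_ff]; linarith
  · rw [trans_ft]; linarith
  · rw [trans_tf]
  · rw [trans_tt]; linarith

/-- Reversibility. -/
theorem parry_cons (x y : Bool) (l : List Bool) :
    parry (x :: y :: l) = trans y x * parry (y :: l) := by
  show init x * (trans x y * chain y l) = trans y x * (init y * chain y l)
  have h : init x * trans x y = trans y x * init y := by
    have h1 := init_rel
    have h2 := init_f
    cases x <;> cases y
    · ring
    · rw [trans_ft, trans_tf, h2]; linarith
    · rw [trans_ft, trans_tf, h2]; linarith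
    · ring
  rw [← mul_assoc, h, mul_assoc]

theorem chain_bd (x : Bool) (l : List Bool) : 0 ≤ chain x l ∧ chain x l ≤ 1 := by
  induction l generalizing x with
  | nil => exact ⟨zero_le_one, le_refl _⟩
  | cons y l ih =>
    have h1 := ih y
    have h2 := trans_nonneg x y
    have h3 := trans_le_one x y
    refine ⟨mul_nonneg h2 h1.1, ?_⟩
    show trans x y * chain y l ≤ 1
    nlinarith [h1.1, h1.2]

theorem parry_bd (l : List Bool) : 0 ≤ parry l ∧ parry l ≤ 1 := by
  cases l with
  | nil => exact ⟨zero_le_one, le_refl _⟩
  | cons x l =>
    have h1 := chain_bd x l
    have h2 := init_pos x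
    have h3 := init_le_one x
    refine ⟨mul_nonneg h2.le h1.1, ?_⟩
    show init x * chain x l ≤ 1
    nlinarith [h1.1, h1.2]

/-- Indicator of an occurrence at the beginning. -/
def dd (v w : List Bool) : ℝ := if v <+: w then 1 else 0

theorem dd_bd (v w : List Bool) : 0 ≤ dd v w ∧ dd v w ≤ 1 := by
  unfold dd
  split_ifs <;> norm_num

/-- The corrector. -/
noncomputable def phi : List Bool → List Bool → ℝ
  | [], _ => 0
  | [x], w => if w.head? = some true then (if x = true then - init true else init true) else 0
  | x :: y :: l, w => trans y x * (phi (y :: l) w + dd (y :: l) w) - parry (x :: y :: l)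

theorem phi_bd (v w : List Bool) : |phi v w| ≤ 2 * v.length := by
  induction v with
  | nil => simp [phi]
  | cons x v ih =>
    cases v with
    | nil =>
      have h1 := init_pos true
      have h2 := init_le_one true
      unfold phi
      split_ifs
      · rw [abs_neg, abs_of_pos h1]; simp; linarith
      · rw [abs_of_pos h1]; simp; linarith
      · simp
    | cons y l =>
      unfold phi
      have h1 := trans_nonneg y x
      have h2 := trans_le_one y x
      have h3 := dd_bd (y :: l) w
      have h4 := parry_bd (x :: y :: l)
      rw [abs_le] at ih ⊢
      simp only [List.length_cons] at ih ⊢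
      push_cast at ih ⊢
      constructor <;> nlinarith

theorem dd_cons (x z : Bool) (v w : List Bool) :
    dd (x :: v) (z :: w) = if x = z then dd v w else 0 := by
  unfold dd
  by_cases h : x = z
  · simp [h, List.cons_prefix_cons]
  · simp [h, List.cons_prefix_cons]

theorem dd_head {y : Bool} {l w : List Bool} (h : dd (y :: l) w ≠ 0) : w.head? = some y := by
  unfold dd at h
  split_ifs at h with h'
  · obtain ⟨t, rfl⟩ := h'
    simp
  · exact absurd rfl h

/-- Poisson equation. -/
theorem poisson (v : List Bool) (hv : v ≠ []) (w : List Bool) :
    (w.head? = some true →
      dd v (false :: w) - parry v + phi v (false :: w) = phi v w) ∧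
    (w.head? ≠ some true →
      q * (dd v (false :: w) - parry v + phi v (false :: w)) +
        q ^ 2 * (dd v (true :: w) - parry v + phi v (true :: w)) = phi v w) := by
  induction v with
  | nil => exact absurd rfl hv
  | cons x v ih =>
    cases v with
    | nil =>
      have e0 : parry [x] = init x := by
        show init x * 1 = init x
        ring
      have h1 := init_rel
      have h2 := init_f
      have h3 := q_sq
      have hd : ∀ z, dd [x] (z :: w) = if x = z then 1 else 0 := by
        intro z
        rw [dd_cons]
        have : dd [] w = 1 := by simp [dd]
        rw [this]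
      rw [hd, hd, e0]
      constructor
      · intro hw
        cases x <;> simp [phi, hw] <;> linarith
      · intro hw
        cases x
        · simp [phi, hw]
          rw [h2]
          nlinarith
        · simp [phi, hw]
          nlinarith
    | cons y l =>
      obtain ⟨i1, i2⟩ := ih (by simp)
      have hp := parry_cons x y l
      have h3 := q_sq
      have hd : ∀ z, dd (x :: y :: l) (z :: w) = if x = z then dd (y :: l) w else 0 :=
        fun z => dd_cons x z _ w
      have hphi : ∀ w', phi (x :: y :: l) w'
          = trans y x * (phi (y :: l) w' + dd (y :: l) w') - parry (x :: y :: l) :=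
        fun w' => rfl
      constructor
      · intro hw
        have i1' := i1 hw
        rw [hd, hphi, hphi, hp]
        have key : (if x = false then dd (y :: l) w else 0) = trans y x * dd (y :: l) w := by
          by_cases h0 : dd (y :: l) w = 0
          · rw [h0]; simp
          · have := dd_head h0
            rw [hw] at this
            have hy : y = true := (Option.some.inj this).symm
            subst hy
            cases x
            · rw [trans_tf]; simp
            · rw [trans_tt]; simp
        rw [key]
        linear_combination trans y x * i1'
      · intro hw
        have i2' := i2 hw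
        rw [hd, hd, hphi, hphi, hphi, hp]
        have key : q * (if x = false then dd (y :: l) w else 0) +
            q ^ 2 * (if x = true then dd (y :: l) w else 0) = trans y x * dd (y :: l) w := by
          by_cases h0 : dd (y :: l) w = 0
          · rw [h0]; simp
          · have := dd_head h0
            have hy : y = false := by
              cases y
              · rfl
              · exact absurd this hw
            subst hy
            cases x
            · rw [trans_ff]; simp
            · rw [trans_ft]; simp
        linear_combination key + trans y x * i2' +
          (- 2 * trans y x * parry (y :: l) + trans y x * parry (y :: l)) * (h3)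

end Pool.Agent.R200.Parry
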