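import Mathlib

/-!
# The Thue-Morse sequence is overlap-free
-/

namespace Pool.Agent.R200.Pf

/-- The Thue-Morse sequence. -/
def tm : ℕ → Bool
  | 0 => false
  | n + 1 => xor (tm ((n + 1) / 2)) (decide ((n + 1) % 2 = 1))
termination_by n => n
decreasing_by omega

theorem tm_rec (n : ℕ) : tm n = xor (tm (n / 2)) (decide (n % 2 = 1)) := by
  cases n with
  | zero => rw [tm]; simp
  | succ n => rw [tm]

theorem tm_even (k : ℕ) : tm (2 * k) = tm k := by
  rw [tm_rec]
  have h1 : 2 * k / 2 = k := by omega
  have h2 : 2 * k % 2 = 0 := by omega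
  rw [h1, h2]
  simp

theorem tm_odd (k : ℕ) : tm (2 * k + 1) = !(tm k) := by
  rw [tm_rec]
  have h1 : (2 * k + 1) / 2 = k := by omega
  have h2 : (2 * k + 1) % 2 = 1 := by omega
  rw [h1, h2]
  simp

theorem tm_pair (k : ℕ) : tm (2 * k) ≠ tm (2 * k + 1) := by
  rw [tm_even, tm_odd]
  cases tm k <;> simp

/-- Equal neighbours occur only at odd positions. -/
theorem odd_of_eq {p : ℕ} (h : tm p = tm (p + 1)) : p % 2 = 1 := by
  by_contra hc
  obtain ⟨k, rfl⟩ : ∃ k, p = 2 * k := ⟨p / 2, by omega⟩
  exact tm_pair k h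

theorem no_cube (i : ℕ) : ¬ (tm i = tm (i + 1) ∧ tm (i + 1) = tm (i + 2)) := by
  rintro ⟨h1, h2⟩
  have a := odd_of_eq h1
  have b := odd_of_eq h2
  omega

theorem no_alt (p : ℕ) : ¬ (tm p ≠ tm (p + 1) ∧ tm (p + 1) ≠ tm (p + 2) ∧ tm (p + 2) ≠ tm (p + 3) ∧
    tm (p + 3) ≠ tm (p + 4)) := by
  rintro ⟨h1, h2, h3, h4⟩
  have e1 : tm p = tm (p + 2) := by
    revert h1 h2; cases tm p <;> cases tm (p + 1) <;> cases tm (p + 2) <;> simp
  have e2 : tm (p + 2) = tm (p + 4) := by
    revert h3 h4; cases tm (p + 2) <;> cases tm (p + 3) <;> cases tm (p + 4) <;> simp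
  rcases Nat.even_or_odd' p with ⟨k, rfl | rfl⟩
  · have a : 2 * k + 2 = 2 * (k + 1) := by ring
    have b : 2 * k + 4 = 2 * (k + 2) := by ring
    rw [a, tm_even, tm_even] at e1
    rw [a, b, tm_even, tm_even] at e2
    exact no_cube k ⟨e1, e2⟩
  · have a : 2 * k + 1 + 2 = 2 * (k + 1) + 1 := by ring
    have b : 2 * k + 1 + 4 = 2 * (k + 2) + 1 := by ring
    rw [a, tm_odd, tm_odd] at e1
    rw [a, b, tm_odd, tm_odd] at e2
    exact no_cube k ⟨Bool.not_inj e1, Bool.not_inj e2⟩

/-- The Thue-Morse sequence is overlap-free. -/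
theorem tm_overlap_free : ∀ (n : ℕ), 1 ≤ n → ∀ i : ℕ, ¬ ∀ j ≤ n, tm (i + j) = tm (i + j + n) := by
  intro n
  induction n using Nat.strong_induction_on with
  | _ n ih =>
    intro hn i h
    rcases Nat.even_or_odd' n with ⟨m, rfl | rfl⟩
    · rcases Nat.even_or_odd' i with ⟨a, rfl | rfl⟩
      · apply ih m (by omega) (by omega) a
        intro j hj
        have h1 := h (2 * j) (by omega)
        rw [show 2 * a + 2 * j = 2 * (a + j) by ring,
          show 2 * (a + j) + 2 * m = 2 * (a + j + m) by ring, tm_even, tm_even] at h1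
        exact h1
      · apply ih m (by omega) (by omega) a
        intro j hj
        have h1 := h (2 * j) (by omega)
        rw [show 2 * a + 1 + 2 * j = 2 * (a + j) + 1 by ring,
          show 2 * (a + j) + 1 + 2 * m = 2 * (a + j + m) + 1 by ring, tm_odd, tm_odd] at h1
        exact Bool.not_inj h1
    · have halt : ∀ p, i ≤ p → p < i + (2 * m + 1) → tm p ≠ tm (p + 1) := by
        intro p h1 h2 h3
        obtain ⟨j, rfl⟩ := Nat.exists_eq_add_of_le h1
        have a := h j (by omega)
        have b := h (j + 1) (by omega)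
        have hodd := odd_of_eq h3
        have h4 : tm (i + j + (2 * m + 1)) = tm (i + j + (2 * m + 1) + 1) := by
          rw [← a]
          rw [show i + j + (2 * m + 1) + 1 = i + (j + 1) + (2 * m + 1) by ring, ← b]
          exact h3
        have hodd2 := odd_of_eq h4
        omega
      rcases Nat.eq_zero_or_pos m with rfl | hm
      · have a := h 0 (by omega)
        exact halt i le_rfl (by omega) (by simpa using a)
      · have halt2 : ∀ p, i + (2 * m + 1) ≤ p → p < i + 2 * (2 * m + 1) → tm p ≠ tm (p + 1) := by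
          intro p h1 h2 h3
          obtain ⟨q, rfl⟩ : ∃ q, p = q + (2 * m + 1) := ⟨p - (2 * m + 1), by omega⟩
          obtain ⟨j, rfl⟩ := Nat.exists_eq_add_of_le (show i ≤ q by omega)
          have a := h j (by omega)
          have b := h (j + 1) (by omega)
          apply halt (i + j) (by omega) (by omega)
          rw [a, show i + j + 1 = i + (j + 1) by ring, b, h3]
          congr 1
          ring
        have hall : ∀ p, i ≤ p → p < i + 4 → tm p ≠ tm (p + 1) := by
          intro p h1 h2
          by_cases hp : p < i + (2 * m + 1)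
          · exact halt p h1 hp
          · exact halt2 p (by omega) (by omega)
        exact no_alt i ⟨hall i (by omega) (by omega), hall (i + 1) (by omega) (by omega),
          hall (i + 2) (by omega) (by omega), hall (i + 3) (by omega) (by omega)⟩

theorem tm_block (K a : ℕ) : ∀ j < 2 ^ K, tm (a * 2 ^ K + j) = xor (tm a) (tm j) := by
  induction K generalizing a with
  | zero =>
    intro j hj
    have : j = 0 := by simpa using hj
    subst this
    rw [show tm 0 = false by rw [tm]]
    simp
  | succ K ih =>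
    intro j hj
    have e1 : a * 2 ^ (K + 1) + j = 2 * (a * 2 ^ K + j / 2) + j % 2 := by
      rw [pow_succ]; have := Nat.div_add_mod j 2; linarith
    have hj2 : j / 2 < 2 ^ K := by rw [pow_succ] at hj; omega
    have h := ih a (j / 2) hj2
    rcases Nat.mod_two_eq_zero_or_one j with h0 | h0
    · have e2 : j = 2 * (j / 2) := by omega
      rw [e1, h0, add_zero, tm_even, h]
      conv_rhs => rw [e2, tm_even]
    · have e2 : j = 2 * (j / 2) + 1 := by omega
      rw [e1, h0, tm_odd, h]
      conv_rhs => rw [e2, tm_odd]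
      cases tm a <;> cases tm (j / 2) <;> rfl

end Pool.Agent.R200.Pf
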