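import Mathlib
import Pool.Agent.R200.PfTM

/-!
# Launching words: replacing the tail of an infinite power-free word
-/

namespace Pool.Agent.R200.Pt

variable {A : Type*}

/-- `x` has period `p` on the window `[i, i+L)`. -/
def Run (x : ℕ → A) (i L p : ℕ) : Prop := ∀ j, j + p < L → x (i + j) = x (i + j + p)

/-- `x` is `α`-power-free. -/
def Fr (α : ℚ) (x : ℕ → A) : Prop := ∀ i L p, 1 ≤ p → Run x i L p → (L : ℚ) < α * p

/-- Follow `x` on `[0,n)` and then `t`. -/
def Splice (x : ℕ → A) (n : ℕ) (t : ℕ → A) : ℕ → A := fun i => if i < n then x i else t (i - n)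

/-- `x` agrees with a prefix of `t` of length `j` at `m`. -/
def Ag (x t : ℕ → A) (m j : ℕ) : Prop := ∀ i < j, x (m + i) = t i

theorem Ag.mono {x t : ℕ → A} {m j j' : ℕ} (h : Ag x t m j) (hj : j' ≤ j) : Ag x t m j' :=
  fun i hi => h i (by omega)

theorem splice_lt {x t : ℕ → A} {n i : ℕ} (h : i < n) : Splice x n t i = x i := by
  simp [Splice, h]

theorem splice_ge {x t : ℕ → A} {n i : ℕ} (h : n ≤ i) : Splice x n t i = t (i - n) := by
  simp [Splice, Nat.not_lt.mpr h]

theorem splice_add {x t : ℕ → A} {n i : ℕ} : Splice x n t (n + i) = t i := by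
  rw [splice_ge (by omega)]
  congr 1
  omega

/-- Analysis of a repetition created by a cut. -/
theorem bad_cut {α : ℚ} {x t : ℕ → A} (hx : Fr α x) (ht : Fr α t)
    (hp : ∀ p b, 1 ≤ p → Run t 0 b p → (b : ℚ) < (α - 1) * p + 1) {n : ℕ}
    (hbad : ¬ Fr α (Splice x n t)) :
    ∃ p a b j : ℕ, 1 ≤ p ∧ p ≤ a ∧ a ≤ n ∧ α * p ≤ (a : ℚ) + b ∧ Ag x t n j ∧
      x (n + j) ≠ t j ∧ Ag x t (n - p) (j + 1) ∧ Ag x t (n - p) (min b p) := by
  classical
  simp only [Fr, not_forall, not_lt] at hbad
  obtain ⟨i, L, p, hp1, hrun, hL⟩ := hbad
  -- crossing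
  have hin : i < n := by
    by_contra hc
    push Not at hc
    have h1 : Run t (i - n) L p := by
      intro j hj
      have h2 := hrun j hj
      rw [splice_ge (by omega), splice_ge (by omega)] at h2
      rw [show i - n + j = i + j - n by omega, show i + j - n + p = i + j + p - n by omega]
      exact h2
    exact absurd (ht _ _ _ hp1 h1) (not_lt.mpr hL)
  have hiL : n < i + L := by
    by_contra hc
    push Not at hc
    have h1 : Run x i L p := by
      intro j hj
      have h2 := hrun j hj
      rw [splice_lt (by omega), splice_lt (by omega)] at h2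
      exact h2
    exact absurd (hx _ _ _ hp1 h1) (not_lt.mpr hL)
  obtain ⟨a, ha⟩ : ∃ a, n = i + a := ⟨n - i, by omega⟩
  obtain ⟨b, hb⟩ : ∃ b, L = a + b := ⟨L - a, by omega⟩
  subst ha
  subst hb
  have hr : ∀ s, i ≤ s → s + p < i + (a + b) → Splice x (i + a) t s = Splice x (i + a) t (s + p) := by
    intro s h1 h2
    have := hrun (s - i) (by omega)
    rw [show i + (s - i) = s by omega] at this
    exact this
  have hbt : (b : ℚ) < (α - 1) * p + 1 := by
    apply hp p b hp1
    intro j hj
    have h2 := hr (i + a + j) (by omega) (by omega)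
    rw [splice_add, show i + a + j + p = i + a + (j + p) by ring, splice_add] at h2
    simpa using h2
  have hpa : p ≤ a := by
    push_cast at hL
    have h1 : (p : ℚ) - 1 < a := by linarith
    have h2 : (p : ℚ) < a + 1 := by linarith
    have h3 : p < a + 1 := by exact_mod_cast h2
    omega
  have hex : ∃ j, x (i + a + j) ≠ t j := by
    by_contra hc
    push Not at hc
    have h1 : Run x i (a + b) p := by
      intro j hj
      have h2 := hr (i + j) (by omega) (by omega)
      have e : ∀ s, Splice x (i + a) t s = x s := by
        intro s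
        by_cases hs : s < i + a
        · exact splice_lt hs
        · rw [splice_ge (by omega), ← hc (s - (i + a))]
          congr 1
          omega
      rw [e, e] at h2
      exact h2
    have := hx _ _ _ hp1 h1
    exact absurd this (not_lt.mpr hL)
  have hmin := Nat.find_spec hex
  have hlt : ∀ j < Nat.find hex, x (i + a + j) = t j := by
    intro j hj
    have := Nat.find_min hex hj
    push Not at this
    exact this
  set J := Nat.find hex with hJ
  have hJb : J < b := by
    by_contra hc
    push Not at hc
    have h1 : Run x i (a + b) p := by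
      intro j hj
      have h2 := hr (i + j) (by omega) (by omega)
      have e : ∀ s, s < i + (a + b) → Splice x (i + a) t s = x s := by
        intro s hs
        by_cases hs' : s < i + a
        · exact splice_lt hs'
        · rw [splice_ge (by omega), ← hlt (s - (i + a)) (by omega)]
          congr 1
          omega
      rw [e _ (by omega), e _ (by omega)] at h2
      exact h2
    have := hx _ _ _ hp1 h1
    exact absurd this (not_lt.mpr hL)
  refine ⟨p, a, b, J, hp1, hpa, by omega, by push_cast at hL; exact hL, hlt, hmin, ?_, ?_⟩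
  · intro s hs
    have h2 := hr (i + a - p + s) (by omega) (by omega)
    rw [show i + a - p + s + p = i + a + s by omega, splice_add] at h2
    by_cases hsp : s < p
    · rw [splice_lt (by omega)] at h2
      exact h2
    · rw [splice_ge (by omega)] at h2
      have h3 := hlt (s - p) (by omega)
      rw [show i + a - p + s = i + a + (s - p) by omega, h3, ← h2]
      congr 1
      omega
  · intro s hs
    have h2 := hr (i + a - p + s) (by omega) (by omega)
    rw [show i + a - p + s + p = i + a + s by omega, splice_add, splice_lt (by omega)] at h2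
    exact h2

/-- An infinite power-free word can be cut arbitrarily far and continued by a launching word
(unless it already ends with it). -/
theorem launch {α : ℚ} (hα : 2 ≤ α) {x t : ℕ → A} (hx : Fr α x) (ht : Fr α t)
    (hp : ∀ p b, 1 ≤ p → Run t 0 b p → (b : ℚ) < (α - 1) * p + 1) (N : ℕ) :
    (∃ n, N ≤ n ∧ Fr α (Splice x n t)) ∨ ∃ m, ∀ i, x (m + i) = t i := by
  classical
  by_cases hinf : ∃ m, ∀ i, x (m + i) = t i
  · exact Or.inr hinf
  left
  push Not at hinf
  -- bound for the agreement below a given position
  have hbound : ∀ M : ℕ, ∃ B : ℕ, ∀ m < M, ¬ Ag x t m (B + 1) := by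
    intro M
    induction M with
    | zero => exact ⟨0, by simp⟩
    | succ M ih =>
      obtain ⟨B, hB⟩ := ih
      obtain ⟨i, hi⟩ := hinf M
      refine ⟨max B i, fun m hm h => ?_⟩
      rcases Nat.lt_succ_iff_lt_or_eq.mp hm with h1 | h1
      · exact hB m h1 (h.mono (by have := le_max_left B i; omega))
      · subst h1
        exact hi (h i (by have := le_max_right B i; omega))
  by_cases hall : ∀ j M, ∃ n, M ≤ n ∧ Ag x t n j
  · obtain ⟨B, hB⟩ := hbound N
    have hex : ∃ n, Ag x t n (B + 1) := by
      obtain ⟨n, _, h⟩ := hall (B + 1) 0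
      exact ⟨n, h⟩
    refine ⟨Nat.find hex, ?_, ?_⟩
    · by_contra hc
      push Not at hc
      exact hB _ hc (Nat.find_spec hex)
    · by_contra hbad
      obtain ⟨p, a, b, j, h1, h2, h3, h4, h5, h6, h7, h8⟩ := bad_cut hx ht hp hbad
      have hj : B + 1 ≤ j := by
        by_contra hc
        push Not at hc
        exact h6 (Nat.find_spec hex j hc)
      exact Nat.find_min hex (by omega : Nat.find hex - p < Nat.find hex)
        (h7.mono (by omega))
  · -- maximal recurrent agreement
    have hex : ∃ j, ∃ M, ∀ n, M ≤ n → ¬ Ag x t n j := by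
      push Not at hall
      exact hall
    have hJ := Nat.find_spec hex
    have hJ0 : Nat.find hex ≠ 0 := by
      intro h0
      obtain ⟨M, hM⟩ := hJ
      rw [h0] at hM
      exact hM M le_rfl (fun i hi => absurd hi (by omega))
    obtain ⟨J, hJJ⟩ : ∃ J, Nat.find hex = J + 1 := ⟨Nat.find hex - 1, by omega⟩
    have hrec : ∀ M, ∃ n, M ≤ n ∧ Ag x t n J := by
      have := Nat.find_min hex (by omega : J < Nat.find hex)
      push Not at this
      exact this
    rw [hJJ] at hJ
    obtain ⟨M, hM⟩ := hJ
    obtain ⟨B, hB⟩ := hbound M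
    obtain ⟨n, hn, hnA⟩ := hrec (N + 2 * M + 2 * B + 1)
    refine ⟨n, by omega, ?_⟩
    by_contra hbad
    obtain ⟨p, a, b, j, h1, h2, h3, h4, h5, h6, h7, h8⟩ := bad_cut hx ht hp hbad
    have hj : j = J := by
      apply le_antisymm
      · by_contra hc
        push Not at hc
        exact hM n (by omega) (h5.mono (by omega))
      · by_contra hc
        push Not at hc
        exact h6 (hnA j hc)
    subst hj
    have hm : n - p < M := by
      by_contra hc
      push Not at hc
      exact hM _ hc h7
    have hmin : min b p ≤ B := by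
      by_contra hc
      push Not at hc
      exact hB _ hm (h8.mono (by omega))
    rcases le_total b p with hbp | hbp
    · rw [min_eq_left hbp] at hmin
      have h9 : α * p ≤ (n : ℚ) + B := by
        have e1 : (a : ℚ) ≤ n := by exact_mod_cast h3
        have e2 : (b : ℚ) ≤ B := by exact_mod_cast hmin
        linarith
      have h10 : 2 * (p : ℚ) ≤ α * p := by
        apply mul_le_mul_of_nonneg_right hα (by positivity)
      have h11 : 2 * (p : ℚ) ≤ n + B := le_trans h10 h9
      have h12 : 2 * p ≤ n + B := by exact_mod_cast h11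
      omega
    · rw [min_eq_right hbp] at hmin
      omega

end Pool.Agent.R200.Pt
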