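import Mathlib
import Pool.Agent.R200.PtCore

/-!
# The launching words
-/

namespace Pool.Agent.R200.Pt

open Pool.Agent.R200.Pf (tm tm_rec tm_even tm_odd odd_of_eq tm_overlap_free)

variable {A : Type*}

theorem Run.sub {x : ℕ → A} {i L p i' L' : ℕ} (h : Run x i L p) (h1 : i ≤ i')
    (h2 : i' + L' ≤ i + L) : Run x i' L' p := by
  intro j hj
  have := h (i' - i + j) (by omega)
  rw [show i + (i' - i + j) = i' + j by omega] at this
  exact this

theorem tm_run {i L p : ℕ} (hp : 1 ≤ p) (h : Run tm i L p) : L ≤ 2 * p := by
  by_contra hc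
  push Not at hc
  exact tm_overlap_free p hp i (fun j hj => h j (by omega))

theorem tm_run' {x : ℕ → A} {ι : Bool → A} (hι : Function.Injective ι) {c r i L p : ℕ}
    (hx : ∀ n, x (c + n) = ι (tm (r + n))) (hp : 1 ≤ p) (hi : c ≤ i) (h : Run x i L p) :
    L ≤ 2 * p := by
  apply tm_run (i := r + (i - c)) hp
  intro j hj
  have := h j hj
  rw [show i + j = c + (i - c + j) by omega, show c + (i - c + j) + p = c + (i - c + j + p) by ring,
    hx, hx] at this
  have := hι this
  rw [show r + (i - c) + j = r + (i - c + j) by ring, this]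
  congr 1
  omega

/-- The first values of the Thue-Morse sequence. -/
def tmList : List Bool :=
  [false, true, true, false, true, false, false, true,
   true, false, false, true, false, true, true, false,
   true, false, false, true, false, true, true, false,
   false, true, true, false, true, false, false, true,
   true, false, false, true, false, true, true, false]

theorem tm_eq_list : ∀ n < 40, tm n = tmList.getD n false := by
  intro n
  induction n using Nat.strong_induction_on with
  | _ n ih =>
    intro hn
    rcases Nat.eq_zero_or_pos n with rfl | h0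
    · rw [tm]; decide
    · rw [tm_rec, ih (n / 2) (by omega) (by omega)]
      clear ih
      revert n
      decide

/-- The binary launching word `0011` followed by a tail of the Thue-Morse word. -/
def t2 (n : ℕ) : Bool := if n < 2 then false else if n < 4 then true else tm (n + 2)

/-- Finite version of `t2`. -/
def t2L (n : ℕ) : Bool :=
  if n < 2 then false else if n < 4 then true else tmList.getD (n + 2) false

theorem t2_eq {n : ℕ} (hn : n < 38) : t2 n = t2L n := by
  unfold t2 t2L
  split_ifs
  · rfl
  · rfl
  · exact tm_eq_list _ (by omega)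

theorem t2_tail (n : ℕ) : t2 (4 + n) = tm (6 + n) := by
  unfold t2
  rw [if_neg (by omega), if_neg (by omega)]
  congr 1
  ring

theorem check1 : ∀ i < 4, ∀ p < 12, 1 ≤ p → ∃ j < 27, j + p < 7 * p / 3 + 1 ∧
    t2L (i + j) ≠ t2L (i + j + p) := by decide

theorem check2 : ∀ p < 15, 1 ≤ p → ∃ j < 27, j + p < (4 * p + 3) / 3 + 1 ∧
    t2L (0 + j) ≠ t2L (0 + j + p) := by decide

theorem t2_run {i L p : ℕ} (hp : 1 ≤ p) (h : Run t2 i L p) : 3 * L ≤ 7 * p := by
  by_contra hc
  push Not at hc
  have htail : i + L - max i 4 ≤ 2 * p := by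
    by_cases hcase : max i 4 ≤ i + L
    · apply tm_run' (x := t2) (ι := id) Function.injective_id t2_tail hp (le_max_right i 4)
      exact h.sub (le_max_left i 4) (by omega)
    · omega
  by_cases hi : 4 ≤ i
  · rw [max_eq_left hi] at htail
    omega
  · push Not at hi
    rw [max_eq_right hi.le] at htail
    have hp12 : p < 12 := by omega
    obtain ⟨j, hj1, hj2, hj3⟩ := check1 i hi p hp12 hp
    rw [← t2_eq (by omega), ← t2_eq (by omega)] at hj3
    exact hj3 (h j (by omega))

theorem t2_prefix {b p : ℕ} (hp : 1 ≤ p) (h : Run t2 0 b p) : 3 * b ≤ 4 * p + 3 := by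
  by_contra hc
  push Not at hc
  by_cases hp15 : p < 15
  · obtain ⟨j, hj1, hj2, hj3⟩ := check2 p hp15 hp
    rw [← t2_eq (by omega), ← t2_eq (by omega)] at hj3
    exact hj3 (h j (by omega))
  · push Not at hp15
    have e2 : t2 2 = t2 (4 + (p - 2)) := by
      have := h 2 (by omega)
      rw [show 0 + 2 + p = 4 + (p - 2) by omega] at this
      exact this
    have e3 : t2 3 = t2 (4 + (p - 1)) := by
      have := h 3 (by omega)
      rw [show 0 + 3 + p = 4 + (p - 1) by omega] at this
      exact this
    have e5 : t2 5 = t2 (4 + (p + 1)) := by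
      have := h 5 (by omega)
      rw [show 0 + 5 + p = 4 + (p + 1) by omega] at this
      exact this
    have e6 : t2 6 = t2 (4 + (p + 2)) := by
      have := h 6 (by omega)
      rw [show 0 + 6 + p = 4 + (p + 2) by omega] at this
      exact this
    rw [t2_tail] at e2 e3 e5 e6
    have h23 : t2 2 = t2 3 := by rw [t2_eq (by omega), t2_eq (by omega)]; decide
    have h56 : t2 5 = t2 6 := by rw [t2_eq (by omega), t2_eq (by omega)]; decide
    have o1 : (p + 4) % 2 = 1 := by
      apply odd_of_eq
      rw [show p + 4 = 6 + (p - 2) by omega, ← e2, h23, e3]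
      congr 1
      omega
    have o2 : (p + 7) % 2 = 1 := by
      apply odd_of_eq
      rw [show p + 7 = 6 + (p + 1) by omega, ← e5, h56, e6]
      congr 1
    omega

/-- A launching word which is eventually a copy of the Thue-Morse word. -/
structure Launcher (α : ℚ) (ι : Bool → A) (t : ℕ → A) (c r : ℕ) : Prop where
  inj : Function.Injective ι
  fr : Fr α t
  pre : ∀ p b, 1 ≤ p → Run t 0 b p → (b : ℚ) < (α - 1) * p + 1
  tail : ∀ n, t (c + n) = ι (tm (r + n))

theorem launcher_two {α : ℚ} (hα : 7 / 3 < α) {ι : Bool → A} (hι : Function.Injective ι) :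
    Launcher α ι (fun n => ι (t2 n)) 4 6 := by
  refine ⟨hι, ?_, ?_, ?_⟩
  · intro i L p hp h
    have h1 : Run t2 i L p := fun j hj => hι (h j hj)
    have h2 := t2_run hp h1
    have h3 : 3 * (L : ℚ) ≤ 7 * p := by exact_mod_cast h2
    have h4 : (7 / 3 : ℚ) * p < α * p := by
      apply mul_lt_mul_of_pos_right hα
      exact_mod_cast hp
    linarith
  · intro p b hp h
    have h1 : Run t2 0 b p := fun j hj => hι (h j hj)
    have h2 := t2_prefix hp h1
    have h3 : 3 * (b : ℚ) ≤ 4 * p + 3 := by exact_mod_cast h2
    have h4 : (7 / 3 : ℚ) * p < α * p := by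
      apply mul_lt_mul_of_pos_right hα
      exact_mod_cast hp
    linarith
  · intro n
    simp only [t2_tail]

theorem launcher_three {α : ℚ} (hα : 2 < α) {ι : Bool → A} (hι : Function.Injective ι) {z : A}
    (hz : ∀ b, ι b ≠ z) :
    Launcher α ι (fun n => if n = 0 then z else ι (tm (n - 1))) 1 0 := by
  have htail : ∀ n, (fun n => if n = 0 then z else ι (tm (n - 1))) (1 + n) = ι (tm (0 + n)) := by
    intro n
    simp only
    rw [if_neg (by omega)]
    congr 2
    omega
  have hpre : ∀ p b, 1 ≤ p → Run (fun n => if n = 0 then z else ι (tm (n - 1))) 0 b p →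
      b ≤ p := by
    intro p b hp h
    by_contra hc
    push Not at hc
    have := h 0 (by omega)
    simp only [add_zero, if_true, zero_add] at this
    rw [if_neg (by omega)] at this
    exact hz _ this.symm
  refine ⟨hι, ?_, ?_, htail⟩
  · intro i L p hp h
    have hp' : (1 : ℚ) ≤ p := by exact_mod_cast hp
    have h4 : (2 : ℚ) * p < α * p := by
      apply mul_lt_mul_of_pos_right hα
      linarith
    by_cases hi : 1 ≤ i
    · have := tm_run' hι htail hp hi h
      have h3 : (L : ℚ) ≤ 2 * p := by exact_mod_cast this
      linarith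
    · have hi0 : i = 0 := by omega
      subst hi0
      have := hpre p L hp h
      have h3 : (L : ℚ) ≤ p := by exact_mod_cast this
      linarith
  · intro p b hp h
    have hp' : (1 : ℚ) ≤ p := by exact_mod_cast hp
    have h4 : (2 : ℚ) * p < α * p := by
      apply mul_lt_mul_of_pos_right hα
      linarith
    have := hpre p b hp h
    have h3 : (b : ℚ) ≤ p := by exact_mod_cast this
    linarith

end Pool.Agent.R200.Pt
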