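import Mathlib
import Pool.Agent.R200.PtLaunch

/-!
# Joining two power-free words through the Thue-Morse word
-/

namespace Pool.Agent.R200.Pt

open Pool.Agent.R200.Pf (tm tm_rec tm_even tm_odd odd_of_eq tm_overlap_free tm_block)

variable {A : Type*}

/-- Every infinite power-free word can be changed far away into one ending with the
Thue-Morse word. -/
theorem to_tm {α : ℚ} (hα : 2 ≤ α) {ι : Bool → A} {t : ℕ → A} {c r : ℕ}
    (hl : Launcher α ι t c r) {x : ℕ → A} (hx : Fr α x) (N : ℕ) :
    ∃ (y : ℕ → A) (n r' : ℕ), N ≤ n ∧ Fr α y ∧ (∀ i < N, y i = x i) ∧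
      ∀ i, y (n + i) = ι (tm (r' + i)) := by
  rcases launch hα hx hl.fr hl.pre N with ⟨n, hn, hf⟩ | ⟨m, hm⟩
  · refine ⟨Splice x n t, n + c, r, by omega, hf, fun i hi => splice_lt (by omega), fun i => ?_⟩
    rw [show n + c + i = n + (c + i) by ring, splice_add, hl.tail]
  · refine ⟨x, m + c + N, r + N, by omega, hx, fun i _ => rfl, fun i => ?_⟩
    rw [show m + c + N + i = m + (c + (N + i)) by ring, hm, hl.tail]
    congr 2
    ring

theorem tm_rev (K : ℕ) : ∀ j < 2 ^ K, tm (2 ^ K - 1 - j) = xor (tm j) (decide (K % 2 = 1)) := by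
  induction K with
  | zero =>
    intro j hj
    have : j = 0 := by simpa using hj
    subst this
    simp
  | succ K ih =>
    intro j hj
    rw [pow_succ] at hj
    have hj2 : j / 2 < 2 ^ K := by omega
    have h := ih (j / 2) hj2
    have hpow : 2 ^ (K + 1) = 2 * 2 ^ K := by rw [pow_succ]; ring
    rcases Nat.mod_two_eq_zero_or_one j with h0 | h0
    · have e1 : 2 ^ (K + 1) - 1 - j = 2 * (2 ^ K - 1 - j / 2) + 1 := by omega
      have e2 : tm j = tm (j / 2) := by
        conv_lhs => rw [show j = 2 * (j / 2) by omega, tm_even]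
      rw [e1, tm_odd, h, e2]
      rcases Nat.mod_two_eq_zero_or_one K with hK | hK
      · have hK' : (K + 1) % 2 = 1 := by omega
        simp [hK, hK']
      · have hK' : (K + 1) % 2 = 0 := by omega
        simp [hK, hK']
    · have e1 : 2 ^ (K + 1) - 1 - j = 2 * (2 ^ K - 1 - j / 2) := by omega
      have e2 : tm j = !(tm (j / 2)) := by
        conv_lhs => rw [show j = 2 * (j / 2) + 1 by omega, tm_odd]
      rw [e1, tm_even, h, e2]
      rcases Nat.mod_two_eq_zero_or_one K with hK | hK
      · have hK' : (K + 1) % 2 = 1 := by omega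
        simp [hK, hK']
      · have hK' : (K + 1) % 2 = 0 := by omega
        simp [hK, hK']

theorem tm_three : tm 3 = false := by
  rw [show 3 = 2 * 1 + 1 by norm_num, tm_odd, show 1 = 2 * 0 + 1 by norm_num, tm_odd]
  rw [show tm 0 = false by rw [tm]]
  rfl

/-- Two power-free words ending with the Thue-Morse word can be joined. -/
theorem join {α : ℚ} (hα : 2 < α) {ι : Bool → A} (hι : Function.Injective ι) {y1 y2 : ℕ → A}
    (h1 : Fr α y1) (h2 : Fr α y2) {n1 r1 n2 r2 : ℕ}
    (e1 : ∀ i, y1 (n1 + i) = ι (tm (r1 + i))) (e2 : ∀ i, y2 (n2 + i) = ι (tm (r2 + i))) :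
    ∃ (T : ℕ) (Z : ℕ → A), n1 + n2 ≤ T ∧ (∀ i < n1, Z i = y1 i) ∧
      (∀ i < n2, Z (T - 1 - i) = y2 i) ∧
      ∀ i L p, i + L ≤ T → 1 ≤ p → Run Z i L p → (L : ℚ) < α * p := by
  classical
  set P0 : ℕ := ⌈((n1 : ℚ) + n2) / (α - 2)⌉₊ with hP0
  set L1 : ℕ := ⌈α * P0⌉₊ with hL1
  obtain ⟨K, hKe, hK⟩ : ∃ K, K % 2 = 0 ∧ r1 + r2 + L1 + 1 ≤ 2 ^ K := by
    refine ⟨2 * (r1 + r2 + L1 + 1), by omega, ?_⟩
    have : 2 * (r1 + r2 + L1 + 1) < 2 ^ (2 * (r1 + r2 + L1 + 1)) := Nat.lt_two_pow_self
    omega
  set M : ℕ := 4 * 2 ^ K - r2 - r1 with hM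
  set T : ℕ := n1 + M + n2 with hT
  set Z : ℕ → A := fun i => if i < n1 + M then y1 i else y2 (T - 1 - i) with hZ
  have hZ1 : ∀ i, i < n1 + M → Z i = y1 i := by
    intro i hi
    simp only [hZ]
    rw [if_pos hi]
  have hZ2 : ∀ i, n1 + M - (2 ^ K - r2) ≤ i → i < T → Z i = y2 (T - 1 - i) := by
    intro i hi hi'
    by_cases hc : i < n1 + M
    · rw [hZ1 i hc]
      have a1 : y1 i = ι (tm (r1 + (i - n1))) := by
        rw [← e1]
        congr 1
        omega
      have a2 : y2 (T - 1 - i) = ι (tm (r2 + (n1 + M - 1 - i))) := by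
        rw [← e2]
        congr 1
        omega
      rw [a1, a2]
      congr 1
      have hq : r2 + (n1 + M - 1 - i) < 2 ^ K := by omega
      have b1 : r1 + (i - n1) = 3 * 2 ^ K + (2 ^ K - 1 - (r2 + (n1 + M - 1 - i))) := by omega
      rw [b1, tm_block K 3 _ (by omega), tm_three, tm_rev K _ hq]
      have : ¬ (K % 2 = 1) := by omega
      simp [this]
    · simp only [hZ]
      rw [if_neg hc]
  refine ⟨T, Z, by omega, fun i hi => hZ1 i (by omega), ?_, ?_⟩
  · intro i hi
    have : ¬ (T - 1 - i < n1 + M) := by omega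
    simp only [hZ]
    rw [if_neg this]
    congr 1
    omega
  · intro i L p hiL hp hrun
    by_contra hc
    push Not at hc
    have hp' : (1 : ℚ) ≤ p := by exact_mod_cast hp
    -- length of the part inside the Thue-Morse zone
    have hlen : L ≤ n1 + 2 * p + n2 := by
      by_cases hse : max i n1 ≤ min (i + L) (n1 + M)
      · have hr : Run y1 (max i n1) (min (i + L) (n1 + M) - max i n1) p := by
          intro j hj
          have := hrun (max i n1 - i + j) (by omega)
          rw [show i + (max i n1 - i + j) = max i n1 + j by omega, hZ1 _ (by omega),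
            hZ1 _ (by omega)] at this
          exact this
        have := tm_run' hι e1 hp (le_max_right i n1) hr
        omega
      · omega
    have hpP : p ≤ P0 := by
      have a1 : (L : ℚ) ≤ n1 + 2 * p + n2 := by exact_mod_cast hlen
      have a2 : (α - 2) * p ≤ n1 + n2 := by linarith
      have a3 : (p : ℚ) ≤ ((n1 : ℚ) + n2) / (α - 2) := by
        rw [le_div_iff₀ (by linarith)]
        linarith
      have a4 : (p : ℚ) ≤ P0 := le_trans a3 (Nat.le_ceil _)
      exact_mod_cast a4
    set L0 : ℕ := ⌈α * p⌉₊ with hL0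
    have hL0L : L0 ≤ L := Nat.ceil_le.mpr hc
    have hL0L1 : L0 ≤ L1 := by
      apply Nat.ceil_mono
      apply mul_le_mul_of_nonneg_left _ (by linarith)
      exact_mod_cast hpP
    have hL0α : α * p ≤ (L0 : ℚ) := Nat.le_ceil _
    by_cases hcase : i + L0 ≤ n1 + M
    · have hr : Run y1 i L0 p := by
        intro j hj
        have := hrun j (by omega)
        rw [hZ1 _ (by omega), hZ1 _ (by omega)] at this
        exact this
      exact absurd (h1 _ _ _ hp hr) (not_lt.mpr hL0α)
    · push Not at hcase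
      have hr : Run y2 (T - i - L0) L0 p := by
        intro j hj
        have := hrun (L0 - 1 - j - p) (by omega)
        rw [hZ2 _ (by omega) (by omega), hZ2 _ (by omega) (by omega)] at this
        rw [show T - 1 - (i + (L0 - 1 - j - p)) = T - i - L0 + j + p by omega,
          show T - 1 - (i + (L0 - 1 - j - p) + p) = T - i - L0 + j by omega] at this
        exact this.symm
      exact absurd (h2 _ _ _ hp hr) (not_lt.mpr hL0α)

end Pool.Agent.R200.Pt
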