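import Mathlib
import Pool.Agent.R200.PtTrans

/-!
# Finite power-free words, extendability, and the transition theorem
-/

namespace Pool.Agent.R200.Pt

open Pool.Agent.R200.Pf (tm)

variable {A : Type*}

/-- The word `x` is `α`-power-free: no nonempty factor `y` of it has a period `p` with
`|y| ≥ α p`. -/
def PF (α : ℚ) (x : List A) : Prop :=
  ∀ y : List A, y <:+: x → y ≠ [] → ∀ p : ℕ, 0 < p →
    (∀ i : ℕ, i + p < y.length → y[i]? = y[i + p]?) → (y.length : ℚ) < α * (p : ℚ)

theorem getElem?_mid (s y t : List A) {k : ℕ} (hk : k < y.length) :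
    (s ++ y ++ t)[s.length + k]? = y[k]? := by
  rw [List.append_assoc, List.getElem?_append_right (by omega),
    List.getElem?_append_left (by omega)]
  congr 1
  omega

theorem pf_iff {α : ℚ} (hα : 0 < α) {w : List A} :
    PF α w ↔ ∀ i L p, i + L ≤ w.length → 1 ≤ p →
      (∀ j, j + p < L → w[i + j]? = w[i + j + p]?) → (L : ℚ) < α * p := by
  constructor
  · intro h i L p hi hp hr
    by_cases hL : L = 0
    · subst hL
      have : (1 : ℚ) ≤ p := by exact_mod_cast hp
      push_cast
      positivity
    · have hlen : ((w.drop i).take L).length = L := by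
        rw [List.length_take, List.length_drop]
        omega
      have := h ((w.drop i).take L) ?_ ?_ p hp ?_
      · rwa [hlen] at this
      · exact (List.take_prefix _ _).isInfix.trans (List.drop_suffix _ _).isInfix
      · intro h0
        rw [h0] at hlen
        exact hL hlen.symm
      · intro j hj
        rw [hlen] at hj
        rw [List.getElem?_take, List.getElem?_take, List.getElem?_drop, List.getElem?_drop]
        rw [if_pos (by omega), if_pos (by omega), hr j hj]
        congr 1
        ring
  · rintro h y ⟨s, t, rfl⟩ hy p hp hr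
    apply h s.length y.length p (by simp) hp
    intro j hj
    rw [add_assoc, getElem?_mid _ _ _ (by omega), getElem?_mid _ _ _ (by omega)]
    exact hr j hj

theorem PF.sub {α : ℚ} {x y : List A} (h : PF α x) (hy : y <:+: x) : PF α y :=
  fun z hz => h z (hz.trans hy)

theorem pf_map {α : ℚ} (hα : 0 < α) {f : ℕ → A} {T : ℕ} :
    PF α ((List.range T).map f) ↔
      ∀ i L p, i + L ≤ T → 1 ≤ p → Run f i L p → (L : ℚ) < α * p := by
  rw [pf_iff hα]
  have e : ∀ i < T, ((List.range T).map f)[i]? = some (f i) := by
    intro i hi
    simp [hi]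
  constructor
  · intro h i L p hi hp hr
    apply h i L p (by simpa using hi) hp
    intro j hj
    rw [e _ (by omega), e _ (by omega), hr j hj]
  · intro h i L p hi hp hr
    rw [List.length_map, List.length_range] at hi
    apply h i L p hi hp
    intro j hj
    have := hr j hj
    rw [e _ (by omega), e _ (by omega)] at this
    exact Option.some.inj this

theorem Fr.pf {α : ℚ} (hα : 0 < α) {f : ℕ → A} (h : Fr α f) (T : ℕ) :
    PF α ((List.range T).map f) := (pf_map hα).mpr (fun i L p _ hp hr => h i L p hp hr)

theorem pf_reverse {α : ℚ} (hα : 0 < α) {w : List A} (h : PF α w) : PF α w.reverse := by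
  rw [pf_iff hα] at h ⊢
  intro i L p hi hp hr
  rw [List.length_reverse] at hi
  apply h (w.length - i - L) L p (by omega) hp
  intro j hj
  have := hr (L - 1 - j - p) (by omega)
  rw [List.getElem?_reverse (by omega), List.getElem?_reverse (by omega)] at this
  rw [show w.length - 1 - (i + (L - 1 - j - p)) = w.length - i - L + j + p by omega,
    show w.length - 1 - (i + (L - 1 - j - p) + p) = w.length - i - L + j by omega] at this
  exact this.symm

theorem pf_reverse_iff {α : ℚ} (hα : 0 < α) {w : List A} : PF α w.reverse ↔ PF α w :=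
  ⟨fun h => by simpa using pf_reverse hα h, pf_reverse hα⟩

/-- Right extendable words. -/
def RExt (α : ℚ) (u : List A) : Prop := Set.Infinite {x : List A | u <+: x ∧ PF α x}

/-- Left extendable words. -/
def LExt (α : ℚ) (u : List A) : Prop := Set.Infinite {x : List A | u <:+ x ∧ PF α x}

theorem lExt_iff {α : ℚ} (hα : 0 < α) {u : List A} : LExt α u ↔ RExt α u.reverse := by
  unfold LExt RExt
  have e : {x : List A | u.reverse <+: x ∧ PF α x} =
      List.reverse '' {x : List A | u <:+ x ∧ PF α x} := by
    ext x
    simp only [Set.mem_ofPred_eq, Set.mem_image]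
    constructor
    · rintro ⟨h1, h2⟩
      refine ⟨x.reverse, ⟨?_, pf_reverse hα h2⟩, by simp⟩
      rw [← List.reverse_prefix]
      simpa using h1
    · rintro ⟨y, ⟨h1, h2⟩, rfl⟩
      exact ⟨List.reverse_prefix.mpr h1, pf_reverse hα h2⟩
  rw [e, Set.infinite_image_iff]
  exact List.reverse_injective.injOn

theorem RExt.step [Finite A] {α : ℚ} {u : List A} (h : RExt α u) : ∃ c, RExt α (u ++ [c]) := by
  by_contra hc
  push Not at hc
  apply h
  have hfin : ∀ c, {x : List A | (u ++ [c]) <+: x ∧ PF α x}.Finite := by
    intro c
    exact Set.not_infinite.mp (hc c)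
  apply (Set.Finite.union (Set.finite_singleton u) (Set.finite_iUnion hfin)).subset
  rintro x ⟨⟨s, rfl⟩, h2⟩
  cases s with
  | nil => left; simp
  | cons c s =>
    right
    rw [Set.mem_iUnion]
    exact ⟨c, ⟨s, by simp⟩, h2⟩

/-- Koenig's lemma for right extendable words. -/
theorem RExt.exists_infinite [Finite A] {α : ℚ} (hα : 0 < α) {u : List A} (h : RExt α u) :
    ∃ x : ℕ → A, Fr α x ∧ ∀ i < u.length, u[i]? = some (x i) := by
  classical
  choose g hg using fun v : {v : List A // RExt α v} => v.2.step
  let F : ℕ → {v : List A // RExt α v} := fun n =>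
    Nat.rec ⟨u, h⟩ (fun _ v => ⟨v.1 ++ [g v], hg v⟩) n
  have hF0 : (F 0).1 = u := rfl
  have hFs : ∀ n, (F (n + 1)).1 = (F n).1 ++ [g (F n)] := fun n => rfl
  have hlen : ∀ n, (F n).1.length = u.length + n := by
    intro n
    induction n with
    | zero => rw [hF0]; rfl
    | succ n ih => rw [hFs, List.length_append, ih]; simp; ring
  have hstep : ∀ n i, i < u.length + n → (F (n + 1)).1[i]? = (F n).1[i]? := by
    intro n i hi
    rw [hFs, List.getElem?_append_left (by rw [hlen]; exact hi)]
  have hmono : ∀ n m i, n ≤ m → i < u.length + n → (F m).1[i]? = (F n).1[i]? := by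
    intro n m i hnm hi
    induction m, hnm using Nat.le_induction with
    | base => rfl
    | succ m hm ih => rw [hstep m i (by omega), ih]
  have hne : Nonempty A := ⟨g (F 0)⟩
  let x : ℕ → A := fun i => (F (i + 1)).1.getD i hne.some
  have hx : ∀ n i, i < u.length + n → (F n).1[i]? = some (x i) := by
    intro n i hi
    have e1 : (F (i + 1)).1[i]? = some (x i) := by
      have h3 : i < (F (i + 1)).1.length := by have := hlen (i + 1); omega
      simp only [x]
      rw [List.getElem?_eq_getElem h3, List.getD_eq_getElem _ _ h3]
    rw [← e1]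
    rcases le_total n (i + 1) with h4 | h4
    · exact (hmono n (i + 1) i h4 hi).symm
    · exact hmono (i + 1) n i h4 (by omega)
  refine ⟨x, ?_, ?_⟩
  · intro i L p hp hr
    have hpf : PF α (F (i + L)).1 := by
      obtain ⟨y, hy⟩ := (F (i + L)).2.nonempty
      exact hy.2.sub hy.1.isInfix
    rw [pf_iff hα] at hpf
    apply hpf i L p (by rw [hlen]; omega) hp
    intro j hj
    rw [hx _ _ (by omega), hx _ _ (by omega), hr j hj]
  · intro i hi
    have := hx 0 i (by omega)
    rwa [hF0] at this

theorem rExt_of_fr {α : ℚ} (hα : 0 < α) {u : List A} {y : ℕ → A} (hy : Fr α y)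
    (hu : ∀ i < u.length, u[i]? = some (y i)) : RExt α u := by
  apply Set.infinite_of_injective_forall_mem
    (f := fun n : ℕ => (List.range (u.length + n)).map y)
  · intro n m hnm
    have := congrArg List.length hnm
    simp at this
    exact this
  · intro n
    refine ⟨?_, hy.pf hα _⟩
    rw [List.prefix_iff_eq_take]
    apply List.ext_getElem?
    intro i
    rw [List.getElem?_take]
    by_cases hi : i < u.length
    · rw [if_pos hi, hu i hi]
      simp [show i < u.length + n by omega]
    · rw [if_neg hi, List.getElem?_eq_none (by omega)]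

/-- The transition theorem, given a launching word. -/
theorem transition [Finite A] {α : ℚ} (hα : 2 < α) {ι : Bool → A} {t : ℕ → A} {c r : ℕ}
    (hl : Launcher α ι t c r) {u v : List A} (hu : RExt α u) (hv : LExt α v) :
    ∃ w, PF α (u ++ w ++ v) := by
  have hα0 : 0 < α := by linarith
  rw [lExt_iff hα0] at hv
  obtain ⟨x1, hx1, hu1⟩ := hu.exists_infinite hα0
  obtain ⟨x2, hx2, hv2⟩ := hv.exists_infinite hα0
  obtain ⟨y1, n1, r1, hn1, hy1, he1, ht1⟩ := to_tm hα.le hl hx1 u.length
  obtain ⟨y2, n2, r2, hn2, hy2, he2, ht2⟩ := to_tm hα.le hl hx2 v.length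
  obtain ⟨T, Z, hT, hZ1, hZ2, hZ⟩ := join hα hl.inj hy1 hy2 ht1 ht2
  have hpf : PF α ((List.range T).map Z) := (pf_map hα0).mpr hZ
  refine ⟨(((List.range T).map Z).take (T - v.length)).drop u.length, ?_⟩
  convert hpf using 1
  apply List.ext_getElem?
  intro i
  have hlw : ((((List.range T).map Z).take (T - v.length)).drop u.length).length =
      T - v.length - u.length := by
    simp
  have hgen : ∀ i < T, ((List.range T).map Z)[i]? = some (Z i) := by
    intro i hi
    simp [hi]
  by_cases h1 : i < u.length
  · rw [List.append_assoc, List.getElem?_append_left h1, hgen i (by omega), hu1 i h1,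
      hZ1 i (by omega), he1 i h1]
  · by_cases h2 : i < T - v.length
    · rw [List.append_assoc, List.getElem?_append_right (by omega),
        List.getElem?_append_left (by rw [hlw]; omega), List.getElem?_drop, List.getElem?_take]
      rw [show u.length + (i - u.length) = i by omega, if_pos h2]
    · rw [List.getElem?_append_right (by rw [List.length_append, hlw]; omega)]
      rw [List.length_append, hlw]
      rw [show i - (u.length + (T - v.length - u.length)) = i - (T - v.length) by omega]
      by_cases h3 : i < T
      · rw [hgen i h3]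
        have h4 := hv2 (T - 1 - i) (by rw [List.length_reverse]; omega)
        rw [List.getElem?_reverse (by omega)] at h4
        rw [show v.length - 1 - (T - 1 - i) = i - (T - v.length) by omega] at h4
        rw [h4, ← he2 (T - 1 - i) (by omega), ← hZ2 (T - 1 - i) (by omega)]
        congr 2
        omega
      · rw [List.getElem?_eq_none (by omega), List.getElem?_eq_none (by simp; omega)]

end Pool.Agent.R200.Pt
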