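import Mathlib
import Pool.Agent.R200.PtList

/-!
# Computability of the finite checks
-/

namespace Pool.Agent.R200.Pt

open Pool.Agent.R200.Pf (tm tm_rec tm_even tm_odd tm_block)

/-- Projection of a computable predicate is recursively enumerable. -/
theorem re_exists {β : Type*} [Primcodable β] {P : β → ℕ → Prop} (h : PrimrecRel P) :
    REPred fun a => ∃ n, P a n := by
  classical
  have hc : ComputablePred (fun q : β × ℕ => P q.1 q.2) := PrimrecPred.computablePred h
  have h1 : Partrec (fun x ↦ Nat.rfind fun n => Part.some (decide (P x n))) :=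
    Partrec.rfind hc.decide.partrec
  refine h1.dom_re.of_eq fun a => ?_
  rw [Nat.rfind_dom]
  constructor
  · rintro ⟨n, h2, _⟩
    refine ⟨n, ?_⟩
    simpa using h2
  · rintro ⟨n, h2⟩
    exact ⟨n, by simpa using h2, fun {m} _ => trivial⟩

variable {k : ℕ}

/-- All words of length `n` over `Fin k`. -/
def words (k : ℕ) : ℕ → List (List (Fin k)) := fun n =>
  Nat.rec [[]] (fun _ W => W.flatMap fun v => (List.finRange k).map fun c => c :: v) n

theorem words_succ (n : ℕ) : words k (n + 1) =
    (words k n).flatMap fun v => (List.finRange k).map fun c => c :: v := rfl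

theorem mem_words {n : ℕ} {v : List (Fin k)} : v ∈ words k n ↔ v.length = n := by
  induction n generalizing v with
  | zero =>
    simp [words]
  | succ n ih =>
    rw [words_succ, List.mem_flatMap]
    constructor
    · rintro ⟨w, hw, h⟩
      rw [List.mem_map] at h
      obtain ⟨c, _, rfl⟩ := h
      rw [List.length_cons, ih.mp hw]
    · intro h
      cases v with
      | nil => simp at h
      | cons c v =>
        refine ⟨v, ih.mpr (by simpa using h), ?_⟩
        rw [List.mem_map]
        exact ⟨c, List.mem_finRange c, rfl⟩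

theorem words_primrec : Primrec (words k) := by
  apply Primrec.nat_rec₁
  apply Primrec.list_flatMap Primrec.snd
  apply Primrec.list_map (Primrec.const _)
  exact Primrec.list_cons.comp₂ Primrec.snd.to₂ (Primrec.snd.comp Primrec.fst).to₂

/-- A bounded form of power-freeness. -/
def Chk (a b : ℕ) (w : List (Fin k)) (i L p : ℕ) : Prop :=
  ¬ (i + L ≤ w.length ∧ 1 ≤ p ∧ p < L ∧ a * p ≤ L * b ∧
    ((w.drop i).take L).drop p = ((w.drop i).take L).take (L - p))

theorem run_iff {w : List (Fin k)} {i L p : ℕ} (hp : p < L) :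
    ((w.drop i).take L).drop p = ((w.drop i).take L).take (L - p) ↔
      ∀ j, j + p < L → w[i + j]? = w[i + j + p]? := by
  constructor
  · intro h j hj
    have := congrArg (fun l : List (Fin k) => l[j]?) h
    simp only [List.getElem?_drop, List.getElem?_take] at this
    rw [if_pos (by omega), if_pos (by omega), if_pos (by omega)] at this
    rw [this.symm]
    congr 1
    ring
  · intro h
    apply List.ext_getElem?
    intro j
    simp only [List.getElem?_drop, List.getElem?_take]
    by_cases hj : j + p < L
    · rw [if_pos (by omega), if_pos (by omega), if_pos (by omega), h j hj]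
      congr 1
      ring
    · rw [if_neg (by omega), if_neg (by omega)]

theorem pf_iff_chk {α : ℚ} (hα : 1 < α) {w : List (Fin k)} :
    PF α w ↔ ∀ i < w.length + 1, ∀ L < w.length + 1, ∀ p < w.length + 1,
      Chk α.num.toNat α.den w i L p := by
  have hα0 : 0 < α := by linarith
  have hnum : (0 : ℤ) ≤ α.num := Rat.num_nonneg.mpr hα0.le
  have key : ∀ L p : ℕ, α.num.toNat * p ≤ L * α.den ↔ α * p ≤ L := by
    intro L p
    have hden : (0 : ℚ) < α.den := by exact_mod_cast α.den_pos
    have e1 : α * p ≤ L ↔ (α.num : ℚ) * p ≤ L * α.den := by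
      conv_lhs => rw [← Rat.num_div_den α]
      rw [div_mul_eq_mul_div, div_le_iff₀ hden]
    rw [e1]
    have e2 : ((α.num.toNat : ℕ) : ℤ) = α.num := Int.toNat_of_nonneg hnum
    constructor
    · intro h
      have : ((α.num.toNat * p : ℕ) : ℤ) ≤ ((L * α.den : ℕ) : ℤ) := by exact_mod_cast h
      push_cast at this
      rw [e2] at this
      exact_mod_cast this
    · intro h
      have : ((α.num * p : ℤ) : ℚ) ≤ ((L * α.den : ℤ) : ℚ) := by exact_mod_cast h
      have h2 : (α.num * p : ℤ) ≤ (L * α.den : ℤ) := by exact_mod_cast this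
      rw [← e2] at h2
      exact_mod_cast h2
  rw [pf_iff hα0]
  constructor
  · rintro h i _ L _ p _ ⟨h1, h2, h3, h4, h5⟩
    exact absurd (h i L p h1 h2 ((run_iff h3).mp h5)) (not_lt.mpr ((key L p).mp h4))
  · intro h i L p h1 h2 h3
    by_contra hc
    push Not at hc
    have hpL : p < L := by
      have hp' : (1 : ℚ) ≤ p := by exact_mod_cast h2
      have : (p : ℚ) < L := by nlinarith
      exact_mod_cast this
    exact h i (by omega) L (by omega) p (by omega)
      ⟨h1, h2, hpL, (key L p).mpr hc, (run_iff hpL).mpr h3⟩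

theorem pf_primrec {α : ℚ} (hα : 1 < α) : PrimrecPred (fun w : List (Fin k) => PF α w) := by
  classical
  set a := α.num.toNat with ha
  set b := α.den with hb
  -- z = ((i, L), w)
  have hdt : Primrec fun q : ℕ × ((ℕ × ℕ) × List (Fin k)) => (q.2.2.drop q.2.1.1).take q.2.1.2 :=
    Primrec.list_take.comp (Primrec.snd.comp (Primrec.fst.comp Primrec.snd))
      (Primrec.list_drop.comp (Primrec.fst.comp (Primrec.fst.comp Primrec.snd))
        (Primrec.snd.comp Primrec.snd))
  have hi : Primrec fun q : ℕ × ((ℕ × ℕ) × List (Fin k)) => q.2.1.1 :=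
    Primrec.fst.comp (Primrec.fst.comp Primrec.snd)
  have hL : Primrec fun q : ℕ × ((ℕ × ℕ) × List (Fin k)) => q.2.1.2 :=
    Primrec.snd.comp (Primrec.fst.comp Primrec.snd)
  have hw : Primrec fun q : ℕ × ((ℕ × ℕ) × List (Fin k)) => q.2.2.length :=
    Primrec.list_length.comp (Primrec.snd.comp Primrec.snd)
  have h0 : PrimrecRel fun (p : ℕ) (z : (ℕ × ℕ) × List (Fin k)) =>
      Chk a b z.2 z.1.1 z.1.2 p := by
    apply PrimrecPred.not
    apply PrimrecPred.and
    · exact Primrec.nat_le.comp (Primrec.nat_add.comp hi hL) hw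
    apply PrimrecPred.and
    · exact Primrec.nat_le.comp (Primrec.const 1) Primrec.fst
    apply PrimrecPred.and
    · exact Primrec.nat_lt.comp Primrec.fst hL
    apply PrimrecPred.and
    · exact Primrec.nat_le.comp (Primrec.nat_mul.comp (Primrec.const a) Primrec.fst)
        (Primrec.nat_mul.comp hL (Primrec.const b))
    · exact Primrec.eq.comp (Primrec.list_drop.comp Primrec.fst hdt)
        (Primrec.list_take.comp (Primrec.nat_sub.comp hL Primrec.fst) hdt)
  have h1 : PrimrecPred fun z : (ℕ × ℕ) × List (Fin k) =>
      ∀ p ∈ List.range (z.2.length + 1), Chk a b z.2 z.1.1 z.1.2 p :=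
    (h0.forall_mem_list).comp (Primrec.list_range.comp (Primrec.succ.comp
      (Primrec.list_length.comp Primrec.snd))) Primrec.id
  have h2 : PrimrecRel fun (L : ℕ) (z : ℕ × List (Fin k)) =>
      ∀ p ∈ List.range (z.2.length + 1), Chk a b z.2 z.1 L p :=
    h1.comp (f := fun q : ℕ × (ℕ × List (Fin k)) => ((q.2.1, q.1), q.2.2))
      (Primrec.pair (Primrec.pair (Primrec.fst.comp Primrec.snd) Primrec.fst)
        (Primrec.snd.comp Primrec.snd))
  have h3 : PrimrecPred fun z : ℕ × List (Fin k) =>
      ∀ L ∈ List.range (z.2.length + 1), ∀ p ∈ List.range (z.2.length + 1),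
        Chk a b z.2 z.1 L p :=
    (h2.forall_mem_list).comp (Primrec.list_range.comp (Primrec.succ.comp
      (Primrec.list_length.comp Primrec.snd))) Primrec.id
  have h4 : PrimrecPred fun w : List (Fin k) => ∀ i ∈ List.range (w.length + 1),
      ∀ L ∈ List.range (w.length + 1), ∀ p ∈ List.range (w.length + 1), Chk a b w i L p :=
    (PrimrecRel.forall_mem_list (R := fun (i : ℕ) (w : List (Fin k)) =>
      ∀ L ∈ List.range (w.length + 1), ∀ p ∈ List.range (w.length + 1), Chk a b w i L p) h3).comp
      (Primrec.list_range.comp (Primrec.succ.comp Primrec.list_length)) Primrec.id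
  refine h4.of_eq fun w => ?_
  rw [pf_iff_chk hα]
  simp only [List.mem_range]
  rfl

/-- Doubling construction of the Thue-Morse prefixes. -/
def dbl : ℕ → List Bool := fun n => Nat.rec [false] (fun _ l => l ++ l.map not) n

theorem dbl_succ (n : ℕ) : dbl (n + 1) = dbl n ++ (dbl n).map not := rfl

theorem dbl_length (n : ℕ) : (dbl n).length = 2 ^ n := by
  induction n with
  | zero => rfl
  | succ n ih => rw [dbl_succ, List.length_append, List.length_map, ih, pow_succ]; ring

theorem dbl_get (n : ℕ) : ∀ j < 2 ^ n, (dbl n)[j]? = some (tm j) := by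
  induction n with
  | zero =>
    intro j hj
    have : j = 0 := by simpa using hj
    subst this
    rw [show tm 0 = false by rw [tm]]
    rfl
  | succ n ih =>
    intro j hj
    rw [pow_succ] at hj
    rw [dbl_succ]
    by_cases h : j < 2 ^ n
    · rw [List.getElem?_append_left (by rw [dbl_length]; exact h), ih j h]
    · rw [List.getElem?_append_right (by rw [dbl_length]; omega), dbl_length, List.getElem?_map,
        ih _ (by omega)]
      have h2 := tm_block n 1 (j - 2 ^ n) (by omega)
      rw [show 1 * 2 ^ n + (j - 2 ^ n) = j by omega] at h2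
      rw [h2]
      have h1 : tm 1 = true := by
        rw [show 1 = 2 * 0 + 1 by norm_num, tm_odd, show tm 0 = false by rw [tm]]
        rfl
      rw [h1]
      simp

theorem tm_primrec : Primrec tm := by
  have h1 : Primrec dbl := by
    apply Primrec.nat_rec₁
    apply Primrec.list_append.comp Primrec.snd
    apply Primrec.list_map Primrec.snd
    exact Primrec.not.comp₂ Primrec.snd.to₂
  have h2 : Primrec fun n => (dbl n).getD n false :=
    (Primrec.list_getD false).comp h1 Primrec.id
  refine h2.of_eq fun n => ?_
  rw [List.getD_eq_getElem?_getD, dbl_get n n Nat.lt_two_pow_self]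
  rfl

theorem t2_primrec : Primrec t2 := by
  apply Primrec.ite (Primrec.nat_lt.comp Primrec.id (Primrec.const 2)) (Primrec.const false)
  apply Primrec.ite (Primrec.nat_lt.comp Primrec.id (Primrec.const 4)) (Primrec.const true)
  exact tm_primrec.comp (Primrec.nat_add.comp Primrec.id (Primrec.const 2))

end Pool.Agent.R200.Pt
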