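import Mathlib
import Pool.Agent.R200.PfPer
import Pool.Agent.R200.PtCore

/-!
# Cutting a bi-infinite word on both sides
-/

namespace Pool.Agent.R200.Pt

open Pool.Agent.R200.Pf (Per)

variable {A : Type*}

theorem card_sep' (S : Finset ℤ) (f : ℤ → ℤ) (s : ℤ) (Λ D : ℕ) (hD : 0 < D)
    (hS : ∀ i ∈ S, s ≤ f i ∧ f i < s + Λ)
    (hsep : ∀ i ∈ S, ∀ i' ∈ S, i < i' → (D : ℤ) ≤ f i' - f i) :
    S.card ≤ Λ / D + 1 := by
  have hmap : ∀ i ∈ S, ((f i - s) / D).toNat ∈ Finset.range (Λ / D + 1) := by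
    intro i hi
    obtain ⟨h1, h2⟩ := hS i hi
    rw [Finset.mem_range, Nat.lt_succ_iff]
    have h3 : (f i - s) / (D : ℤ) ≤ (Λ : ℤ) / D := Int.ediv_le_ediv (by exact_mod_cast hD) (by omega)
    have h4 : ((Λ / D : ℕ) : ℤ) = (Λ : ℤ) / D := by push_cast; rfl
    have h5 : 0 ≤ (Λ : ℤ) / D := Int.ediv_nonneg (by omega) (by omega)
    rw [← h4] at h3 h5
    omega
  have hinj : Set.InjOn (fun i : ℤ => ((f i - s) / D).toNat) (S : Set ℤ) := by
    have key : ∀ i ∈ S, ∀ i' ∈ S, i < i' → ((f i - s) / D).toNat ≠ ((f i' - s) / D).toNat := by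
      intro i hi i' hi' hlt heq
      have hs := hsep i hi i' hi' hlt
      obtain ⟨h1, h2⟩ := hS i hi
      obtain ⟨h1', h2'⟩ := hS i' hi'
      have hD' : (0 : ℤ) < D := by exact_mod_cast hD
      have a1 : 0 ≤ (f i - s) / (D : ℤ) := Int.ediv_nonneg (by omega) (by omega)
      have a2 : 0 ≤ (f i' - s) / (D : ℤ) := Int.ediv_nonneg (by omega) (by omega)
      have a3 : (f i - s) / (D : ℤ) = (f i' - s) / D := by omega
      have b1 := Int.emod_add_mul_ediv (f i - s) D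
      have b2 := Int.emod_add_mul_ediv (f i' - s) D
      have b3 := Int.emod_nonneg (f i - s) (by omega : (D : ℤ) ≠ 0)
      have b4 := Int.emod_lt_of_pos (f i' - s) hD'
      rw [a3] at b1
      omega
    intro i hi i' hi' heq
    rcases lt_trichotomy i i' with h | h | h
    · exact absurd heq (key i hi i' hi' h)
    · exact h
    · exact absurd heq.symm (key i' hi' i hi h)
  calc S.card ≤ (Finset.range (Λ / D + 1)).card := Finset.card_le_card_of_injOn _ hmap hinj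
    _ = Λ / D + 1 := by simp

/-- A long repetition ends exactly at `n`. -/
def EndBad (θ : ℤ) (x : ℤ → A) (N P0 n : ℤ) : Prop :=
  ∃ p : ℤ, P0 ≤ p ∧ 1 ≤ p ∧ -N ≤ n - θ * p ∧ Per x p (n - θ * p) n ∧ x n ≠ x (n - p)

theorem sepE {θ : ℤ} (hθ : 3 ≤ θ) {x : ℤ → A} {n n' p p' P : ℤ} (hnn : n < n')
    (hP : 1 ≤ P) (h1 : P ≤ p) (h2 : p < 2 * P) (h1' : P ≤ p') (h2' : p' < 2 * P)
    (hp : Per x p (n - θ * p) n) (hp' : Per x p' (n' - θ * p') n') (hne : x n ≠ x (n - p)) :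
    (θ - 2) * P < (n' - p') - (n - p) := by
  by_contra hc
  push Not at hc
  have k1 : n' - θ * p' ≤ n - p - p' := by nlinarith
  have k2 : n - θ * p ≤ n - p - p' := by nlinarith
  have e1 := hp' (n - p') (by omega) (by omega)
  have e2 := hp' (n - p - p') (by omega) (by omega)
  have e3 := hp (n - p - p') (by omega) (by omega)
  apply hne
  rw [show n - p' + p' = n by ring] at e1
  rw [show n - p - p' + p' = n - p by ring] at e2
  rw [show n - p - p' + p = n - p' by ring] at e3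
  rw [← e1, ← e3, e2]

open Classical in
theorem card_end (x : ℤ → A) (θ : ℕ) (hθ : 3 ≤ θ) (N : ℤ) (j0 K : ℕ) (s : ℤ) (Λ : ℕ)
    (hK : N + s + Λ ≤ 2 ^ K) :
    ((Finset.Ico s (s + Λ)).filter (fun n => EndBad θ x N (2 ^ j0) n)).card ≤
      ∑ j ∈ Finset.Ico j0 K, (Λ / ((θ - 2) * 2 ^ j + 1) + 3) := by
  set S := (Finset.Ico s (s + Λ)).filter (fun n => EndBad θ x N (2 ^ j0) n) with hSdef
  let cls : ℕ → Finset ℤ := fun j => S.filter (fun n => ∃ p : ℤ, 2 ^ j ≤ p ∧ p < 2 * 2 ^ j ∧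
    Per x p (n - θ * p) n ∧ x n ≠ x (n - p))
  have hcov : S ⊆ (Finset.Ico j0 K).biUnion cls := by
    intro n hn
    obtain ⟨hIco, p, h1, h2, h3, h4, h5⟩ := Finset.mem_filter.mp hn
    rw [Finset.mem_Ico] at hIco
    rw [Finset.mem_biUnion]
    obtain ⟨q, rfl⟩ : ∃ q : ℕ, p = q := ⟨p.toNat, by omega⟩
    have hq0 : q ≠ 0 := by omega
    have hq2 : (q : ℤ) < 2 ^ K := by
      have : (3 : ℤ) ≤ θ := by exact_mod_cast hθ
      nlinarith
    refine ⟨Nat.log 2 q, ?_, ?_⟩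
    · rw [Finset.mem_Ico]
      refine ⟨?_, Nat.log_lt_of_lt_pow hq0 (by exact_mod_cast hq2)⟩
      exact Nat.le_log_of_pow_le (by norm_num) (by exact_mod_cast h1)
    · rw [Finset.mem_filter]
      refine ⟨hn, q, ?_, ?_, h4, h5⟩
      · exact_mod_cast Nat.pow_log_le_self 2 hq0
      · have := Nat.lt_pow_succ_log_self (b := 2) (by norm_num) q
        rw [pow_succ] at this
        have h6 : q < 2 * 2 ^ (Nat.log 2 q) := by omega
        exact_mod_cast h6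
  have hk : ∀ j ∈ Finset.Ico j0 K, (cls j).card ≤ Λ / ((θ - 2) * 2 ^ j + 1) + 3 := by
    intro j _
    have hex : ∀ n : ℤ, ∃ p : ℤ, n ∈ cls j → 2 ^ j ≤ p ∧ p < 2 * 2 ^ j ∧
        Per x p (n - θ * p) n ∧ x n ≠ x (n - p) := by
      intro n
      by_cases h : n ∈ cls j
      · obtain ⟨_, p, hp⟩ := Finset.mem_filter.mp h
        exact ⟨p, fun _ => hp⟩
      · exact ⟨0, fun h' => absurd h' h⟩
    choose per hper using hex
    have hD : 0 < (θ - 2) * 2 ^ j + 1 := by omega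
    have h1 := card_sep' (cls j) (fun n => n - per n) (s - 2 * 2 ^ j) (Λ + 2 * 2 ^ j)
      ((θ - 2) * 2 ^ j + 1) hD ?_ ?_
    · refine le_trans h1 ?_
      have h2 : (Λ + 2 * 2 ^ j) / ((θ - 2) * 2 ^ j + 1) ≤ Λ / ((θ - 2) * 2 ^ j + 1) + 2 := by
        have h3 : Λ + 2 * 2 ^ j ≤ Λ + 2 * ((θ - 2) * 2 ^ j + 1) := by
          have : 1 * 2 ^ j ≤ (θ - 2) * 2 ^ j := Nat.mul_le_mul_right _ (by omega)
          omega
        calc (Λ + 2 * 2 ^ j) / ((θ - 2) * 2 ^ j + 1)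
            ≤ (Λ + 2 * ((θ - 2) * 2 ^ j + 1)) / ((θ - 2) * 2 ^ j + 1) := Nat.div_le_div_right h3
          _ = Λ / ((θ - 2) * 2 ^ j + 1) + 2 := by
              rw [Nat.add_mul_div_right _ _ hD]
      omega
    · intro n hn
      obtain ⟨h3, h4, _, _⟩ := hper n hn
      have hn2 := (Finset.mem_filter.mp (Finset.mem_filter.mp hn).1).1
      rw [Finset.mem_Ico] at hn2
      have h0 : (0 : ℤ) < 2 ^ j := by positivity
      constructor
      · linarith [hn2.1]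
      · push_cast
        linarith [hn2.2]
    · intro n hn n' hn' hlt
      obtain ⟨h3, h4, h5, h6⟩ := hper n hn
      obtain ⟨h3', h4', h5', h6'⟩ := hper n' hn'
      have hP : (1 : ℤ) ≤ 2 ^ j := by exact_mod_cast Nat.one_le_two_pow
      have := sepE (θ := (θ : ℤ)) (by exact_mod_cast hθ) hlt hP h3 h4 h3' h4' h5 h5' h6
      push_cast [Nat.cast_sub (show 2 ≤ θ by omega)]
      linarith
  calc S.card ≤ _ := Finset.card_le_card hcov
    _ ≤ ∑ j ∈ Finset.Ico j0 K, (cls j).card := Finset.card_biUnion_le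
    _ ≤ ∑ j ∈ Finset.Ico j0 K, (Λ / ((θ - 2) * 2 ^ j + 1) + 3) := Finset.sum_le_sum hk

theorem sum_four (Λ : ℕ) (K : ℕ) (hK : 3 ≤ K) :
    (∑ j ∈ Finset.Ico 0 K, (Λ / ((4 - 2) * 2 ^ j + 1) + 3) : ℕ) * 360 ≤
      277 * Λ + 1080 * K := by
  have key : ∀ K, 3 ≤ K → (∑ j ∈ Finset.range K, (1 : ℚ) / (2 * 2 ^ j + 1)) ≤
      277 / 360 - 1 / 2 ^ K := by
    intro K hK
    induction K, hK using Nat.le_induction with
    | base => norm_num [Finset.sum_range_succ]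
    | succ K hK ih =>
      rw [Finset.sum_range_succ]
      have h1 : (1 : ℚ) / (2 * 2 ^ K + 1) ≤ 1 / (2 * 2 ^ K) := by
        apply one_div_le_one_div_of_le (by positivity)
        linarith
      have h2 : (1 : ℚ) / 2 ^ K = 1 / (2 * 2 ^ K) + 1 / 2 ^ (K + 1) := by
        rw [pow_succ]
        field_simp
        norm_num
      linarith
  have h1 : ((∑ j ∈ Finset.Ico 0 K, (Λ / ((4 - 2) * 2 ^ j + 1) + 3) : ℕ) : ℚ) ≤
      Λ * (277 / 360) + 3 * K := by
    rw [← Finset.range_eq_Ico]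
    push_cast
    rw [Finset.sum_add_distrib]
    have h3 : ∑ j ∈ Finset.range K, ((Λ / ((4 - 2) * 2 ^ j + 1) : ℕ) : ℚ) ≤
        ∑ j ∈ Finset.range K, (Λ : ℚ) * (1 / (2 * 2 ^ j + 1)) := by
      apply Finset.sum_le_sum
      intro j _
      have := Nat.cast_div_le (α := ℚ) (m := Λ) (n := (4 - 2) * 2 ^ j + 1)
      refine le_trans this (le_of_eq ?_)
      push_cast
      rw [mul_one_div]
    rw [← Finset.mul_sum] at h3
    have h4 := key K hK
    have h5 : (0 : ℚ) ≤ 1 / 2 ^ K := by positivity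
    have h6 : (Λ : ℚ) * ∑ j ∈ Finset.range K, (1 : ℚ) / (2 * 2 ^ j + 1) ≤ Λ * (277 / 360) := by
      apply mul_le_mul_of_nonneg_left _ (by positivity)
      linarith
    simp only [Finset.sum_const, Finset.card_range, nsmul_eq_mul]
    push_cast at h3 ⊢
    linarith
  have h2 : ((∑ j ∈ Finset.Ico 0 K, (Λ / ((4 - 2) * 2 ^ j + 1) + 3) : ℕ) : ℚ) * 360 ≤
      277 * Λ + 1080 * K := by linarith
  exact_mod_cast h2

theorem sum_three (Λ : ℕ) (j0 K : ℕ) :
    (∑ j ∈ Finset.Ico j0 K, (Λ / ((3 - 2) * 2 ^ j + 1) + 3) : ℕ) * 2 ^ j0 ≤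
      2 * Λ + 3 * K * 2 ^ j0 := by
  rcases le_total K j0 with hK | hK
  · rw [Finset.Ico_eq_empty_of_le hK]
    simp
  have key : ∀ K, j0 ≤ K → (∑ j ∈ Finset.Ico j0 K, (1 : ℚ) / (2 ^ j)) =
      2 / 2 ^ j0 - 2 / 2 ^ K := by
    intro K hK
    induction K, hK using Nat.le_induction with
    | base => simp
    | succ K hK ih =>
      rw [Finset.sum_Ico_succ_top hK, ih, pow_succ]
      field_simp
      ring
  have h1 : ((∑ j ∈ Finset.Ico j0 K, (Λ / ((3 - 2) * 2 ^ j + 1) + 3) : ℕ) : ℚ) ≤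
      Λ * (2 / 2 ^ j0) + 3 * K := by
    push_cast
    rw [Finset.sum_add_distrib]
    have h3 : ∑ j ∈ Finset.Ico j0 K, ((Λ / ((3 - 2) * 2 ^ j + 1) : ℕ) : ℚ) ≤
        ∑ j ∈ Finset.Ico j0 K, (Λ : ℚ) * (1 / (2 ^ j)) := by
      apply Finset.sum_le_sum
      intro j _
      have := Nat.cast_div_le (α := ℚ) (m := Λ) (n := (3 - 2) * 2 ^ j + 1)
      refine le_trans this ?_
      rw [mul_one_div]
      apply div_le_div_of_nonneg_left (by positivity) (by positivity)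
      push_cast
      linarith
    rw [← Finset.mul_sum, key K hK] at h3
    have h5 : (0 : ℚ) ≤ 2 / 2 ^ K := by positivity
    have h6 : (Λ : ℚ) * (2 / 2 ^ j0 - 2 / 2 ^ K) ≤ Λ * (2 / 2 ^ j0) := by
      apply mul_le_mul_of_nonneg_left _ (by positivity)
      linarith
    simp only [Finset.sum_const, Nat.card_Ico, nsmul_eq_mul]
    have h7 : ((K - j0 : ℕ) : ℚ) ≤ K := by exact_mod_cast Nat.sub_le K j0
    push_cast at h3 ⊢
    linarith
  have h0 : (0 : ℚ) < 2 ^ j0 := by positivity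
  have h2 : ((∑ j ∈ Finset.Ico j0 K, (Λ / ((3 - 2) * 2 ^ j + 1) + 3) : ℕ) : ℚ) * 2 ^ j0 ≤
      2 * Λ + 3 * K * 2 ^ j0 := by
    have e1 := mul_le_mul_of_nonneg_right h1 h0.le
    have e2 : ((Λ : ℚ) * (2 / 2 ^ j0) + 3 * K) * 2 ^ j0 = 2 * Λ + 3 * K * 2 ^ j0 := by
      field_simp
    rw [e2] at e1
    exact e1
  exact_mod_cast h2

/-- A big scale. -/
theorem exists_scale (B : ℕ) : ∃ K, 3 ≤ K ∧ B ≤ 2 ^ K ∧ 100 * (K + 2) < 2 ^ K := by
  refine ⟨B + 12, by omega, ?_, ?_⟩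
  · have : B < 2 ^ B := Nat.lt_two_pow_self
    have h2 : 2 ^ B ≤ 2 ^ (B + 12) := Nat.pow_le_pow_right (by norm_num) (by omega)
    omega
  · have : B < 2 ^ B := Nat.lt_two_pow_self
    rw [pow_add]
    have : (2 : ℕ) ^ 12 = 4096 := by norm_num
    rw [this]
    omega

open Classical in
/-- Good cuts on both sides. -/
theorem exists_cuts (x : ℤ → A) (B j0 : ℕ) (hj : 4 ≤ j0) :
    ∃ n m : ℕ, B ≤ n ∧ B ≤ m ∧
      (∀ p : ℤ, 1 ≤ p → -(m : ℤ) ≤ n - 4 * p → Per x p (n - 4 * p) n → x n = x (n - p)) ∧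
      (∀ p : ℤ, 2 ^ j0 ≤ p → -(m : ℤ) ≤ n - 3 * p → Per x p (n - 3 * p) n → x n = x (n - p)) ∧
      (∀ p : ℤ, 1 ≤ p → -(m : ℤ) + 4 * p ≤ n → Per x p (-m) (-m + 4 * p) →
        x (-m - 1) = x (-m - 1 + p)) := by
  obtain ⟨K0, hK3, hKB, hK100⟩ := exists_scale B
  set Λ : ℕ := 2 ^ K0 with hΛ
  set K : ℕ := K0 + 2 with hK
  have hpow : (2 : ℕ) ^ K = 4 * Λ := by rw [hK, pow_add, hΛ]; ring
  have hpowZ : (2 : ℤ) ^ K = 4 * Λ := by exact_mod_cast hpow
  have hj16 : 16 ≤ 2 ^ j0 := by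
    calc 16 = 2 ^ 4 := by norm_num
      _ ≤ 2 ^ j0 := Nat.pow_le_pow_right (by norm_num) hj
  -- the right cut
  have hR : ∃ n ∈ Finset.Ico (B : ℤ) (B + Λ), ¬ EndBad 4 x (B + Λ) (2 ^ 0) n ∧
      ¬ EndBad 3 x (B + Λ) (2 ^ j0) n := by
    by_contra hc
    push Not at hc
    have hcov : Finset.Ico (B : ℤ) (B + Λ) ⊆
        ((Finset.Ico (B : ℤ) (B + Λ)).filter (fun n => EndBad (4 : ℕ) x (B + Λ) (2 ^ 0) n)) ∪
        ((Finset.Ico (B : ℤ) (B + Λ)).filter (fun n => EndBad (3 : ℕ) x (B + Λ) (2 ^ j0) n)) := by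
      intro n hn
      rw [Finset.mem_union, Finset.mem_filter, Finset.mem_filter]
      by_cases h : EndBad 4 x (B + Λ) (2 ^ 0) n
      · exact Or.inl ⟨hn, h⟩
      · exact Or.inr ⟨hn, hc n hn h⟩
    have hcard := Finset.card_le_card hcov
    rw [Int.card_Ico] at hcard
    have h1 := card_end x 4 (by norm_num) (B + Λ) 0 K B Λ (by rw [hpowZ]; push_cast; omega)
    have h2 := card_end x 3 (by norm_num) (B + Λ) j0 K B Λ (by rw [hpowZ]; push_cast; omega)
    have h3 := sum_four Λ K (by omega)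
    have h4 := sum_three Λ j0 K
    have h5 := Finset.card_union_le
      ((Finset.Ico (B : ℤ) (B + Λ)).filter (fun n => EndBad (4 : ℕ) x (B + Λ) (2 ^ 0) n))
      ((Finset.Ico (B : ℤ) (B + Λ)).filter (fun n => EndBad (3 : ℕ) x (B + Λ) (2 ^ j0) n))
    set c1 := ((Finset.Ico (B : ℤ) (B + Λ)).filter (fun n => EndBad (4 : ℕ) x (B + Λ) (2 ^ 0) n)).card
    set c2 := ((Finset.Ico (B : ℤ) (B + Λ)).filter (fun n => EndBad (3 : ℕ) x (B + Λ) (2 ^ j0) n)).card
    set s1 := ∑ j ∈ Finset.Ico 0 K, (Λ / ((4 - 2) * 2 ^ j + 1) + 3)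
    set s2 := ∑ j ∈ Finset.Ico j0 K, (Λ / ((3 - 2) * 2 ^ j + 1) + 3)
    have h6 : s2 * 16 ≤ 2 * Λ + 48 * K := by
      have h7 : s2 * 2 ^ j0 ≤ 2 * Λ + 3 * K * 2 ^ j0 := h4
      by_contra hc2
      push Not at hc2
      -- s2 > (2 Λ + 48 K)/16 gives s2 - 3K > Λ/8
      have h8 : 3 * K < s2 := by omega
      obtain ⟨d, hd⟩ : ∃ d, s2 = 3 * K + d := ⟨s2 - 3 * K, by omega⟩
      rw [hd] at h7 hc2
      have h9 : d * 2 ^ j0 ≤ 2 * Λ := by nlinarith
      have h10 : d * 16 ≤ d * 2 ^ j0 := Nat.mul_le_mul_left _ hj16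
      omega
    have h11 : Λ ≤ c1 + c2 := by
      have : ((B : ℤ) + Λ - B).toNat = Λ := by omega
      rw [this] at hcard
      omega
    omega
  obtain ⟨n, hn, hn4, hn3⟩ := hR
  rw [Finset.mem_Ico] at hn
  obtain ⟨n, rfl⟩ : ∃ n' : ℕ, n = n' := ⟨n.toNat, by omega⟩
  -- the left cut
  set y : ℤ → A := fun i => x (-1 - i) with hy
  have hL : ∃ m ∈ Finset.Ico (B : ℤ) (B + Λ), ¬ EndBad 4 y (B + Λ) (2 ^ 0) m := by
    by_contra hc
    push Not at hc
    have hcov : Finset.Ico (B : ℤ) (B + Λ) ⊆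
        ((Finset.Ico (B : ℤ) (B + Λ)).filter (fun n => EndBad (4 : ℕ) y (B + Λ) (2 ^ 0) n)) := by
      intro n hn
      rw [Finset.mem_filter]
      exact ⟨hn, hc n hn⟩
    have hcard := Finset.card_le_card hcov
    rw [Int.card_Ico] at hcard
    have h1 := card_end y 4 (by norm_num) (B + Λ) 0 K B Λ (by rw [hpowZ]; push_cast; omega)
    have h3 := sum_four Λ K (by omega)
    have : ((B : ℤ) + Λ - B).toNat = Λ := by omega
    rw [this] at hcard
    omega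
  obtain ⟨m, hm, hm4⟩ := hL
  rw [Finset.mem_Ico] at hm
  obtain ⟨m, rfl⟩ : ∃ m' : ℕ, m = m' := ⟨m.toNat, by omega⟩
  refine ⟨n, m, by omega, by omega, ?_, ?_, ?_⟩
  · intro p hp hb hper
    by_contra hne
    exact hn4 ⟨p, by norm_num; omega, hp, by omega, hper, hne⟩
  · intro p hp hb hper
    by_contra hne
    exact hn3 ⟨p, hp, by have : (1 : ℤ) ≤ 2 ^ j0 := by exact_mod_cast Nat.one_le_two_pow
                         omega, by omega, hper, hne⟩
  · intro p hp hb hper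
    by_contra hne
    apply hm4
    refine ⟨p, by norm_num; omega, hp, by omega, ?_, ?_⟩
    · intro j h1 h2
      simp only [hy]
      have := hper (-1 - j - p) (by omega) (by omega)
      rw [show -1 - j - p + p = -1 - j by ring] at this
      rw [← this]
      congr 1
      ring
    · simp only [hy]
      intro h
      apply hne
      rw [show -(m : ℤ) - 1 = -1 - m by ring, h]
      congr 1
      ring

end Pool.Agent.R200.Pt
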