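import Mathlib
import Pool.Agent.R200.PtComp

/-!
# Decidability of extendability and of the transition problem
-/

namespace Pool.Agent.R200.Pt

open Pool.Agent.R200.Pf (tm)

variable {k : ℕ}

/-- Prefix of length `n` of an infinite word. -/
def pre (t : ℕ → Fin k) (n : ℕ) : List (Fin k) := (List.range n).map t

theorem pre_length (t : ℕ → Fin k) (n : ℕ) : (pre t n).length = n := by simp [pre]

theorem pre_get {t : ℕ → Fin k} {n i : ℕ} (h : i < n) : (pre t n)[i]? = some (t i) := by
  simp [pre, h]

theorem pre_primrec {t : ℕ → Fin k} (ht : Primrec t) : Primrec (pre t) :=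
  Primrec.list_map Primrec.list_range (ht.comp Primrec.snd).to₂

theorem map_splice (x t : ℕ → Fin k) (n M : ℕ) :
    (List.range (n + M)).map (Splice x n t) = (List.range n).map x ++ pre t M := by
  apply List.ext_getElem?
  intro i
  by_cases h : i < n
  · rw [List.getElem?_append_left (by simpa using h)]
    simp [h, show i < n + M by omega, splice_lt h]
  · rw [List.getElem?_append_right (by simp; omega)]
    simp only [List.length_map, List.length_range]
    by_cases h2 : i < n + M
    · rw [pre_get (by omega)]
      simp [h2, splice_ge (Nat.not_lt.mp h)]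
    · rw [List.getElem?_eq_none (by simp; omega), List.getElem?_eq_none (by
        rw [pre_length]; omega)]

theorem map_getD (w : List (Fin k)) (d : Fin k) :
    (List.range w.length).map (fun i => w.getD i d) = w := by
  apply List.ext_getElem?
  intro i
  by_cases h : i < w.length
  · simp [h]
  · rw [List.getElem?_eq_none (by simp; omega), List.getElem?_eq_none (by omega)]

theorem cert_sound {α : ℚ} (hα : 2 ≤ α) {K : ℕ} (hK : α ≤ K) {t : ℕ → Fin k} (ht : Fr α t)
    (hpre : ∀ p b, 1 ≤ p → Run t 0 b p → (b : ℚ) < (α - 1) * p + 1) {w : List (Fin k)}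
    (d : Fin k) (h : PF α (w ++ pre t (K * (w.length + 1)))) :
    Fr α (Splice (fun i => w.getD i d) w.length t) := by
  set x : ℕ → Fin k := fun i => w.getD i d with hx
  have hα0 : 0 < α := by linarith
  have e : w ++ pre t (K * (w.length + 1)) =
      (List.range (w.length + K * (w.length + 1))).map (Splice x w.length t) := by
    rw [map_splice, map_getD]
  rw [e, pf_map hα0] at h
  intro i L p hp hrun
  by_contra hc
  push Not at hc
  set n := w.length with hn
  have hin : i < n := by
    by_contra hc'
    push Not at hc'
    have h1 : Run t (i - n) L p := by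
      intro j hj
      have h2 := hrun j hj
      rw [splice_ge (by omega), splice_ge (by omega)] at h2
      rw [show i - n + j = i + j - n by omega, show i + j - n + p = i + j + p - n by omega]
      exact h2
    exact absurd (ht _ _ _ hp h1) (not_lt.mpr hc)
  have hiL : n + K * (n + 1) < i + L := by
    by_contra hc'
    push Not at hc'
    exact absurd (h i L p hc' hp hrun) (not_lt.mpr hc)
  obtain ⟨a, ha⟩ : ∃ a, n = i + a := ⟨n - i, by omega⟩
  obtain ⟨b, hb⟩ : ∃ b, L = a + b := ⟨L - a, by omega⟩
  have hbt : (b : ℚ) < (α - 1) * p + 1 := by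
    apply hpre p b hp
    intro j hj
    have h2 := hrun (a + j) (by omega)
    rw [show i + (a + j) = n + j by omega, splice_add, show n + j + p = n + (j + p) by ring,
      splice_add] at h2
    simpa using h2
  have hpa : p ≤ a := by
    rw [hb] at hc
    push_cast at hc
    have h2 : (p : ℚ) < a + 1 := by linarith
    have h3 : p < a + 1 := by exact_mod_cast h2
    omega
  have hpn : p ≤ n := by omega
  have hb2 : K * (n + 1) < b := by omega
  have h5 : (K : ℚ) * (n + 1) < b := by exact_mod_cast hb2
  have h6 : (p : ℚ) ≤ n := by exact_mod_cast hpn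
  have h7 : α * p ≤ K * n := by
    calc α * p ≤ K * p := by
          apply mul_le_mul_of_nonneg_right hK (by positivity)
      _ ≤ K * n := by
          apply mul_le_mul_of_nonneg_left h6 (by positivity)
  have h8 : (1 : ℚ) ≤ p := by exact_mod_cast hp
  have h9 : (2 : ℚ) ≤ K := le_trans hα hK
  linarith

theorem rExt_iff_cert {α : ℚ} (hα : 2 ≤ α) {K : ℕ} (hK : α ≤ K) {t : ℕ → Fin k}
    (ht : Fr α t) (hpre : ∀ p b, 1 ≤ p → Run t 0 b p → (b : ℚ) < (α - 1) * p + 1)
    {u : List (Fin k)} :
    RExt α u ↔ ∃ w, PF α (w ++ pre t (K * (w.length + 1))) ∧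
      u = (w ++ pre t u.length).take u.length := by
  have hα0 : 0 < α := by linarith
  constructor
  · intro h
    obtain ⟨x, hx, hu⟩ := h.exists_infinite hα0
    have key : ∃ n, Fr α (Splice x n t) ∧ ∀ i < u.length, Splice x n t i = x i := by
      rcases launch hα hx ht hpre u.length with ⟨n, hn, hf⟩ | ⟨m, hm⟩
      · exact ⟨n, hf, fun i hi => splice_lt (by omega)⟩
      · have e : Splice x m t = x := by
          funext i
          by_cases hi : i < m
          · exact splice_lt hi
          · rw [splice_ge (by omega), ← hm]
            congr 1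
            omega
        exact ⟨m, by rw [e]; exact hx, fun i _ => by rw [e]⟩
    obtain ⟨n, hf, hux⟩ := key
    refine ⟨(List.range n).map x, ?_, ?_⟩
    · rw [← map_splice]
      exact hf.pf hα0 _
    · rw [← map_splice]
      apply List.ext_getElem?
      intro i
      rw [List.getElem?_take]
      by_cases hi : i < u.length
      · rw [if_pos hi, hu i hi, ← hux i hi]
        simp [show i < n + u.length by omega]
      · rw [if_neg hi, List.getElem?_eq_none (by omega)]
  · rintro ⟨w, hw, hu⟩
    have hf := cert_sound hα hK ht hpre (t 0) hw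
    apply rExt_of_fr hα0 hf
    intro i hi
    have e : w ++ pre t u.length =
        (List.range (w.length + u.length)).map (Splice (fun i => w.getD i (t 0)) w.length t) := by
      rw [map_splice, map_getD]
    rw [e] at hu
    have h1 := congrArg (fun l : List (Fin k) => l[i]?) hu
    simp only [List.getElem?_take, if_pos hi] at h1
    rw [h1]
    simp [show i < w.length + u.length by omega]

theorem not_rExt_iff {α : ℚ} {u : List (Fin k)} :
    ¬ RExt α u ↔ ∃ n, ∀ v ∈ words k n, ¬ PF α (u ++ v) := by
  constructor
  · intro h
    by_contra hc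
    push Not at hc
    apply h
    choose v hv hpf using hc
    apply Set.infinite_of_injective_forall_mem (f := fun n => u ++ v n)
    · intro n m hnm
      have := congrArg List.length hnm
      simp only [List.length_append, mem_words.mp (hv n), mem_words.mp (hv m)] at this
      omega
    · intro n
      exact ⟨List.prefix_append _ _, hpf n⟩
  · rintro ⟨n, hn⟩ h
    have hfin : ({x : List (Fin k) | x.length < u.length + n}).Finite := by
      have : {x : List (Fin k) | x.length < u.length + n} ⊆
          ⋃ m ∈ Finset.range (u.length + n), {x | x ∈ words k m} := by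
        intro x hx
        simp only [Set.mem_iUnion]
        exact ⟨x.length, Finset.mem_range.mpr hx, mem_words.mpr rfl⟩
      exact (Set.Finite.biUnion (Finset.finite_toSet _) (fun m _ => List.finite_toSet _)).subset this
    obtain ⟨x, hx, hx2⟩ := (h.sdiff hfin).nonempty
    obtain ⟨⟨s, rfl⟩, hpf⟩ := hx
    simp only [Set.mem_ofPred_eq, List.length_append, not_lt] at hx2
    apply hn (s.take n) (mem_words.mpr (by rw [List.length_take]; omega))
    apply hpf.sub
    refine ⟨[], s.drop n, ?_⟩
    simp

/-- Right extendability is decidable as soon as it has finite certificates. -/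
theorem rExt_computable_of_cert {α : ℚ} (hα : 1 < α) {t : ℕ → Fin k} (ht : Primrec t) {K : ℕ}
    (hcert : ∀ u : List (Fin k), RExt α u ↔ ∃ w, PF α (w ++ pre t (K * (w.length + 1))) ∧
      u = (w ++ pre t u.length).take u.length) :
    ComputablePred (fun u : List (Fin k) => RExt α u) := by
  have hpf := pf_primrec (k := k) hα
  rw [ComputablePred.computable_iff_re_compl_re']
  constructor
  · have hR : PrimrecRel fun (w u : List (Fin k)) =>
        PF α (w ++ pre t (K * (w.length + 1))) ∧ u = (w ++ pre t u.length).take u.length := by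
      apply PrimrecPred.and
      · apply hpf.comp
        apply Primrec.list_append.comp Primrec.fst
        apply (pre_primrec ht).comp
        exact Primrec.nat_mul.comp (Primrec.const K)
          (Primrec.succ.comp (Primrec.list_length.comp Primrec.fst))
      · apply Primrec.eq.comp Primrec.snd
        apply Primrec.list_take.comp (Primrec.list_length.comp Primrec.snd)
        exact Primrec.list_append.comp Primrec.fst
          ((pre_primrec ht).comp (Primrec.list_length.comp Primrec.snd))
    have hP : PrimrecRel fun (u : List (Fin k)) (n : ℕ) => ∃ w ∈ words k n,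
        PF α (w ++ pre t (K * (w.length + 1))) ∧ u = (w ++ pre t u.length).take u.length :=
      hR.exists_mem_list.comp (words_primrec.comp Primrec.snd) Primrec.fst
    refine (re_exists hP).of_eq fun u => ?_
    rw [hcert u]
    constructor
    · rintro ⟨n, w, _, h⟩
      exact ⟨w, h⟩
    · rintro ⟨w, h⟩
      exact ⟨w.length, w, mem_words.mpr rfl, h⟩
  · have hR : PrimrecRel fun (v u : List (Fin k)) => ¬ PF α (u ++ v) := by
      apply PrimrecPred.not
      exact hpf.comp (Primrec.list_append.comp Primrec.snd Primrec.fst)
    have hP : PrimrecRel fun (u : List (Fin k)) (n : ℕ) => ∀ v ∈ words k n, ¬ PF α (u ++ v) :=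
      hR.forall_mem_list.comp (words_primrec.comp Primrec.snd) Primrec.fst
    exact (re_exists hP).of_eq fun u => not_rExt_iff.symm

/-- Right extendability is decidable, given a launching word. -/
theorem rExt_computable {α : ℚ} (hα : 2 ≤ α) {t : ℕ → Fin k}
    (hfr : Fr α t) (hpre : ∀ p b, 1 ≤ p → Run t 0 b p → (b : ℚ) < (α - 1) * p + 1)
    (ht : Primrec t) : ComputablePred (fun u : List (Fin k) => RExt α u) := by
  obtain ⟨K, hK⟩ : ∃ K : ℕ, α ≤ K := ⟨⌈α⌉₊, Nat.le_ceil _⟩
  exact rExt_computable_of_cert (by linarith) ht (fun u => rExt_iff_cert hα hK hfr hpre)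

theorem lExt_computable {α : ℚ} (hα : 0 < α)
    (h : ComputablePred (fun u : List (Fin k) => RExt α u)) :
    ComputablePred (fun u : List (Fin k) => LExt α u) := by
  classical
  have h2 : Computable fun u : List (Fin k) => decide (RExt α u.reverse) :=
    h.decide.comp Primrec.list_reverse.to_comp
  exact h2.computablePred.of_eq fun u => (lExt_iff hα).symm

theorem not_lExt_iff {α : ℚ} (hα : 0 < α) {u : List (Fin k)} :
    ¬ LExt α u ↔ ∃ n, ∀ v ∈ words k n, ¬ PF α (v ++ u) := by
  rw [lExt_iff hα, not_rExt_iff]
  constructor
  · rintro ⟨n, hn⟩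
    refine ⟨n, fun v hv h => hn v.reverse ?_ ?_⟩
    · rw [mem_words, List.length_reverse]
      exact mem_words.mp hv
    · rw [← List.reverse_append]
      exact pf_reverse hα h
  · rintro ⟨n, hn⟩
    refine ⟨n, fun v hv h => hn v.reverse ?_ ?_⟩
    · rw [mem_words, List.length_reverse]
      exact mem_words.mp hv
    · have := pf_reverse hα h
      simpa using this

/-- The transition problem is decidable. -/
theorem transition_computable {α : ℚ} (hα : 1 < α)
    (htr : ∀ u v : List (Fin k), RExt α u → LExt α v → ∃ w, PF α (u ++ w ++ v)) :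
    ComputablePred (fun q : List (Fin k) × List (Fin k) => ∃ w, PF α (q.1 ++ w ++ q.2)) := by
  have hα0 : 0 < α := by linarith
  have hpf := pf_primrec (k := k) hα
  rw [ComputablePred.computable_iff_re_compl_re']
  have hw : PrimrecRel fun (w : List (Fin k)) (q : List (Fin k) × List (Fin k)) =>
      PF α (q.1 ++ w ++ q.2) := by
    apply hpf.comp
    exact Primrec.list_append.comp
      (Primrec.list_append.comp (Primrec.fst.comp Primrec.snd) Primrec.fst)
      (Primrec.snd.comp Primrec.snd)
  constructor
  · have hP : PrimrecRel fun (q : List (Fin k) × List (Fin k)) (n : ℕ) => ∃ w ∈ words k n,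
        PF α (q.1 ++ w ++ q.2) :=
      hw.exists_mem_list.comp (words_primrec.comp Primrec.snd) Primrec.fst
    refine (re_exists hP).of_eq fun q => ?_
    constructor
    · rintro ⟨n, w, _, h⟩
      exact ⟨w, h⟩
    · rintro ⟨w, h⟩
      exact ⟨w.length, w, mem_words.mpr rfl, h⟩
  · have hw' : PrimrecRel fun (w : List (Fin k)) (q : List (Fin k) × List (Fin k)) =>
        ¬ PF α (q.1 ++ w ++ q.2) := PrimrecPred.not hw
    have h1 : PrimrecRel fun (q : List (Fin k) × List (Fin k)) (n : ℕ) =>
        ∀ x ∈ words k n, ¬ PF α (q.1 ++ x) := by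
      have hR : PrimrecRel fun (x : List (Fin k)) (q : List (Fin k) × List (Fin k)) =>
          ¬ PF α (q.1 ++ x) := by
        apply PrimrecPred.not
        exact hpf.comp (Primrec.list_append.comp (Primrec.fst.comp Primrec.snd) Primrec.fst)
      exact hR.forall_mem_list.comp (words_primrec.comp Primrec.snd) Primrec.fst
    have h2 : PrimrecRel fun (q : List (Fin k) × List (Fin k)) (n : ℕ) =>
        ∀ x ∈ words k n, ¬ PF α (x ++ q.2) := by
      have hR : PrimrecRel fun (x : List (Fin k)) (q : List (Fin k) × List (Fin k)) =>
          ¬ PF α (x ++ q.2) := by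
        apply PrimrecPred.not
        exact hpf.comp (Primrec.list_append.comp Primrec.fst (Primrec.snd.comp Primrec.snd))
      exact hR.forall_mem_list.comp (words_primrec.comp Primrec.snd) Primrec.fst
    have h3 : PrimrecRel fun (m : ℕ) (q : List (Fin k) × List (Fin k)) =>
        ∀ w ∈ words k m, ¬ PF α (q.1 ++ w ++ q.2) :=
      hw'.forall_mem_list.comp (words_primrec.comp Primrec.fst) Primrec.snd
    have h4 : PrimrecRel fun (q : List (Fin k) × List (Fin k)) (n : ℕ) =>
        ∀ m ∈ List.range n, ∀ w ∈ words k m, ¬ PF α (q.1 ++ w ++ q.2) :=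
      h3.forall_mem_list.comp (Primrec.list_range.comp Primrec.snd) Primrec.fst
    have hP : PrimrecRel fun (q : List (Fin k) × List (Fin k)) (n : ℕ) =>
        ((∀ x ∈ words k n, ¬ PF α (q.1 ++ x)) ∨ (∀ x ∈ words k n, ¬ PF α (x ++ q.2))) ∧
          ∀ m ∈ List.range n, ∀ w ∈ words k m, ¬ PF α (q.1 ++ w ++ q.2) :=
      PrimrecPred.and (PrimrecPred.or h1 h2) h4
    refine (re_exists hP).of_eq fun q => ?_
    obtain ⟨u, v⟩ := q
    simp only
    constructor
    · rintro ⟨n, h5, h6⟩ ⟨w, hw⟩
      by_cases hlen : w.length < n
      · exact h6 w.length (List.mem_range.mpr hlen) w (mem_words.mpr rfl) hw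
      · push Not at hlen
        rcases h5 with h5 | h5
        · apply h5 (w.take n) (mem_words.mpr (by rw [List.length_take]; omega))
          apply hw.sub
          refine ⟨[], w.drop n ++ v, ?_⟩
          rw [List.nil_append, List.append_assoc u, ← List.append_assoc (w.take n),
            List.take_append_drop, List.append_assoc]
        · apply h5 (w.drop (w.length - n)) (mem_words.mpr (by rw [List.length_drop]; omega))
          apply hw.sub
          refine ⟨u ++ w.take (w.length - n), [], ?_⟩
          rw [List.append_nil, List.append_assoc u, ← List.append_assoc (w.take _),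
            List.take_append_drop, List.append_assoc]
    · intro h
      have hnot : ¬ (RExt α u ∧ LExt α v) := fun hh => h (htr u v hh.1 hh.2)
      have hfree : ∀ n, ∀ m ∈ List.range n, ∀ w ∈ words k m, ¬ PF α (u ++ w ++ v) :=
        fun n m _ w _ hw => h ⟨w, hw⟩
      rw [not_and_or] at hnot
      rcases hnot with h7 | h7
      · obtain ⟨n, hn⟩ := not_rExt_iff.mp h7
        exact ⟨n, Or.inl hn, hfree n⟩
      · obtain ⟨n, hn⟩ := (not_lExt_iff hα0).mp h7
        exact ⟨n, Or.inr hn, hfree n⟩

end Pool.Agent.R200.Pt
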