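import Mathlib
import Pool.Agent.R200.PtDec
import Pool.Agent.S11949

/-!
# The exponent two: square-free words over at least three letters
-/

namespace Pool.Agent.R200.Pt

open Pool.Agent.S11949 (SF T T_sf Hub LSF LSF_iff hub_tail_sf marker_free exists_mirror)

variable {A : Type*}

theorem fr_of_sf {x : ℕ → Fin 3} (h : SF x) : Fr 2 x := by
  intro i L p hp hrun
  by_contra hc
  push Not at hc
  have hc' : 2 * p ≤ L := by exact_mod_cast hc
  obtain ⟨k, hk, hne⟩ := h i p hp
  apply hne
  rw [hrun k (by omega)]
  congr 1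
  ring

theorem sf_of_fr {x : ℕ → Fin 3} (h : Fr 2 x) : SF x := by
  intro i p hp
  by_contra hc
  push Not at hc
  have h1 : Run x i (2 * p) p := by
    intro j hj
    have := hc j (by omega)
    rw [this]
    congr 1
    ring
  have := h i (2 * p) p hp h1
  push_cast at this
  exact lt_irrefl _ this

theorem pf_two_iff {w : List (Fin 3)} : PF 2 w ↔ LSF w := by
  rw [pf_iff (by norm_num), LSF_iff]
  have e : ∀ i < w.length, w[i]? = some (w.getD i 0) := by
    intro i hi
    rw [List.getElem?_eq_getElem hi, List.getD_eq_getElem _ _ hi]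
  constructor
  · intro h i p hp hi
    by_contra hc
    push Not at hc
    have := h i (2 * p) p hi hp ?_
    · push_cast at this
      exact lt_irrefl _ this
    · intro j hj
      rw [e _ (by omega), e _ (by omega), hc j (by omega)]
      congr 2
      ring
  · intro h i L p hi hp hr
    by_contra hc
    push Not at hc
    have hc' : 2 * p ≤ L := by exact_mod_cast hc
    obtain ⟨k, hk, hne⟩ := h i p hp (by omega)
    apply hne
    have h1 := hr k (by omega)
    rw [e _ (by omega), e _ (by omega)] at h1
    have h2 := Option.some.inj h1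
    rw [h2]
    congr 1
    ring

theorem rExt_iff_ext {w : List (Fin 3)} : RExt 2 w ↔ Pool.Agent.S11949.Ext w := by
  unfold RExt Pool.Agent.S11949.Ext
  have e : {x : List (Fin 3) | w <+: x ∧ PF 2 x} = (fun x => w ++ x) '' {x | LSF (w ++ x)} := by
    ext x
    simp only [Set.mem_ofPred_eq, Set.mem_image]
    constructor
    · rintro ⟨⟨s, rfl⟩, h⟩
      exact ⟨s, pf_two_iff.mp h, rfl⟩
    · rintro ⟨s, h, rfl⟩
      exact ⟨⟨s, rfl⟩, pf_two_iff.mpr h⟩
  rw [e, Set.infinite_image_iff]
  exact (List.append_right_injective w).injOn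

theorem lExt_iff_ext {w : List (Fin 3)} :
    LExt 2 w ↔ {x : List (Fin 3) | LSF (x ++ w)}.Infinite := by
  unfold LExt
  have e : {x : List (Fin 3) | w <:+ x ∧ PF 2 x} = (fun x => x ++ w) '' {x | LSF (x ++ w)} := by
    ext x
    simp only [Set.mem_ofPred_eq, Set.mem_image]
    constructor
    · rintro ⟨⟨s, rfl⟩, h⟩
      exact ⟨s, pf_two_iff.mp h, rfl⟩
    · rintro ⟨s, h, rfl⟩
      exact ⟨⟨s, rfl⟩, pf_two_iff.mpr h⟩
  rw [e, Set.infinite_image_iff]
  exact (List.append_left_injective w).injOn

theorem transition_three_two {u v : List (Fin 3)} (hu : RExt 2 u) (hv : LExt 2 v) :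
    ∃ w, PF 2 (u ++ w ++ v) := by
  obtain ⟨z, hz⟩ := Pool.Agent.S11949.bridge u v (rExt_iff_ext.mp hu) (lExt_iff_ext.mp hv)
  exact ⟨z, pf_two_iff.mpr hz⟩

/-- The launching word `010 T`. -/
def tq (j : ℕ) : Fin 3 := if j < 3 then (if j = 1 then 1 else 0) else T (j - 3)

theorem hub_of_splice (x : ℕ → Fin 3) (n : ℕ) : Hub (Splice x n tq) n := by
  refine ⟨?_, ?_, ?_, ?_⟩
  · rw [splice_ge le_rfl, Nat.sub_self]; rfl
  · rw [splice_add]; rfl
  · rw [splice_add]; rfl
  · intro i
    rw [show n + 3 + i = n + (3 + i) by ring, splice_add]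
    unfold tq
    rw [if_neg (by omega)]
    congr 1
    omega

theorem splice_of_hub {V : ℕ → Fin 3} {r : ℕ} (h : Hub V r) : Splice V r tq = V := by
  funext i
  by_cases hi : i < r
  · exact splice_lt hi
  · rw [splice_ge (by omega)]
    unfold tq
    by_cases h3 : i - r < 3
    · rw [if_pos h3]
      rcases (by omega : i = r ∨ i = r + 1 ∨ i = r + 2) with rfl | rfl | rfl
      · rw [h.m0]; simp
      · rw [h.m1]; simp
      · rw [h.m2]; simp
    · rw [if_neg h3, h.tail' (by omega)]
      congr 1

theorem cert_sound_two {w : List (Fin 3)} (h : PF 2 (w ++ pre tq (4 * (w.length + 1)))) :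
    Fr 2 (Splice (fun i => w.getD i 0) w.length tq) := by
  apply fr_of_sf
  set V := Splice (fun i => w.getD i 0) w.length tq with hV
  have hub : Hub V w.length := hub_of_splice _ _
  set n := w.length with hn
  have e : w ++ pre tq (4 * (n + 1)) = (List.range (n + 4 * (n + 1))).map V := by
    rw [hV, map_splice, map_getD]
  rw [e, pf_map (by norm_num)] at h
  intro i p hp
  by_contra hc
  push Not at hc
  have hrun : Run V i (2 * p) p := by
    intro j hj
    have := hc j (by omega)
    rw [this]
    congr 1
    ring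
  by_cases hi : n ≤ i
  · obtain ⟨k, hk, hne⟩ := hub_tail_sf hub hi hp
    exact hne (hc k hk)
  · push Not at hi
    by_cases hpl : p < n - i + 3
    · have := h i (2 * p) p (by omega) hp hrun
      push_cast at this
      exact lt_irrefl _ this
    · push Not at hpl
      apply marker_free hub (i := n + p) (by omega)
      have k0 := hc (n - i) (by omega)
      have k1 := hc (n - i + 1) (by omega)
      have k2 := hc (n - i + 2) (by omega)
      rw [show i + (n - i) = n by omega, show i + p + (n - i) = n + p by omega, hub.m0] at k0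
      rw [show i + (n - i + 1) = n + 1 by omega, show i + p + (n - i + 1) = n + p + 1 by omega,
        hub.m1] at k1
      rw [show i + (n - i + 2) = n + 2 by omega, show i + p + (n - i + 2) = n + p + 2 by omega,
        hub.m2] at k2
      exact ⟨k0.symm, k1.symm, k2.symm⟩

theorem rExt_iff_cert_two {u : List (Fin 3)} :
    RExt 2 u ↔ ∃ w, PF 2 (w ++ pre tq (4 * (w.length + 1))) ∧
      u = (w ++ pre tq u.length).take u.length := by
  constructor
  · intro h
    obtain ⟨x, hx, hu⟩ := h.exists_infinite (by norm_num)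
    obtain ⟨V, r, hV, hub, hVx⟩ := Pool.Agent.S11949.goal_all (sf_of_fr hx) u.length
    have e := splice_of_hub hub
    have hf : Fr 2 (Splice V r tq) := by rw [e]; exact fr_of_sf hV
    refine ⟨(List.range r).map V, ?_, ?_⟩
    · rw [← map_splice]
      exact hf.pf (by norm_num) _
    · rw [← map_splice]
      apply List.ext_getElem?
      intro i
      rw [List.getElem?_take]
      by_cases hi : i < u.length
      · rw [if_pos hi, hu i hi, ← hVx i hi]
        simp [show i < r + u.length by omega, e]
      · rw [if_neg hi, List.getElem?_eq_none (by omega)]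
  · rintro ⟨w, hw, hu⟩
    have hf := cert_sound_two hw
    apply rExt_of_fr (by norm_num) hf
    intro i hi
    have e : w ++ pre tq u.length =
        (List.range (w.length + u.length)).map (Splice (fun i => w.getD i 0) w.length tq) := by
      rw [map_splice, map_getD]
    rw [e] at hu
    have h1 := congrArg (fun l : List (Fin 3) => l[i]?) hu
    simp only [List.getElem?_take, if_pos hi] at h1
    rw [h1]
    simp [show i < w.length + u.length by omega]

theorem tm_eq (n : ℕ) : Pool.Agent.S11949.tm n = Pool.Agent.R200.Pf.tm n := by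
  induction n using Nat.strong_induction_on with
  | _ n ih =>
    rcases Nat.eq_zero_or_pos n with rfl | h0
    · rw [Pool.Agent.R200.Pf.tm]; rfl
    · rcases Nat.even_or_odd' n with ⟨m, rfl | rfl⟩
      · rw [Pool.Agent.S11949.tm_even, Pool.Agent.R200.Pf.tm_even, ih m (by omega)]
      · rw [Pool.Agent.S11949.tm_odd, Pool.Agent.R200.Pf.tm_odd, ih m (by omega)]

theorem T_primrec : Primrec T := by
  have h1 : Primrec₂ Pool.Agent.S11949.df := Primrec.dom_bool₂ _
  have h2 : Primrec Pool.Agent.S11949.tm := tm_primrec.of_eq (fun n => (tm_eq n).symm)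
  exact h1.comp (h2.comp (Primrec.nat_add.comp Primrec.id (Primrec.const 6)))
    (h2.comp (Primrec.nat_add.comp Primrec.id (Primrec.const 7)))

theorem tq_primrec : Primrec tq := by
  apply Primrec.ite (Primrec.nat_lt.comp Primrec.id (Primrec.const 3))
  · exact Primrec.ite (Primrec.eq.comp Primrec.id (Primrec.const 1)) (Primrec.const 1)
      (Primrec.const 0)
  · exact T_primrec.comp (Primrec.nat_sub.comp Primrec.id (Primrec.const 3))

/-! ### At least four letters -/

/-- The launching word `z T` with a marker letter `z`. -/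
def tz (ε : Fin 3 → A) (z : A) (j : ℕ) : A := if j = 0 then z else ε (T (j - 1))

theorem tz_succ (ε : Fin 3 → A) (z : A) (j : ℕ) : tz ε z (j + 1) = ε (T j) := by
  simp [tz]

theorem tz_zero (ε : Fin 3 → A) (z : A) : tz ε z 0 = z := by
  simp [tz]

theorem tz_pre {ε : Fin 3 → A} {z : A} (hz : ∀ c, ε c ≠ z) {p b : ℕ} (hp : 1 ≤ p)
    (h : Run (tz ε z) 0 b p) : b ≤ p := by
  by_contra hc
  push Not at hc
  have h1 := h 0 (by omega)
  rw [show 0 + 0 + p = (p - 1) + 1 by omega, tz_succ, show 0 + 0 = 0 by ring, tz_zero] at h1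
  exact hz _ h1.symm

theorem tz_fr {ε : Fin 3 → A} (hε : Function.Injective ε) {z : A} (hz : ∀ c, ε c ≠ z) :
    Fr 2 (tz ε z) := by
  intro i L p hp hrun
  by_contra hc
  push Not at hc
  have hc' : 2 * p ≤ L := by exact_mod_cast hc
  by_cases hi : i = 0
  · subst hi
    have := tz_pre hz hp hrun
    omega
  · obtain ⟨k, hk, hne⟩ := T_sf (i - 1) p hp
    apply hne
    apply hε
    rw [← tz_succ ε z, ← tz_succ ε z]
    have := hrun k (by omega)
    rw [show i - 1 + k + 1 = i + k by omega, show i - 1 + p + k + 1 = i + k + p by omega]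
    exact this

theorem tz_prefix {ε : Fin 3 → A} {z : A} (hz : ∀ c, ε c ≠ z) :
    ∀ p b, 1 ≤ p → Run (tz ε z) 0 b p → (b : ℚ) < (2 - 1) * p + 1 := by
  intro p b hp h
  have h1 := tz_pre hz hp h
  have h2 : (b : ℚ) ≤ p := by exact_mod_cast h1
  linarith

theorem tz_primrec {k : ℕ} (ε : Fin 3 → Fin k) (z : Fin k) : Primrec (tz ε z) := by
  apply Primrec.ite (Primrec.eq.comp Primrec.id (Primrec.const 0)) (Primrec.const z)
  exact (Primrec.dom_finite ε).comp (T_primrec.comp
    (Primrec.nat_sub.comp Primrec.id (Primrec.const 1)))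

theorem to_tz {ε : Fin 3 → A} (hε : Function.Injective ε) {z : A} (hz : ∀ c, ε c ≠ z)
    {x : ℕ → A} (hx : Fr 2 x) (N : ℕ) :
    ∃ (y : ℕ → A) (n : ℕ), Fr 2 y ∧ (∀ i < N, y i = x i) ∧ ∀ i, y (n + i) = tz ε z i := by
  rcases launch le_rfl hx (tz_fr hε hz) (tz_prefix hz) N with ⟨n, hn, hf⟩ | ⟨m, hm⟩
  · exact ⟨Splice x n (tz ε z), n, hf, fun i hi => splice_lt (by omega), fun i => splice_add⟩
  · exact ⟨x, m, hx, fun i _ => rfl, hm⟩

theorem transition_four {k : ℕ} {ε : Fin 3 → Fin k} (hε : Function.Injective ε) {z : Fin k}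
    (hz : ∀ c, ε c ≠ z) {u v : List (Fin k)} (hu : RExt 2 u) (hv : LExt 2 v) :
    ∃ w, PF 2 (u ++ w ++ v) := by
  have h2 : (0 : ℚ) < 2 := by norm_num
  rw [lExt_iff h2] at hv
  obtain ⟨x1, hx1, hu1⟩ := hu.exists_infinite h2
  obtain ⟨x2, hx2, hv2⟩ := hv.exists_infinite h2
  obtain ⟨y1, n1, hy1, he1, ht1⟩ := to_tz hε hz hx1 u.length
  obtain ⟨y2, n2, hy2, he2, ht2⟩ := to_tz hε hz hx2 v.length
  obtain ⟨l, hl, hmir⟩ := exists_mirror (2 * (n1 + n2) + u.length + v.length + 4)
  set N : ℕ := n1 + 1 + l + 1 + n2 with hN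
  set Z : ℕ → Fin k := fun i => if i < n1 + 1 + l then y1 i else y2 (N - 1 - i) with hZ
  have hZ1 : ∀ i, i < n1 + 1 + l → Z i = y1 i := by
    intro i hi
    simp only [hZ]
    rw [if_pos hi]
  have hZ2 : ∀ i, n1 + 1 ≤ i → i < N → Z i = y2 (N - 1 - i) := by
    intro i hi hi'
    by_cases hc : i < n1 + 1 + l
    · rw [hZ1 i hc]
      have a1 : y1 i = ε (T (i - n1 - 1)) := by
        rw [show i = n1 + (i - n1 - 1 + 1) by omega, ht1, tz_succ]
        congr 2
        omega
      have a2 : y2 (N - 1 - i) = ε (T (l - 1 - (i - n1 - 1))) := by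
        rw [show N - 1 - i = n2 + (l - 1 - (i - n1 - 1) + 1) by omega, ht2, tz_succ]
      rw [a1, a2, hmir _ (by omega)]
    · simp only [hZ]
      rw [if_neg hc]
  have hz1 : Z n1 = z := by
    rw [hZ1 _ (by omega)]
    have := ht1 0
    rwa [tz_zero, add_zero] at this
  have hzfree : ∀ i, n1 + 1 ≤ i → i < n1 + 1 + l → Z i ≠ z := by
    intro i h3 h4
    rw [hZ1 i h4, show i = n1 + (i - n1 - 1 + 1) by omega, ht1, tz_succ]
    exact hz _
  have hZfree : ∀ i L p, i + L ≤ N → 1 ≤ p → Run Z i L p → (L : ℚ) < 2 * p := by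
    intro i L p hiL hp hrun
    by_contra hc
    push Not at hc
    have hc' : 2 * p ≤ L := by exact_mod_cast hc
    by_cases hcase : i + 2 * p ≤ n1 + 1 + l
    · have hr : Run y1 i (2 * p) p := by
        intro j hj
        have := hrun j (by omega)
        rw [hZ1 _ (by omega), hZ1 _ (by omega)] at this
        exact this
      have := hy1 _ _ _ hp hr
      push_cast at this
      exact lt_irrefl _ this
    · push Not at hcase
      by_cases hcase2 : n1 + 1 ≤ i
      · have hr : Run y2 (N - i - 2 * p) (2 * p) p := by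
          intro j hj
          have := hrun (2 * p - 1 - j - p) (by omega)
          rw [hZ2 _ (by omega) (by omega), hZ2 _ (by omega) (by omega)] at this
          rw [show N - 1 - (i + (2 * p - 1 - j - p)) = N - i - 2 * p + j + p by omega,
            show N - 1 - (i + (2 * p - 1 - j - p) + p) = N - i - 2 * p + j by omega] at this
          exact this.symm
        have := hy2 _ _ _ hp hr
        push_cast at this
        exact lt_irrefl _ this
      · push Not at hcase2
        have := hrun (n1 - i) (by omega)
        rw [show i + (n1 - i) = n1 by omega, hz1] at this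
        exact hzfree (n1 + p) (by omega) (by omega) this.symm
  have hpf : PF 2 ((List.range N).map Z) := (pf_map h2).mpr hZfree
  refine ⟨(((List.range N).map Z).take (N - v.length)).drop u.length, ?_⟩
  convert hpf using 1
  apply List.ext_getElem?
  intro i
  have hlw : ((((List.range N).map Z).take (N - v.length)).drop u.length).length =
      N - v.length - u.length := by
    simp
  have hgen : ∀ i < N, ((List.range N).map Z)[i]? = some (Z i) := by
    intro i hi
    simp [hi]
  by_cases h1 : i < u.length
  · rw [List.append_assoc, List.getElem?_append_left h1, hgen i (by omega), hu1 i h1,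
      hZ1 i (by omega), he1 i h1]
  · by_cases h2 : i < N - v.length
    · rw [List.append_assoc, List.getElem?_append_right (by omega),
        List.getElem?_append_left (by rw [hlw]; omega), List.getElem?_drop, List.getElem?_take]
      rw [show u.length + (i - u.length) = i by omega, if_pos h2]
    · rw [List.getElem?_append_right (by rw [List.length_append, hlw]; omega)]
      rw [List.length_append, hlw]
      rw [show i - (u.length + (N - v.length - u.length)) = i - (N - v.length) by omega]
      by_cases h3 : i < N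
      · rw [hgen i h3]
        have h4 := hv2 (N - 1 - i) (by rw [List.length_reverse]; omega)
        rw [List.getElem?_reverse (by omega)] at h4
        rw [show v.length - 1 - (N - 1 - i) = i - (N - v.length) by omega] at h4
        rw [h4, ← he2 (N - 1 - i) (by omega), ← hZ2 i (by omega) h3]
      · rw [List.getElem?_eq_none (by omega), List.getElem?_eq_none (by simp; omega)]

end Pool.Agent.R200.Pt
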