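import Mathlib
import Pool.Agent.R200.PtTwo

/-!
# Decidability and transitions for all exponents in the range
-/

namespace Pool.Agent.R200.Pt

open Pool.Agent.R200.Pf (tm)

theorem two_emb {k : ℕ} (hk : 2 ≤ k) : ∃ ι : Bool → Fin k, Function.Injective ι := by
  refine ⟨fun b => if b then ⟨1, by omega⟩ else ⟨0, by omega⟩, ?_⟩
  intro a b
  cases a <;> cases b <;> simp

theorem launcher_primrec_two {k : ℕ} (ι : Bool → Fin k) : Primrec (fun n => ι (t2 n)) :=
  (Primrec.dom_bool ι).comp t2_primrec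

theorem launcher_primrec_three {k : ℕ} (ι : Bool → Fin k) (z : Fin k) :
    Primrec (fun n => if n = 0 then z else ι (tm (n - 1))) := by
  apply Primrec.ite (Primrec.eq.comp Primrec.id (Primrec.const 0)) (Primrec.const z)
  exact (Primrec.dom_bool ι).comp (tm_primrec.comp
    (Primrec.nat_sub.comp Primrec.id (Primrec.const 1)))

theorem three_emb {k : ℕ} (hk : 3 ≤ k) :
    ∃ (ι : Bool → Fin k) (z : Fin k), Function.Injective ι ∧ ∀ b, ι b ≠ z := by
  refine ⟨fun b => if b then ⟨1, by omega⟩ else ⟨0, by omega⟩, ⟨2, by omega⟩, ?_, ?_⟩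
  · intro a b
    cases a <;> cases b <;> simp
  · intro b
    cases b <;> simp

theorem four_emb {k : ℕ} (hk : 4 ≤ k) :
    ∃ (ε : Fin 3 → Fin k) (z : Fin k), Function.Injective ε ∧ ∀ c, ε c ≠ z := by
  refine ⟨fun c => ⟨c.1, by omega⟩, ⟨3, by omega⟩, ?_, ?_⟩
  · intro a b h
    simp only [Fin.mk.injEq] at h
    exact Fin.ext h
  · intro c h
    simp only [Fin.mk.injEq] at h
    omega

/-- Right extendability is decidable. -/
theorem main_rExt {k : ℕ} {α : ℚ} (h : (2 ≤ k ∧ 7 / 3 < α) ∨ (3 ≤ k ∧ 2 ≤ α)) :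
    ComputablePred (fun u : List (Fin k) => RExt α u) := by
  rcases h with ⟨hk, hα⟩ | ⟨hk, hα⟩
  · obtain ⟨ι, hι⟩ := two_emb hk
    have hl := launcher_two hα hι
    exact rExt_computable (by linarith) hl.fr hl.pre (launcher_primrec_two ι)
  · rcases hα.lt_or_eq with hα' | rfl
    · obtain ⟨ι, z, hι, hz⟩ := three_emb hk
      have hl := launcher_three hα' hι hz
      exact rExt_computable hα hl.fr hl.pre (launcher_primrec_three ι z)
    · rcases hk.lt_or_eq with hk' | rfl
      · obtain ⟨ε, z, hε, hz⟩ := four_emb hk'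
        exact rExt_computable le_rfl (tz_fr hε hz) (tz_prefix hz) (tz_primrec ε z)
      · exact rExt_computable_of_cert (by norm_num) tq_primrec (fun u => rExt_iff_cert_two)

/-- Left extendability is decidable. -/
theorem main_lExt {k : ℕ} {α : ℚ} (h : (2 ≤ k ∧ 7 / 3 < α) ∨ (3 ≤ k ∧ 2 ≤ α)) :
    ComputablePred (fun u : List (Fin k) => LExt α u) := by
  apply lExt_computable _ (main_rExt h)
  rcases h with ⟨_, hα⟩ | ⟨_, hα⟩ <;> linarith

/-- The transition property. -/
theorem main_transition {k : ℕ} {α : ℚ} (h : (2 ≤ k ∧ 7 / 3 < α) ∨ (3 ≤ k ∧ 2 ≤ α))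
    (u v : List (Fin k)) (hu : RExt α u) (hv : LExt α v) : ∃ w, PF α (u ++ w ++ v) := by
  rcases h with ⟨hk, hα⟩ | ⟨hk, hα⟩
  · obtain ⟨ι, hι⟩ := two_emb hk
    exact transition (by linarith) (launcher_two hα hι) hu hv
  · rcases hα.lt_or_eq with hα' | rfl
    · obtain ⟨ι, z, hι, hz⟩ := three_emb hk
      exact transition hα' (launcher_three hα' hι hz) hu hv
    · rcases hk.lt_or_eq with hk' | rfl
      · obtain ⟨ε, z, hε, hz⟩ := four_emb hk'
        exact transition_four hε hz hu hv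
      · exact transition_three_two hu hv

/-- The transition problem is decidable. -/
theorem main_transition_computable {k : ℕ} {α : ℚ}
    (h : (2 ≤ k ∧ 7 / 3 < α) ∨ (3 ≤ k ∧ 2 ≤ α)) :
    ComputablePred (fun q : List (Fin k) × List (Fin k) => ∃ w, PF α (q.1 ++ w ++ q.2)) := by
  apply transition_computable _ (main_transition h)
  rcases h with ⟨_, hα⟩ | ⟨_, hα⟩ <;> linarith

end Pool.Agent.R200.Pt
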