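import Mathlib
import Pool.Agent.R200.PtCut
import Pool.Agent.R200.PtLaunch

/-!
# Bi-infinite words with launching tails on both sides
-/

namespace Pool.Agent.R200.Pt

open Pool.Agent.R200.Pf (Per tm)

variable {A : Type*}

/-- The bi-infinite word `x` is `α`-power-free. -/
def FrZ (α : ℚ) (x : ℤ → A) : Prop :=
  ∀ (p : ℕ) (a b : ℤ), 1 ≤ p → Per x p a b → ((b - a : ℤ) : ℚ) < α * p

/-- The word `s` reversed up to `m`, then `x` on `[m,n)`, then `t`. -/
def ZW (s : ℕ → A) (m : ℤ) (x : ℤ → A) (n : ℤ) (t : ℕ → A) : ℤ → A :=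
  fun i => if i < m then s (m - 1 - i).toNat else if i < n then x i else t (i - n).toNat

theorem zw_left {s t : ℕ → A} {m n : ℤ} {x : ℤ → A} {i : ℤ} (h : i < m) :
    ZW s m x n t i = s (m - 1 - i).toNat := by simp [ZW, h]

theorem zw_mid {s t : ℕ → A} {m n : ℤ} {x : ℤ → A} {i : ℤ} (h : m ≤ i) (h' : i < n) :
    ZW s m x n t i = x i := by simp [ZW, not_lt.mpr h, h']

theorem zw_right {s t : ℕ → A} {m n : ℤ} {x : ℤ → A} {i : ℤ} (hmn : m ≤ n) (h : n ≤ i) :
    ZW s m x n t i = t (i - n).toNat := by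
  simp [ZW, not_lt.mpr h, not_lt.mpr (hmn.trans h)]

theorem run_t {s t : ℕ → A} {m n : ℤ} {x : ℤ → A} (hmn : m ≤ n) {p : ℕ} {a b : ℤ}
    (h : Per (ZW s m x n t) p a b) (ha : a ≤ n) : Run t 0 (b - n).toNat p := by
  intro j hj
  have := h (n + j) (by omega) (by omega)
  rw [zw_right hmn (by omega), zw_right hmn (by omega)] at this
  rw [show (n + j - n : ℤ).toNat = 0 + j by omega,
    show (n + j + p - n : ℤ).toNat = 0 + j + p by omega] at this
  exact this

theorem run_s {s t : ℕ → A} {m n : ℤ} {x : ℤ → A} {p : ℕ} {a b : ℤ}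
    (h : Per (ZW s m x n t) p a b) (hb : m ≤ b) (hp : 1 ≤ p) : Run s 0 (m - a).toNat p := by
  intro j hj
  have := h (m - 1 - j - p) (by omega) (by omega)
  rw [zw_left (by omega), zw_left (by omega)] at this
  rw [show (m - 1 - (m - 1 - j - p) : ℤ).toNat = 0 + j + p by omega,
    show (m - 1 - (m - 1 - j - p + p) : ℤ).toNat = 0 + j by omega] at this
  exact this.symm

theorem run_t' {s t : ℕ → A} {m n : ℤ} {x : ℤ → A} (hmn : m ≤ n) {p : ℕ} {a b : ℤ}
    (h : Per (ZW s m x n t) p a b) (ha : n ≤ a) : Run t (a - n).toNat (b - a).toNat p := by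
  intro j hj
  have := h (a + j) (by omega) (by omega)
  rw [zw_right hmn (by omega), zw_right hmn (by omega)] at this
  rw [show (a + j - n : ℤ).toNat = (a - n).toNat + j by omega,
    show (a + j + p - n : ℤ).toNat = (a - n).toNat + j + p by omega] at this
  exact this

theorem run_s' {s t : ℕ → A} {m n : ℤ} {x : ℤ → A} {p : ℕ} {a b : ℤ}
    (h : Per (ZW s m x n t) p a b) (hb : b ≤ m) : Run s (m - b).toNat (b - a).toNat p := by
  intro j hj
  have := h (b - 1 - j - p) (by omega) (by omega)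
  rw [zw_left (by omega), zw_left (by omega)] at this
  rw [show (m - 1 - (b - 1 - j - p) : ℤ).toNat = (m - b).toNat + j + p by omega,
    show (m - 1 - (b - 1 - j - p + p) : ℤ).toNat = (m - b).toNat + j by omega] at this
  exact this.symm

theorem cast_toNat {z : ℤ} (h : 0 ≤ z) : ((z.toNat : ℕ) : ℚ) = (z : ℚ) := by
  have : ((z.toNat : ℕ) : ℤ) = z := Int.toNat_of_nonneg h
  exact_mod_cast congrArg (fun w : ℤ => (w : ℚ)) this

/-- The word with both tails replaced is power-free. -/
theorem zw_free {α : ℚ} (hα : 0 < α) {s t : ℕ → A} {x : ℤ → A} {m n : ℤ} {j0 : ℕ} (hmn : m ≤ n)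
    (hmid : ∀ (p : ℕ) (a b : ℤ), m ≤ a → b ≤ n → 1 ≤ p → Per x p a b →
      ((b - a : ℤ) : ℚ) < α * p)
    (ht : Fr α t) (hs : Fr α s)
    (H1t : ∀ p b, 1 ≤ p → Run t 0 b p → (b : ℚ) < (α - 4) * p + 1)
    (H1s : ∀ p b, 1 ≤ p → Run s 0 b p → (b : ℚ) < (α - 4) * p + 1)
    (H2 : ∀ p b b', 2 ^ j0 ≤ p → Run t 0 b p → Run s 0 b' p → (b : ℚ) + b' ≤ (α - 3) * p)
    (hbig : α * 2 ^ j0 ≤ ((n - m : ℤ) : ℚ))
    (R1 : ∀ p : ℤ, 1 ≤ p → m ≤ n - 4 * p → Per x p (n - 4 * p) n → x n = x (n - p))
    (R2 : ∀ p : ℤ, 2 ^ j0 ≤ p → m ≤ n - 3 * p → Per x p (n - 3 * p) n → x n = x (n - p))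
    (L1 : ∀ p : ℤ, 1 ≤ p → m + 4 * p ≤ n → Per x p m (m + 4 * p) → x (m - 1) = x (m - 1 + p))
    (ht0 : t 0 ≠ x n) (hs0 : s 0 ≠ x (m - 1)) : FrZ α (ZW s m x n t) := by
  intro p a b hp hper
  by_contra hc
  push Not at hc
  have hp' : (1 : ℚ) ≤ p := by exact_mod_cast hp
  have hpos : (0 : ℚ) < ((b - a : ℤ) : ℚ) := by
    have : 0 < α * p := by positivity
    linarith
  have hab : a < b := by
    have : (0 : ℤ) < b - a := by exact_mod_cast hpos
    omega
  by_cases hbm : b ≤ m
  · have h1 := hs _ _ _ hp (run_s' hper hbm)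
    rw [cast_toNat (by omega)] at h1
    exact absurd h1 (not_lt.mpr hc)
  by_cases han : n ≤ a
  · have h1 := ht _ _ _ hp (run_t' hmn hper han)
    rw [cast_toNat (by omega)] at h1
    exact absurd h1 (not_lt.mpr hc)
  push Not at hbm han
  have hper' : ∀ a' b', a ≤ a' → b' ≤ b → m ≤ a' → b' ≤ n → Per x p a' b' := by
    intro a' b' h1 h2 h3 h4 j h5 h6
    have := hper j (by omega) (by omega)
    rw [zw_mid (by omega) (by omega), zw_mid (by omega) (by omega)] at this
    exact this
  by_cases ham : m ≤ a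
  · by_cases hbn : b ≤ n
    · exact absurd (hmid p a b ham hbn hp (hper' a b le_rfl le_rfl ham hbn)) (not_lt.mpr hc)
    · -- only the right cut is crossed
      push Not at hbn
      have h1 := H1t p _ hp (run_t hmn hper han.le)
      rw [cast_toNat (by omega)] at h1
      have h2 : ((4 * p - 1 : ℤ) : ℚ) < ((n - a : ℤ) : ℚ) := by
        push_cast at h1 hc ⊢
        linarith
      have h3 : 4 * (p : ℤ) ≤ n - a := by
        have : (4 * p - 1 : ℤ) < n - a := by exact_mod_cast h2
        omega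
      have h4 := R1 p (by omega) (by omega) (hper' _ _ (by omega) (by omega) (by omega) le_rfl)
      have h5 := hper (n - p) (by omega) (by omega)
      rw [zw_mid (by omega) (by omega), sub_add_cancel, zw_right hmn le_rfl, sub_self] at h5
      apply ht0
      rw [h4, h5]
      rfl
  · push Not at ham
    by_cases hbn : b ≤ n
    · -- only the left cut is crossed
      have h1 := H1s p _ hp (run_s hper hbm.le hp)
      rw [cast_toNat (by omega)] at h1
      have h2 : ((4 * p - 1 : ℤ) : ℚ) < ((b - m : ℤ) : ℚ) := by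
        push_cast at h1 hc ⊢
        linarith
      have h3 : 4 * (p : ℤ) ≤ b - m := by
        have : (4 * p - 1 : ℤ) < b - m := by exact_mod_cast h2
        omega
      have h4 := L1 p (by omega) (by omega) (hper' _ _ (by omega) (by omega) le_rfl (by omega))
      have h5 := hper (m - 1) (by omega) (by omega)
      rw [zw_left (by omega), zw_mid (by omega) (by omega), sub_self] at h5
      apply hs0
      rw [h4, ← h5]
      rfl
    · -- both cuts are crossed
      push Not at hbn
      have h0 := hmid p m n le_rfl le_rfl hp (hper' m n (by omega) (by omega) le_rfl le_rfl)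
      have hpj : 2 ^ j0 < p := by
        have h1 : α * 2 ^ j0 < α * p := lt_of_le_of_lt hbig h0
        have h2 : (2 : ℚ) ^ j0 < p := lt_of_mul_lt_mul_left h1 hα.le
        exact_mod_cast h2
      have h1 := H2 p _ _ hpj.le (run_t hmn hper han.le) (run_s hper hbm.le hp)
      rw [cast_toNat (by omega), cast_toNat (by omega)] at h1
      have h2 : ((3 * p : ℤ) : ℚ) ≤ ((n - m : ℤ) : ℚ) := by
        push_cast at h1 hc ⊢
        linarith
      have h3 : 3 * (p : ℤ) ≤ n - m := by exact_mod_cast h2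
      have h4 := R2 p (by exact_mod_cast hpj.le) (by omega)
        (hper' _ _ (by omega) (by omega) (by omega) le_rfl)
      have h5 := hper (n - p) (by omega) (by omega)
      rw [zw_mid (by omega) (by omega), sub_add_cancel, zw_right hmn le_rfl, sub_self] at h5
      apply ht0
      rw [h4, h5]
      rfl

/-- Finite certificates for the power-freeness of a word with two tails. -/
theorem zw_cert {α : ℚ} (hα : 5 ≤ α) {s t : ℕ → A} {x : ℤ → A} {n : ℕ}
    (ht : Fr α t) (hs : Fr α s)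
    (H0t : ∀ p b, 1 ≤ p → Run t 0 b p → 3 * b ≤ 7 * p)
    (H0s : ∀ p b, 1 ≤ p → Run s 0 b p → 3 * b ≤ 7 * p)
    (hfin : ∀ (p : ℕ) (a b : ℤ), -(8 * (n + 1) : ℤ) ≤ a → b ≤ n + 8 * (n + 1) → 1 ≤ p →
      Per (ZW s 0 x n t) p a b → ((b - a : ℤ) : ℚ) < α * p) : FrZ α (ZW s 0 x n t) := by
  intro p a b hp hper
  by_contra hc
  push Not at hc
  have hp' : (1 : ℚ) ≤ p := by exact_mod_cast hp
  have hmn : (0 : ℤ) ≤ n := by omega
  have hpos : (0 : ℚ) < ((b - a : ℤ) : ℚ) := by
    have : 0 < α * p := by positivity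
    linarith
  have hab : a < b := by
    have : (0 : ℤ) < b - a := by exact_mod_cast hpos
    omega
  have hc5 : 5 * (p : ℤ) ≤ b - a := by
    have h1 : 5 * (p : ℚ) ≤ α * p := mul_le_mul_of_nonneg_right hα (by positivity)
    have h2 : 5 * (p : ℚ) ≤ ((b - a : ℤ) : ℚ) := le_trans h1 hc
    exact_mod_cast h2
  by_cases hbm : b ≤ 0
  · have h1 := hs _ _ _ hp (run_s' hper hbm)
    rw [cast_toNat (by omega)] at h1
    exact absurd h1 (not_lt.mpr hc)
  by_cases han : (n : ℤ) ≤ a
  · have h1 := ht _ _ _ hp (run_t' hmn hper han)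
    rw [cast_toNat (by omega)] at h1
    exact absurd h1 (not_lt.mpr hc)
  push Not at hbm han
  have hin : -(8 * (n + 1) : ℤ) ≤ a ∧ b ≤ n + 8 * (n + 1) := by
    by_cases hbn : b ≤ n
    · by_cases ham : 0 ≤ a
      · constructor <;> omega
      · have h1 := H0s p _ hp (run_s hper hbm.le hp)
        omega
    · by_cases ham : 0 ≤ a
      · have h1 := H0t p _ hp (run_t hmn hper han.le)
        omega
      · have h1 := H0s p _ hp (run_s hper hbm.le hp)
        have h2 := H0t p _ hp (run_t hmn hper han.le)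
        omega
  exact absurd (hfin p a b hin.1 hin.2 hp hper) (not_lt.mpr hc)

end Pool.Agent.R200.Pt
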