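import Mathlib
import Pool.Agent.R200.PtZW
import Pool.Agent.R200.PtDec

/-!
# Two-sided extendability
-/

namespace Pool.Agent.R200.Pt

open Pool.Agent.R200.Pf (Per tm)
open Filter Topology

variable {A : Type*}

/-- Two-sided extendable words. -/
def DExt (α : ℚ) (u : List A) : Prop :=
  Set.Infinite {x : List A | (∃ v y : List A, x = v ++ u ++ y ∧ v.length = y.length) ∧ PF α x}

/-- A block of a bi-infinite word. -/
def seg (Z : ℤ → A) (a : ℤ) (L : ℕ) : List A := (List.range L).map (fun j : ℕ => Z (a + (j : ℤ)))

theorem seg_length (Z : ℤ → A) (a : ℤ) (L : ℕ) : (seg Z a L).length = L := by simp [seg]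

theorem seg_get {Z : ℤ → A} {a : ℤ} {L i : ℕ} (h : i < L) : (seg Z a L)[i]? = some (Z (a + i)) := by
  simp [seg, h]

theorem seg_append (Z : ℤ → A) (a : ℤ) (L M : ℕ) :
    seg Z a (L + M) = seg Z a L ++ seg Z (a + L) M := by
  apply List.ext_getElem?
  intro i
  by_cases h : i < L
  · rw [List.getElem?_append_left (by rw [seg_length]; exact h), seg_get h, seg_get (by omega)]
  · rw [List.getElem?_append_right (by rw [seg_length]; omega), seg_length]
    by_cases h2 : i < L + M
    · rw [seg_get h2, seg_get (by omega)]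
      congr 2
      omega
    · rw [List.getElem?_eq_none (by rw [seg_length]; omega),
        List.getElem?_eq_none (by rw [seg_length]; omega)]

theorem pf_seg {α : ℚ} (hα : 0 < α) {Z : ℤ → A} {a : ℤ} {L : ℕ} :
    PF α (seg Z a L) ↔ ∀ (p : ℕ) (a' b' : ℤ), a ≤ a' → b' ≤ a + L → 1 ≤ p →
      Per Z p a' b' → ((b' - a' : ℤ) : ℚ) < α * p := by
  unfold seg
  rw [pf_map hα]
  constructor
  · intro h p a' b' h1 h2 hp hper
    have hp' : (1 : ℚ) ≤ p := by exact_mod_cast hp
    by_cases hab : a' ≤ b'
    · have := h (a' - a).toNat (b' - a').toNat p (by omega) hp ?_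
      · rwa [cast_toNat (by omega)] at this
      · intro j hj
        have := hper (a' + j) (by omega) (by omega)
        show Z (a + (((a' - a).toNat + j : ℕ) : ℤ)) = Z (a + (((a' - a).toNat + j + p : ℕ) : ℤ))
        rw [show a + (((a' - a).toNat + j : ℕ) : ℤ) = a' + j by push_cast; omega,
          show a + (((a' - a).toNat + j + p : ℕ) : ℤ) = a' + j + p by push_cast; omega]
        exact this
    · have h3 : ((b' - a' : ℤ) : ℚ) < 0 := by
        have : b' - a' < 0 := by omega
        exact_mod_cast this
      have : 0 < α * p := by positivity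
      linarith
  · intro h i L' p hi hp hr
    have := h p (a + i) (a + i + L') (by omega) (by omega) hp ?_
    · rw [show a + (i : ℤ) + L' - (a + i) = L' by ring] at this
      exact_mod_cast this
    · intro j h1 h2
      obtain ⟨j', hj'⟩ : ∃ j' : ℕ, j = a + i + j' := ⟨(j - (a + i)).toNat, by omega⟩
      subst hj'
      have := hr j' (by omega)
      simp only at this
      push_cast at this
      rw [show a + (i : ℤ) + j' = a + (i + j') by ring, this]
      congr 1
      ring

theorem FrZ.pf {α : ℚ} (hα : 0 < α) {Z : ℤ → A} (h : FrZ α Z) (a : ℤ) (L : ℕ) :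
    PF α (seg Z a L) := (pf_seg hα).mpr (fun p a' b' _ _ hp hper => h p a' b' hp hper)

theorem dExt_of_frZ {α : ℚ} (hα : 0 < α) {u : List A} {Z : ℤ → A} (hZ : FrZ α Z) {i : ℤ}
    (hu : seg Z i u.length = u) : DExt α u := by
  apply Set.infinite_of_injective_forall_mem
    (f := fun N : ℕ => seg Z (i - N) (N + u.length + N))
  · intro N M h
    have := congrArg List.length h
    simp only [seg_length] at this
    omega
  · intro N
    refine ⟨⟨seg Z (i - N) N, seg Z (i + u.length) N, ?_, by rw [seg_length, seg_length]⟩,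
      hZ.pf hα _ _⟩
    rw [seg_append, seg_append]
    congr 1
    · congr 1
      rw [show i - (N : ℤ) + N = i by ring, hu]
    · congr 1
      push_cast
      ring

theorem DExt.exists_long [Finite A] {α : ℚ} {u : List A} (h : DExt α u) (N : ℕ) :
    ∃ v y : List A, N ≤ v.length ∧ v.length = y.length ∧ PF α (v ++ u ++ y) := by
  by_contra hc
  push Not at hc
  apply h
  have hfin : {x : List A | x.length ≤ u.length + 2 * N}.Finite := by
    have := List.finite_length_le A (u.length + 2 * N)
    exact this
  apply hfin.subset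
  rintro x ⟨⟨v, y, rfl, hvy⟩, hpf⟩
  simp only [Set.mem_ofPred_eq, List.length_append]
  by_contra hlen
  push Not at hlen
  exact hc v y (by omega) hvy hpf

theorem DExt.exists_bi {k : ℕ} {α : ℚ} (hα : 0 < α) {u : List (Fin k)} (h : DExt α u) :
    ∃ x : ℤ → Fin k, FrZ α x ∧ seg x 0 u.length = u := by
  choose v y hv hvy hpf using h.exists_long
  have hne : Nonempty (Fin k) := by
    have h1 := hv 1
    cases hc : v 1 with
    | nil => rw [hc] at h1; simp at h1
    | cons c _ => exact ⟨c⟩
  let d : Fin k := hne.some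
  let W : ℕ → List (Fin k) := fun N => v N ++ u ++ y N
  let f : ℕ → ℤ → Fin k := fun N i => (W N).getD (i + (v N).length).toNat d
  have hWlen : ∀ N, (W N).length = (v N).length + u.length + (v N).length := by
    intro N
    simp only [W, List.length_append, ← hvy N]
  have hseg : ∀ N, seg (f N) (-(v N).length) (W N).length = W N := by
    intro N
    apply List.ext_getElem?
    intro i
    by_cases hi : i < (W N).length
    · rw [seg_get hi]
      simp only [f]
      rw [show (-((v N).length : ℤ) + i + (v N).length).toNat = i by omega]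
      rw [List.getElem?_eq_getElem hi, List.getD_eq_getElem _ _ hi]
    · rw [List.getElem?_eq_none (by rw [seg_length]; omega), List.getElem?_eq_none (by omega)]
  obtain ⟨x, φ, hφ, hlim⟩ := SeqCompactSpace.tendsto_subseq f
  have hev : ∀ i : ℤ, ∀ᶠ n in atTop, f (φ n) i = x i := by
    intro i
    have h1 := (tendsto_pi_nhds.mp hlim) i
    rw [nhds_discrete, tendsto_pure] at h1
    exact h1
  have hevw : ∀ M : ℕ, ∀ᶠ n in atTop, ∀ i : ℤ, -(M : ℤ) ≤ i → i < M → f (φ n) i = x i := by
    intro M
    have h1 : ∀ᶠ n in atTop, ∀ i ∈ Finset.Ico (-(M : ℤ)) M, f (φ n) i = x i := by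
      rw [Finset.eventually_all]
      exact fun i _ => hev i
    filter_upwards [h1] with n hn i h2 h3
    exact hn i (Finset.mem_Ico.mpr ⟨h2, h3⟩)
  refine ⟨x, ?_, ?_⟩
  · intro p a b hp hper
    set M : ℕ := a.natAbs + b.natAbs + 1 with hM
    obtain ⟨n, hn, hnM⟩ := ((hevw M).and (eventually_ge_atTop M)).exists
    have hvn : M ≤ (v (φ n)).length := le_trans hnM (le_trans (hφ.id_le n) (hv _))
    have h1 := (pf_seg (Z := f (φ n)) hα (a := -(v (φ n)).length) (L := (W (φ n)).length)).mp
      (by rw [hseg]; exact hpf _)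
    apply h1 p a b (by omega) (by rw [hWlen]; push_cast; omega) hp
    intro j h2 h3
    rw [hn j (by omega) (by omega), hn (j + p) (by omega) (by omega)]
    exact hper j h2 h3
  · obtain ⟨n, hn⟩ := (hevw (u.length + 1)).exists
    apply List.ext_getElem?
    intro i
    by_cases hi : i < u.length
    · rw [seg_get hi, zero_add, ← hn i (by omega) (by push_cast; omega)]
      simp only [f]
      rw [show ((i : ℤ) + (v (φ n)).length).toNat = (v (φ n)).length + i by omega]
      have h1 : (v (φ n)).length + i < (W (φ n)).length := by rw [hWlen]; omega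
      rw [List.getD_eq_getElem _ _ h1, ← List.getElem?_eq_getElem h1]
      exact getElem?_mid _ _ _ hi
    · rw [List.getElem?_eq_none (by rw [seg_length]; omega), List.getElem?_eq_none (by omega)]

variable {k : ℕ}

/-- A family of launching words, one for each letter to be avoided at the start. -/
structure Fam (α : ℚ) (F : Fin k → ℕ → Fin k) : Prop where
  start : ∀ g, F g 0 ≠ g
  fr : ∀ g, Fr α (F g)
  b0 : ∀ g p b, 1 ≤ p → Run (F g) 0 b p → 3 * b ≤ 7 * p
  b1 : ∀ g p b, 1 ≤ p → Run (F g) 0 b p → (b : ℚ) < (α - 4) * p + 1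
  b2 : ∃ j0, 4 ≤ j0 ∧ ∀ g g' p b b', 2 ^ j0 ≤ p → Run (F g) 0 b p → Run (F g') 0 b' p →
    (b : ℚ) + b' ≤ (α - 3) * p

theorem seg_zw (s t : ℕ → Fin k) (x : ℤ → Fin k) (m : ℤ) (l M : ℕ) :
    seg (ZW s m x (m + l) t) (m - M) (M + l + M) =
      (pre s M).reverse ++ seg x m l ++ pre t M := by
  rw [seg_append, seg_append]
  congr 1
  · congr 1
    · apply List.ext_getElem?
      intro i
      by_cases hi : i < M
      · rw [seg_get hi, zw_left (by omega), List.getElem?_reverse (by rw [pre_length]; exact hi),
          pre_length, pre_get (by omega)]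
        congr 2
        omega
      · rw [List.getElem?_eq_none (by rw [seg_length]; omega),
          List.getElem?_eq_none (by rw [List.length_reverse, pre_length]; omega)]
    · apply List.ext_getElem?
      intro i
      by_cases hi : i < l
      · rw [seg_get hi, seg_get hi, zw_mid (by omega) (by omega)]
        congr 2
        omega
      · rw [List.getElem?_eq_none (by rw [seg_length]; omega),
          List.getElem?_eq_none (by rw [seg_length]; omega)]
  · apply List.ext_getElem?
    intro i
    by_cases hi : i < M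
    · rw [seg_get hi, zw_right (by omega) (by push_cast; omega), pre_get hi]
      congr 2
      push_cast
      omega
    · rw [List.getElem?_eq_none (by rw [seg_length]; omega),
        List.getElem?_eq_none (by rw [pre_length]; omega)]

/-- The finite word checked by a certificate. -/
def certWord (F : Fin k → ℕ → Fin k) (w : List (Fin k)) (g g' : Fin k) : List (Fin k) :=
  (pre (F g') (8 * (w.length + 1))).reverse ++ w ++ pre (F g) (8 * (w.length + 1))

theorem dExt_iff_cert {α : ℚ} (hα : 5 ≤ α) {F : Fin k → ℕ → Fin k} (hF : Fam α F)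
    {u : List (Fin k)} :
    DExt α u ↔ ∃ (w : List (Fin k)) (g g' : Fin k),
      (∃ i < w.length + 1, i + u.length ≤ w.length ∧ u = (w.drop i).take u.length) ∧
        PF α (certWord F w g g') := by
  have hα0 : 0 < α := by linarith
  constructor
  · intro h
    obtain ⟨x, hx, hu⟩ := h.exists_bi hα0
    obtain ⟨j0, hj0, hb2⟩ := hF.b2
    obtain ⟨n, m, hn, hm, R1, R2, L1⟩ := exists_cuts x (u.length + ⌈α * 2 ^ j0⌉₊) j0 hj0
    have hZ : FrZ α (ZW (F (x (-m - 1))) (-(m : ℤ)) x n (F (x n))) := by
      apply zw_free hα0 (j0 := j0) (by omega) (fun p a b _ _ hp hper => hx p a b hp hper)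
        (hF.fr _) (hF.fr _) (hF.b1 _) (hF.b1 _) (fun p b b' => hb2 _ _ p b b') ?_ R1 R2 L1
        (hF.start _) (hF.start _)
      have h1 : α * 2 ^ j0 ≤ (⌈α * 2 ^ j0⌉₊ : ℚ) := Nat.le_ceil _
      have h2 : ((⌈α * 2 ^ j0⌉₊ : ℕ) : ℤ) ≤ n - -(m : ℤ) := by omega
      have h3 : ((⌈α * 2 ^ j0⌉₊ : ℕ) : ℚ) ≤ ((n - -(m : ℤ) : ℤ) : ℚ) := by exact_mod_cast h2
      linarith
    refine ⟨seg x (-m) (m + n), x n, x (-m - 1), ⟨m, by rw [seg_length]; omega,
      by rw [seg_length]; omega, ?_⟩, ?_⟩
    · conv_lhs => rw [← hu]
      apply List.ext_getElem?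
      intro i
      rw [List.getElem?_take, List.getElem?_drop]
      by_cases hi : i < u.length
      · rw [if_pos hi, seg_get hi, seg_get (by omega)]
        congr 2
        push_cast
        ring
      · rw [if_neg hi, List.getElem?_eq_none (by rw [seg_length]; omega)]
    · unfold certWord
      have := seg_zw (F (x (-m - 1))) (F (x n)) x (-m) (m + n) (8 * ((seg x (-m) (m + n)).length + 1))
      rw [← this]
      rw [show (-(m : ℤ) + ((m + n : ℕ) : ℤ)) = n by push_cast; ring]
      exact hZ.pf hα0 _ _
  · rintro ⟨w, g, g', ⟨i, hi, hiu, hw⟩, hpf⟩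
    set x : ℤ → Fin k := fun j => w.getD j.toNat g with hx
    have hseg : seg x 0 w.length = w := by
      apply List.ext_getElem?
      intro j
      by_cases hj : j < w.length
      · rw [seg_get hj]
        simp only [hx]
        rw [show ((0 : ℤ) + j).toNat = j by omega, List.getElem?_eq_getElem hj,
          List.getD_eq_getElem _ _ hj]
      · rw [List.getElem?_eq_none (by rw [seg_length]; omega), List.getElem?_eq_none (by omega)]
    have e := seg_zw (F g') (F g) x 0 w.length (8 * (w.length + 1))
    rw [hseg] at e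
    unfold certWord at hpf
    rw [← e, pf_seg hα0] at hpf
    rw [zero_add] at hpf e
    have hZ : FrZ α (ZW (F g') 0 x w.length (F g)) := by
      apply zw_cert hα (hF.fr _) (hF.fr _) (hF.b0 _) (hF.b0 _)
      intro p a b h1 h2 hp hper
      apply hpf p a b (by push_cast; omega) (by push_cast; omega) hp hper
    apply dExt_of_frZ hα0 hZ (i := i)
    conv_rhs => rw [hw]
    apply List.ext_getElem?
    intro j
    rw [List.getElem?_take, List.getElem?_drop]
    by_cases hj : j < u.length
    · rw [if_pos hj, seg_get hj, zw_mid (by omega) (by omega)]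
      simp only [hx]
      rw [show ((i : ℤ) + j).toNat = i + j by omega,
        List.getElem?_eq_getElem (by omega), List.getD_eq_getElem _ _ (by omega)]
    · rw [if_neg hj, List.getElem?_eq_none (by rw [seg_length]; omega)]

end Pool.Agent.R200.Pt
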