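import Mathlib
import Pool.Agent.R200.PtTwoSided

/-!
# Two-sided extendability is decidable
-/

namespace Pool.Agent.R200.Pt

open Pool.Agent.R200.Pf (tm)

variable {k : ℕ}

theorem fam_of_two {α : ℚ} (hα : 17 / 3 < α) {ι : Fin k → Bool → Fin k}
    (hι : ∀ g, Function.Injective (ι g)) (hs : ∀ g, ι g false ≠ g) :
    Fam α (fun g n => ι g (t2 n)) := by
  have hb : ∀ g p b, 1 ≤ p → Run (fun n => ι g (t2 n)) 0 b p → 3 * b ≤ 4 * p + 3 := by
    intro g p b hp h
    exact t2_prefix hp (fun j hj => hι g (h j hj))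
  refine ⟨?_, ?_, ?_, ?_, ?_⟩
  · intro g
    exact hs g
  · intro g
    exact (launcher_two (by linarith) (hι g)).fr
  · intro g p b hp h
    have := hb g p b hp h
    omega
  · intro g p b hp h
    have h1 := hb g p b hp h
    have h2 : 3 * (b : ℚ) ≤ 4 * p + 3 := by exact_mod_cast h1
    have hp' : (1 : ℚ) ≤ p := by exact_mod_cast hp
    have h3 : (17 / 3 : ℚ) * p < α * p := mul_lt_mul_of_pos_right hα (by linarith)
    linarith
  · refine ⟨4 + ⌈2 / (α - 17 / 3)⌉₊, by omega, ?_⟩
    intro g g' p b b' hp h h'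
    have hp1 : 1 ≤ p := le_trans Nat.one_le_two_pow hp
    have h1 := hb g p b hp1 h
    have h2 := hb g' p b' hp1 h'
    have h3 : 3 * (b : ℚ) ≤ 4 * p + 3 := by exact_mod_cast h1
    have h4 : 3 * (b' : ℚ) ≤ 4 * p + 3 := by exact_mod_cast h2
    have hpos : 0 < α - 17 / 3 := by linarith
    have h5 : 2 / (α - 17 / 3) ≤ p := by
      have e1 : 2 / (α - 17 / 3) ≤ (⌈2 / (α - 17 / 3)⌉₊ : ℚ) := Nat.le_ceil _
      have e2 : ⌈2 / (α - 17 / 3)⌉₊ ≤ p := by
        have : 4 + ⌈2 / (α - 17 / 3)⌉₊ < 2 ^ (4 + ⌈2 / (α - 17 / 3)⌉₊) := Nat.lt_two_pow_self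
        omega
      have e3 : ((⌈2 / (α - 17 / 3)⌉₊ : ℕ) : ℚ) ≤ p := by exact_mod_cast e2
      linarith
    rw [div_le_iff₀ hpos] at h5
    nlinarith

theorem fam_of_three {α : ℚ} (hα : 5 ≤ α) {ι : Fin k → Bool → Fin k} {z : Fin k → Fin k}
    (hι : ∀ g, Function.Injective (ι g)) (hz : ∀ g b, ι g b ≠ z g) (hs : ∀ g, z g ≠ g) :
    Fam α (fun g n => if n = 0 then z g else ι g (tm (n - 1))) := by
  have hb : ∀ g p b, 1 ≤ p →
      Run (fun n => if n = 0 then z g else ι g (tm (n - 1))) 0 b p → b ≤ p := by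
    intro g p b hp h
    by_contra hc
    push Not at hc
    have := h 0 (by omega)
    simp only [add_zero, if_true, zero_add] at this
    rw [if_neg (by omega)] at this
    exact hz g _ this.symm
  refine ⟨?_, ?_, ?_, ?_, ?_⟩
  · intro g
    simpa using hs g
  · intro g
    exact (launcher_three (by linarith) (hι g) (hz g)).fr
  · intro g p b hp h
    have := hb g p b hp h
    omega
  · intro g p b hp h
    have h1 := hb g p b hp h
    have h2 : (b : ℚ) ≤ p := by exact_mod_cast h1
    have hp' : (1 : ℚ) ≤ p := by exact_mod_cast hp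
    have h3 : (5 : ℚ) * p ≤ α * p := mul_le_mul_of_nonneg_right hα (by linarith)
    linarith
  · refine ⟨4, le_rfl, ?_⟩
    intro g g' p b b' hp h h'
    have hp1 : 1 ≤ p := le_trans Nat.one_le_two_pow hp
    have h1 : (b : ℚ) ≤ p := by exact_mod_cast hb g p b hp1 h
    have h2 : (b' : ℚ) ≤ p := by exact_mod_cast hb g' p b' hp1 h'
    have hp' : (1 : ℚ) ≤ p := by exact_mod_cast hp1
    have h3 : (5 : ℚ) * p ≤ α * p := mul_le_mul_of_nonneg_right hα (by linarith)
    linarith

theorem fam_two {α : ℚ} (hα : 17 / 3 < α) (hk : 2 ≤ k) :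
    ∃ F : Fin k → ℕ → Fin k, Fam α F ∧ Primrec₂ F := by
  let ι : Fin k → Bool → Fin k := fun g b =>
    if g.1 = 0 then (if b then ⟨0, by omega⟩ else ⟨1, by omega⟩)
    else (if b then ⟨1, by omega⟩ else ⟨0, by omega⟩)
  refine ⟨fun g n => ι g (t2 n), fam_of_two hα ?_ ?_, ?_⟩
  · intro g a b
    simp only [ι]
    cases a <;> cases b <;> by_cases h : g.1 = 0 <;> simp [h]
  · intro g
    simp only [ι]
    by_cases h : g.1 = 0
    · simp only [h, if_true, Bool.false_eq_true, if_false]
      intro h2
      rw [← h2] at h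
      simp at h
    · simp only [h, Bool.false_eq_true, if_false]
      intro h2
      rw [← h2] at h
      exact h rfl
  · have h1 : Primrec fun q : Fin k × Bool => ι q.1 q.2 := Primrec.dom_finite _
    exact (h1.comp (Primrec.pair Primrec.fst (t2_primrec.comp Primrec.snd))).to₂

theorem fam_three {α : ℚ} (hα : 5 ≤ α) (hk : 3 ≤ k) :
    ∃ F : Fin k → ℕ → Fin k, Fam α F ∧ Primrec₂ F := by
  let z : Fin k → Fin k := fun g => if g.1 = 0 then ⟨1, by omega⟩ else ⟨0, by omega⟩
  let ι : Fin k → Bool → Fin k := fun g b =>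
    if g.1 = 0 then (if b then ⟨2, by omega⟩ else ⟨0, by omega⟩)
    else (if b then ⟨2, by omega⟩ else ⟨1, by omega⟩)
  refine ⟨fun g n => if n = 0 then z g else ι g (tm (n - 1)), fam_of_three hα ?_ ?_ ?_, ?_⟩
  · intro g a b
    simp only [ι]
    cases a <;> cases b <;> by_cases h : g.1 = 0 <;> simp [h]
  · intro g b
    simp only [ι, z]
    cases b <;> by_cases h : g.1 = 0 <;> simp [h]
  · intro g
    simp only [z]
    by_cases h : g.1 = 0
    · simp only [h, if_true]
      intro h2
      rw [← h2] at h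
      simp at h
    · simp only [h, if_false]
      intro h2
      rw [← h2] at h
      exact h rfl
  · have h1 : Primrec fun q : Fin k × Bool => ι q.1 q.2 := Primrec.dom_finite _
    have h2 : Primrec fun q : Fin k × ℕ => ι q.1 (tm (q.2 - 1)) :=
      h1.comp (Primrec.pair Primrec.fst (tm_primrec.comp
        (Primrec.nat_sub.comp Primrec.snd (Primrec.const 1))))
    exact (Primrec.ite (Primrec.eq.comp Primrec.snd (Primrec.const 0))
      ((Primrec.dom_finite z).comp Primrec.fst) h2).to₂

theorem pre_primrec₂ {F : Fin k → ℕ → Fin k} (hF : Primrec₂ F) :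
    Primrec₂ (fun (g : Fin k) (n : ℕ) => pre (F g) n) := by
  have h1 : Primrec fun q : Fin k × ℕ => (List.range q.2).map (F q.1) :=
    Primrec.list_map (Primrec.list_range.comp Primrec.snd)
      ((hF.comp (Primrec.fst.comp Primrec.fst) Primrec.snd).to₂)
  exact h1.to₂

theorem not_dExt_iff {α : ℚ} {u : List (Fin k)} :
    ¬ DExt α u ↔ ∃ n, ∀ v ∈ words k n, ∀ y ∈ words k n, ¬ PF α (v ++ u ++ y) := by
  constructor
  · intro h
    by_contra hc
    push Not at hc
    apply h
    choose v hv y hy hpf using hc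
    apply Set.infinite_of_injective_forall_mem (f := fun n => v n ++ u ++ y n)
    · intro n m hnm
      have := congrArg List.length hnm
      simp only [List.length_append, mem_words.mp (hv n), mem_words.mp (hv m),
        mem_words.mp (hy n), mem_words.mp (hy m)] at this
      omega
    · intro n
      exact ⟨⟨v n, y n, rfl, by rw [mem_words.mp (hv n), mem_words.mp (hy n)]⟩, hpf n⟩
  · rintro ⟨n, hn⟩ h
    obtain ⟨v, y, h1, h2, h3⟩ := h.exists_long n
    apply hn (v.drop (v.length - n)) (mem_words.mpr (by rw [List.length_drop]; omega))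
      (y.take n) (mem_words.mpr (by rw [List.length_take]; omega))
    apply h3.sub
    refine ⟨v.take (v.length - n), y.drop n, ?_⟩
    rw [List.append_assoc, List.append_assoc, List.append_assoc, List.take_append_drop,
      ← List.append_assoc, List.take_append_drop, List.append_assoc]

theorem dExt_computable {α : ℚ} (hα : 5 ≤ α) {F : Fin k → ℕ → Fin k} (hF : Fam α F)
    (hFp : Primrec₂ F) : ComputablePred (fun u : List (Fin k) => DExt α u) := by
  have hpf := pf_primrec (k := k) (by linarith : (1 : ℚ) < α)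
  rw [ComputablePred.computable_iff_re_compl_re']
  constructor
  · -- the occurrence of `u` in `w`
    have ho : PrimrecRel fun (i : ℕ) (z : List (Fin k) × List (Fin k)) =>
        i + z.2.length ≤ z.1.length ∧ z.2 = (z.1.drop i).take z.2.length := by
      apply PrimrecPred.and
      · exact Primrec.nat_le.comp (Primrec.nat_add.comp Primrec.fst
          (Primrec.list_length.comp (Primrec.snd.comp Primrec.snd)))
          (Primrec.list_length.comp (Primrec.fst.comp Primrec.snd))
      · exact Primrec.eq.comp (Primrec.snd.comp Primrec.snd)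
          (Primrec.list_take.comp (Primrec.list_length.comp (Primrec.snd.comp Primrec.snd))
            (Primrec.list_drop.comp Primrec.fst (Primrec.fst.comp Primrec.snd)))
    have ho2 : PrimrecPred fun z : List (Fin k) × List (Fin k) =>
        ∃ i ∈ List.range (z.1.length + 1),
          i + z.2.length ≤ z.1.length ∧ z.2 = (z.1.drop i).take z.2.length :=
      ho.exists_mem_list.comp (Primrec.list_range.comp (Primrec.succ.comp
        (Primrec.list_length.comp Primrec.fst))) Primrec.id
    have hc : PrimrecRel fun (q : Fin k × Fin k) (w : List (Fin k)) =>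
        PF α (certWord F w q.1 q.2) := by
      apply hpf.comp
      have hlen : Primrec fun z : (Fin k × Fin k) × List (Fin k) => 8 * (z.2.length + 1) :=
        Primrec.nat_mul.comp (Primrec.const 8)
          (Primrec.succ.comp (Primrec.list_length.comp Primrec.snd))
      exact Primrec.list_append.comp
        (Primrec.list_append.comp
          (Primrec.list_reverse.comp ((pre_primrec₂ hFp).comp
            (Primrec.snd.comp Primrec.fst) hlen)) Primrec.snd)
        ((pre_primrec₂ hFp).comp (Primrec.fst.comp Primrec.fst) hlen)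
    let Q : List (Fin k × Fin k) := (Finset.univ : Finset (Fin k × Fin k)).toList
    have hc2 : PrimrecPred fun w : List (Fin k) => ∃ q ∈ Q, PF α (certWord F w q.1 q.2) :=
      hc.exists_mem_list.comp (Primrec.const Q) Primrec.id
    have hR : PrimrecRel fun (w u : List (Fin k)) =>
        (∃ i ∈ List.range (w.length + 1), i + u.length ≤ w.length ∧
          u = (w.drop i).take u.length) ∧ ∃ q ∈ Q, PF α (certWord F w q.1 q.2) :=
      PrimrecPred.and ho2 (hc2.comp Primrec.fst)
    have hP : PrimrecRel fun (u : List (Fin k)) (n : ℕ) => ∃ w ∈ words k n,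
        (∃ i ∈ List.range (w.length + 1), i + u.length ≤ w.length ∧
          u = (w.drop i).take u.length) ∧ ∃ q ∈ Q, PF α (certWord F w q.1 q.2) :=
      hR.exists_mem_list.comp (words_primrec.comp Primrec.snd) Primrec.fst
    refine (re_exists hP).of_eq fun u => ?_
    rw [dExt_iff_cert hα hF]
    constructor
    · rintro ⟨n, w, _, ⟨i, hi, hi2⟩, q, _, hq⟩
      exact ⟨w, q.1, q.2, ⟨i, List.mem_range.mp hi, hi2⟩, hq⟩
    · rintro ⟨w, g, g', ⟨i, hi, hi2⟩, hq⟩
      exact ⟨w.length, w, mem_words.mpr rfl, ⟨i, List.mem_range.mpr hi, hi2⟩, (g, g'),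
        by simp [Q], hq⟩
  · have hR0 : PrimrecRel fun (y : List (Fin k)) (z : List (Fin k) × List (Fin k)) =>
        ¬ PF α (z.1 ++ z.2 ++ y) := by
      apply PrimrecPred.not
      exact hpf.comp (Primrec.list_append.comp
        (Primrec.list_append.comp (Primrec.fst.comp Primrec.snd) (Primrec.snd.comp Primrec.snd))
        Primrec.fst)
    have hR1 : PrimrecRel fun (v : List (Fin k)) (z : List (Fin k) × ℕ) =>
        ∀ y ∈ words k z.2, ¬ PF α (v ++ z.1 ++ y) :=
      PrimrecRel.comp (hR0.forall_mem_list)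
        (words_primrec.comp (Primrec.snd.comp Primrec.snd))
        (Primrec.pair Primrec.fst (Primrec.fst.comp Primrec.snd))
    have hP : PrimrecRel fun (u : List (Fin k)) (n : ℕ) =>
        ∀ v ∈ words k n, ∀ y ∈ words k n, ¬ PF α (v ++ u ++ y) :=
      PrimrecRel.comp (hR1.forall_mem_list) (words_primrec.comp Primrec.snd) Primrec.id
    exact (re_exists hP).of_eq fun u => not_dExt_iff.symm

/-- Two-sided extendability is decidable. -/
theorem main_dExt {k : ℕ} {α : ℚ} (h : (2 ≤ k ∧ 17 / 3 < α) ∨ (3 ≤ k ∧ 5 ≤ α)) :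
    ComputablePred (fun u : List (Fin k) => DExt α u) := by
  rcases h with ⟨hk, hα⟩ | ⟨hk, hα⟩
  · obtain ⟨F, hF, hFp⟩ := fam_two hα hk
    exact dExt_computable (by linarith) hF hFp
  · obtain ⟨F, hF, hFp⟩ := fam_three hα hk
    exact dExt_computable hα hF hFp

end Pool.Agent.R200.Pt
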