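import Mathlib

/-!
# Random substitutions and their subshifts: definitions
-/

namespace Pool.Agent.R200.Root

variable {A : Type}

/-- A random substitution: each letter is sent to a nonempty finite set of nonempty words. -/
def IsRandomSubstitution (θ : A → Finset (List A)) : Prop :=
  ∀ a, (θ a).Nonempty ∧ ∀ w ∈ θ a, w ≠ []

/-- The set `θ(u)` of realisations of a word `u`. -/
def image (θ : A → Finset (List A)) : List A → Set (List A)
  | [] => {w | w = []}
  | a :: u => {w | ∃ w₁ ∈ θ a, ∃ w₂ ∈ image θ u, w = w₁ ++ w₂}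

/-- The set `θ^p(u)` for a word `u`. -/
def power (θ : A → Finset (List A)) (u : List A) : ℕ → Set (List A)
  | 0 => {w | w = u}
  | p + 1 => {w | ∃ v ∈ power θ u p, w ∈ image θ v}

/-- Legal words: subwords of elements of `θ^p(a)`, `a` a letter, `p ≥ 0`. -/
def Legal (θ : A → Finset (List A)) (w : List A) : Prop :=
  ∃ (a : A) (p : ℕ), ∃ u ∈ power θ [a] p, w <:+: u

/-- The word `x_i x_{i+1} ⋯ x_{i+n-1}`. -/
def window (x : ℤ → A) (i : ℤ) (n : ℕ) : List A := (List.range n).map fun k : ℕ => x (i + (k : ℤ))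

/-- The subshift of a random substitution. -/
def rsShift (θ : A → Finset (List A)) : Set (ℤ → A) :=
  {x | ∀ (i : ℤ) (n : ℕ), Legal θ (window x i n)}

/-- Compatibility. -/
def Compatible [DecidableEq A] (θ : A → Finset (List A)) : Prop :=
  ∀ a, ∀ u ∈ θ a, ∀ v ∈ θ a, ∀ b, u.count b = v.count b

/-- Primitivity. -/
def Primitive (θ : A → Finset (List A)) : Prop :=
  ∃ p : ℕ, 1 ≤ p ∧ ∀ a b : A, ∃ w ∈ power θ [b] p, a ∈ w

/-- Non-degeneracy. -/
def NonDegenerate (θ : A → Finset (List A)) : Prop := ∃ a, 2 ≤ (θ a).card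

/-- `σ(x)_i = x_{i+1}`. -/
def shift (x : ℤ → A) : ℤ → A := fun i => x (i + 1)

theorem shift_mem {θ : A → Finset (List A)} {x : ℤ → A} (hx : x ∈ rsShift θ) :
    shift x ∈ rsShift θ := by
  intro i n
  have h : window (shift x) i n = window x (i + 1) n := by
    unfold window shift
    apply List.map_congr_left
    intro k _
    congr 1
    ring
  rw [h]
  exact hx _ _

/-- The shift restricted to the subshift. -/
def shiftMap (θ : A → Finset (List A)) (x : rsShift θ) : rsShift θ := ⟨shift x.1, shift_mem x.2⟩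

end Pool.Agent.R200.Root
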