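import Pool.Agent.R200.RootDefs

/-!
# A random substitution whose shift has a square root
-/

namespace Pool.Agent.R200.Root

/-! ### Generalities -/

section

variable {A : Type} {θ : A → Finset (List A)}

theorem mem_image_append {u v w : List A} :
    w ∈ image θ (u ++ v) ↔ ∃ w₁ ∈ image θ u, ∃ w₂ ∈ image θ v, w = w₁ ++ w₂ := by
  induction u generalizing w with
  | nil =>
    constructor
    · intro h
      exact ⟨[], rfl, w, h, rfl⟩
    · rintro ⟨w₁, h₁, w₂, h₂, rfl⟩
      have : w₁ = [] := h₁
      subst this
      exact h₂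
  | cons a u ih =>
    constructor
    · rintro ⟨w₁, h₁, w₂, h₂, rfl⟩
      obtain ⟨w₃, h₃, w₄, h₄, rfl⟩ := ih.1 h₂
      exact ⟨w₁ ++ w₃, ⟨w₁, h₁, w₃, h₃, rfl⟩, w₄, h₄, by rw [List.append_assoc]⟩
    · rintro ⟨w₁, ⟨w₃, h₃, w₄, h₄, rfl⟩, w₂, h₂, rfl⟩
      exact ⟨w₃, h₃, w₄ ++ w₂, ih.2 ⟨w₄, h₄, w₂, h₂, rfl⟩, by rw [List.append_assoc]⟩

theorem image_nonempty (hθ : IsRandomSubstitution θ) (u : List A) : ∃ w, w ∈ image θ u := by
  induction u with
  | nil => exact ⟨[], rfl⟩
  | cons a u ih =>
    obtain ⟨w, hw⟩ := ih
    obtain ⟨v, hv⟩ := (hθ a).1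
    exact ⟨v ++ w, v, hv, w, hw, rfl⟩

theorem power_nonempty (hθ : IsRandomSubstitution θ) (u : List A) (p : ℕ) :
    ∃ w, w ∈ power θ u p := by
  induction p with
  | zero => exact ⟨u, rfl⟩
  | succ p ih =>
    obtain ⟨v, hv⟩ := ih
    obtain ⟨w, hw⟩ := image_nonempty hθ v
    exact ⟨w, v, hv, hw⟩

theorem power_append {u v w₁ w₂ : List A} {p : ℕ} (h₁ : w₁ ∈ power θ u p)
    (h₂ : w₂ ∈ power θ v p) : w₁ ++ w₂ ∈ power θ (u ++ v) p := by
  induction p generalizing w₁ w₂ with
  | zero =>
    have e₁ : w₁ = u := h₁
    have e₂ : w₂ = v := h₂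
    rw [e₁, e₂]
    rfl
  | succ p ih =>
    obtain ⟨v₁, hv₁, hw₁⟩ := h₁
    obtain ⟨v₂, hv₂, hw₂⟩ := h₂
    exact ⟨v₁ ++ v₂, ih hv₁ hv₂, mem_image_append.2 ⟨_, hw₁, _, hw₂, rfl⟩⟩

theorem power_add {u v w : List A} {m p : ℕ} (h₁ : v ∈ power θ u m) (h₂ : w ∈ power θ v p) :
    w ∈ power θ u (m + p) := by
  induction p generalizing w with
  | zero =>
    have : w = v := h₂
    rw [this]
    exact h₁
  | succ p ih =>
    obtain ⟨w', hw', hw⟩ := h₂
    exact ⟨w', ih hw', hw⟩

theorem legal_power (hθ : IsRandomSubstitution θ) {u w : List A} {p : ℕ} (hu : Legal θ u)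
    (hw : w ∈ power θ u p) : Legal θ w := by
  obtain ⟨a, m, v, hv, s, t, hst⟩ := hu
  obtain ⟨S, hS⟩ := power_nonempty hθ s p
  obtain ⟨T, hT⟩ := power_nonempty hθ t p
  refine ⟨a, m + p, S ++ w ++ T, ?_, S, T, rfl⟩
  have h := power_append (power_append hS hw) hT
  rw [hst] at h
  exact power_add hv h

theorem Legal.mono {u w : List A} (hu : Legal θ u) (h : w <:+: u) : Legal θ w := by
  obtain ⟨a, p, v, hv, hv'⟩ := hu
  exact ⟨a, p, v, hv, h.trans hv'⟩

theorem infix_of_append {P Z Q S M T : List A} (h : P ++ Z ++ Q = S ++ M ++ T)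
    (h1 : P.length ≤ S.length) (h2 : Q.length ≤ T.length) : M <:+: Z := by
  rw [List.append_assoc, List.append_assoc] at h
  rcases List.append_eq_append_iff.1 h with ⟨S', e1, e2⟩ | ⟨S', e1, e2⟩
  · -- S = P ++ S', Z ++ Q = S' ++ (M ++ T)
    rw [← List.append_assoc] at e2
    rcases List.append_eq_append_iff.1 e2 with ⟨T', e3, e4⟩ | ⟨T', e3, e4⟩
    · -- S' ++ M = Z ++ T', Q = T' ++ T
      have hl : T'.length = 0 := by
        have := congrArg List.length e4
        rw [List.length_append] at this
        omega
      have : T' = [] := List.length_eq_zero_iff.1 hl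
      subst this
      rw [List.append_nil] at e3
      exact ⟨S', [], by rw [List.append_nil]; exact e3⟩
    · exact ⟨S', T', e3.symm⟩
  · have hl : S'.length = 0 := by
      have := congrArg List.length e1
      rw [List.length_append] at this
      omega
    have : S' = [] := List.length_eq_zero_iff.1 hl
    subst this
    rw [List.append_nil] at e1
    rw [List.nil_append] at e2
    rcases List.append_eq_append_iff.1 e2 with ⟨T', e3, e4⟩ | ⟨T', e3, e4⟩
    · exact ⟨[], T', by rw [List.nil_append]; exact e3.symm⟩
    · have hl : T'.length = 0 := by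
        have := congrArg List.length e4
        rw [List.length_append] at this
        omega
      have : T' = [] := List.length_eq_zero_iff.1 hl
      subst this
      rw [List.append_nil] at e3
      exact ⟨[], [], by rw [List.nil_append, List.append_nil]; exact e3⟩

end

/-! ### The example -/

/-- Pair letters. -/
abbrev B2 : Type := Bool × Bool

/-- The underlying binary random substitution of length seven. -/
def eta : Bool → List (List Bool)
  | false => [[false, true, false, true, true, true, false],
      [false, true, true, true, false, true, false]]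
  | true => [[true, false, false, true, false, false, true]]

/-- Grouping letters in pairs. -/
def regroup : List Bool → List B2
  | x :: y :: l => (x, y) :: regroup l
  | _ => []

/-- The random substitution on pairs. -/
def th (a : B2) : Finset (List B2) :=
  ((eta a.1).flatMap fun u => (eta a.2).map fun v => regroup (u ++ v)).toFinset

theorem th_rs : IsRandomSubstitution th := by
  unfold IsRandomSubstitution
  decide

theorem th_len : ∀ a : B2, ∀ w ∈ th a, w.length = 7 := by decide

theorem th_compatible : Compatible th := by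
  unfold Compatible
  decide

theorem th_nondeg : NonDegenerate th := ⟨(false, false), by decide⟩

theorem th_all : ∀ a b : B2, ∃ w ∈ th b, a ∈ w := by decide

theorem th_primitive : Primitive th := by
  refine ⟨1, le_refl 1, ?_⟩
  intro a b
  obtain ⟨w, hw, ha⟩ := th_all a b
  exact ⟨w, ⟨[b], rfl, w, hw, [], rfl, by rw [List.append_nil]⟩, ha⟩

/-- The half shift on words. -/
def FF : List B2 → List B2
  | x :: y :: l => (x.2, y.1) :: FF (y :: l)
  | _ => []

theorem FF_length (l : List B2) : (FF l).length = l.length - 1 := by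
  induction l with
  | nil => rfl
  | cons x l ih =>
    cases l with
    | nil => rfl
    | cons y l =>
      show (FF (y :: l)).length + 1 = _
      rw [ih]
      simp

/-- Letter created at a concatenation. -/
def mid (U V : List B2) : B2 := ((U.getLastD (false, false)).2, (V.headD (false, false)).1)

theorem FF_append (U V : List B2) (hU : U ≠ []) (hV : V ≠ []) :
    FF (U ++ V) = FF U ++ mid U V :: FF V := by
  induction U with
  | nil => exact absurd rfl hU
  | cons x U ih =>
    cases U with
    | nil =>
      cases V with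
      | nil => exact absurd rfl hV
      | cons y V => rfl
    | cons x' U =>
      have := ih (by simp)
      show (x.2, x'.1) :: FF (x' :: U ++ V) = _
      rw [this]
      rfl

/-- The part of `FF (U ++ U')` which straddles the middle. -/
def cross (U U' : List B2) : List B2 := (FF U).drop 3 ++ mid U U' :: (FF U').take 3

theorem cross_mem : ∀ a b : B2, ∀ U ∈ th a, ∀ U' ∈ th b, cross U U' ∈ th (a.2, b.1) := by
  decide

theorem th_ne {a : B2} {U : List B2} (h : U ∈ th a) : U ≠ [] := (th_rs a).2 U h

theorem image_length {v W : List B2} (h : W ∈ image th v) : W.length = 7 * v.length := by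
  induction v generalizing W with
  | nil =>
    have : W = [] := h
    rw [this]
    rfl
  | cons a v ih =>
    obtain ⟨w₁, h₁, w₂, h₂, rfl⟩ := h
    rw [List.length_append, th_len a w₁ h₁, ih h₂, List.length_cons]
    ring

theorem power_length {v W : List B2} {p : ℕ} (h : W ∈ power th v p) :
    W.length = 7 ^ p * v.length := by
  induction p generalizing W with
  | zero =>
    have : W = v := h
    rw [this]
    simp
  | succ p ih =>
    obtain ⟨w, hw, hW⟩ := h
    rw [image_length hW, ih hw]
    ring

theorem FF_image_aux (v : List B2) : ∀ (a : B2) (U W : List B2), U ∈ th a → W ∈ image th v →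
    ∃ Z Q, FF (U ++ W) = (FF U).take 3 ++ Z ++ Q ∧ Q.length = 3 ∧ Z ∈ image th (FF (a :: v)) := by
  induction v with
  | nil =>
    intro a U W hU hW
    have : W = [] := hW
    subst this
    refine ⟨[], (FF U).drop 3, ?_, ?_, rfl⟩
    · rw [List.append_nil, List.append_nil, List.take_append_drop]
    · rw [List.length_drop, FF_length, th_len a U hU]
  | cons b v ih =>
    intro a U W hU hW
    obtain ⟨U', hU', W', hW', rfl⟩ := hW
    obtain ⟨Z, Q, e, hQ, hZ⟩ := ih b U' W' hU' hW'
    have hne : U' ++ W' ≠ [] := by
      intro h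
      exact th_ne hU' (List.append_eq_nil_iff.1 h).1
    refine ⟨cross U U' ++ Z, Q, ?_, hQ, ?_⟩
    · rw [FF_append U (U' ++ W') (th_ne hU) hne, e]
      have hm : mid U (U' ++ W') = mid U U' := by
        unfold mid
        cases U' with
        | nil => exact absurd rfl (th_ne hU')
        | cons x U' => rfl
      rw [hm]
      unfold cross
      conv_lhs => rw [← List.take_append_drop 3 (FF U)]
      simp only [List.append_assoc, List.cons_append]
    · exact ⟨cross U U', cross_mem a b U hU U' hU', Z, hZ, rfl⟩

theorem FF_image {v W : List B2} (hv : v ≠ []) (hW : W ∈ image th v) :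
    ∃ P Z Q, FF W = P ++ Z ++ Q ∧ P.length = 3 ∧ Q.length = 3 ∧ Z ∈ image th (FF v) := by
  cases v with
  | nil => exact absurd rfl hv
  | cons a v =>
    obtain ⟨U, hU, W', hW', rfl⟩ := hW
    obtain ⟨Z, Q, e, hQ, hZ⟩ := FF_image_aux v a U W' hU hW'
    refine ⟨(FF U).take 3, Z, Q, e, ?_, hQ, hZ⟩
    rw [List.length_take, FF_length, th_len a U hU]
    rfl

theorem FF_power {v W : List B2} {p : ℕ} (hv : v ≠ []) (hW : W ∈ power th v p) :
    ∃ P Z Q, FF W = P ++ Z ++ Q ∧ 2 * P.length + 1 = 7 ^ p ∧ 2 * Q.length + 1 = 7 ^ p ∧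
      Z ∈ power th (FF v) p := by
  induction p generalizing W with
  | zero =>
    have : W = v := hW
    subst this
    exact ⟨[], FF W, [], by simp, by simp, by simp, rfl⟩
  | succ p ih =>
    obtain ⟨W', hW', hW⟩ := hW
    have hne : W' ≠ [] := by
      intro h
      have hl := power_length hW'
      rw [h, List.length_nil] at hl
      have : 0 < v.length := List.length_pos_iff.2 hv
      have : 0 < 7 ^ p * v.length := by positivity
      omega
    obtain ⟨P', Z', Q', e', hP', hQ', hZ'⟩ := ih hW'
    obtain ⟨P, Z, Q, e, hP, hQ, hZ⟩ := FF_image hne hW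
    rw [e', mem_image_append] at hZ
    obtain ⟨Z₁, hZ₁, Q'', hQ'', rfl⟩ := hZ
    rw [mem_image_append] at hZ₁
    obtain ⟨P'', hP'', Z'', hZ'', rfl⟩ := hZ₁
    refine ⟨P ++ P'', Z'', Q'' ++ Q, ?_, ?_, ?_, ⟨Z', hZ', hZ''⟩⟩
    · rw [e]; simp only [List.append_assoc]
    · rw [List.length_append, hP, image_length hP'', pow_succ, ← hP']; ring
    · rw [List.length_append, hQ, image_length hQ'', pow_succ, ← hQ']; ring

/-- The two-letter words needed. -/
theorem legal_two : ∀ a : B2, ∃ b c : B2, Legal th (FF [b, a, c]) := by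
  have key : ∀ a : B2, ∃ b c : B2, ∃ u ∈ th (false, true), FF [b, a, c] <:+: u := by decide
  intro a
  obtain ⟨b, c, u, hu, h⟩ := key a
  exact ⟨b, c, (false, true), 1, u, ⟨[(false, true)], rfl, u, hu, [], rfl,
    by rw [List.append_nil]⟩, h⟩

theorem FF_infix {u w : List B2} (h : w <:+: u) : FF w <:+: FF u := by
  obtain ⟨s, t, rfl⟩ := h
  by_cases hw : w = []
  · subst hw
    exact ⟨[], FF (s ++ [] ++ t), rfl⟩
  · have h1 : FF w <:+: FF (s ++ w) := by
      by_cases hs : s = []
      · subst hs
        exact List.infix_rfl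
      · rw [FF_append s w hs hw]
        exact ⟨FF s ++ [mid s w], [], by simp⟩
    refine h1.trans ?_
    by_cases ht : t = []
    · subst ht
      rw [List.append_nil]
    · rw [FF_append (s ++ w) t (by simp [hw]) ht]
      exact ⟨[], mid (s ++ w) t :: FF t, by simp⟩

theorem legal_FF {w : List B2} (h : Legal th w) : Legal th (FF w) := by
  obtain ⟨a, p, U, hU, hw⟩ := h
  refine Legal.mono ?_ (FF_infix hw)
  obtain ⟨b, c, hbc⟩ := legal_two a
  obtain ⟨S, hS⟩ := power_nonempty th_rs [b] p
  obtain ⟨T, hT⟩ := power_nonempty th_rs [c] p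
  have hV : (S ++ U) ++ T ∈ power th (([b] ++ [a]) ++ [c]) p :=
    power_append (power_append hS hU) hT
  obtain ⟨P, Z, Q, e, hP, hQ, hZ⟩ := FF_power (by simp) hV
  have hZl : Legal th Z := legal_power th_rs hbc hZ
  refine hZl.mono ?_
  have lS := power_length hS
  have lU := power_length hU
  have lT := power_length hT
  have h7 : 0 < 7 ^ p := by positivity
  simp only [List.length_cons, List.length_nil, zero_add, mul_one] at lS lU lT
  have nS : S ≠ [] := by
    intro h; rw [h] at lS; simp at lS; omega
  have nU : U ≠ [] := by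
    intro h; rw [h] at lU; simp at lU; omega
  have nT : T ≠ [] := by
    intro h; rw [h] at lT; simp at lT; omega
  rw [FF_append (S ++ U) T (by simp [nS]) nT, FF_append S U nS nU] at e
  have e' : P ++ Z ++ Q = (FF S ++ [mid S U]) ++ FF U ++ (mid (S ++ U) T :: FF T) := by
    rw [← e]
    simp only [List.append_assoc, List.cons_append, List.nil_append]
  apply infix_of_append e'
  · rw [List.length_append, FF_length, lS]
    simp only [List.length_cons, List.length_nil]
    omega
  · rw [List.length_cons, FF_length, lT]
    omega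

/-! ### The root of the shift -/

/-- The half shift on configurations. -/
def hs (x : ℤ → B2) : ℤ → B2 := fun i => ((x i).2, (x (i + 1)).1)

theorem window_succ (x : ℤ → B2) (i : ℤ) (n : ℕ) :
    window x i (n + 1) = x i :: window x (i + 1) n := by
  unfold window
  rw [List.range_succ_eq_map, List.map_cons, List.map_map]
  congr 1
  · simp
  · apply List.map_congr_left
    intro k _
    simp only [Function.comp_apply]
    congr 1
    push_cast
    ring

theorem window_hs (x : ℤ → B2) (i : ℤ) (n : ℕ) :
    window (hs x) i n = FF (window x i (n + 1)) := by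
  induction n generalizing i with
  | zero =>
    rw [window_succ]
    rfl
  | succ n ih =>
    rw [window_succ, ih (i + 1), window_succ x i (n + 1), window_succ x (i + 1) n]
    rfl

theorem hs_mem {x : ℤ → B2} (hx : x ∈ rsShift th) : hs x ∈ rsShift th := by
  intro i n
  rw [window_hs]
  exact legal_FF (hx i (n + 1))

theorem hs_hs (x : ℤ → B2) : hs (hs x) = shift x := by
  funext i
  rfl

theorem hs_shift (x : ℤ → B2) : hs (shift x) = shift (hs x) := rfl

/-- Inverse shift. -/
def ush {A : Type} (x : ℤ → A) : ℤ → A := fun i => x (i - 1)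

theorem window_ush {A : Type} (x : ℤ → A) (i : ℤ) (n : ℕ) :
    window (ush x) i n = window x (i - 1) n := by
  unfold window ush
  apply List.map_congr_left
  intro k _
  congr 1
  ring

theorem ush_mem {A : Type} {θ : A → Finset (List A)} {x : ℤ → A} (hx : x ∈ rsShift θ) :
    ush x ∈ rsShift θ := by
  intro i n
  rw [window_ush]
  exact hx _ _

theorem hs_ush (x : ℤ → B2) : hs (ush x) = ush (hs x) := by
  funext i
  unfold hs ush
  simp only
  rw [show i + 1 - 1 = i - 1 + 1 by ring]

theorem shift_ush {A : Type} (x : ℤ → A) : shift (ush x) = x := by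
  funext i
  unfold shift ush
  simp

theorem ush_shift {A : Type} (x : ℤ → A) : ush (shift x) = x := by
  funext i
  unfold shift ush
  simp

theorem continuous_hs : Continuous hs := by
  apply continuous_pi
  intro i
  unfold hs
  exact (continuous_snd.comp (continuous_apply i)).prodMk
    (continuous_fst.comp (continuous_apply (i + 1)))

theorem continuous_ush : Continuous (ush (A := B2)) := by
  apply continuous_pi
  intro i
  exact continuous_apply (i - 1)

/-- The square root of the shift, as a homeomorphism. -/
def root : rsShift th ≃ₜ rsShift th where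
  toFun x := ⟨hs x.1, hs_mem x.2⟩
  invFun x := ⟨hs (ush x.1), hs_mem (ush_mem x.2)⟩
  left_inv x := by
    apply Subtype.ext
    show hs (ush (hs x.1)) = x.1
    rw [← hs_ush, hs_hs, shift_ush]
  right_inv x := by
    apply Subtype.ext
    show hs (hs (ush x.1)) = x.1
    rw [hs_hs, shift_ush]
  continuous_toFun := (continuous_hs.comp continuous_subtype_val).subtype_mk _
  continuous_invFun :=
    (continuous_hs.comp (continuous_ush.comp continuous_subtype_val)).subtype_mk _

/-! ### The subshift is nonempty -/

theorem isClosed_of_finite_dep {V A : Type} [TopologicalSpace A] [DiscreteTopology A]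
    (p : (V → A) → Prop) (F : Finset V)
    (hF : ∀ x y : V → A, (∀ w ∈ F, x w = y w) → p x → p y) :
    IsClosed {x | p x} := by
  rw [← isOpen_compl_iff, isOpen_iff_forall_mem_open]
  intro x hx
  refine ⟨⋂ w ∈ F, (fun y : V → A => y w) ⁻¹' {x w}, ?_, ?_, ?_⟩
  · intro y hy hpy
    apply hx
    apply hF y x _ hpy
    intro w hw
    simp only [Set.mem_iInter, Set.mem_preimage, Set.mem_singleton_iff] at hy
    exact hy w hw
  · apply isOpen_biInter_finset
    intro w _
    exact (isOpen_discrete _).preimage (continuous_apply w)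
  · simp

theorem window_congr {A : Type} {x y : ℤ → A} {i : ℤ} {n : ℕ}
    (h : ∀ k : ℕ, k < n → x (i + k) = y (i + k)) : window x i n = window y i n := by
  unfold window
  apply List.map_congr_left
  intro k hk
  exact h k (List.mem_range.1 hk)

theorem window_add {A : Type} (x : ℤ → A) (i : ℤ) (m n : ℕ) :
    window x i (m + n) = window x i m ++ window x (i + m) n := by
  unfold window
  rw [List.range_add, List.map_append, List.map_map]
  congr 1
  apply List.map_congr_left
  intro k _
  simp only [Function.comp_apply]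
  congr 1
  push_cast
  ring

theorem window_infix {A : Type} (x : ℤ → A) (i : ℤ) (a m b : ℕ) :
    window x (i + a) m <:+: window x i (a + m + b) := by
  rw [window_add, window_add]
  exact ⟨_, _, rfl⟩

theorem rs_nonempty : (rsShift th).Nonempty := by
  let K : ℕ → Set (ℤ → B2) := fun n => {x | Legal th (window x (-(n : ℤ)) (2 * n + 1))}
  have hcl : ∀ n, IsClosed (K n) := by
    intro n
    apply isClosed_of_finite_dep _ (Finset.Icc (-(n : ℤ)) n)
    intro x y hxy hx
    rw [← window_congr (x := x)]
    · exact hx
    · intro k hk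
      apply hxy
      rw [Finset.mem_Icc]
      omega
  have hne : ∀ n, (K n).Nonempty := by
    intro n
    obtain ⟨w, hw⟩ := power_nonempty th_rs [(false, true)] (2 * n + 1)
    have hl := power_length hw
    have hlt : 2 * n + 1 < 7 ^ (2 * n + 1) := Nat.lt_pow_self (by norm_num)
    simp only [List.length_cons, List.length_nil, zero_add, mul_one] at hl
    refine ⟨fun j => w.getD (j + n).toNat (false, false), ?_⟩
    have h : window (fun j => w.getD (j + n).toNat (false, false)) (-(n : ℤ)) (2 * n + 1)
        = w.take (2 * n + 1) := by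
      apply List.ext_getElem
      · unfold window
        rw [List.length_map, List.length_range, List.length_take]
        omega
      · intro k h1 h2
        unfold window
        rw [List.getElem_map, List.getElem_range, List.getElem_take]
        have e : (-(n : ℤ) + (k : ℤ) + n).toNat = k := by omega
        show w.getD (-(n : ℤ) + (k : ℤ) + n).toNat (false, false) = _
        rw [e]
        rw [List.length_take] at h2
        rw [List.getD_eq_getElem]
    show Legal th (window _ _ _)
    rw [h]
    exact ⟨(false, true), 2 * n + 1, w, hw, (List.take_prefix _ _).isInfix⟩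
  have hmono : ∀ n, K (n + 1) ⊆ K n := by
    intro n x hx
    have hx' : Legal th (window x (-((n + 1 : ℕ) : ℤ)) (2 * (n + 1) + 1)) := hx
    have h := window_infix x (-((n + 1 : ℕ) : ℤ)) 1 (2 * n + 1) 1
    rw [show 1 + (2 * n + 1) + 1 = 2 * (n + 1) + 1 by ring] at h
    have e : -((n + 1 : ℕ) : ℤ) + ((1 : ℕ) : ℤ) = -(n : ℤ) := by push_cast; ring
    rw [e] at h
    exact hx'.mono h
  obtain ⟨x, hx⟩ := IsCompact.nonempty_iInter_of_sequence_nonempty_isCompact_isClosed K hmono
    hne (hcl 0).isCompact hcl
  refine ⟨x, ?_⟩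
  intro i n
  rw [Set.mem_iInter] at hx
  have hN := hx (i.natAbs + n)
  set N := i.natAbs + n with hNd
  have hx' : Legal th (window x (-(N : ℤ)) (2 * N + 1)) := hN
  have h := window_infix x (-(N : ℤ)) (i + N).toNat n (2 * N + 1 - n - (i + N).toNat)
  have e1 : (i + N).toNat + n + (2 * N + 1 - n - (i + N).toNat) = 2 * N + 1 := by omega
  have e2 : -(N : ℤ) + (((i + N).toNat : ℕ) : ℤ) = i := by omega
  rw [e1, e2] at h
  exact hx'.mono h

end Pool.Agent.R200.Root
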