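import Mathlib

/-!
# Homomorphisms from large symmetric groups to small finite groups kill even permutations
-/

namespace Pool.Agent.R200.Rs

open Equiv Equiv.Perm

theorem kills_even {S F : Type} [Fintype S] [DecidableEq S] [Group F] [Finite F]
    (h : Nat.card F + 1 < Fintype.card S) (ψ : Perm S →* F) (t : Perm S) (ht : sign t = 1) :
    ψ t = 1 := by
  classical
  have hpos : 0 < Fintype.card S := by omega
  obtain ⟨s0⟩ : Nonempty S := Fintype.card_pos_iff.1 hpos
  -- two transpositions with the same image
  have hpig : ∃ a b : {s : S // s ≠ s0}, a ≠ b ∧ ψ (swap s0 a.1) = ψ (swap s0 b.1) := by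
    have : ¬ Function.Injective (fun a : {s : S // s ≠ s0} => ψ (swap s0 a.1)) := by
      intro hinj
      have hc := Nat.card_le_card_of_injective _ hinj
      rw [Nat.card_eq_fintype_card (α := {s : S // s ≠ s0})] at hc
      have h2 : Fintype.card {s : S // s ≠ s0} = Fintype.card S - 1 := by
        rw [Fintype.card_subtype_compl, Fintype.card_subtype_eq]
      omega
    unfold Function.Injective at this
    push Not at this
    obtain ⟨a, b, h1, h2⟩ := this
    exact ⟨a, b, h2, h1⟩
  obtain ⟨a, b, hab, hψ⟩ := hpig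
  have hab' : (a : S) ≠ b := fun e => hab (Subtype.ext e)
  have h3 : (swap s0 (a : S) * swap s0 (b : S)).IsThreeCycle :=
    isThreeCycle_swap_mul_swap_same (Ne.symm a.2) (Ne.symm b.2) hab'
  have h4 : ψ (swap s0 (a : S) * swap s0 (b : S)) = 1 := by
    rw [map_mul, hψ, ← map_mul, swap_mul_self, map_one]
  have h5 : ∀ τ : Perm S, IsThreeCycle τ → ψ τ = 1 := by
    intro τ hτ
    have hconj : IsConj (swap s0 (a : S) * swap s0 (b : S)) τ := by
      rw [isConj_iff_cycleType_eq]
      exact h3.trans hτ.symm
    obtain ⟨g, hg⟩ := isConj_iff.1 hconj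
    rw [← hg, map_mul, map_mul, h4, mul_one, ← map_mul, mul_inv_cancel, map_one]
  have h6 : alternatingGroup S ≤ ψ.ker := by
    rw [← closure_three_cycles_eq_alternating, Subgroup.closure_le]
    intro τ hτ
    exact h5 τ hτ
  exact h6 (Equiv.Perm.mem_alternatingGroup.2 ht)

/-- Splitting off the first bit. -/
def cE (n : ℕ) : Bool × (Fin n → Bool) ≃ (Fin (n + 1) → Bool) where
  toFun p := Fin.cons p.1 p.2
  invFun f := (f 0, Fin.tail f)
  left_inv p := by simp
  right_inv f := by simp

/-- The permutation that flips the first bit. -/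
def tog (n : ℕ) : Perm (Fin (n + 1) → Bool) :=
  (cE n).permCongr (prodCongrLeft fun _ => swap false true)

theorem tog_zero (n : ℕ) (f : Fin (n + 1) → Bool) : tog n f 0 = !(f 0) := by
  unfold tog
  rw [permCongr_apply]
  show (Fin.cons (swap false true (f 0)) (Fin.tail f) : Fin (n + 1) → Bool) 0 = _
  rw [Fin.cons_zero]
  cases f 0 <;> rfl

theorem tog_succ (n : ℕ) (f : Fin (n + 1) → Bool) (j : Fin n) : tog n f j.succ = f j.succ := by
  unfold tog
  rw [permCongr_apply]
  show (Fin.cons (swap false true (f 0)) (Fin.tail f) : Fin (n + 1) → Bool) j.succ = _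
  rw [Fin.cons_succ]
  rfl

theorem sign_tog (n : ℕ) (hn : 1 ≤ n) : sign (tog n) = 1 := by
  unfold tog
  rw [sign_permCongr, sign_prodCongrLeft]
  rw [Finset.prod_const, sign_swap (by simp), Finset.card_univ, Fintype.card_fun,
    Fintype.card_bool, Fintype.card_fin]
  apply Even.neg_one_pow
  exact (even_two).pow_of_ne_zero (by omega)

end Pool.Agent.R200.Rs
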