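import Pool.Agent.R200.RsDec
import Pool.Agent.R200.RsGrp

/-!
# Automorphisms given by modifications of the choices
-/

namespace Pool.Agent.R200.Rs

/-- Modifications of the choice sequence, given the letter sequence. -/
abbrev Modif : Type := (ℤ → Bool) → (ℤ → Bool) → (ℤ → Bool)

/-- `f` represents the modification `m`. -/
def Rep (f : XX → XX) (m : Modif) : Prop :=
  ∀ y ∈ XX, ∀ (c : ℤ → Bool) (k : Fin 4) (x : XX), (x : ℤ → Bool) = qq y c (k : ℕ) →
    (f x : ℤ → Bool) = qq y (m y c) (k : ℕ)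

theorem rep_unique {f g : XX → XX} {m : Modif} (hf : Rep f m) (hg : Rep g m) : f = g := by
  funext x
  obtain ⟨y, c, k, hy, hx⟩ := exists_decomposition x.2
  apply Subtype.ext
  rw [hf y hy c k x hx, hg y hy c k x hx]

theorem rep_comp {f g : XX → XX} {m m' : Modif} (hf : Rep f m) (hg : Rep g m') :
    Rep (f ∘ g) (fun y c => m y (m' y c)) := by
  intro y hy c k x hx
  exact hf y hy (m' y c) k (g x) (hg y hy c k x hx)

theorem rep_congr {f : XX → XX} {m m' : Modif} (hf : Rep f m)
    (h : ∀ y ∈ XX, ∀ c, m y c = m' y c) : Rep f m' := by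
  intro y hy c k x hx
  rw [← h y hy c]
  exact hf y hy c k x hx

theorem rep_id : Rep id (fun _ c => c) := fun _ _ _ _ _ hx => hx

/-- Local, shift-commuting modifications that do nothing when there is no marker. -/
structure Good (m : Modif) : Prop where
  loc : ∀ n : ℤ, ∃ K : Finset ℤ, ∀ y c y' c' : ℤ → Bool,
    (∀ i ∈ K, y i = y' i ∧ c i = c' i) → m y c n = m y' c' n
  equi : ∀ y c, m (sh y) (sh c) = sh (m y c)
  triv : ∀ y c, (∀ i, ¬ Mk y c i) → m y c = c

theorem continuous_of_fin {ι α β : Type} [TopologicalSpace α] [DiscreteTopology α]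
    [TopologicalSpace β] (g : (ι → α) → β)
    (h : ∃ F : Finset ι, ∀ x y : ι → α, (∀ w ∈ F, x w = y w) → g x = g y) : Continuous g := by
  obtain ⟨F, hF⟩ := h
  apply IsLocallyConstant.continuous
  rw [IsLocallyConstant.iff_exists_open]
  intro x
  refine ⟨⋂ w ∈ F, (fun y : ι → α => y w) ⁻¹' {x w}, ?_, ?_, ?_⟩
  · apply isOpen_biInter_finset
    intro w _
    exact (isOpen_discrete _).preimage (continuous_apply w)
  · simp
  · intro y hy
    simp only [Set.mem_iInter, Set.mem_preimage, Set.mem_singleton_iff] at hy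
    exact hF y x hy

/-- Decompositions. -/
abbrev Dec : Type := {z : ℤ → Bool × Bool // (fun i => (z i).1) ∈ XX} × Fin 4

/-- The sequence with a given decomposition. -/
def QQ (m : Modif) (d : Dec) : XX :=
  ⟨qq (fun i => (d.1.1 i).1) (m (fun i => (d.1.1 i).1) (fun i => (d.1.1 i).2)) (d.2 : ℕ),
    qq_mem d.1.2 _ _⟩

theorem continuous_QQ {m : Modif} (hm : ∀ n : ℤ, ∃ K : Finset ℤ, ∀ y c y' c' : ℤ → Bool,
    (∀ i ∈ K, y i = y' i ∧ c i = c' i) → m y c n = m y' c' n) : Continuous (QQ m) := by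
  rw [continuous_prod_of_discrete_right]
  intro k
  apply Continuous.subtype_mk
  apply continuous_pi
  intro n
  let g : (ℤ → Bool × Bool) → Bool := fun z =>
    qq (fun i => (z i).1) (m (fun i => (z i).1) (fun i => (z i).2)) (k : ℕ) n
  have hg : Continuous g := by
    apply continuous_of_fin
    obtain ⟨K, hK⟩ := hm ((n + (k : ℕ)) / 4)
    refine ⟨insert ((n + (k : ℕ)) / 4) K, ?_⟩
    intro x y hxy
    have e1 := hxy _ (Finset.mem_insert_self _ _)
    have e2 := hK (fun i => (x i).1) (fun i => (x i).2) (fun i => (y i).1) (fun i => (y i).2)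
      (fun i hi => by
        have := hxy i (Finset.mem_insert_of_mem hi)
        simp only [this, and_self])
    show bk (x ((n + (k : ℕ)) / 4)).1 _ _ = bk (y ((n + (k : ℕ)) / 4)).1 _ _
    rw [e1, e2]
  exact hg.comp continuous_subtype_val

instance : CompactSpace XX := isCompact_iff_compactSpace.1 isClosed_XX.isCompact

instance : CompactSpace {z : ℤ → Bool × Bool // (fun i => (z i).1) ∈ XX} := by
  apply isCompact_iff_compactSpace.1
  apply IsClosed.isCompact
  have hcont : Continuous (fun z : ℤ → Bool × Bool => fun i => (z i).1) := by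
    apply continuous_pi
    intro i
    exact continuous_fst.comp (continuous_apply i)
  exact isClosed_XX.preimage hcont

theorem QQ_surj : Function.Surjective (QQ fun _ c => c) := by
  intro x
  obtain ⟨y, c, k, hy, hx⟩ := exists_decomposition x.2
  refine ⟨⟨⟨fun i => (y i, c i), hy⟩, k⟩, ?_⟩
  apply Subtype.ext
  exact hx.symm

theorem exists_map {m : Modif} (hm : Good m) : ∃ F : XX → XX, Continuous F ∧ Rep F m := by
  have hq : Topology.IsQuotientMap (QQ fun _ c => c) := by
    apply Topology.IsQuotientMap.of_surjective_continuous QQ_surj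
    apply continuous_QQ
    intro n
    refine ⟨{n}, fun y c y' c' h => ?_⟩
    exact (h n (Finset.mem_singleton_self n)).2
  choose s hs using QQ_surj
  have hwell : ∀ d d' : Dec, QQ (fun _ c => c) d = QQ (fun _ c => c) d' → QQ m d = QQ m d' := by
    intro d d' h
    have h' : qq (fun i => (d.1.1 i).1) (fun i => (d.1.1 i).2) (d.2 : ℕ) =
        qq (fun i => (d'.1.1 i).1) (fun i => (d'.1.1 i).2) (d'.2 : ℕ) := congrArg Subtype.val h
    apply Subtype.ext
    show qq (fun i => (d.1.1 i).1) (m (fun i => (d.1.1 i).1) (fun i => (d.1.1 i).2)) (d.2 : ℕ) =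
      qq (fun i => (d'.1.1 i).1) (m (fun i => (d'.1.1 i).1) (fun i => (d'.1.1 i).2)) (d'.2 : ℕ)
    by_cases hM : ∃ i, Mk (fun i => (d.1.1 i).1) (fun i => (d.1.1 i).2) i
    · obtain ⟨i, hi⟩ := hM
      obtain ⟨h1, h2, h3⟩ := decomposition_unique hi h'
      rw [h1, h2, h3]
    · by_cases hM' : ∃ i, Mk (fun i => (d'.1.1 i).1) (fun i => (d'.1.1 i).2) i
      · obtain ⟨i, hi⟩ := hM'
        obtain ⟨h1, h2, h3⟩ := decomposition_unique hi h'.symm
        rw [h1, h2, h3]
      · push Not at hM hM'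
        rw [hm.triv _ _ hM, hm.triv _ _ hM', h']
  let F : XX → XX := fun x => QQ m (s x)
  have hF : ∀ d, F (QQ (fun _ c => c) d) = QQ m d := fun d => hwell _ _ (hs _)
  refine ⟨F, ?_, ?_⟩
  · rw [hq.continuous_iff]
    have : F ∘ (QQ fun _ c => c) = QQ m := funext hF
    rw [this]
    exact continuous_QQ hm.loc
  · intro y hy c k x hx
    have h := hF ⟨⟨fun i => (y i, c i), hy⟩, k⟩
    have e : QQ (fun _ c => c) ⟨⟨fun i => (y i, c i), hy⟩, k⟩ = x := Subtype.ext hx.symm
    rw [e] at h
    rw [h]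
    rfl

theorem sh_mem {y : ℤ → Bool} (hy : y ∈ XX) : sh y ∈ XX := by
  intro i n
  have e : win (sh y) i n = win y (i + 1) n := by
    unfold win sh
    apply List.map_congr_left
    intro j _
    congr 1
    ring
  rw [e]
  exact hy _ _

theorem shift_mem {y : ℤ → Bool} (hy : y ∈ XX) (j : ℤ) : (fun i => y (i + j)) ∈ XX := by
  intro i n
  have e : win (fun i => y (i + j)) i n = win y (i + j) n := by
    unfold win
    apply List.map_congr_left
    intro l _
    show y _ = y _
    congr 1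
    ring
  rw [e]
  exact hy _ _

theorem rep_shift {m : Modif} (hm : Good m) {F : XX → XX} (hF : Rep F m) (x y : XX)
    (hxy : (y : ℤ → Bool) = sh x) : (F y : ℤ → Bool) = sh (F x) := by
  obtain ⟨z, c, k, hz, hx⟩ := exists_decomposition x.2
  have h1 := hF z hz c k x hx
  by_cases hk : (k : ℕ) < 3
  · have h2 := hF z hz c ⟨k + 1, by omega⟩ y (by
      rw [hxy, hx]
      funext n
      show Th z c (n + 1 + (k : ℕ)) = Th z c (n + ((k : ℕ) + 1 : ℕ))
      have e : n + 1 + ((k : ℕ) : ℤ) = n + ((k : ℕ) + 1 : ℕ) := by push_cast; ring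
      rw [e])
    rw [h2, h1]
    funext n
    show Th z (m z c) (n + ((k : ℕ) + 1 : ℕ)) = Th z (m z c) (n + 1 + (k : ℕ))
    have e : n + 1 + ((k : ℕ) : ℤ) = n + ((k : ℕ) + 1 : ℕ) := by push_cast; ring
    rw [e]
  · have hk3 : (k : ℕ) = 3 := by have := k.2; omega
    have hTh : ∀ (c' : ℤ → Bool) (n : ℤ), Th (sh z) (sh c') n = Th z c' (n + 4) := by
      intro c' n
      unfold Th sh
      have e1 : (n + 4) / 4 = n / 4 + 1 := by omega
      have e2 : (n + 4) % 4 = n % 4 := by omega
      rw [e1, e2]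
    have h2 := hF (sh z) (sh_mem hz) (sh c) 0 y (by
      rw [hxy, hx]
      funext n
      unfold qq
      rw [hTh]
      unfold sh
      rw [hk3]
      have e : n + 1 + ((3 : ℕ) : ℤ) = n + (((0 : Fin 4) : ℕ) : ℤ) + 4 := by
        simp only [Fin.val_zero, Nat.cast_zero, Nat.cast_ofNat, add_zero]; ring
      show Th z c (n + 1 + ((3 : ℕ) : ℤ)) = _
      rw [e])
    rw [h2, h1, hm.equi]
    funext n
    unfold qq
    rw [hTh]
    unfold sh
    rw [hk3]
    congr 1
    simp
    ring

/-- The action of an automorphism. -/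
def ev (f : AutX) : XX → XX := fun x => f.1 x

/-- An invertible good modification gives an automorphism. -/
theorem exists_aut {m m' : Modif} (hm : Good m) (hm' : Good m')
    (h1 : ∀ y ∈ XX, ∀ c, m y (m' y c) = c) (h2 : ∀ y ∈ XX, ∀ c, m' y (m y c) = c) :
    ∃ f : AutX, Rep (ev f) m := by
  obtain ⟨F, hFc, hF⟩ := exists_map hm
  obtain ⟨F', hFc', hF'⟩ := exists_map hm'
  have e1 : F ∘ F' = id := rep_unique (rep_congr (rep_comp hF hF') h1) rep_id
  have e2 : F' ∘ F = id := rep_unique (rep_congr (rep_comp hF' hF) h2) rep_id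
  let E : Equiv.Perm XX := ⟨F, F', fun x => congrFun e2 x, fun x => congrFun e1 x⟩
  have hE : IsAut E := by
    refine ⟨hFc, hFc', ?_⟩
    intro x y hxy
    exact rep_shift hm hF x y hxy
  exact ⟨⟨E, hE⟩, hF⟩

theorem aut_ext {f g : AutX} {m : Modif} (hf : Rep (ev f) m) (hg : Rep (ev g) m) :
    f = g := by
  apply Subtype.ext
  apply Equiv.ext
  intro x
  exact congrFun (rep_unique hf hg) x

theorem rep_mul {f g : AutX} {m m' : Modif} (hf : Rep (ev f) m)
    (hg : Rep (ev g) m') : Rep (ev (f * g)) (fun y c => m y (m' y c)) :=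
  fun y hy c k x hx => hf y hy (m' y c) k (ev g x) (hg y hy c k x hx)

theorem rep_one : Rep (ev 1) (fun _ c => c) := rep_id

end Pool.Agent.R200.Rs
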