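import Pool.Agent.R200.RsWord

/-!
# Markers, uniqueness of decompositions, aperiodicity
-/

namespace Pool.Agent.R200.Rs

theorem Th_add (y c : ℤ → Bool) (i : ℤ) (r : ℕ) (hr : r < 4) :
    Th y c (4 * i + r) = bk (y i) (c i) r := by
  unfold Th
  have h1 : (4 * i + (r : ℤ)) / 4 = i := by omega
  have h2 : ((4 * i + (r : ℤ)) % 4).toNat = r := by omega
  rw [h1, h2]

theorem Th_at (y c : ℤ → Bool) (i n : ℤ) (r : ℕ) (hr : r < 4) (h : n = 4 * i + r) :
    Th y c n = bk (y i) (c i) r := by
  rw [h]; exact Th_add y c i r hr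

/-- The marker: two letters `a` with choices `abaa` and `aaba`. -/
def Mk (y c : ℤ → Bool) (i : ℤ) : Prop :=
  y i = false ∧ y (i + 1) = false ∧ c i = false ∧ c (i + 1) = true

theorem Mk_run {y c : ℤ → Bool} {i : ℤ} (h : Mk y c i) :
    Th y c (4 * i + 2) = false ∧ Th y c (4 * i + 3) = false ∧ Th y c (4 * i + 4) = false ∧
      Th y c (4 * i + 5) = false := by
  obtain ⟨h1, h2, h3, h4⟩ := h
  refine ⟨?_, ?_, ?_, ?_⟩
  · rw [Th_at y c i _ 2 (by norm_num) (by push_cast; ring), h1, h3]; rfl
  · rw [Th_at y c i _ 3 (by norm_num) (by push_cast; ring), h1, h3]; rfl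
  · rw [Th_at y c (i + 1) _ 0 (by norm_num) (by push_cast; ring), h2, h4]; rfl
  · rw [Th_at y c (i + 1) _ 1 (by norm_num) (by push_cast; ring), h2, h4]; rfl

theorem run_mod {y c : ℤ → Bool} {n : ℤ} (h0 : Th y c n = false) (h1 : Th y c (n + 1) = false)
    (h2 : Th y c (n + 2) = false) (h3 : Th y c (n + 3) = false) : n % 4 = 2 := by
  have hn : n = 4 * (n / 4) + n % 4 := by omega
  have hlt : n % 4 < 4 := by omega
  have hge : 0 ≤ n % 4 := by omega
  generalize n % 4 = r at *
  generalize n / 4 = i at *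
  subst hn
  generalize e1 : y i = l at *
  generalize e2 : c i = d at *
  generalize e3 : y (i + 1) = l' at *
  generalize e4 : c (i + 1) = d' at *
  interval_cases r
  · exfalso
    rw [Th_at y c i _ 0 (by norm_num) (by push_cast; ring), e1, e2] at h0
    rw [Th_at y c i _ 1 (by norm_num) (by push_cast; ring), e1, e2] at h1
    rw [Th_at y c i _ 2 (by norm_num) (by push_cast; ring), e1, e2] at h2
    rw [Th_at y c i _ 3 (by norm_num) (by push_cast; ring), e1, e2] at h3
    cases l <;> cases d <;> simp [bk] at h0 h1 h2 h3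
  · exfalso
    rw [Th_at y c i _ 1 (by norm_num) (by push_cast; ring), e1, e2] at h0
    rw [Th_at y c i _ 2 (by norm_num) (by push_cast; ring), e1, e2] at h1
    rw [Th_at y c i _ 3 (by norm_num) (by push_cast; ring), e1, e2] at h2
    cases l <;> cases d <;> simp [bk] at h0 h1 h2
  · rfl
  · exfalso
    rw [Th_at y c (i + 1) _ 0 (by norm_num) (by push_cast; ring), e3, e4] at h1
    rw [Th_at y c (i + 1) _ 1 (by norm_num) (by push_cast; ring), e3, e4] at h2
    rw [Th_at y c (i + 1) _ 2 (by norm_num) (by push_cast; ring), e3, e4] at h3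
    cases l' <;> cases d' <;> simp [bk] at h1 h2 h3

theorem bk_inj : ∀ l c l' c' : Bool, bk l c 0 = bk l' c' 0 → bk l c 1 = bk l' c' 1 →
    bk l c 2 = bk l' c' 2 → bk l c 3 = bk l' c' 3 → l = l' ∧ c = c' := by decide

theorem Th_inj {y c y' c' : ℤ → Bool} (h : ∀ n, Th y c n = Th y' c' n) : y = y' ∧ c = c' := by
  have key : ∀ i, y i = y' i ∧ c i = c' i := by
    intro i
    apply bk_inj
    · rw [← Th_add y c i 0 (by norm_num), ← Th_add y' c' i 0 (by norm_num)]; exact h _
    · rw [← Th_add y c i 1 (by norm_num), ← Th_add y' c' i 1 (by norm_num)]; exact h _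
    · rw [← Th_add y c i 2 (by norm_num), ← Th_add y' c' i 2 (by norm_num)]; exact h _
    · rw [← Th_add y c i 3 (by norm_num), ← Th_add y' c' i 3 (by norm_num)]; exact h _
  exact ⟨funext fun i => (key i).1, funext fun i => (key i).2⟩

/-- A point with a marker has only one decomposition. -/
theorem decomposition_unique {y c y' c' : ℤ → Bool} {k k' : Fin 4} {i : ℤ} (hm : Mk y c i)
    (h : qq y c (k : ℕ) = qq y' c' (k' : ℕ)) : k = k' ∧ y = y' ∧ c = c' := by
  have hh : ∀ m : ℤ, Th y c m = Th y' c' (m - (k : ℕ) + (k' : ℕ)) := by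
    intro m
    have := congrFun h (m - (k : ℕ))
    unfold qq at this
    rwa [sub_add_cancel] at this
  obtain ⟨r0, r1, r2, r3⟩ := Mk_run hm
  have hmod := run_mod (y := y') (c := c') (n := 4 * i + 2 - (k : ℕ) + (k' : ℕ))
    (by rw [← hh]; exact r0)
    (by
      rw [show (4 * i + 2 - ((k : ℕ) : ℤ) + (k' : ℕ) + 1) = (4 * i + 3) - (k : ℕ) + (k' : ℕ) by ring,
        ← hh]; exact r1)
    (by
      rw [show (4 * i + 2 - ((k : ℕ) : ℤ) + (k' : ℕ) + 2) = (4 * i + 4) - (k : ℕ) + (k' : ℕ) by ring,
        ← hh]; exact r2)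
    (by
      rw [show (4 * i + 2 - ((k : ℕ) : ℤ) + (k' : ℕ) + 3) = (4 * i + 5) - (k : ℕ) + (k' : ℕ) by ring,
        ← hh]; exact r3)
  have hk := k.2
  have hk' := k'.2
  have hkk : (k : ℕ) = (k' : ℕ) := by omega
  refine ⟨Fin.ext hkk, ?_⟩
  apply Th_inj
  intro n
  rw [hh n, hkk, sub_add_cancel]

/-! ### Aperiodicity -/

theorem per_one : ∀ l c L C L' C' : Bool, bk L C 1 = bk l c 0 → bk L C 2 = bk l c 1 →
    bk L C 3 = bk l c 2 → bk L' C' 0 = bk l c 3 → ¬ (l = false ∧ c = true) ∧
      (¬ (L = false ∧ C = true) → L = true) := by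
  intro l c L C L' C'
  cases l <;> cases c <;> cases L <;> cases C <;> cases L' <;> cases C' <;> simp [bk]

theorem per_three : ∀ l c L C L' C' : Bool, bk L C 3 = bk l c 0 → bk L' C' 0 = bk l c 1 →
    bk L' C' 1 = bk l c 2 → bk L' C' 2 = bk l c 3 → ¬ (l = false ∧ c = false) ∧
      (¬ (L' = false ∧ C' = false) → L' = true) := by
  intro l c L C L' C'
  cases l <;> cases c <;> cases L <;> cases C <;> cases L' <;> cases C' <;> simp [bk]

theorem per_two : ∀ l c L C L' C' : Bool, bk L C 2 = bk l c 0 → bk L C 3 = bk l c 1 →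
    bk L' C' 0 = bk l c 2 → bk L' C' 1 = bk l c 3 → L = !L' ∨ (L = true ∧ L' = true) := by
  intro l c L C L' C'
  cases l <;> cases c <;> cases L <;> cases C <;> cases L' <;> cases C' <;> simp [bk]

theorem per_two' : ∀ l c : Bool, bk l c 2 = bk l c 0 → bk l c 3 = bk l c 1 → l = true := by
  decide

theorem aperiodic : ∀ (p : ℕ), 1 ≤ p → ∀ x ∈ XX, ¬ ∀ n : ℤ, x (n + p) = x n := by
  intro p
  induction p using Nat.strong_induction_on with
  | _ p ih =>
    intro hp x hx hper
    obtain ⟨y, c, k, hy, rfl⟩ := exists_decomposition hx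
    have hT : ∀ n : ℤ, Th y c (n + p) = Th y c n := by
      intro n
      have := hper (n - (k : ℕ))
      unfold qq at this
      rw [show n - ((k : ℕ) : ℤ) + p + (k : ℕ) = n + p by ring, sub_add_cancel] at this
      exact this
    have hcase : p % 4 = 0 ∨ p % 4 = 1 ∨ p % 4 = 2 ∨ p % 4 = 3 := by omega
    set r : ℕ := p / 4 with hr
    rcases hcase with h | h | h | h
    · have hpr : p = 4 * r := by omega
      apply ih r (by omega) (by omega) y hy
      intro j
      have key : ∀ s : ℕ, s < 4 → bk (y (j + r)) (c (j + r)) s = bk (y j) (c j) s := by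
        intro s hs
        rw [← Th_add y c (j + r) s hs, ← Th_add y c j s hs, ← hT (4 * j + s)]
        congr 1
        rw [hpr]; push_cast; ring
      exact (bk_inj _ _ _ _ (key 0 (by norm_num)) (key 1 (by norm_num)) (key 2 (by norm_num))
        (key 3 (by norm_num))).1
    · have hpr : p = 4 * r + 1 := by omega
      have key := fun j : ℤ => per_one (y j) (c j) (y (j + r)) (c (j + r)) (y (j + r + 1))
        (c (j + r + 1))
        (by
          rw [← Th_add y c j 0 (by norm_num), ← hT]
          rw [Th_at y c (j + r) _ 1 (by norm_num) (by rw [hpr]; push_cast; ring)])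
        (by
          rw [← Th_add y c j 1 (by norm_num), ← hT]
          rw [Th_at y c (j + r) _ 2 (by norm_num) (by rw [hpr]; push_cast; ring)])
        (by
          rw [← Th_add y c j 2 (by norm_num), ← hT]
          rw [Th_at y c (j + r) _ 3 (by norm_num) (by rw [hpr]; push_cast; ring)])
        (by
          rw [← Th_add y c j 3 (by norm_num), ← hT]
          rw [Th_at y c (j + r + 1) _ 0 (by norm_num) (by rw [hpr]; push_cast; ring)])
      have hall : ∀ j : ℤ, y (j + r) = true := fun j => (key j).2 (key (j + r)).1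
      apply nobb hy (0 + r)
      refine ⟨hall 0, ?_⟩
      have := hall 1
      rwa [show (1 : ℤ) + r = 0 + r + 1 by ring] at this
    · have hpr : p = 4 * r + 2 := by omega
      have e0 : ∀ j : ℤ, bk (y (j + r)) (c (j + r)) 2 = bk (y j) (c j) 0 := by
        intro j
        rw [← Th_add y c j 0 (by norm_num), ← hT]
        rw [Th_at y c (j + r) _ 2 (by norm_num) (by rw [hpr]; push_cast; ring)]
      have e1 : ∀ j : ℤ, bk (y (j + r)) (c (j + r)) 3 = bk (y j) (c j) 1 := by
        intro j
        rw [← Th_add y c j 1 (by norm_num), ← hT]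
        rw [Th_at y c (j + r) _ 3 (by norm_num) (by rw [hpr]; push_cast; ring)]
      have e2 : ∀ j : ℤ, bk (y (j + r + 1)) (c (j + r + 1)) 0 = bk (y j) (c j) 2 := by
        intro j
        rw [← Th_add y c j 2 (by norm_num), ← hT]
        rw [Th_at y c (j + r + 1) _ 0 (by norm_num) (by rw [hpr]; push_cast; ring)]
      have e3 : ∀ j : ℤ, bk (y (j + r + 1)) (c (j + r + 1)) 1 = bk (y j) (c j) 3 := by
        intro j
        rw [← Th_add y c j 3 (by norm_num), ← hT]
        rw [Th_at y c (j + r + 1) _ 1 (by norm_num) (by rw [hpr]; push_cast; ring)]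
      rcases Nat.eq_zero_or_pos r with hr0 | hr0
      · have hall : ∀ j : ℤ, y j = true := by
          intro j
          have a0 := e0 j
          have a1 := e1 j
          rw [hr0] at a0 a1
          push_cast at a0 a1
          rw [add_zero] at a0 a1
          exact per_two' _ _ a0 a1
        exact nobb hy 0 ⟨hall _, hall _⟩
      · have halt : ∀ j : ℤ, y j = !(y (j + 1)) := by
          intro j
          have hh := per_two (y (j - r)) (c (j - r)) (y (j - r + r)) (c (j - r + r))
            (y (j - r + r + 1)) (c (j - r + r + 1)) (e0 _) (e1 _) (e2 _) (e3 _)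
          rw [sub_add_cancel] at hh
          rcases hh with hh | hh
          · exact hh
          · exact absurd hh (nobb hy j)
        apply ih 2 (by omega) (by norm_num) y hy
        intro n
        have a1 := halt n
        have a2 := halt (n + 1)
        rw [a1, a2, Bool.not_not]
        congr 1
        push_cast
        ring
    · have hpr : p = 4 * r + 3 := by omega
      have key := fun j : ℤ => per_three (y j) (c j) (y (j + r)) (c (j + r)) (y (j + r + 1))
        (c (j + r + 1))
        (by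
          rw [← Th_add y c j 0 (by norm_num), ← hT]
          rw [Th_at y c (j + r) _ 3 (by norm_num) (by rw [hpr]; push_cast; ring)])
        (by
          rw [← Th_add y c j 1 (by norm_num), ← hT]
          rw [Th_at y c (j + r + 1) _ 0 (by norm_num) (by rw [hpr]; push_cast; ring)])
        (by
          rw [← Th_add y c j 2 (by norm_num), ← hT]
          rw [Th_at y c (j + r + 1) _ 1 (by norm_num) (by rw [hpr]; push_cast; ring)])
        (by
          rw [← Th_add y c j 3 (by norm_num), ← hT]
          rw [Th_at y c (j + r + 1) _ 2 (by norm_num) (by rw [hpr]; push_cast; ring)])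
      have hall : ∀ j : ℤ, y (j + r + 1) = true := fun j => (key j).2 (key (j + r + 1)).1
      apply nobb hy (0 + r + 1)
      refine ⟨hall 0, ?_⟩
      have := hall 1
      rwa [show (1 : ℤ) + r + 1 = 0 + r + 1 + 1 by ring] at this

/-- Finite windows already show that small shifts differ. -/
theorem local_aperiodic (M : ℕ) : ∃ N : ℕ, ∀ y ∈ XX, ∀ j : ℕ, 1 ≤ j → j ≤ M →
    ∃ i : ℤ, -N ≤ i ∧ i ≤ N ∧ y (i + j) ≠ y i := by
  have hone : ∀ j : ℕ, 1 ≤ j → ∃ N : ℕ, ∀ y ∈ XX, ∃ i : ℤ, -N ≤ i ∧ i ≤ N ∧ y (i + j) ≠ y i := by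
    intro j hj
    by_contra hcon
    push Not at hcon
    have hclosed : ∀ N : ℕ, IsClosed {y : ℤ → Bool | y ∈ XX ∧
        ∀ i : ℤ, -N ≤ i → i ≤ N → y (i + j) = y i} := by
      intro N
      apply isClosed_XX.inter
      apply closed_of_fin _ (Finset.Icc (-N : ℤ) (N + j))
      intro x y hxy h i h1 h2
      rw [← hxy i (Finset.mem_Icc.2 ⟨h1, by omega⟩),
        ← hxy (i + j) (Finset.mem_Icc.2 ⟨by omega, by omega⟩)]
      exact h i h1 h2
    have hne : (⋂ N : ℕ, {y : ℤ → Bool | y ∈ XX ∧
        ∀ i : ℤ, -N ≤ i → i ≤ N → y (i + j) = y i}).Nonempty := by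
      apply IsCompact.nonempty_iInter_of_directed_nonempty_isCompact_isClosed
      · apply directed_of_isDirected_le
        intro m n hmn y hy
        exact ⟨hy.1, fun i h1 h2 => hy.2 i (by omega) (by omega)⟩
      · intro N
        obtain ⟨y, hy, hy2⟩ := hcon N
        exact ⟨y, hy, hy2⟩
      · intro N; exact (hclosed N).isCompact
      · exact hclosed
    obtain ⟨y, hy⟩ := hne
    rw [Set.mem_iInter] at hy
    apply aperiodic j hj y (hy 0).1
    intro n
    exact (hy n.natAbs).2 n (by omega) (by omega)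
  choose! f hf using hone
  refine ⟨∑ j ∈ Finset.range (M + 1), f j, ?_⟩
  intro y hy j h1 h2
  obtain ⟨i, h3, h4, h5⟩ := hf j h1 y hy
  have hle : f j ≤ ∑ j ∈ Finset.range (M + 1), f j :=
    Finset.single_le_sum (f := f) (fun _ _ => Nat.zero_le _) (Finset.mem_range.2 (by omega))
  exact ⟨i, by omega, by omega, h5⟩

end Pool.Agent.R200.Rs
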