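import Mathlib

/-!
# The random substitution `a ↦ {abaa, aaba}`, `b ↦ {abab, baba}`: definitions

The letter `a` is `false`, the letter `b` is `true`.
-/

namespace Pool.Agent.R200.Rs

/-- The words that the random substitution assigns to a letter. -/
def theta : Bool → List (List Bool)
  | false => [[false, true, false, false], [false, false, true, false]]
  | true => [[false, true, false, true], [true, false, true, false]]

/-- `Image u v`: the word `v` lies in `ϑ(u)`. -/
inductive Image : List Bool → List Bool → Prop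
  | nil : Image [] []
  | cons {l : Bool} {v u w : List Bool} : v ∈ theta l → Image u w → Image (l :: u) (v ++ w)

/-- `Iter k v`: the word `v` lies in `ϑ^k(a)`. -/
def Iter : ℕ → List Bool → Prop
  | 0, v => v = [false]
  | k + 1, v => ∃ u, Iter k u ∧ Image u v

/-- A word is legal if it is a subword of an element of some `ϑ^k(a)`. -/
def Legal (w : List Bool) : Prop := ∃ k v, Iter k v ∧ w <:+: v

/-- The subword `x_i x_{i+1} ⋯ x_{i+n-1}`. -/
def win (x : ℤ → Bool) (i : ℤ) (n : ℕ) : List Bool := (List.range n).map fun j : ℕ => x (i + (j : ℤ))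

/-- The subshift `X_ϑ`. -/
def XX : Set (ℤ → Bool) := {x | ∀ (i : ℤ) (n : ℕ), Legal (win x i n)}

/-- The left shift. -/
def sh (x : ℤ → Bool) : ℤ → Bool := fun n => x (n + 1)

/-- `f` is a self-homeomorphism of `X_ϑ` that commutes with the shift. -/
def IsAut (f : Equiv.Perm XX) : Prop :=
  Continuous f ∧ Continuous f.symm ∧
    ∀ x y : XX, (y : ℤ → Bool) = sh x → (f y : ℤ → Bool) = sh (f x)

theorem IsAut.mul {f g : Equiv.Perm XX} (hf : IsAut f) (hg : IsAut g) : IsAut (f * g) := by
  refine ⟨hf.1.comp hg.1, hg.2.1.comp hf.2.1, ?_⟩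
  intro x y hxy
  exact hf.2.2 _ _ (hg.2.2 _ _ hxy)

theorem IsAut.one : IsAut (1 : Equiv.Perm XX) := by
  refine ⟨continuous_id, continuous_id, ?_⟩
  intro x y hxy
  exact hxy

theorem IsAut.inv {f : Equiv.Perm XX} (hf : IsAut f) : IsAut f⁻¹ := by
  refine ⟨hf.2.1, hf.1, ?_⟩
  intro x y hxy
  have hmem : ∀ z : XX, sh z ∈ XX := by
    intro z i n
    have := z.2 (i + 1) n
    have e : win (sh z) i n = win z (i + 1) n := by
      unfold win sh
      apply List.map_congr_left
      intro j _
      have e : i + (j : ℤ) + 1 = i + 1 + j := by ring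
      rw [e]
    rw [e]; exact this
  have h := hf.2.2 (f⁻¹ x) ⟨sh (f⁻¹ x : XX), hmem _⟩ rfl
  have e1 : f (f⁻¹ x) = x := f.apply_symm_apply x
  rw [e1, ← hxy] at h
  have h2 : f ⟨sh (f⁻¹ x : XX), hmem _⟩ = y := Subtype.ext h
  have h3 : f⁻¹ y = ⟨sh (f⁻¹ x : XX), hmem _⟩ := by
    rw [← h2]; exact f.symm_apply_apply _
  rw [h3]

/-- The automorphism group `Aut(X_ϑ)`: homeomorphisms of `X_ϑ` that commute with the shift. -/
def AutX : Subgroup (Equiv.Perm XX) where
  carrier := {f | IsAut f}
  mul_mem' := IsAut.mul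
  one_mem' := IsAut.one
  inv_mem' := IsAut.inv

/-- Residual finiteness. -/
def ResFin (G : Type) [Group G] : Prop :=
  ∀ g : G, g ≠ 1 → ∃ (F : Type) (_ : Group F) (_ : Finite F) (φ : G →* F), φ g ≠ 1

end Pool.Agent.R200.Rs
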