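import Pool.Agent.R200.RsAut

/-!
# The automorphism group is not residually finite
-/

namespace Pool.Agent.R200.Rs

/-- A marker followed by a letter `b`. -/
def act0 (y c : ℤ → Bool) (i : ℤ) : Prop :=
  y i = false ∧ y (i + 1) = false ∧ y (i + 2) = true ∧ c i = false ∧ c (i + 1) = true

/-- A marker followed by a letter `b`, with a prescribed neighbourhood. -/
def act (N : ℕ) (w : List Bool) (y c : ℤ → Bool) (i : ℤ) : Prop :=
  win y (i - N) (2 * N + 1) = w ∧ act0 y c i

theorem act0_sh (y c : ℤ → Bool) (i : ℤ) : act0 (sh y) (sh c) i ↔ act0 y c (i + 1) := by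
  unfold act0 sh
  have e1 : i + 1 + 1 = i + 1 + 1 := rfl
  have e2 : i + 2 + 1 = i + 1 + 2 := by ring
  rw [e2]

theorem win_sh (y : ℤ → Bool) (i : ℤ) (n : ℕ) : win (sh y) i n = win y (i + 1) n := by
  unfold win sh
  apply List.map_congr_left
  intro j _
  have e : i + (j : ℤ) + 1 = i + 1 + j := by ring
  rw [e]

theorem act_sh (N : ℕ) (w : List Bool) (y c : ℤ → Bool) (i : ℤ) :
    act N w (sh y) (sh c) i ↔ act N w y c (i + 1) := by
  unfold act
  rw [act0_sh, win_sh]
  have e2 : i - N + 1 = i + 1 - (N : ℤ) := by ring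
  rw [e2]

theorem act0_congr {y c y' c' : ℤ → Bool} {i : ℤ}
    (h : ∀ j, i ≤ j → j ≤ i + 2 → y j = y' j ∧ c j = c' j) : act0 y c i ↔ act0 y' c' i := by
  unfold act0
  rw [(h i (by omega) (by omega)).1, (h (i + 1) (by omega) (by omega)).1,
    (h (i + 2) (by omega) (by omega)).1, (h i (by omega) (by omega)).2,
    (h (i + 1) (by omega) (by omega)).2]

theorem act_congr {N : ℕ} {w : List Bool} {y c y' c' : ℤ → Bool} {i : ℤ}
    (h : ∀ j, i - N - 2 ≤ j → j ≤ i + N + 2 → y j = y' j ∧ c j = c' j) :
    act N w y c i ↔ act N w y' c' i := by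
  unfold act
  rw [act0_congr (fun j h1 h2 => h j (by omega) (by omega))]
  rw [win_congr (x := y) (y := y') (fun j h1 h2 => (h j (by omega) (by push_cast at h2; omega)).1)]

open Classical in
/-- Apply `π` to the `M` choices following each active marker. -/
noncomputable def modp (N M : ℕ) (w : List Bool) (π : (Fin M → Bool) → (Fin M → Bool)) : Modif :=
  fun y c n => if h : ∃ j : Fin M, act N w y c (n - 2 - (j : ℕ)) then
    π (fun l => c (n - (h.choose : ℕ) + (l : ℕ))) h.choose else c n

/-- Points of a sequence with the same neighbourhood are far apart. -/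
def Sep (N M : ℕ) (y : ℤ → Bool) : Prop :=
  ∀ i i' : ℤ, win y (i - N) (2 * N + 1) = win y (i' - N) (2 * N + 1) → i' ≤ i + M + 2 →
    i ≤ i' + M + 2 → i = i'

theorem exists_sep (M : ℕ) : ∃ N : ℕ, ∀ y ∈ XX, Sep N M y := by
  obtain ⟨N, hN⟩ := local_aperiodic (M + 2)
  refine ⟨N, ?_⟩
  intro y hy
  have hlt : ∀ i i' : ℤ, win y (i - N) (2 * N + 1) = win y (i' - N) (2 * N + 1) → i < i' →
      i' ≤ i + M + 2 → False := by
    intro i i' hw h1 h2
    obtain ⟨s, hs1, hs2, hs3⟩ := hN _ (shift_mem hy i) (i' - i).toNat (by omega) (by omega)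
    apply hs3
    have g1 := win_getD y (i - N) (2 * N + 1) (s + N).toNat (by omega)
    have g2 := win_getD y (i' - N) (2 * N + 1) (s + N).toNat (by omega)
    rw [hw, g2] at g1
    have e1 : i - N + ((s + N).toNat : ℤ) = s + i := by omega
    have e2 : i' - N + ((s + N).toNat : ℤ) = s + ((i' - i).toNat : ℤ) + i := by omega
    rw [e1, e2] at g1
    exact g1
  intro i i' hw h1 h2
  rcases lt_trichotomy i i' with h | h | h
  · exact (hlt i i' hw h h1).elim
  · exact h
  · exact (hlt i' i hw.symm h h2).elim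

section
variable {N M : ℕ} {w : List Bool} {y : ℤ → Bool}

theorem modp_act (hs : Sep N M y) (π : (Fin M → Bool) → (Fin M → Bool)) {c : ℤ → Bool} {i : ℤ}
    (ha : act N w y c i) (j : Fin M) :
    modp N M w π y c (i + 2 + (j : ℕ)) = π (fun l => c (i + 2 + (l : ℕ))) j := by
  have h : ∃ j' : Fin M, act N w y c (i + 2 + (j : ℕ) - 2 - (j' : ℕ)) :=
    ⟨j, by rw [show i + 2 + ((j : ℕ) : ℤ) - 2 - (j : ℕ) = i by ring]; exact ha⟩
  have hch := h.choose_spec
  have hj := j.2
  have hj' := h.choose.2
  have e := hs i _ (ha.1.trans hch.1.symm) (by omega) (by omega)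
  have e2 : h.choose = j := by
    apply Fin.ext
    omega
  unfold modp
  rw [dif_pos h, e2]
  congr 1
  funext l
  congr 1
  ring

theorem modp_not (π : (Fin M → Bool) → (Fin M → Bool)) {c : ℤ → Bool} {n : ℤ}
    (ha : ∀ j : Fin M, ¬ act N w y c (n - 2 - (j : ℕ))) : modp N M w π y c n = c n := by
  unfold modp
  rw [dif_neg (fun ⟨j, hj⟩ => ha j hj)]

/-- The active markers are not changed. -/
theorem act_modp (hs : Sep N M y) (π : (Fin M → Bool) → (Fin M → Bool)) (c : ℤ → Bool) (i : ℤ) :
    act N w y (modp N M w π y c) i ↔ act N w y c i := by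
  unfold act
  apply and_congr_right
  intro hw
  have h0 : modp N M w π y c i = c i := by
    apply modp_not
    intro j hj
    have := hs i _ (hw.trans hj.1.symm) (by omega) (by have := j.2; omega)
    omega
  have h1 : modp N M w π y c (i + 1) = c (i + 1) := by
    apply modp_not
    intro j hj
    have := hs i _ (hw.trans hj.1.symm) (by omega) (by have := j.2; omega)
    omega
  unfold act0
  rw [h0, h1]

theorem modp_comp (hs : Sep N M y) (π π' : (Fin M → Bool) → (Fin M → Bool)) (c : ℤ → Bool) :
    modp N M w π y (modp N M w π' y c) = modp N M w (fun f => π (π' f)) y c := by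
  funext n
  by_cases h : ∃ j : Fin M, act N w y c (n - 2 - (j : ℕ))
  · obtain ⟨j, hj⟩ := h
    have hn : n = (n - 2 - (j : ℕ)) + 2 + (j : ℕ) := by ring
    have hj' := (act_modp (w := w) hs π' c _).2 hj
    rw [hn, modp_act hs π hj', modp_act hs _ hj]
    congr 1
    funext l
    rw [modp_act hs π' hj]
  · push Not at h
    rw [modp_not _ h, modp_not _ (fun j hj => h j ((act_modp hs π' c _).1 hj)), modp_not _ h]

theorem modp_id (hs : Sep N M y) (c : ℤ → Bool) : modp N M w (fun f => f) y c = c := by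
  funext n
  by_cases h : ∃ j : Fin M, act N w y c (n - 2 - (j : ℕ))
  · obtain ⟨j, hj⟩ := h
    have hn : n = (n - 2 - (j : ℕ)) + 2 + (j : ℕ) := by ring
    rw [hn, modp_act hs _ hj]
  · push Not at h
    rw [modp_not _ h]

end

theorem modp_good (N M : ℕ) (w : List Bool) (π : (Fin M → Bool) → (Fin M → Bool)) :
    Good (modp N M w π) := by
  refine ⟨?_, ?_, ?_⟩
  · intro n
    refine ⟨Finset.Icc (n - N - M - 4) (n + N + M + 4), ?_⟩
    intro y c y' c' h
    have hag : ∀ j : ℤ, n - N - M - 4 ≤ j → j ≤ n + N + M + 4 → y j = y' j ∧ c j = c' j :=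
      fun j h1 h2 => h j (Finset.mem_Icc.2 ⟨h1, h2⟩)
    have hact : (fun j : Fin M => act N w y c (n - 2 - (j : ℕ))) =
        (fun j : Fin M => act N w y' c' (n - 2 - (j : ℕ))) := by
      funext j
      have hj := j.2
      apply propext
      apply act_congr
      intro l h1 h2
      exact hag l (by omega) (by omega)
    unfold modp
    have hcc : ∀ j : Fin M, (fun l : Fin M => c (n - (j : ℕ) + (l : ℕ))) =
        (fun l : Fin M => c' (n - (j : ℕ) + (l : ℕ))) := by
      intro j
      funext l
      have hj := j.2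
      have hl := l.2
      exact (hag _ (by omega) (by omega)).2
    have hex : (∃ j : Fin M, act N w y c (n - 2 - (j : ℕ))) ↔
        (∃ j : Fin M, act N w y' c' (n - 2 - (j : ℕ))) := by
      constructor
      · rintro ⟨j, hj⟩; exact ⟨j, by rw [← congrFun hact j]; exact hj⟩
      · rintro ⟨j, hj⟩; exact ⟨j, by rw [congrFun hact j]; exact hj⟩
    by_cases h1 : ∃ j : Fin M, act N w y c (n - 2 - (j : ℕ))
    · have h2 := hex.1 h1
      rw [dif_pos h1, dif_pos h2]
      have e : h1.choose = h2.choose := by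
        unfold Exists.choose
        congr 1
      rw [e, hcc]
    · have h2 := fun h => h1 (hex.2 h)
      rw [dif_neg h1, dif_neg h2]
      exact (hag n (by omega) (by omega)).2
  · intro y c
    funext n
    have hact : (fun j : Fin M => act N w (sh y) (sh c) (n - 2 - (j : ℕ))) =
        (fun j : Fin M => act N w y c (n + 1 - 2 - (j : ℕ))) := by
      funext j
      rw [act_sh]
      congr 1
      ring
    have hex : (∃ j : Fin M, act N w (sh y) (sh c) (n - 2 - (j : ℕ))) ↔
        (∃ j : Fin M, act N w y c (n + 1 - 2 - (j : ℕ))) := by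
      constructor
      · rintro ⟨j, hj⟩; exact ⟨j, by rw [← congrFun hact j]; exact hj⟩
      · rintro ⟨j, hj⟩; exact ⟨j, by rw [congrFun hact j]; exact hj⟩
    show modp N M w π (sh y) (sh c) n = modp N M w π y c (n + 1)
    unfold modp
    by_cases h1 : ∃ j : Fin M, act N w (sh y) (sh c) (n - 2 - (j : ℕ))
    · have h2 := hex.1 h1
      rw [dif_pos h1, dif_pos h2]
      have e : h1.choose = h2.choose := by
        unfold Exists.choose
        congr 1
      rw [e]
      congr 1
      funext l
      unfold sh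
      congr 1
      ring
    · have h2 := fun h => h1 (hex.2 h)
      rw [dif_neg h1, dif_neg h2]
      rfl
  · intro y c hM
    funext n
    apply modp_not
    intro j hj
    exact hM _ ⟨hj.2.1, hj.2.2.1, hj.2.2.2.2.1, hj.2.2.2.2.2⟩

/-- The homomorphism from the symmetric group. -/
theorem exists_hom {N M : ℕ} (hN : ∀ y ∈ XX, Sep N M y) (w : List Bool) :
    ∃ Ψ : Equiv.Perm (Fin M → Bool) →* AutX,
      ∀ π : Equiv.Perm (Fin M → Bool), Rep (ev (Ψ π)) (modp N M w π) := by
  have hex : ∀ π : Equiv.Perm (Fin M → Bool), ∃ f : AutX, Rep (ev f) (modp N M w π) := by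
    intro π
    apply exists_aut (modp_good N M w π) (modp_good N M w (π⁻¹ : Equiv.Perm (Fin M → Bool)))
    · intro y hy c
      rw [modp_comp (hN y hy)]
      have : (fun f => π ((π⁻¹ : Equiv.Perm (Fin M → Bool)) f)) = fun f => f := by
        funext f; simp
      rw [this, modp_id (hN y hy)]
    · intro y hy c
      rw [modp_comp (hN y hy)]
      have : (fun f => (π⁻¹ : Equiv.Perm (Fin M → Bool)) (π f)) = fun f => f := by
        funext f; simp
      rw [this, modp_id (hN y hy)]
  choose Ψ hΨ using hex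
  refine ⟨MonoidHom.mk' Ψ ?_, hΨ⟩
  intro π π'
  apply aut_ext (hΨ (π * π'))
  exact rep_congr (rep_mul (hΨ π) (hΨ π')) (fun y hy c => modp_comp (hN y hy) _ _ c)

open Classical in
/-- Flip the choice for the letter `b` following a marker, when the neighbourhood is in `U`. -/
noncomputable def togU (N : ℕ) (U : Set (List Bool)) : Modif := fun y c n =>
  if act0 y c (n - 2) ∧ win y (n - 2 - N) (2 * N + 1) ∈ U then !(c n) else c n

open Classical in
/-- Flip the choice for the letter `b` following a marker. -/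
noncomputable def tg : Modif := fun y c n => if act0 y c (n - 2) then !(c n) else c n

theorem modp_tog {N n : ℕ} {w : List Bool} {y : ℤ → Bool} (hs : Sep N (n + 1) y) (c : ℤ → Bool) :
    modp N (n + 1) w (tog n) y c = togU N {w} y c := by
  funext m
  unfold togU
  by_cases h : ∃ j : Fin (n + 1), act N w y c (m - 2 - (j : ℕ))
  · obtain ⟨j, hj⟩ := h
    have hm : m = (m - 2 - (j : ℕ)) + 2 + (j : ℕ) := by ring
    rcases Fin.eq_zero_or_eq_succ j with h0 | ⟨j', h0⟩
    · subst h0
      have hj0 : act N w y c (m - 2) := by simpa using hj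
      have e := modp_act hs (tog n) hj 0
      rw [← hm] at e
      rw [e, tog_zero, if_pos ⟨hj0.2, hj0.1⟩]
      congr 2
      simp
    · subst h0
      have e := modp_act hs (tog n) hj j'.succ
      rw [← hm] at e
      rw [e, tog_succ, ← hm, if_neg]
      rintro ⟨h1, h2⟩
      have hlt := j'.2
      have hs' := hs (m - 2 - ((j'.succ : Fin (n + 1)) : ℕ)) (m - 2)
        (hj.1.trans (Set.mem_singleton_iff.1 h2).symm)
        (by rw [Fin.val_succ]; push_cast; omega) (by omega)
      rw [Fin.val_succ] at hs'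
      push_cast at hs'
      omega
  · push Not at h
    rw [modp_not _ h, if_neg]
    rintro ⟨h1, h2⟩
    apply h 0
    refine ⟨?_, ?_⟩
    · simpa using h2
    · simpa using h1

open Classical in
theorem togU_insert {N : ℕ} {U : Set (List Bool)} {w : List Bool} (hw : w ∉ U)
    (y c : ℤ → Bool) : togU N {w} y (togU N U y c) = togU N (insert w U) y c := by
  have hb : ∀ n, y n = false → togU N U y c n = c n := by
    intro n hn
    unfold togU
    rw [if_neg]
    rintro ⟨h1, -⟩
    have := h1.2.2.1
    rw [sub_add_cancel, hn] at this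
    exact Bool.noConfusion this
  have hact : ∀ i, act0 y (togU N U y c) i ↔ act0 y c i := by
    intro i
    unfold act0
    constructor
    · rintro ⟨h1, h2, h3, h4, h5⟩
      rw [hb i h1] at h4
      rw [hb _ h2] at h5
      exact ⟨h1, h2, h3, h4, h5⟩
    · rintro ⟨h1, h2, h3, h4, h5⟩
      rw [← hb i h1] at h4
      rw [← hb _ h2] at h5
      exact ⟨h1, h2, h3, h4, h5⟩
  funext n
  have e : togU N {w} y (togU N U y c) n = if act0 y c (n - 2) ∧
      win y (n - 2 - N) (2 * N + 1) ∈ ({w} : Set (List Bool)) then !(togU N U y c n)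
      else togU N U y c n := by
    have e0 : ∀ c' : ℤ → Bool, togU N {w} y c' n = if act0 y c' (n - 2) ∧
      win y (n - 2 - N) (2 * N + 1) ∈ ({w} : Set (List Bool)) then !(c' n) else c' n :=
      fun c' => by unfold togU; congr
    rw [e0, hact]
  rw [e]
  by_cases h0 : act0 y c (n - 2)
  · by_cases h1 : win y (n - 2 - N) (2 * N + 1) = w
    · rw [if_pos ⟨h0, h1⟩]
      unfold togU
      rw [if_neg (fun h => hw (h1 ▸ h.2)), if_pos ⟨h0, Or.inl h1⟩]
    · rw [if_neg (fun h => h1 h.2)]
      unfold togU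
      by_cases h2 : win y (n - 2 - N) (2 * N + 1) ∈ U
      · rw [if_pos ⟨h0, h2⟩, if_pos ⟨h0, Or.inr h2⟩]
      · rw [if_neg (fun h => h2 h.2), if_neg]
        rintro ⟨-, h3 | h3⟩
        · exact h1 h3
        · exact h2 h3
  · rw [if_neg (fun h => h0 h.1)]
    unfold togU
    rw [if_neg (fun h => h0 h.1), if_neg (fun h => h0 h.1)]

/-- The toggle is represented by an automorphism that is killed by every homomorphism to a finite
group. -/
theorem tg_killed (F : Type) [Group F] [Finite F] (φ : AutX →* F) :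
    ∃ f : AutX, Rep (ev f) tg ∧ φ f = 1 := by
  classical
  set n : ℕ := Nat.card F + 1 with hn
  obtain ⟨N, hN⟩ := exists_sep (n + 1)
  have hcard : Nat.card F + 1 < Fintype.card (Fin (n + 1) → Bool) := by
    rw [Fintype.card_fun, Fintype.card_bool, Fintype.card_fin]
    have : n + 1 < 2 ^ (n + 1) := Nat.lt_pow_self (by norm_num)
    omega
  have hone : ∀ w : List Bool, ∃ f : AutX, Rep (ev f) (togU N {w}) ∧ φ f = 1 := by
    intro w
    obtain ⟨Ψ, hΨ⟩ := exists_hom hN w
    refine ⟨Ψ (tog n), ?_, ?_⟩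
    · exact rep_congr (hΨ (tog n)) (fun y hy c => modp_tog (hN y hy) c)
    · exact kills_even hcard (φ.comp Ψ) (tog n) (sign_tog n (by omega))
  have hall : ∀ U : Finset (List Bool), ∃ f : AutX,
      Rep (ev f) (togU N (U : Set (List Bool))) ∧ φ f = 1 := by
    intro U
    induction U using Finset.induction_on with
    | empty =>
      refine ⟨1, ?_, map_one φ⟩
      apply rep_congr rep_one
      intro y _ c
      funext m
      unfold togU
      rw [if_neg (fun h => by simpa using h.2)]
    | insert w U hw ih =>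
      obtain ⟨f, hf, hφ⟩ := ih
      obtain ⟨g, hg, hφg⟩ := hone w
      refine ⟨g * f, ?_, by rw [map_mul, hφ, hφg, mul_one]⟩
      refine rep_congr (rep_mul hg hf) ?_
      intro y _ c
      rw [Finset.coe_insert]
      exact togU_insert (by simpa using hw) y c
  obtain ⟨f, hf, hφ⟩ := hall (List.finite_length_eq Bool (2 * N + 1)).toFinset
  refine ⟨f, rep_congr hf ?_, hφ⟩
  intro y _ c
  funext m
  unfold togU tg
  have : win y (m - 2 - N) (2 * N + 1) ∈
      (((List.finite_length_eq Bool (2 * N + 1)).toFinset : Finset (List Bool)) :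
        Set (List Bool)) := by
    rw [Set.Finite.coe_toFinset]
    exact win_length _ _ _
  by_cases h : act0 y c (m - 2)
  · rw [if_pos ⟨h, this⟩, if_pos h]
  · rw [if_neg (fun h' => h h'.1), if_neg h]

theorem exists_start : ∃ y ∈ XX, y 0 = false ∧ y 1 = false ∧ y 2 = true := by
  obtain ⟨x, hx⟩ := XX_nonempty
  have hfalse : ∃ i, x i = false := by
    by_contra hcon
    push Not at hcon
    have h0 : x 0 = true := by simpa using hcon 0
    have h1 : x (0 + 1) = true := by simpa using hcon (0 + 1)
    exact nobb hx 0 ⟨h0, h1⟩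
  obtain ⟨i, hi⟩ := hfalse
  refine ⟨qq (fun n => x (n + i)) (fun _ => true) 0, qq_mem (shift_mem hx i) _ _, ?_, ?_, ?_⟩
  · unfold qq
    rw [Th_at _ _ 0 _ 0 (by norm_num) (by norm_num)]
    simp only [zero_add, hi]
    rfl
  · unfold qq
    rw [Th_at _ _ 0 _ 1 (by norm_num) (by norm_num)]
    simp only [zero_add, hi]
    rfl
  · unfold qq
    rw [Th_at _ _ 0 _ 2 (by norm_num) (by norm_num)]
    simp only [zero_add, hi]
    rfl

theorem main : ∃ g : AutX, g ≠ 1 ∧ ∀ (F : Type) [Group F] [Finite F] (φ : AutX →* F), φ g = 1 := by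
  obtain ⟨g, hg, -⟩ := tg_killed Unit (1 : AutX →* Unit)
  refine ⟨g, ?_, ?_⟩
  · intro h1
    obtain ⟨y, hy, h0, h1', h2⟩ := exists_start
    let c : ℤ → Bool := fun n => decide (n = 1)
    have hact : act0 y c 0 := by
      refine ⟨h0, ?_, ?_, ?_, ?_⟩
      · simpa using h1'
      · simpa using h2
      · simp [c]
      · simp [c]
    have hx := hg y hy c 0 ⟨qq y c 0, qq_mem hy c 0⟩ rfl
    rw [h1] at hx
    have h8 := congrFun hx 8
    have e1 : qq y c 0 8 = bk (y 2) (c 2) 0 := by
      unfold qq
      exact Th_at y c 2 _ 0 (by norm_num) (by norm_num)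
    have e2 : qq y (tg y c) ((0 : Fin 4) : ℕ) 8 = bk (y 2) (tg y c 2) 0 := by
      unfold qq
      exact Th_at y (tg y c) 2 _ 0 (by norm_num) (by simp)
    have e3 : tg y c 2 = !(c 2) := by
      unfold tg
      rw [if_pos (by simpa using hact)]
    have e4 : c 2 = false := by simp [c]
    change qq y c 0 8 = _ at h8
    rw [e1, e2, e3, e4, h2] at h8
    simp [bk] at h8
  · intro F _ _ φ
    obtain ⟨f, hf, hφ⟩ := tg_killed F φ
    rw [aut_ext hg hf]
    exact hφ

end Pool.Agent.R200.Rs
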