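import Pool.Agent.R200.RsDefs

/-!
# Legal words and decompositions
-/

namespace Pool.Agent.R200.Rs

/-- The letter number `r` of the block chosen by `c` for the letter `l`. -/
def bk (l c : Bool) (r : ℕ) : Bool :=
  match l, c, r with
  | false, false, 1 => true
  | false, true, 2 => true
  | true, false, 1 => true
  | true, false, 3 => true
  | true, true, 0 => true
  | true, true, 2 => true
  | _, _, _ => false

/-- The block chosen by `c` for the letter `l`. -/
def blk (l c : Bool) : List Bool := [bk l c 0, bk l c 1, bk l c 2, bk l c 3]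

theorem mem_theta {l : Bool} {v : List Bool} : v ∈ theta l ↔ ∃ c, v = blk l c := by
  cases l
  · constructor
    · intro h
      simp only [theta, List.mem_cons, List.not_mem_nil, or_false] at h
      rcases h with h | h
      · exact ⟨false, h⟩
      · exact ⟨true, h⟩
    · rintro ⟨c, rfl⟩
      cases c
      · simp [theta, blk, bk]
      · simp [theta, blk, bk]
  · constructor
    · intro h
      simp only [theta, List.mem_cons, List.not_mem_nil, or_false] at h
      rcases h with h | h
      · exact ⟨false, h⟩
      · exact ⟨true, h⟩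
    · rintro ⟨c, rfl⟩
      cases c
      · simp [theta, blk, bk]
      · simp [theta, blk, bk]

theorem Image.exists (u : List Bool) : ∃ v, Image u v := by
  induction u with
  | nil => exact ⟨[], Image.nil⟩
  | cons l u ih =>
    obtain ⟨v, hv⟩ := ih
    exact ⟨blk l false ++ v, Image.cons (mem_theta.2 ⟨false, rfl⟩) hv⟩

theorem Image.append {u v u' v' : List Bool} (h : Image u v) (h' : Image u' v') :
    Image (u ++ u') (v ++ v') := by
  induction h with
  | nil => exact h'
  | cons hl _ ih =>
    rw [List.cons_append, List.append_assoc]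
    exact Image.cons hl ih

theorem Image.length {u v : List Bool} (h : Image u v) : v.length = 4 * u.length := by
  induction h with
  | nil => rfl
  | @cons l s u w hl _ ih =>
    obtain ⟨c, rfl⟩ := mem_theta.1 hl
    rw [List.length_append, ih, List.length_cons]
    simp only [blk, List.length_cons, List.length_nil]
    ring

theorem Image.letters {u v : List Bool} (h : Image u v) : ∃ c : ℕ → Bool,
    ∀ j < u.length, ∀ r < 4, v.getD (4 * j + r) false = bk (u.getD j false) (c j) r := by
  induction h with
  | nil => exact ⟨fun _ => false, fun j hj => absurd hj (Nat.not_lt_zero _)⟩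
  | @cons l s u w hl _ ih =>
    obtain ⟨c0, rfl⟩ := mem_theta.1 hl
    obtain ⟨c, hc⟩ := ih
    refine ⟨fun j => if j = 0 then c0 else c (j - 1), ?_⟩
    intro j hj r hr
    rcases j with _ | j
    · simp only [Nat.mul_zero, Nat.zero_add, if_true, List.getD_cons_zero]
      rw [List.getD_append _ _ _ _ (by simpa [blk] using hr)]
      interval_cases r <;> rfl
    · have h1 : j < u.length := by simpa using hj
      have h2 := hc j h1 r hr
      simp only [Nat.succ_ne_zero, if_false, List.getD_cons_succ, Nat.add_sub_cancel]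
      rw [← h2]
      rw [List.getD_append_right _ _ _ _ (by simp [blk]; omega)]
      congr 1
      simp only [blk, List.length_cons, List.length_nil]
      omega

theorem legal_of_infix {u v : List Bool} (h : u <:+: v) (hv : Legal v) : Legal u := by
  obtain ⟨k, w, hw, hvw⟩ := hv
  exact ⟨k, w, hw, h.trans hvw⟩

theorem Image.legal {u v : List Bool} (h : Image u v) (hu : Legal u) : Legal v := by
  obtain ⟨k, U, hU, s, t, hst⟩ := hu
  obtain ⟨s', hs'⟩ := Image.exists s
  obtain ⟨t', ht'⟩ := Image.exists t
  refine ⟨k + 1, s' ++ v ++ t', ⟨U, hU, ?_⟩, s', t', rfl⟩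
  rw [← hst]
  exact (hs'.append h).append ht'

/-! ### Windows -/

theorem win_length (x : ℤ → Bool) (i : ℤ) (n : ℕ) : (win x i n).length = n := by
  simp [win]

theorem win_add (x : ℤ → Bool) (i : ℤ) (m n : ℕ) :
    win x i (m + n) = win x i m ++ win x (i + m) n := by
  unfold win
  rw [List.range_add, List.map_append, List.map_map]
  congr 1
  apply List.map_congr_left
  intro j _
  simp only [Function.comp_apply]
  congr 1
  push_cast
  ring

theorem win_infix (x : ℤ → Bool) (i : ℤ) (a m b : ℕ) : win x (i + a) m <:+: win x i (a + m + b) := by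
  refine ⟨win x i a, win x (i + a + m) b, ?_⟩
  rw [win_add x i (a + m) b, win_add x i a m]
  push_cast
  rw [add_assoc i]

theorem win_infix' (x : ℤ → Bool) {i i' : ℤ} {n n' : ℕ} (h1 : i' ≤ i) (h2 : i + n ≤ i' + n') :
    win x i n <:+: win x i' n' := by
  obtain ⟨a, ha⟩ := Int.eq_ofNat_of_zero_le (sub_nonneg.2 h1)
  obtain ⟨b, hb⟩ := Int.eq_ofNat_of_zero_le (sub_nonneg.2 h2)
  have e1 : i = i' + a := by omega
  have e2 : n' = a + n + b := by omega
  rw [e1, e2]
  exact win_infix x i' a n b

theorem win_getD (x : ℤ → Bool) (i : ℤ) (n j : ℕ) (h : j < n) :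
    (win x i n).getD j false = x (i + j) := by
  have hlen : j < (win x i n).length := by rw [win_length]; exact h
  rw [List.getD_eq_getElem _ _ hlen]
  simp [win]

theorem win_congr {x y : ℤ → Bool} {i : ℤ} {n : ℕ} (h : ∀ j, i ≤ j → j < i + n → x j = y j) :
    win x i n = win y i n := by
  unfold win
  apply List.map_congr_left
  intro j hj
  rw [List.mem_range] at hj
  exact h _ (by omega) (by omega)

/-- The sequence obtained by concatenating the blocks chosen by `c` for the letters of `y`. -/
def Th (y c : ℤ → Bool) (n : ℤ) : Bool := bk (y (n / 4)) (c (n / 4)) (n % 4).toNat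

theorem win_Th_block (y c : ℤ → Bool) (i : ℤ) : win (Th y c) (4 * i) 4 = blk (y i) (c i) := by
  have h0 : (4 * i) / 4 = i := by omega
  have h1 : (4 * i + 1) / 4 = i := by omega
  have h2 : (4 * i + 2) / 4 = i := by omega
  have h3 : (4 * i + 3) / 4 = i := by omega
  have m0 : (4 * i) % 4 = 0 := by omega
  have m1 : (4 * i + 1) % 4 = 1 := by omega
  have m2 : (4 * i + 2) % 4 = 2 := by omega
  have m3 : (4 * i + 3) % 4 = 3 := by omega
  have hr : List.range 4 = [0, 1, 2, 3] := rfl
  unfold win Th blk
  rw [hr]
  simp only [List.map_cons, List.map_nil, Nat.cast_zero, add_zero, Nat.cast_one, Nat.cast_ofNat,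
    h0, h1, h2, h3, m0, m1, m2, m3]
  rfl

theorem image_win (y c : ℤ → Bool) (n : ℕ) : ∀ i : ℤ,
    Image (win y i n) (win (Th y c) (4 * i) (4 * n)) := by
  induction n with
  | zero => intro i; exact Image.nil
  | succ n ih =>
    intro i
    have h := ih (i + 1)
    have e1 : win y i (n + 1) = y i :: win y (i + 1) n := by
      rw [add_comm n 1, win_add]
      simp [win]
    have e2 : win (Th y c) (4 * i) (4 * (n + 1)) =
        blk (y i) (c i) ++ win (Th y c) (4 * (i + 1)) (4 * n) := by
      have : 4 * (n + 1) = 4 + 4 * n := by ring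
      rw [this, win_add, win_Th_block]
      push_cast
      rw [mul_add, mul_one]
    rw [e1, e2]
    exact Image.cons (mem_theta.2 ⟨_, rfl⟩) h

/-- The map from decompositions to sequences. -/
def qq (y c : ℤ → Bool) (k : ℤ) (n : ℤ) : Bool := Th y c (n + k)

theorem qq_mem {y : ℤ → Bool} (hy : y ∈ XX) (c : ℤ → Bool) (k : ℤ) : qq y c k ∈ XX := by
  intro i n
  have e : win (qq y c k) i n = win (Th y c) (i + k) n := by
    unfold win qq
    apply List.map_congr_left
    intro j _
    congr 1
    ring
  rw [e]
  have h := (image_win y c (n + 1) ((i + k) / 4)).legal (hy _ _)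
  refine legal_of_infix (win_infix' _ ?_ ?_) h
  · omega
  · push_cast; omega

theorem Iter_length : ∀ (k : ℕ) (v : List Bool), Iter k v → v.length = 4 ^ k := by
  intro k
  induction k with
  | zero => intro v hv; rw [show v = [false] from hv]; rfl
  | succ k ih =>
    rintro v ⟨u, hu, huv⟩
    rw [huv.length, ih u hu]
    ring

theorem Iter_exists : ∀ k : ℕ, ∃ v, Iter k v := by
  intro k
  induction k with
  | zero => exact ⟨_, rfl⟩
  | succ k ih =>
    obtain ⟨u, hu⟩ := ih
    obtain ⟨v, hv⟩ := Image.exists u
    exact ⟨v, u, hu, hv⟩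

/-- No two adjacent letters `b`. -/
theorem Iter_nobb : ∀ (k : ℕ) (v : List Bool), Iter k v → ∀ P : ℕ,
    ¬ (v.getD P false = true ∧ v.getD (P + 1) false = true) := by
  intro k
  induction k with
  | zero =>
    intro v hv P h
    rw [show v = [false] from hv] at h
    rcases P with _ | P
    · simp at h
    · simp at h
  | succ k ih =>
    rintro v ⟨u, hu, huv⟩ P ⟨h1, h2⟩
    have hlen := huv.length
    obtain ⟨c, hc⟩ := huv.letters
    have hP : P + 1 < v.length := by
      by_contra hcon
      rw [List.getD_eq_default _ _ (by omega)] at h2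
      exact Bool.noConfusion h2
    by_cases hr : P % 4 = 3
    · have a1 := hc (P / 4) (by omega) 3 (by norm_num)
      have a2 := hc (P / 4 + 1) (by omega) 0 (by norm_num)
      have e1 : 4 * (P / 4) + 3 = P := by omega
      have e2 : 4 * (P / 4 + 1) + 0 = P + 1 := by omega
      rw [e1, h1] at a1
      rw [e2, h2] at a2
      apply ih u hu (P / 4)
      constructor
      · revert a1
        cases u.getD (P / 4) false <;> cases c (P / 4) <;> simp [bk]
      · revert a2
        cases u.getD (P / 4 + 1) false <;> cases c (P / 4 + 1) <;> simp [bk]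
    · have a1 := hc (P / 4) (by omega) (P % 4) (by omega)
      have a2 := hc (P / 4) (by omega) (P % 4 + 1) (by omega)
      have e1 : 4 * (P / 4) + P % 4 = P := by omega
      have e2 : 4 * (P / 4) + (P % 4 + 1) = P + 1 := by omega
      rw [e1, h1] at a1
      rw [e2, h2] at a2
      have hlt : P % 4 < 3 := by omega
      generalize P % 4 = r at *
      generalize u.getD (P / 4) false = l at *
      generalize c (P / 4) = e at *
      interval_cases r <;> cases l <;> cases e <;> simp [bk] at a1 a2

theorem nobb {x : ℤ → Bool} (hx : x ∈ XX) (i : ℤ) : ¬ (x i = true ∧ x (i + 1) = true) := by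
  rintro ⟨h1, h2⟩
  obtain ⟨k, v, hv, s, t, hst⟩ := hx i 2
  apply Iter_nobb k v hv s.length
  have e : win x i 2 = [true, true] := by
    have hr : List.range 2 = [0, 1] := rfl
    unfold win
    rw [hr]
    simp [h1, h2]
  rw [e] at hst
  rw [← hst]
  constructor
  · rw [List.append_assoc, List.getD_append_right _ _ _ _ le_rfl]
    simp
  · rw [List.append_assoc, List.getD_append_right _ _ _ _ (by omega)]
    simp

/-! ### Closed sets -/

theorem closed_of_fin {ι α : Type} [TopologicalSpace α] [DiscreteTopology α]
    (p : (ι → α) → Prop) (F : Finset ι)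
    (hF : ∀ x y : ι → α, (∀ w ∈ F, x w = y w) → p x → p y) : IsClosed {x | p x} := by
  rw [← isOpen_compl_iff, isOpen_iff_forall_mem_open]
  intro x hx
  refine ⟨⋂ w ∈ F, (fun y : ι → α => y w) ⁻¹' {x w}, ?_, ?_, ?_⟩
  · intro y hy hpy
    apply hx
    apply hF y x _ hpy
    intro w hw
    simp only [Set.mem_iInter, Set.mem_preimage, Set.mem_singleton_iff] at hy
    exact hy w hw
  · apply isOpen_biInter_finset
    intro w _
    exact (isOpen_discrete _).preimage (continuous_apply w)
  · simp

theorem isClosed_XX : IsClosed XX := by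
  have : XX = ⋂ (i : ℤ) (n : ℕ), {x : ℤ → Bool | Legal (win x i n)} := by
    ext x
    simp only [XX, Set.mem_ofPred_eq, Set.mem_iInter]
  rw [this]
  apply isClosed_iInter; intro i
  apply isClosed_iInter; intro n
  apply closed_of_fin _ (Finset.Ico i (i + n))
  intro x y hxy hx
  rwa [← win_congr (fun j h1 h2 => hxy j (Finset.mem_Ico.2 ⟨h1, h2⟩))]

theorem XX_nonempty : XX.Nonempty := by
  have hne : (⋂ n : ℕ, {x : ℤ → Bool | Legal (win x (-n) (2 * n + 1))}).Nonempty := by
    apply IsCompact.nonempty_iInter_of_directed_nonempty_isCompact_isClosed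
    · apply directed_of_isDirected_le
      intro m n hmn x hx
      exact legal_of_infix (win_infix' x (by simpa using hmn) (by push_cast; omega)) hx
    · intro n
      obtain ⟨v, hv⟩ := Iter_exists (2 * n + 1)
      have hlen := Iter_length _ _ hv
      have hlt : 2 * n + 1 < 4 ^ (2 * n + 1) := Nat.lt_pow_self (by norm_num)
      refine ⟨fun m => v.getD (m + n).toNat false, 2 * n + 1, v, hv, [], v.drop (2 * n + 1), ?_⟩
      rw [List.nil_append]
      have : win (fun m => v.getD (m + n).toNat false) (-n) (2 * n + 1) = v.take (2 * n + 1) := by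
        apply List.ext_getElem
        · rw [win_length, List.length_take]; omega
        · intro j h1 h2
          rw [win_length] at h1
          simp only [win, List.getElem_map, List.getElem_range, List.getElem_take]
          have : ((-(n : ℤ) + j + n)).toNat = j := by omega
          rw [this, List.getD_eq_getElem _ _ (by omega)]
      rw [this, List.take_append_drop]
    · intro n
      apply IsClosed.isCompact
      apply closed_of_fin _ (Finset.Ico (-n : ℤ) (-n + (2 * n + 1 : ℕ)))
      intro x y hxy hx
      rwa [← win_congr (fun j h1 h2 => hxy j (Finset.mem_Ico.2 ⟨h1, h2⟩))]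
    · intro n
      apply closed_of_fin _ (Finset.Ico (-n : ℤ) (-n + (2 * n + 1 : ℕ)))
      intro x y hxy hx
      rwa [← win_congr (fun j h1 h2 => hxy j (Finset.mem_Ico.2 ⟨h1, h2⟩))]
  obtain ⟨x, hx⟩ := hne
  rw [Set.mem_iInter] at hx
  refine ⟨x, fun i n => ?_⟩
  refine legal_of_infix (win_infix' x ?_ ?_) (hx (i.natAbs + n))
  · omega
  · omega

/-! ### Every point has a decomposition -/

theorem local_decomposition {x : ℤ → Bool} (hx : x ∈ XX) (n : ℕ) :
    ∃ (y c : ℤ → Bool) (k : Fin 4), Legal (win y (-n) (2 * n + 1)) ∧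
      ∀ j : ℤ, -n ≤ j → j ≤ n → x j = qq y c (k : ℕ) j := by
  set N : ℕ := 4 * n + 4 with hN
  obtain ⟨k, v, hv, s, t, hst⟩ := hx (-N) (2 * N + 1)
  have hlenst : v.length = s.length + (2 * N + 1) + t.length := by
    rw [← hst, List.length_append, List.length_append, win_length]
  rcases k with _ | k
  · rw [show v = [false] from hv] at hlenst
    simp at hlenst
    omega
  · obtain ⟨u, hu, huv⟩ := hv
    have hlen := huv.length
    obtain ⟨c, hc⟩ := huv.letters
    have hxv : ∀ j : ℤ, -N ≤ j → j ≤ N → x j = v.getD (s.length + N + j).toNat false := by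
      intro j h1 h2
      have e1 : (s.length + N + j).toNat = s.length + (N + j).toNat := by omega
      have hlt : (N + j).toNat < 2 * N + 1 := by omega
      rw [← hst, e1, List.append_assoc, List.getD_append_right _ _ _ _ (by omega),
        Nat.add_sub_cancel_left, List.getD_append _ _ _ _ (by rw [win_length]; exact hlt),
        win_getD _ _ _ _ hlt]
      congr 1
      omega
    set P : ℕ := s.length + N with hP
    refine ⟨fun m => u.getD ((P / 4 : ℕ) + m).toNat false, fun m => c ((P / 4 : ℕ) + m).toNat,
      ⟨P % 4, Nat.mod_lt _ (by norm_num)⟩, ?_, ?_⟩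
    · refine ⟨k, u, hu, u.take (P / 4 - n), u.drop (P / 4 - n + (2 * n + 1)), ?_⟩
      have hw : win (fun m => u.getD ((P / 4 : ℕ) + m).toNat false) (-n) (2 * n + 1) =
          (u.drop (P / 4 - n)).take (2 * n + 1) := by
        apply List.ext_getElem
        · rw [win_length, List.length_take, List.length_drop]; omega
        · intro j h1 h2
          rw [win_length] at h1
          simp only [win, List.getElem_map, List.getElem_range, List.getElem_take,
            List.getElem_drop]
          have : (((P / 4 : ℕ) : ℤ) + (-(n : ℤ) + j)).toNat = P / 4 - n + j := by omega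
          rw [this, List.getD_eq_getElem _ _ (by omega)]
      rw [hw, ← List.drop_drop, List.append_assoc, List.take_append_drop, List.take_append_drop]
    · intro j h1 h2
      rw [hxv j (by omega) (by omega)]
      unfold qq Th
      have hj : ((P : ℤ) + j).toNat = 4 * (((P / 4 : ℕ) : ℤ) + (j + (P % 4 : ℕ)) / 4).toNat +
          ((j + (P % 4 : ℕ)) % 4).toNat := by omega
      have hcc := hc (((P / 4 : ℕ) : ℤ) + (j + (P % 4 : ℕ)) / 4).toNat (by omega)
        (((j + (P % 4 : ℕ)) % 4).toNat) (by omega)
      rw [← hj] at hcc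
      have e3 : ((s.length : ℤ) + N + j).toNat = ((P : ℤ) + j).toNat := by
        rw [hP]; push_cast; rfl
      rw [e3, hcc]

theorem exists_decomposition {x : ℤ → Bool} (hx : x ∈ XX) :
    ∃ (y c : ℤ → Bool) (k : Fin 4), y ∈ XX ∧ x = qq y c (k : ℕ) := by
  let p : Fin 4 → ℕ → (ℤ → Bool × Bool) → Prop := fun k n z =>
    Legal (win (fun i => (z i).1) (-n) (2 * n + 1)) ∧
      ∀ j : ℤ, -n ≤ j → j ≤ n → x j = qq (fun i => (z i).1) (fun i => (z i).2) (k : ℕ) j
  have hmono : ∀ k m n z, m ≤ n → p k n z → p k m z := by
    intro k m n z hmn h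
    refine ⟨legal_of_infix (win_infix' _ (by omega) (by push_cast; omega)) h.1, ?_⟩
    intro j h1 h2
    exact h.2 j (by omega) (by omega)
  have hex : ∃ k : Fin 4, ∀ n, ∃ z, p k n z := by
    by_contra hcon
    push Not at hcon
    choose N hN using hcon
    obtain ⟨y, c, k, h1, h2⟩ := local_decomposition hx (N 0 + N 1 + N 2 + N 3)
    apply hN k (fun i => (y i, c i))
    apply hmono k (N k) (N 0 + N 1 + N 2 + N 3) _ ?_ ⟨h1, h2⟩
    fin_cases k <;> simp <;> omega
  obtain ⟨k, hk⟩ := hex
  have hclosed : ∀ n, IsClosed {z | p k n z} := by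
    intro n
    apply closed_of_fin _ (Finset.Icc (-n - 4 : ℤ) (n + 4))
    intro z z' hzz h
    have hag : ∀ i : ℤ, -n - 4 ≤ i → i ≤ n + 4 → z i = z' i := fun i h1 h2 =>
      hzz i (Finset.mem_Icc.2 ⟨h1, h2⟩)
    constructor
    · have := h.1
      have e : win (fun i => (z i).1) (-n) (2 * n + 1) =
          win (fun i => (z' i).1) (-n) (2 * n + 1) :=
        win_congr (fun j h1 h2 => by
          show (z j).1 = (z' j).1
          rw [hag j (by omega) (by omega)])
      rwa [e] at this
    · intro j h1 h2
      rw [h.2 j h1 h2]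
      have hk4 := k.2
      have e := hag ((j + (k : ℕ)) / 4) (by omega) (by omega)
      show bk (z ((j + (k : ℕ)) / 4)).1 (z ((j + (k : ℕ)) / 4)).2 _ =
        bk (z' ((j + (k : ℕ)) / 4)).1 (z' ((j + (k : ℕ)) / 4)).2 _
      rw [e]
  have hne : (⋂ n : ℕ, {z | p k n z}).Nonempty := by
    apply IsCompact.nonempty_iInter_of_directed_nonempty_isCompact_isClosed
    · apply directed_of_isDirected_le
      intro m n hmn z hz
      exact hmono k m n z hmn hz
    · exact hk
    · intro n; exact (hclosed n).isCompact
    · exact hclosed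
  obtain ⟨z, hz⟩ := hne
  rw [Set.mem_iInter] at hz
  refine ⟨fun i => (z i).1, fun i => (z i).2, k, ?_, ?_⟩
  · intro i n
    refine legal_of_infix (win_infix' _ ?_ ?_) (hz (i.natAbs + n)).1
    · omega
    · omega
  · funext j
    exact (hz j.natAbs).2 j (by omega) (by omega)

end Pool.Agent.R200.Rs
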