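import Mathlib

/-!
# Separation and spanning numbers of subshifts with alphabet metrics: definitions
-/

namespace Pool.Agent.R200.Span

open Filter

/-- One-sided subshifts: nonempty, closed in the product of the discrete topologies,
`σ(X) ⊆ X`. -/
def IsSubshift {A : Type} (X : Set (ℕ → A)) : Prop :=
  letI : TopologicalSpace A := ⊥
  X.Nonempty ∧ IsClosed X ∧ ∀ x ∈ X, (fun n => x (n + 1)) ∈ X

/-- A metric on a set, as a function. -/
def IsMetricOn {A : Type} (X : Set A) (d : A → A → ℝ) : Prop :=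
  (∀ a ∈ X, ∀ b ∈ X, 0 ≤ d a b ∧ (d a b = 0 ↔ a = b) ∧ d a b = d b a) ∧
    ∀ a ∈ X, ∀ b ∈ X, ∀ c ∈ X, d a c ≤ d a b + d b c

/-- The first index at which two different sequences differ. -/
noncomputable def Del {A : Type} (x y : ℕ → A) : ℕ := sInf {n | x n ≠ y n}

open Classical in
/-- The metric `D` on sequences given by a metric `d` on the alphabet and `k`. -/
noncomputable def DD {A : Type} (d : A → A → ℝ) (k : ℕ) (x y : ℕ → A) : ℝ :=
  if x = y then 0 else d (x (Del x y)) (y (Del x y)) * ((k : ℝ) ^ Del x y)⁻¹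

/-- `D_T(x,y) ≤ ε`, where `D_T(x,y) = max_{0 ≤ t < T} D(σ^t x, σ^t y)`. -/
def DTle {A : Type} (d : A → A → ℝ) (k T : ℕ) (ε : ℝ) (x y : ℕ → A) : Prop :=
  ∀ t < T, DD d k (fun n => x (n + t)) (fun n => y (n + t)) ≤ ε

/-- The least size of a `(T,ε)`-spanning set contained in `X`. -/
noncomputable def spanNum {A : Type} (X : Set (ℕ → A)) (d : A → A → ℝ) (k T : ℕ) (ε : ℝ) : ℕ :=
  sInf {n | ∃ S : Finset (ℕ → A), S.card = n ∧ (∀ y ∈ S, y ∈ X) ∧
    ∀ x ∈ X, ∃ y ∈ S, DTle d k T ε x y}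

/-- The property `(P_ε)`: the exponential growth rate of the spanning numbers exists. -/
def PropP {A : Type} (X : Set (ℕ → A)) (d : A → A → ℝ) (k : ℕ) (ε : ℝ) : Prop :=
  liminf (fun T : ℕ => ((Real.log (spanNum X d k T ε) / T : ℝ) : EReal)) atTop =
    limsup (fun T : ℕ => ((Real.log (spanNum X d k T ε) / T : ℝ) : EReal)) atTop

end Pool.Agent.R200.Span
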