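import Pool.Agent.R200.SpanDefs

/-!
# A subshift whose spanning numbers have no exponential growth rate
-/

namespace Pool.Agent.R200.Span

open Filter

/-- The alphabet: a marker bit and a datum (`none` is the joker). -/
abbrev AA : Type := Bool × Option Bool

instance instTopAA : TopologicalSpace AA := ⊥

instance instDiscAA : DiscreteTopology AA := ⟨rfl⟩

/-- The metric on the alphabet. -/
def dm (p q : AA) : ℝ :=
  if p = q then 0 else if p.1 = q.1 ∧ (p.2 = none ∨ q.2 = none) then 1 else 2

/-- Closeness of letters. -/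
def clo (p q : AA) : Prop := p = q ∨ (p.1 = q.1 ∧ (p.2 = none ∨ q.2 = none))

theorem dm_nonneg (p q : AA) : 0 ≤ dm p q := by
  unfold dm; split_ifs <;> norm_num

theorem dm_le_two (p q : AA) : dm p q ≤ 2 := by
  unfold dm; split_ifs <;> norm_num

theorem dm_self (p : AA) : dm p p = 0 := by simp [dm]

theorem dm_ne {p q : AA} (h : p ≠ q) : 1 ≤ dm p q := by
  unfold dm; rw [if_neg h]; split_ifs <;> norm_num

theorem dm_eq_zero {p q : AA} : dm p q = 0 ↔ p = q := by
  constructor
  · intro h
    by_contra hne
    have := dm_ne hne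
    linarith
  · rintro rfl; exact dm_self p

theorem dm_comm (p q : AA) : dm p q = dm q p := by
  unfold dm
  by_cases h : p = q
  · subst h; rfl
  · rw [if_neg h, if_neg (Ne.symm h)]
    congr 1
    apply propext
    constructor
    · rintro ⟨h1, h2⟩; exact ⟨h1.symm, h2.symm⟩
    · rintro ⟨h1, h2⟩; exact ⟨h1.symm, h2.symm⟩

theorem dm_triangle (p q r : AA) : dm p r ≤ dm p q + dm q r := by
  by_cases h1 : p = q
  · subst h1; rw [dm_self]; linarith
  · by_cases h2 : q = r
    · subst h2; rw [dm_self]; linarith
    · have := dm_ne h1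
      have := dm_ne h2
      have := dm_le_two p r
      linarith

theorem dm_le_one {p q : AA} : dm p q ≤ 1 ↔ clo p q := by
  unfold dm clo
  by_cases h : p = q
  · simp [h]
  · by_cases h' : p.1 = q.1 ∧ (p.2 = none ∨ q.2 = none)
    · rw [if_neg h, if_pos h']
      exact ⟨fun _ => Or.inr h', fun _ => le_refl _⟩
    · rw [if_neg h, if_neg h']
      constructor
      · intro h3; norm_num at h3
      · intro h3; exact absurd h3 (by tauto)

/-! ### The metric `D` -/

theorem Del_spec {x y : ℕ → AA} (h : x ≠ y) : x (Del x y) ≠ y (Del x y) := by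
  have hne : {n | x n ≠ y n}.Nonempty := Function.ne_iff.1 h
  exact Nat.sInf_mem hne

theorem Del_lt {x y : ℕ → AA} {n : ℕ} (h : n < Del x y) : x n = y n := by
  by_contra hc
  exact Nat.notMem_of_lt_sInf h hc

theorem Del_le {x y : ℕ → AA} {n : ℕ} (h : x n ≠ y n) : Del x y ≤ n := Nat.sInf_le h

theorem Del_comm (x y : ℕ → AA) : Del x y = Del y x := by
  unfold Del
  congr 1
  ext n
  exact ne_comm

theorem DD_le_one (x y : ℕ → AA) : DD dm 2 x y ≤ 1 ↔ dm (x 0) (y 0) ≤ 1 := by
  unfold DD
  by_cases h : x = y
  · subst h; simp [dm_self]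
  · rw [if_neg h]
    rcases Nat.eq_zero_or_pos (Del x y) with h0 | h0
    · rw [h0]; simp
    · have h1 : x 0 = y 0 := Del_lt h0
      rw [h1, dm_self]
      constructor
      · intro _; norm_num
      · intro _
        have h2 := dm_le_two (x (Del x y)) (y (Del x y))
        have h3 := dm_nonneg (x (Del x y)) (y (Del x y))
        have h4 : ((((2 : ℕ) : ℝ) ^ Del x y)⁻¹) ≤ 1 / 2 := by
          rw [one_div]
          apply inv_anti₀ (by norm_num)
          calc (2 : ℝ) = ((2 : ℕ) : ℝ) ^ 1 := by norm_num
            _ ≤ ((2 : ℕ) : ℝ) ^ Del x y := by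
                apply pow_le_pow_right₀ (by norm_num) h0
        have h5 : 0 < ((((2 : ℕ) : ℝ) ^ Del x y)⁻¹) := by positivity
        calc dm (x (Del x y)) (y (Del x y)) * (((2 : ℕ) : ℝ) ^ Del x y)⁻¹
            ≤ 2 * (1 / 2) := by
              apply mul_le_mul h2 h4 h5.le (by norm_num)
          _ = 1 := by norm_num

theorem DTle_iff (T : ℕ) (x y : ℕ → AA) :
    DTle dm 2 T 1 x y ↔ ∀ t < T, clo (x t) (y t) := by
  unfold DTle
  constructor
  · intro h t ht
    have := (DD_le_one _ _).1 (h t ht)
    simp only [zero_add] at this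
    exact dm_le_one.1 this
  · intro h t ht
    rw [DD_le_one]
    simp only [zero_add]
    exact dm_le_one.2 (h t ht)

theorem DD_metric (X : Set (ℕ → AA)) : IsMetricOn X (DD dm 2) := by
  constructor
  · intro x _ y _
    refine ⟨?_, ?_, ?_⟩
    · unfold DD
      split_ifs
      · exact le_refl _
      · exact mul_nonneg (dm_nonneg _ _) (by positivity)
    · constructor
      · intro h
        by_contra hne
        unfold DD at h
        rw [if_neg hne] at h
        have h1 := dm_ne (Del_spec hne)
        have h2 : 0 < ((((2 : ℕ) : ℝ) ^ Del x y)⁻¹) := by positivity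
        have : 0 < dm (x (Del x y)) (y (Del x y)) * (((2 : ℕ) : ℝ) ^ Del x y)⁻¹ := by
          apply mul_pos _ h2
          linarith
        linarith
      · rintro rfl
        unfold DD
        simp
    · unfold DD
      by_cases h : x = y
      · subst h; rfl
      · rw [if_neg h, if_neg (Ne.symm h), Del_comm y x, dm_comm]
  · intro x _ y _ z _
    by_cases h1 : x = y
    · subst h1; unfold DD; simp
    · by_cases h2 : y = z
      · subst h2; unfold DD; simp
      · by_cases h3 : x = z
        · subst h3
          have e : DD dm 2 x x = 0 := by unfold DD; simp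
          rw [e]
          unfold DD
          rw [if_neg h1, if_neg h2]
          have := dm_nonneg (x (Del x y)) (y (Del x y))
          have := dm_nonneg (y (Del y x)) (x (Del y x))
          positivity
        · unfold DD
          rw [if_neg h1, if_neg h2, if_neg h3]
          set a := Del x y with ha
          set b := Del y z with hb
          set c := Del x z with hc
          have pa : 0 < ((((2 : ℕ) : ℝ) ^ a)⁻¹) := by positivity
          have pb : 0 < ((((2 : ℕ) : ℝ) ^ b)⁻¹) := by positivity
          have na := dm_nonneg (x a) (y a)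
          have nb := dm_nonneg (y b) (z b)
          rcases lt_trichotomy a b with hab | hab | hab
          · -- Δ(x,z) = a
            have e1 : y a = z a := Del_lt hab
            have hx : x a ≠ y a := Del_spec h1
            have hle : c ≤ a := Del_le (by rw [← e1]; exact hx)
            have hge : a ≤ c := by
              by_contra hlt
              push Not at hlt
              have e2 : x c = y c := Del_lt hlt
              have e3 : y c = z c := Del_lt (hlt.trans hab)
              exact Del_spec h3 (e2.trans e3)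
            have hca : c = a := le_antisymm hle hge
            rw [hca, ← e1]
            have : 0 ≤ dm (y b) (z b) * (((2 : ℕ) : ℝ) ^ b)⁻¹ := mul_nonneg nb pb.le
            linarith
          · rw [← hab]
            have hac : a ≤ c := by
              by_contra hlt
              push Not at hlt
              have e2 : x c = y c := Del_lt hlt
              have e3 : y c = z c := Del_lt (lt_of_lt_of_eq hlt hab)
              exact Del_spec h3 (e2.trans e3)
            rcases Nat.eq_or_lt_of_le hac with hac | hac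
            · rw [← hac]
              rw [← add_mul]
              exact mul_le_mul_of_nonneg_right (dm_triangle _ _ _) pa.le
            · have h4 : ((((2 : ℕ) : ℝ) ^ c)⁻¹) ≤ (((2 : ℕ) : ℝ) ^ a)⁻¹ / 2 := by
                rw [div_eq_mul_inv, ← mul_inv]
                apply inv_anti₀ (by positivity)
                calc ((2 : ℕ) : ℝ) ^ a * 2 = ((2 : ℕ) : ℝ) ^ (a + 1) := by
                      rw [pow_succ]; norm_num
                  _ ≤ ((2 : ℕ) : ℝ) ^ c := pow_le_pow_right₀ (by norm_num) hac
              have h5 := dm_le_two (x c) (z c)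
              have h6 := dm_ne (Del_spec h1)
              have h7 : dm (x c) (z c) * (((2 : ℕ) : ℝ) ^ c)⁻¹ ≤
                  2 * ((((2 : ℕ) : ℝ) ^ a)⁻¹ / 2) := by
                apply mul_le_mul h5 h4 (by positivity) (by norm_num)
              have h8 : 1 * (((2 : ℕ) : ℝ) ^ a)⁻¹ ≤ dm (x a) (y a) * (((2 : ℕ) : ℝ) ^ a)⁻¹ :=
                mul_le_mul_of_nonneg_right h6 pa.le
              have h9 : 0 ≤ dm (y a) (z a) * (((2 : ℕ) : ℝ) ^ a)⁻¹ :=
                mul_nonneg (dm_nonneg _ _) pa.le
              linarith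
          · have e1 : x b = y b := Del_lt hab
            have hx : y b ≠ z b := Del_spec h2
            have hle : c ≤ b := Del_le (by rw [e1]; exact hx)
            have hge : b ≤ c := by
              by_contra hlt
              push Not at hlt
              have e2 : x c = y c := Del_lt (hlt.trans hab)
              have e3 : y c = z c := Del_lt hlt
              exact Del_spec h3 (e2.trans e3)
            have hcb : c = b := le_antisymm hle hge
            rw [hcb, e1]
            have : 0 ≤ dm (x a) (y a) * (((2 : ℕ) : ℝ) ^ a)⁻¹ := mul_nonneg na pa.le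
            linarith

/-! ### The subshift -/

/-- The subshift: no two adjacent jokers, at most two markers, and when there are two markers their
distance is a power of `16` and there is no joker between them. -/
def XX : Set (ℕ → AA) :=
  {x | (∀ n, ¬ ((x n).2 = none ∧ (x (n + 1)).2 = none)) ∧
    (∀ i j l, i < j → j < l → ¬ ((x i).1 = true ∧ (x j).1 = true ∧ (x l).1 = true)) ∧
    (∀ i j, i < j → (∀ m, j ≠ i + 16 ^ m) → ¬ ((x i).1 = true ∧ (x j).1 = true)) ∧
    (∀ i j n, i < n → n < j → ¬ ((x i).1 = true ∧ (x j).1 = true ∧ (x n).2 = none))}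

theorem closed_of_fin (p : (ℕ → AA) → Prop) (F : Finset ℕ)
    (hF : ∀ x y : ℕ → AA, (∀ w ∈ F, x w = y w) → p x → p y) : IsClosed {x | p x} := by
  rw [← isOpen_compl_iff, isOpen_iff_forall_mem_open]
  intro x hx
  refine ⟨⋂ w ∈ F, (fun y : ℕ → AA => y w) ⁻¹' {x w}, ?_, ?_, ?_⟩
  · intro y hy hpy
    apply hx
    apply hF y x _ hpy
    intro w hw
    simp only [Set.mem_iInter, Set.mem_preimage, Set.mem_singleton_iff] at hy
    exact hy w hw
  · apply isOpen_biInter_finset
    intro w _
    exact (isOpen_discrete _).preimage (continuous_apply w)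
  · simp

theorem XX_subshift : IsSubshift XX := by
  refine ⟨⟨fun _ => (false, some false), ?_⟩, ?_, ?_⟩
  · refine ⟨?_, ?_, ?_, ?_⟩
    · intro n h; simp at h
    · intro i j l _ _ h; simp at h
    · intro i j _ _ h; simp at h
    · intro i j n _ _ h; simp at h
  · have : XX = (⋂ n : ℕ, {x : ℕ → AA | ¬ ((x n).2 = none ∧ (x (n + 1)).2 = none)}) ∩
        ((⋂ (i : ℕ) (j : ℕ) (l : ℕ) (_ : i < j) (_ : j < l),
          {x : ℕ → AA | ¬ ((x i).1 = true ∧ (x j).1 = true ∧ (x l).1 = true)}) ∩
        ((⋂ (i : ℕ) (j : ℕ) (_ : i < j) (_ : ∀ m, j ≠ i + 16 ^ m),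
          {x : ℕ → AA | ¬ ((x i).1 = true ∧ (x j).1 = true)}) ∩
        (⋂ (i : ℕ) (j : ℕ) (n : ℕ) (_ : i < n) (_ : n < j),
          {x : ℕ → AA | ¬ ((x i).1 = true ∧ (x j).1 = true ∧ (x n).2 = none)}))) := by
      ext x
      simp only [XX, Set.mem_inter_iff, Set.mem_iInter]
      rfl
    rw [this]
    refine IsClosed.inter ?_ (IsClosed.inter ?_ (IsClosed.inter ?_ ?_))
    · apply isClosed_iInter
      intro n
      apply closed_of_fin _ {n, n + 1}
      intro x y h
      rw [h n (by simp), h (n + 1) (by simp)]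
      exact id
    · apply isClosed_iInter; intro i
      apply isClosed_iInter; intro j
      apply isClosed_iInter; intro l
      apply isClosed_iInter; intro _
      apply isClosed_iInter; intro _
      apply closed_of_fin _ {i, j, l}
      intro x y h
      rw [h i (by simp), h j (by simp), h l (by simp)]
      exact id
    · apply isClosed_iInter; intro i
      apply isClosed_iInter; intro j
      apply isClosed_iInter; intro _
      apply isClosed_iInter; intro _
      apply closed_of_fin _ {i, j}
      intro x y h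
      rw [h i (by simp), h j (by simp)]
      exact id
    · apply isClosed_iInter; intro i
      apply isClosed_iInter; intro j
      apply isClosed_iInter; intro l
      apply isClosed_iInter; intro _
      apply isClosed_iInter; intro _
      apply closed_of_fin _ {i, j, l}
      intro x y h
      rw [h i (by simp), h j (by simp), h l (by simp)]
      exact id
  · rintro x ⟨h1, h2, h3, h4⟩
    refine ⟨?_, ?_, ?_, ?_⟩
    · intro n; exact h1 (n + 1)
    · intro i j l hij hjl; exact h2 (i + 1) (j + 1) (l + 1) (by omega) (by omega)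
    · intro i j hij hm
      exact h3 (i + 1) (j + 1) (by omega) (fun m hm' => hm m (by omega))
    · intro i j n hin hnj; exact h4 (i + 1) (j + 1) (n + 1) (by omega) (by omega)

/-! ### Efficient centres -/

/-- Centres. -/
def YY (T i j : ℕ) (b : ℕ → Bool) (n : ℕ) : AA :=
  if n < T then
    (decide (n = i ∨ n = j),
      if i < n ∧ n < j then some (b n) else if n % 2 = 0 then none else some (b n))
  else (false, some false)

/-- Positions where the centre carries a free bit. -/
def KK (T i j : ℕ) : Finset ℕ := (Finset.range T).filter fun n => (i < n ∧ n < j) ∨ n % 2 = 1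

theorem YY_congr {T i j : ℕ} {b b' : ℕ → Bool} (h : ∀ n ∈ KK T i j, b n = b' n) :
    YY T i j b = YY T i j b' := by
  funext n
  unfold YY
  by_cases hn : n < T
  · rw [if_pos hn, if_pos hn]
    by_cases h1 : i < n ∧ n < j
    · rw [if_pos h1, if_pos h1, h n (by simp [KK, hn, h1])]
    · rw [if_neg h1, if_neg h1]
      by_cases h2 : n % 2 = 0
      · rw [if_pos h2, if_pos h2]
      · rw [if_neg h2, if_neg h2, h n (by
          unfold KK
          rw [Finset.mem_filter, Finset.mem_range]
          exact ⟨hn, Or.inr (by omega)⟩)]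
  · rw [if_neg hn, if_neg hn]

theorem exists_centre (T : ℕ) {x : ℕ → AA} (hx : x ∈ XX) :
    ∃ i j : ℕ, i ≤ T ∧ j ≤ T ∧ (i < j → ∃ m, j = i + 16 ^ m ∧ j < T) ∧
      ∃ b : ℕ → Bool, YY T i j b ∈ XX ∧ DTle dm 2 T 1 x (YY T i j b) := by
  obtain ⟨h1, h2, h3, h4⟩ := hx
  -- choose the marker positions
  obtain ⟨i, j, hij, hi, hj, hij', hmark⟩ : ∃ i j : ℕ, i ≤ j ∧ i ≤ T ∧ j ≤ T ∧
      (i < j → j < T ∧ (x i).1 = true ∧ (x j).1 = true) ∧
      ∀ n < T, ((x n).1 = true ↔ n = i ∨ n = j) := by
    by_cases ha : ∃ i j, i < j ∧ j < T ∧ (x i).1 = true ∧ (x j).1 = true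
    · obtain ⟨i, j, hij, hj, hi', hj'⟩ := ha
      refine ⟨i, j, hij.le, by omega, by omega, fun _ => ⟨hj, hi', hj'⟩, ?_⟩
      intro n _
      constructor
      · intro hn
        by_contra hcon
        push Not at hcon
        rcases lt_trichotomy n i with hni | hni | hni
        · exact h2 n i j hni hij ⟨hn, hi', hj'⟩
        · exact hcon.1 hni
        · rcases lt_trichotomy n j with hnj | hnj | hnj
          · exact h2 i n j hni hnj ⟨hi', hn, hj'⟩
          · exact hcon.2 hnj
          · exact h2 i j n hij hnj ⟨hi', hj', hn⟩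
      · rintro (rfl | rfl)
        · exact hi'
        · exact hj'
    · push Not at ha
      by_cases hb : ∃ i < T, (x i).1 = true
      · obtain ⟨i, hi, hi'⟩ := hb
        refine ⟨i, i, le_refl _, hi.le, hi.le, fun h => absurd h (lt_irrefl _), ?_⟩
        intro n hn
        rw [or_self]
        constructor
        · intro hn'
          rcases lt_trichotomy n i with hni | hni | hni
          · exact absurd hi' (ha n i hni hi hn')
          · exact hni
          · exact absurd hn' (ha i n hni hn hi')
        · rintro rfl; exact hi'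
      · push Not at hb
        refine ⟨T, T, le_refl _, le_refl _, le_refl _, fun h => absurd h (lt_irrefl _), ?_⟩
        intro n hn
        constructor
        · intro hn'; exact absurd hn' (hb n hn)
        · rintro (h | h) <;> omega
  refine ⟨i, j, hi, hj, ?_, fun n => ((x n).2).getD false, ?_, ?_⟩
  · intro hlt
    obtain ⟨a1, a2, a3⟩ := hij' hlt
    by_contra hcon
    push Not at hcon
    exact h3 i j hlt (fun m hm => absurd a1 (not_lt.2 (hcon m hm))) ⟨a2, a3⟩
  · -- membership
    have hfst : ∀ n, (YY T i j (fun n => ((x n).2).getD false) n).1 = true ↔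
        (n < T ∧ (n = i ∨ n = j)) := by
      intro n
      unfold YY
      by_cases hn : n < T <;> simp [hn]
    have hsnd : ∀ n, (YY T i j (fun n => ((x n).2).getD false) n).2 = none →
        ¬ (i < n ∧ n < j) ∧ n % 2 = 0 := by
      intro n h
      unfold YY at h
      by_cases hn : n < T
      · rw [if_pos hn] at h
        by_cases h1 : i < n ∧ n < j
        · rw [if_pos h1] at h; simp at h
        · rw [if_neg h1] at h
          by_cases h2 : n % 2 = 0
          · exact ⟨h1, h2⟩
          · rw [if_neg h2] at h; simp at h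
      · rw [if_neg hn] at h; simp at h
    refine ⟨?_, ?_, ?_, ?_⟩
    · rintro n ⟨e1, e2⟩
      have := (hsnd n e1).2
      have := (hsnd (n + 1) e2).2
      omega
    · rintro a b c hab hbc ⟨e1, e2, e3⟩
      have f1 := (hfst a).1 e1
      have f2 := (hfst b).1 e2
      have f3 := (hfst c).1 e3
      omega
    · rintro a b hab hm ⟨e1, e2⟩
      have f1 := (hfst a).1 e1
      have f2 := (hfst b).1 e2
      have ea : a = i := by omega
      have eb : b = j := by omega
      subst ea; subst eb
      obtain ⟨a1, a2, a3⟩ := hij' hab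
      exact h3 a b hab hm ⟨a2, a3⟩
    · rintro a b n han hnb ⟨e1, e2, e3⟩
      have f1 := (hfst a).1 e1
      have f2 := (hfst b).1 e2
      have f3 := (hsnd n e3).1
      apply f3
      omega
  · rw [DTle_iff]
    intro n hn
    unfold YY clo
    rw [if_pos hn]
    have hm := hmark n hn
    have e1 : (x n).1 = decide (n = i ∨ n = j) := by
      cases hx1 : (x n).1
      · symm
        rw [decide_eq_false_iff_not]
        intro h
        rw [← hm, hx1] at h
        exact absurd h (by simp)
      · symm
        rw [decide_eq_true_iff]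
        exact hm.1 hx1
    by_cases hb : i < n ∧ n < j
    · left
      rw [if_pos hb]
      have hlt : i < j := by omega
      obtain ⟨a1, a2, a3⟩ := hij' hlt
      have hne : (x n).2 ≠ none := fun h => h4 i j n hb.1 hb.2 ⟨a2, a3, h⟩
      obtain ⟨b, hb'⟩ := Option.ne_none_iff_exists'.1 hne
      apply Prod.ext
      · exact e1
      · simp [hb']
    · rw [if_neg hb]
      by_cases h2 : n % 2 = 0
      · rw [if_pos h2]
        right
        exact ⟨e1, Or.inr rfl⟩
      · rw [if_neg h2]
        by_cases hne : (x n).2 = none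
        · right
          exact ⟨e1, Or.inl hne⟩
        · left
          obtain ⟨b, hb'⟩ := Option.ne_none_iff_exists'.1 hne
          apply Prod.ext
          · exact e1
          · simp [hb']

open Classical in
/-- The finite set of centres. -/
noncomputable def cenSet (T G : ℕ) : Finset (ℕ → AA) :=
  (((Finset.range (T + 1)) ×ˢ (Finset.range (T + 1))).filter fun p => p.2 ≤ p.1 + G).biUnion
    fun p => ((KK T p.1 p.2).powerset.image fun B => YY T p.1 p.2 fun n => decide (n ∈ B)).filter
      fun y => y ∈ XX

theorem cenSet_covers (T G : ℕ) (hG : ∀ m, 16 ^ m < T → 16 ^ m ≤ G) :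
    (∀ y ∈ cenSet T G, y ∈ XX) ∧ ∀ x ∈ XX, ∃ y ∈ cenSet T G, DTle dm 2 T 1 x y := by
  classical
  constructor
  · intro y hy
    unfold cenSet at hy
    rw [Finset.mem_biUnion] at hy
    obtain ⟨p, _, hy⟩ := hy
    exact (Finset.mem_filter.1 hy).2
  · intro x hx
    obtain ⟨i, j, hi, hj, hij, b, hb1, hb2⟩ := exists_centre T hx
    refine ⟨YY T i j b, ?_, hb2⟩
    unfold cenSet
    rw [Finset.mem_biUnion]
    refine ⟨(i, j), ?_, ?_⟩
    · rw [Finset.mem_filter, Finset.mem_product, Finset.mem_range, Finset.mem_range]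
      refine ⟨⟨by simp only; omega, by simp only; omega⟩, ?_⟩
      show j ≤ i + G
      by_cases hlt : i < j
      · obtain ⟨m, hm, hjT⟩ := hij hlt
        have := hG m (by omega)
        omega
      · omega
    · rw [Finset.mem_filter]
      refine ⟨?_, hb1⟩
      rw [Finset.mem_image]
      refine ⟨(KK T i j).filter fun n => b n = true, ?_, ?_⟩
      · rw [Finset.mem_powerset]
        exact Finset.filter_subset _ _
      · apply YY_congr
        intro n hn
        cases hbn : b n
        · simp [hbn]
        · simp [hbn, hn]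

theorem KK_card (T i j G : ℕ) (h : j ≤ i + G) : (KK T i j).card ≤ G + T / 2 := by
  have hsub : KK T i j ⊆ (Finset.Ioo i j) ∪ ((Finset.range T).filter fun n => n % 2 = 1) := by
    intro n hn
    unfold KK at hn
    rw [Finset.mem_filter] at hn
    rw [Finset.mem_union, Finset.mem_Ioo, Finset.mem_filter]
    rcases hn.2 with h1 | h1
    · exact Or.inl h1
    · exact Or.inr ⟨hn.1, h1⟩
  refine (Finset.card_le_card hsub).trans ?_
  refine (Finset.card_union_le _ _).trans ?_
  have h1 : (Finset.Ioo i j).card ≤ G := by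
    rw [Nat.card_Ioo]; omega
  have h2 : ((Finset.range T).filter fun n => n % 2 = 1).card ≤ T / 2 := by
    have hsub2 : ((Finset.range T).filter fun n => n % 2 = 1) ⊆
        (Finset.range (T / 2)).image fun k => 2 * k + 1 := by
      intro n hn
      rw [Finset.mem_filter, Finset.mem_range] at hn
      rw [Finset.mem_image]
      exact ⟨n / 2, Finset.mem_range.2 (by omega), by omega⟩
    refine (Finset.card_le_card hsub2).trans ?_
    refine Finset.card_image_le.trans ?_
    rw [Finset.card_range]
  omega

theorem cenSet_card (T G : ℕ) : (cenSet T G).card ≤ (T + 1) ^ 2 * 2 ^ (G + T / 2) := by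
  classical
  unfold cenSet
  refine Finset.card_biUnion_le.trans ?_
  calc ∑ p ∈ ((Finset.range (T + 1)) ×ˢ (Finset.range (T + 1))).filter fun p => p.2 ≤ p.1 + G,
        (((KK T p.1 p.2).powerset.image fun B => YY T p.1 p.2 fun n => decide (n ∈ B)).filter
      fun y => y ∈ XX).card
      ≤ ∑ p ∈ ((Finset.range (T + 1)) ×ˢ (Finset.range (T + 1))).filter fun p => p.2 ≤ p.1 + G,
        2 ^ (G + T / 2) := by
        apply Finset.sum_le_sum
        intro p hp
        refine (Finset.card_filter_le _ _).trans ?_
        refine Finset.card_image_le.trans ?_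
        rw [Finset.card_powerset]
        exact Nat.pow_le_pow_right (by norm_num) (KK_card T p.1 p.2 G (Finset.mem_filter.1 hp).2)
    _ ≤ (T + 1) ^ 2 * 2 ^ (G + T / 2) := by
        rw [Finset.sum_const, smul_eq_mul]
        apply Nat.mul_le_mul_right
        refine (Finset.card_filter_le _ _).trans ?_
        rw [Finset.card_product, Finset.card_range]
        apply le_of_eq
        ring

theorem span_upper (T G : ℕ) (hG : ∀ m, 16 ^ m < T → 16 ^ m ≤ G) :
    spanNum XX dm 2 T 1 ≤ (T + 1) ^ 2 * 2 ^ (G + T / 2) := by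
  have h := cenSet_covers T G hG
  have hle : spanNum XX dm 2 T 1 ≤ (cenSet T G).card :=
    Nat.sInf_le ⟨cenSet T G, rfl, h.1, h.2⟩
  exact hle.trans (cenSet_card T G)

theorem span_attained (T : ℕ) : ∃ S : Finset (ℕ → AA), S.card = spanNum XX dm 2 T 1 ∧
    (∀ y ∈ S, y ∈ XX) ∧ ∀ x ∈ XX, ∃ y ∈ S, DTle dm 2 T 1 x y := by
  have h := cenSet_covers T T (fun m hm => hm.le)
  have hne : Set.Nonempty {n | ∃ S : Finset (ℕ → AA), S.card = n ∧ (∀ y ∈ S, y ∈ XX) ∧
    ∀ x ∈ XX, ∃ y ∈ S, DTle dm 2 T 1 x y} := ⟨_, cenSet T T, rfl, h.1, h.2⟩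
  exact Nat.sInf_mem hne

/-! ### Points that are hard to cover -/

/-- A point with two markers at distance `g` and prescribed data between them. -/
def ZZ (g : ℕ) (B : Finset ℕ) (n : ℕ) : AA :=
  if n ≤ g then (decide (n = 0 ∨ n = g), some (decide (n ∈ B))) else (false, some false)

theorem ZZ_mem (m : ℕ) (B : Finset ℕ) : ZZ (16 ^ m) B ∈ XX := by
  have hg : 0 < 16 ^ m := by positivity
  have hfst : ∀ n, (ZZ (16 ^ m) B n).1 = true ↔ (n = 0 ∨ n = 16 ^ m) := by
    intro n
    unfold ZZ
    by_cases hn : n ≤ 16 ^ m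
    · rw [if_pos hn]; simp
    · rw [if_neg hn]
      constructor
      · intro h; simp at h
      · rintro (h | h) <;> omega
  have hsnd : ∀ n, (ZZ (16 ^ m) B n).2 ≠ none := by
    intro n
    unfold ZZ
    split_ifs <;> simp
  refine ⟨?_, ?_, ?_, ?_⟩
  · rintro n ⟨e1, -⟩; exact hsnd n e1
  · rintro a b c hab hbc ⟨e1, e2, e3⟩
    have := (hfst a).1 e1
    have := (hfst b).1 e2
    have := (hfst c).1 e3
    omega
  · rintro a b hab hm ⟨e1, e2⟩
    have := (hfst a).1 e1
    have := (hfst b).1 e2
    exact hm m (by omega)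
  · rintro a b n _ _ ⟨_, _, e3⟩; exact hsnd n e3

theorem span_lower (m : ℕ) : 2 ^ (16 ^ m - 1) ≤ spanNum XX dm 2 (16 ^ m + 1) 1 := by
  classical
  obtain ⟨S, hS, hS1, hS2⟩ := span_attained (16 ^ m + 1)
  rw [← hS]
  have hchoose : ∀ B : Finset ℕ, ∃ y ∈ S, DTle dm 2 (16 ^ m + 1) 1 (ZZ (16 ^ m) B) y :=
    fun B => hS2 _ (ZZ_mem m B)
  choose f hf1 hf2 using hchoose
  have hg : 0 < 16 ^ m := by positivity
  have hcard : ((Finset.Ioo 0 (16 ^ m)).powerset).card = 2 ^ (16 ^ m - 1) := by
    rw [Finset.card_powerset, Nat.card_Ioo]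
    congr 1
  rw [← hcard]
  apply Finset.card_le_card_of_injOn f
  · intro B _; exact hf1 B
  · intro B hB B' hB' hff
    have hB1 : B ⊆ Finset.Ioo 0 (16 ^ m) := Finset.mem_powerset.1 hB
    have hB2 : B' ⊆ Finset.Ioo 0 (16 ^ m) := Finset.mem_powerset.1 hB'
    have key : ∀ C : Finset ℕ, ∀ n, 0 < n → n < 16 ^ m → (f C n).2 = some (decide (n ∈ C)) := by
      intro C n hn1 hn2
      have hcl := (DTle_iff _ _ _).1 (hf2 C)
      have c0 := hcl 0 (by omega)
      have cg := hcl (16 ^ m) (by omega)
      have cn := hcl n (by omega)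
      have m0 : (f C 0).1 = true := by
        have : (ZZ (16 ^ m) C 0).1 = true := by simp [ZZ]
        rcases c0 with h | h
        · rw [← h]; exact this
        · rw [← h.1]; exact this
      have mg : (f C (16 ^ m)).1 = true := by
        have : (ZZ (16 ^ m) C (16 ^ m)).1 = true := by simp [ZZ]
        rcases cg with h | h
        · rw [← h]; exact this
        · rw [← h.1]; exact this
      have hfX := hS1 _ (hf1 C)
      have hne : (f C n).2 ≠ none := fun h =>
        hfX.2.2.2 0 (16 ^ m) n hn1 hn2 ⟨m0, mg, h⟩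
      have hz : (ZZ (16 ^ m) C n).2 = some (decide (n ∈ C)) := by
        unfold ZZ
        rw [if_pos hn2.le]
      rcases cn with h | h
      · rw [← h]; exact hz
      · rcases h.2 with h' | h'
        · rw [hz] at h'; exact absurd h' (by simp)
        · exact absurd h' hne
    ext n
    by_cases hn : 0 < n ∧ n < 16 ^ m
    · have k1 := key B n hn.1 hn.2
      have k2 := key B' n hn.1 hn.2
      rw [hff, k2] at k1
      have := Option.some.inj k1
      rw [decide_eq_decide] at this
      exact this.symm
    · constructor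
      · intro h; exact absurd (Finset.mem_Ioo.1 (hB1 h)) hn
      · intro h; exact absurd (Finset.mem_Ioo.1 (hB2 h)) hn

/-! ### The growth rate does not exist -/

/-- The exponential rate at time `T`. -/
noncomputable def rt (T : ℕ) : ℝ := Real.log (spanNum XX dm 2 T 1) / T

theorem rt_lower (m : ℕ) (hm : 1 ≤ m) : (7 / 8) * Real.log 2 ≤ rt (16 ^ m + 1) := by
  have hpow : (16 : ℕ) ≤ 16 ^ m := by
    calc (16 : ℕ) = 16 ^ 1 := by norm_num
      _ ≤ 16 ^ m := Nat.pow_le_pow_right (by norm_num) hm
  have h := span_lower m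
  have h2 : ((2 : ℝ) ^ (16 ^ m - 1)) ≤ (spanNum XX dm 2 (16 ^ m + 1) 1 : ℝ) := by
    exact_mod_cast h
  have h3 : (((16 ^ m - 1 : ℕ)) : ℝ) * Real.log 2 ≤
      Real.log (spanNum XX dm 2 (16 ^ m + 1) 1 : ℝ) := by
    rw [← Real.log_pow]
    exact Real.log_le_log (by positivity) h2
  have hl2 : 0 < Real.log 2 := Real.log_pos (by norm_num)
  unfold rt
  rw [le_div_iff₀ (by positivity)]
  refine le_trans ?_ h3
  have hc : (((16 ^ m - 1 : ℕ)) : ℝ) = (16 : ℝ) ^ m - 1 := by
    rw [Nat.cast_sub (by omega)]; push_cast; ring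
  have hpow' : (16 : ℝ) ≤ (16 : ℝ) ^ m := by exact_mod_cast hpow
  rw [hc]
  push_cast
  nlinarith [mul_le_mul_of_nonneg_right hpow' hl2.le]

theorem rt_upper : ∀ᶠ k : ℕ in atTop, rt (4 * 16 ^ k) ≤ (13 / 16) * Real.log 2 := by
  have hl2 : 0 < Real.log 2 := Real.log_pos (by norm_num)
  have hlim : Tendsto (fun T : ℕ => Real.log ((T : ℝ) + 1) / T) atTop (nhds 0) := by
    have h1 : Tendsto (fun T : ℕ => Real.log ((T : ℝ) + 1) / ((T : ℝ) + 1)) atTop (nhds 0) := by
      have h0 : Tendsto (fun x : ℝ => Real.log x / x) atTop (nhds 0) := by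
        have := Real.isLittleO_log_id_atTop.tendsto_div_nhds_zero
        simpa using this
      exact h0.comp (tendsto_atTop_add_const_right _ _ tendsto_natCast_atTop_atTop)
    have h2 : Tendsto (fun T : ℕ => ((T : ℝ) + 1) / T) atTop (nhds 1) := by
      have h4 : Tendsto (fun T : ℕ => (1 : ℝ) + 1 / (T : ℝ)) atTop (nhds (1 + 0)) :=
        tendsto_const_nhds.add tendsto_one_div_atTop_nhds_zero_nat
      rw [add_zero] at h4
      refine h4.congr' ?_
      filter_upwards [eventually_gt_atTop 0] with T hT
      have : (T : ℝ) ≠ 0 := by positivity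
      field_simp
    have h3 := h1.mul h2
    rw [zero_mul] at h3
    refine h3.congr' ?_
    filter_upwards [eventually_gt_atTop 0] with T hT
    have : (T : ℝ) ≠ 0 := by positivity
    field_simp
  have hT : Tendsto (fun k : ℕ => 4 * 16 ^ k) atTop atTop := by
    have h1 : Tendsto (fun k : ℕ => (16 : ℕ) ^ k) atTop atTop :=
      tendsto_pow_atTop_atTop_of_one_lt (by norm_num)
    exact h1.const_mul_atTop' (by norm_num)
  have hlim2 := hlim.comp hT
  have hev := hlim2.eventually (gt_mem_nhds (show (0 : ℝ) < Real.log 2 / 32 by positivity))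
  filter_upwards [hev] with k hk
  simp only [Function.comp_apply] at hk
  set T : ℕ := 4 * 16 ^ k with hTdef
  have hTpos : 0 < T := by positivity
  have hTpos' : (0 : ℝ) < T := by exact_mod_cast hTpos
  have hG : ∀ m, 16 ^ m < T → 16 ^ m ≤ 16 ^ k := by
    intro m hm
    apply Nat.pow_le_pow_right (by norm_num)
    by_contra hc
    have : 16 ^ (k + 1) ≤ 16 ^ m := Nat.pow_le_pow_right (by norm_num) (by omega)
    rw [pow_succ] at this
    omega
  have h := span_upper T (16 ^ k) hG
  unfold rt
  rw [div_le_iff₀ hTpos']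
  rw [div_lt_iff₀ hTpos'] at hk
  have hcastT : (T : ℝ) = 4 * (16 : ℝ) ^ k := by rw [hTdef]; push_cast; ring
  have h2 : (spanNum XX dm 2 T 1 : ℝ) ≤ ((T : ℝ) + 1) ^ 2 * (2 : ℝ) ^ (16 ^ k + T / 2) := by
    exact_mod_cast h
  by_cases h0 : spanNum XX dm 2 T 1 = 0
  · rw [h0, Nat.cast_zero, Real.log_zero]
    positivity
  · have hpos : (0 : ℝ) < spanNum XX dm 2 T 1 := by exact_mod_cast Nat.pos_of_ne_zero h0
    have h3 := Real.log_le_log hpos h2
    rw [Real.log_mul (by positivity) (by positivity), Real.log_pow, Real.log_pow] at h3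
    have hdiv : (((16 ^ k + T / 2 : ℕ)) : ℝ) = (3 / 4) * (T : ℝ) := by
      have : T / 2 = 2 * 16 ^ k := by omega
      rw [this, hcastT]; push_cast; ring
    rw [hdiv] at h3
    have hc2 : ((2 : ℕ) : ℝ) = 2 := by norm_num
    rw [hc2] at h3
    nlinarith [h3, hk]

theorem not_PropP : ¬ PropP XX dm 2 1 := by
  intro h
  have hl2 : 0 < Real.log 2 := Real.log_pos (by norm_num)
  unfold PropP at h
  have h1 : (((7 / 8) * Real.log 2 : ℝ) : EReal) ≤
      limsup (fun T : ℕ => ((Real.log (spanNum XX dm 2 T 1) / T : ℝ) : EReal)) atTop := by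
    apply le_limsup_of_frequently_le'
    rw [frequently_atTop]
    intro N
    refine ⟨16 ^ (N + 1) + 1, ?_, ?_⟩
    · have : N + 1 < 16 ^ (N + 1) := Nat.lt_pow_self (by norm_num)
      omega
    · exact EReal.coe_le_coe_iff.2 (rt_lower (N + 1) (by omega))
  have h2 : liminf (fun T : ℕ => ((Real.log (spanNum XX dm 2 T 1) / T : ℝ) : EReal)) atTop ≤
      (((13 / 16) * Real.log 2 : ℝ) : EReal) := by
    apply liminf_le_of_frequently_le'
    rw [frequently_atTop]
    intro N
    obtain ⟨K, hK⟩ := eventually_atTop.1 rt_upper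
    refine ⟨4 * 16 ^ (max N K), ?_, ?_⟩
    · have : max N K < 16 ^ (max N K) := Nat.lt_pow_self (by norm_num)
      have := le_max_left N K
      omega
    · exact EReal.coe_le_coe_iff.2 (hK _ (le_max_right N K))
  rw [h] at h2
  have h3 := h1.trans h2
  rw [EReal.coe_le_coe_iff] at h3
  nlinarith

end Pool.Agent.R200.Span
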