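import Pool.Agent.R200.TreeComb

/-!
# The tree-shift of a matrix: entropy
-/

namespace Pool.Agent.R200.Tree

open Filter Topology
open scoped NNReal ENNReal

attribute [local instance] Matrix.linftyOpNormedRing Matrix.linftyOpNormedAlgebra
  Matrix.linftyOpNormedAddCommGroup Matrix.linftyOpNormedSpace

variable {k : ℕ} (E : Fin k → Fin k → Bool)

/-- Natural number adjacency matrix. -/
def nadj : Matrix (Fin k) (Fin k) ℕ := Matrix.of fun i j => if E i j = true then 1 else 0

theorem adj_eq : adj E = (Nat.castRingHom ℂ).mapMatrix (nadj E) := by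
  ext i j
  unfold adj nadj
  simp only [RingHom.mapMatrix_apply, Matrix.map_apply, Matrix.of_apply]
  split_ifs <;> simp

theorem adj_pow (m : ℕ) (i j : Fin k) : (adj E ^ m) i j = (((nadj E ^ m) i j : ℕ) : ℂ) := by
  rw [adj_eq, ← map_pow]
  rfl

theorem row_sum (m : ℕ) (i : Fin k) : ∑ j, (nadj E ^ m) i j = pp E m (some i) := by
  induction m generalizing i with
  | zero =>
    rw [pp_zero, pow_zero]
    simp [Matrix.one_apply]
  | succ m ih =>
    rw [pp_succ_some, pow_succ']
    simp only [Matrix.mul_apply]
    rw [Finset.sum_comm]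
    apply Finset.sum_congr rfl
    intro l _
    rw [← Finset.mul_sum, ih]
    unfold nadj
    simp only [Matrix.of_apply]
    split_ifs <;> simp

/-- Maximal number of live nodes of depth `m`. -/
noncomputable def Mx (m : ℕ) : ℕ := Finset.univ.sup fun i : Fin k => pp E m (some i)

theorem norm_pow (m : ℕ) : ‖adj E ^ m‖ = (Mx E m : ℝ) := by
  rw [Matrix.linfty_opNorm_def]
  have h : ∀ i : Fin k, ∑ j, ‖(adj E ^ m) i j‖₊ = ((pp E m (some i) : ℕ) : ℝ≥0) := by
    intro i
    rw [← row_sum, Nat.cast_sum]
    apply Finset.sum_congr rfl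
    intro j _
    rw [adj_pow]
    ext
    simp
  simp_rw [h]
  unfold Mx
  have h2 : (Finset.univ.sup fun i : Fin k => ((pp E m (some i) : ℕ) : ℝ≥0))
      = ((Finset.univ.sup fun i : Fin k => pp E m (some i) : ℕ) : ℝ≥0) := by
    apply le_antisymm
    · apply Finset.sup_le
      intro i hi
      exact_mod_cast Finset.le_sup (f := fun i : Fin k => pp E m (some i)) hi
    · rcases Finset.eq_empty_or_nonempty (Finset.univ : Finset (Fin k)) with h3 | h3
      · rw [h3]; simp
      · obtain ⟨i, hi, hi'⟩ := Finset.exists_mem_eq_sup _ h3 (fun i : Fin k => pp E m (some i))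
        rw [hi']
        exact Finset.le_sup (f := fun i : Fin k => ((pp E m (some i) : ℕ) : ℝ≥0)) hi
  rw [h2]
  exact NNReal.coe_natCast _

theorem pp_le (m : ℕ) (s : Option (Fin k)) : pp E m s ≤ Mx E m := by
  cases s with
  | none => rw [pp_none]; exact Nat.zero_le _
  | some i => exact Finset.le_sup (f := fun i : Fin k => pp E m (some i)) (Finset.mem_univ i)

theorem path_live {x : ℤ → Fin k} (hx : x ∈ matrixShift E) (m : ℕ) (i : ℤ) :
    1 ≤ pp E m (some (x i)) := by
  induction m generalizing i with
  | zero => rw [pp_zero]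
  | succ m ih =>
    rw [pp_succ_some]
    calc 1 ≤ pp E m (some (x (i + 1))) := ih (i + 1)
      _ = if E (x i) (x (i + 1)) = true then pp E m (some (x (i + 1))) else 0 := by
          rw [if_pos (hx i)]
      _ ≤ ∑ j : Fin k, (if E (x i) j = true then pp E m (some j) else 0) :=
          Finset.single_le_sum
            (f := fun j : Fin k => if E (x i) j = true then pp E m (some j) else 0)
            (fun _ _ => Nat.zero_le _) (Finset.mem_univ _)

theorem Mx_pos (hne : (matrixShift E).Nonempty) (m : ℕ) : 1 ≤ Mx E m := by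
  obtain ⟨x, hx⟩ := hne
  exact (path_live E hx m 0).trans (pp_le E m _)

theorem Mx_attained (hne : (matrixShift E).Nonempty) (m : ℕ) :
    ∃ a : Fin k, pp E m (some a) = Mx E m := by
  obtain ⟨x, hx⟩ := hne
  obtain ⟨i, _, hi⟩ := Finset.exists_mem_eq_sup (Finset.univ : Finset (Fin k))
    ⟨x 0, Finset.mem_univ _⟩ (fun i : Fin k => pp E m (some i))
  exact ⟨i, hi.symm⟩

theorem rho_lim :
    Tendsto (fun n : ℕ => ((Mx E n : ℝ)) ^ (1 / n : ℝ)) atTop (𝓝 (rho E)) := by
  have : CompleteSpace (Matrix (Fin k) (Fin k) ℂ) := FiniteDimensional.complete ℂ _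
  have h1 := spectrum.pow_norm_pow_one_div_tendsto_nhds_spectralRadius (adj E)
  have h2 : spectralRadius ℂ (adj E) ≠ ∞ := by
    have := spectrum.spectralRadius_le_pow_nnnorm_pow_one_div ℂ (adj E) 0
    refine ne_top_of_le_ne_top ?_ this
    apply ENNReal.mul_ne_top
    · apply ENNReal.rpow_ne_top_of_nonneg (by positivity) ENNReal.coe_ne_top
    · apply ENNReal.rpow_ne_top_of_nonneg (by positivity) ENNReal.coe_ne_top
  have h3 := (ENNReal.tendsto_toReal h2).comp h1
  refine h3.congr ?_
  intro n
  simp only [Function.comp_apply]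
  rw [ENNReal.toReal_ofReal (by positivity), norm_pow]

theorem rho_ge (hne : (matrixShift E).Nonempty) : 1 ≤ rho E := by
  apply ge_of_tendsto (rho_lim E)
  apply Filter.Eventually.of_forall
  intro n
  apply Real.one_le_rpow
  · exact_mod_cast Mx_pos E hne n
  · positivity

theorem log_lim (hne : (matrixShift E).Nonempty) :
    Tendsto (fun n : ℕ => Real.log (Mx E n) / n) atTop (𝓝 (Real.log (rho E))) := by
  have h1 := rho_ge E hne
  have h2 := (Real.continuousAt_log (by linarith : rho E ≠ 0)).tendsto.comp (rho_lim E)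
  refine h2.congr ?_
  intro n
  simp only [Function.comp_apply]
  rw [Real.log_rpow]
  · ring
  · have := Mx_pos E hne n
    exact_mod_cast this

theorem card_lower (hne : (matrixShift E).Nonempty) (n : ℕ) :
    Real.log 2 * Mx E n ≤ Real.log ((blocks (TX E) (n + 1)).ncard : ℝ) := by
  obtain ⟨a, ha⟩ := Mx_attained E hne n
  have h1 := blocks_lower E (n + 1) a
  have h2 : Mx E n ≤ Nat.card (Live E (n + 1) (some a)) := by
    rw [card_live, ← ha]
    exact Finset.single_le_sum (f := fun m => pp E m (some a)) (fun _ _ => Nat.zero_le _)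
      (Finset.mem_range.2 (Nat.lt_succ_self n))
  have h3 : 2 ^ Mx E n ≤ (blocks (TX E) (n + 1)).ncard :=
    (Nat.pow_le_pow_right (by norm_num) h2).trans h1
  have h4 : ((2 : ℝ) ^ Mx E n) ≤ ((blocks (TX E) (n + 1)).ncard : ℝ) := by exact_mod_cast h3
  calc Real.log 2 * Mx E n = Real.log (2 ^ Mx E n) := by
        rw [Real.log_pow]; ring
    _ ≤ _ := Real.log_le_log (by positivity) h4

theorem card_upper (n : ℕ) :
    Real.log ((blocks (TX E) (n + 1)).ncard : ℝ) ≤
      Real.log (k + 1) + Real.log 2 * ∑ m ∈ Finset.range (n + 1), (Mx E m : ℝ) := by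
  have h1 := blocks_upper E (n + 1) (Nat.succ_pos n)
    (∑ m ∈ Finset.range (n + 1), Mx E m) (by
      intro s
      rw [card_live]
      exact Finset.sum_le_sum fun m _ => pp_le E m s)
  rcases Nat.eq_zero_or_pos (blocks (TX E) (n + 1)).ncard with h0 | h0
  · rw [h0]
    simp only [Nat.cast_zero, Real.log_zero]
    have : (0 : ℝ) ≤ k := Nat.cast_nonneg _
    have h2 : 0 ≤ Real.log ((k : ℝ) + 1) := Real.log_nonneg (by linarith)
    have h3 : 0 ≤ Real.log 2 := Real.log_nonneg (by norm_num)
    positivity
  · have h2 : ((blocks (TX E) (n + 1)).ncard : ℝ) ≤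
        ((k : ℝ) + 1) * 2 ^ (∑ m ∈ Finset.range (n + 1), Mx E m) := by exact_mod_cast h1
    calc Real.log ((blocks (TX E) (n + 1)).ncard : ℝ)
        ≤ Real.log (((k : ℝ) + 1) * 2 ^ (∑ m ∈ Finset.range (n + 1), Mx E m)) :=
          Real.log_le_log (by exact_mod_cast h0) h2
      _ = _ := by
          rw [Real.log_mul (by positivity) (by positivity), Real.log_pow]
          push_cast
          ring

theorem main (hne : (matrixShift E).Nonempty) : HasEntropy (TX E) (Real.log (rho E)) := by
  unfold HasEntropy
  rw [← tendsto_add_atTop_iff_nat 1]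
  set h := Real.log (rho E) with hh
  have hlim := log_lim E hne
  have hh0 : 0 ≤ h := Real.log_nonneg (rho_ge E hne)
  have hinv : Tendsto (fun n : ℕ => (1 : ℝ) / ((n : ℝ) + 1)) atTop (𝓝 0) :=
    tendsto_one_div_add_atTop_nhds_zero_nat
  have hlog2 : 0 < Real.log 2 := Real.log_pos (by norm_num)
  have hMx : ∀ n, (1 : ℝ) ≤ (Mx E n : ℝ) := fun n => by exact_mod_cast Mx_pos E hne n
  rw [tendsto_order]
  constructor
  · intro b hb
    have hlow : Tendsto (fun n : ℕ => (Real.log (Real.log 2)) * ((1 : ℝ) / ((n : ℝ) + 1)) +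
        Real.log (Mx E n) / n * (1 - (1 : ℝ) / ((n : ℝ) + 1))) atTop (𝓝 (h)) := by
      have := (hinv.const_mul (Real.log (Real.log 2))).add
        (hlim.mul (hinv.const_sub 1))
      simpa using this
    filter_upwards [(tendsto_order.1 hlow).1 b hb, eventually_gt_atTop 0] with n hn hn0
    refine lt_of_lt_of_le hn ?_
    have hn1 : (0 : ℝ) < n := by exact_mod_cast hn0
    have h1 := card_lower E hne n
    have h2 : Real.log (Real.log 2) + Real.log (Mx E n) ≤
        Real.log (Real.log ((blocks (TX E) (n + 1)).ncard : ℝ)) := by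
      rw [← Real.log_mul hlog2.ne' (by have := hMx n; positivity)]
      apply Real.log_le_log
      · have := hMx n
        positivity
      · exact h1
    push_cast
    rw [le_div_iff₀ (by positivity)]
    calc (Real.log (Real.log 2) * (1 / ((n : ℝ) + 1)) +
          Real.log (Mx E n) / n * (1 - 1 / ((n : ℝ) + 1))) * ((n : ℝ) + 1)
        = Real.log (Real.log 2) + Real.log (Mx E n) := by
          field_simp
          ring
      _ ≤ _ := h2
  · intro b hb
    set c := (h + b) / 2 with hc
    have hc1 : h < c := by rw [hc]; linarith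
    have hc2 : c < b := by rw [hc]; linarith
    have hc0 : 0 ≤ c := by linarith
    obtain ⟨N, hN⟩ := eventually_atTop.1 ((tendsto_order.1 hlim).2 c hc1)
    set D : ℝ := 1 + ∑ m ∈ Finset.range (N + 1), (Mx E m : ℝ) with hD
    have hsum0 : 0 ≤ ∑ m ∈ Finset.range (N + 1), (Mx E m : ℝ) :=
      Finset.sum_nonneg fun _ _ => Nat.cast_nonneg _
    have hD1 : 1 ≤ D := by rw [hD]; linarith
    have hbd : ∀ m : ℕ, (Mx E m : ℝ) ≤ D * Real.exp (c * m) := by
      intro m
      have hexp : 1 ≤ Real.exp (c * m) := Real.one_le_exp (by positivity)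
      by_cases hm : m ≤ N
      · have h1 : (Mx E m : ℝ) ≤ ∑ m ∈ Finset.range (N + 1), (Mx E m : ℝ) :=
          Finset.single_le_sum (f := fun m => (Mx E m : ℝ)) (fun _ _ => Nat.cast_nonneg _)
            (Finset.mem_range.2 (by omega))
        have h2 : (Mx E m : ℝ) ≤ D := by rw [hD]; linarith
        nlinarith
      · have h1 := hN m (by omega)
        have hm0 : (0 : ℝ) < m := by
          have : 0 < m := by omega
          exact_mod_cast this
        rw [div_lt_iff₀ hm0] at h1
        have h2 : (Mx E m : ℝ) ≤ Real.exp (c * m) := by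
          rw [← Real.exp_log (by have := hMx m; linarith : (0 : ℝ) < Mx E m)]
          exact Real.exp_le_exp.2 h1.le
        nlinarith
    have hS : ∀ n : ℕ, ∑ m ∈ Finset.range (n + 1), (Mx E m : ℝ) ≤
        ((n : ℝ) + 1) * (D * Real.exp (c * (n + 1))) := by
      intro n
      calc ∑ m ∈ Finset.range (n + 1), (Mx E m : ℝ)
          ≤ ∑ m ∈ Finset.range (n + 1), D * Real.exp (c * (n + 1)) := by
            apply Finset.sum_le_sum
            intro m hm
            refine (hbd m).trans ?_
            apply mul_le_mul_of_nonneg_left _ (by linarith)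
            apply Real.exp_le_exp.2
            apply mul_le_mul_of_nonneg_left _ hc0
            have : m < n + 1 := Finset.mem_range.1 hm
            have : (m : ℝ) ≤ ((n + 1 : ℕ) : ℝ) := by exact_mod_cast this.le
            push_cast at this
            exact this
        _ = _ := by
            rw [Finset.sum_const, Finset.card_range, nsmul_eq_mul]
            push_cast
            ring
    set Q : ℝ := (Real.log (k + 1) + Real.log 2) * D with hQ
    have hk : 0 ≤ Real.log ((k : ℝ) + 1) := by
      apply Real.log_nonneg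
      have : (0 : ℝ) ≤ k := Nat.cast_nonneg _
      linarith
    have hQ0 : 0 < Q := by rw [hQ]; positivity
    have hup : Tendsto (fun n : ℕ => (Real.log Q) * ((1 : ℝ) / ((n : ℝ) + 1)) +
        Real.log ((n : ℝ) + 1) / ((n : ℝ) + 1) + c) atTop (𝓝 c) := by
      have e1 : Tendsto (fun x : ℝ => Real.log x / x) atTop (𝓝 0) := by
        have := Real.isLittleO_log_id_atTop.tendsto_div_nhds_zero
        simpa using this
      have e2 : Tendsto (fun n : ℕ => (n : ℝ) + 1) atTop atTop :=
        tendsto_atTop_add_const_right _ _ tendsto_natCast_atTop_atTop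
      have e3 := e1.comp e2
      have := ((hinv.const_mul (Real.log Q)).add e3).add_const c
      simpa using this
    filter_upwards [(tendsto_order.1 hup).2 b hc2] with n hn
    refine lt_of_le_of_lt ?_ hn
    have hn1 : (0 : ℝ) < (n : ℝ) + 1 := by positivity
    have hpos : 0 < Real.log ((blocks (TX E) (n + 1)).ncard : ℝ) := by
      have := card_lower E hne n
      have h2 := hMx n
      have : 0 < Real.log 2 * Mx E n := by positivity
      linarith
    have h1 : Real.log ((blocks (TX E) (n + 1)).ncard : ℝ) ≤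
        Q * ((n : ℝ) + 1) * Real.exp (c * (n + 1)) := by
      refine (card_upper E n).trans ?_
      have h2 := hS n
      have h3 : 1 ≤ ((n : ℝ) + 1) * (D * Real.exp (c * (n + 1))) := by
        refine le_trans ?_ h2
        refine le_trans (hMx 0) ?_
        exact Finset.single_le_sum (f := fun m => (Mx E m : ℝ)) (fun _ _ => Nat.cast_nonneg _)
            (Finset.mem_range.2 (Nat.succ_pos n))
      calc Real.log (k + 1) + Real.log 2 * ∑ m ∈ Finset.range (n + 1), (Mx E m : ℝ)
          ≤ Real.log (k + 1) * (((n : ℝ) + 1) * (D * Real.exp (c * (n + 1)))) +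
            Real.log 2 * (((n : ℝ) + 1) * (D * Real.exp (c * (n + 1)))) := by
            apply add_le_add
            · exact le_mul_of_one_le_right hk h3
            · exact mul_le_mul_of_nonneg_left h2 hlog2.le
        _ = _ := by rw [hQ]; ring
    push_cast
    rw [div_le_iff₀ hn1]
    calc Real.log (Real.log ((blocks (TX E) (n + 1)).ncard : ℝ))
        ≤ Real.log (Q * ((n : ℝ) + 1) * Real.exp (c * (n + 1))) :=
          Real.log_le_log hpos h1
      _ = Real.log Q + Real.log ((n : ℝ) + 1) + c * (n + 1) := by
          rw [Real.log_mul (by positivity) (by positivity), Real.log_mul (by positivity)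
            (by positivity), Real.log_exp]
      _ = _ := by
          field_simp

end Pool.Agent.R200.Tree
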