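import Pool.Agent.R200.TreeDefs

/-!
# The tree-shift of a matrix: combinatorics
-/

namespace Pool.Agent.R200.Tree

variable {k : ℕ}

/-- Children indices `< k` correspond to states. -/
def cc (k : ℕ) (i : Fin (k + 2)) : Option (Fin k) := if h : i.1 < k then some ⟨i.1, h⟩ else none

/-- The transition of live/dead states. -/
def step (E : Fin k → Fin k → Bool) (s : Option (Fin k)) (i : Fin (k + 2)) : Option (Fin k) :=
  match s, cc k i with
  | some a, some j => if E a j = true then some j else none
  | _, _ => none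

/-- Running along a word. -/
def run (E : Fin k → Fin k → Bool) (s : Option (Fin k)) (w : List (Fin (k + 2))) :
    Option (Fin k) := w.foldl (step E) s

theorem step_none (E : Fin k → Fin k → Bool) (i : Fin (k + 2)) : step E none i = none := rfl

theorem run_append (E : Fin k → Fin k → Bool) (s : Option (Fin k)) (v w : List (Fin (k + 2))) :
    run E s (v ++ w) = run E (run E s v) w := by
  unfold run
  rw [List.foldl_append]

theorem run_none (E : Fin k → Fin k → Bool) (w : List (Fin (k + 2))) : run E none w = none := by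
  induction w with
  | nil => rfl
  | cons i w ih => exact ih

/-- Labels: live states with a free bit, or dead. -/
abbrev Lab (k : ℕ) : Type := Option (Fin k × Bool)

/-- State of a label. -/
def stt (x : Lab k) : Option (Fin k) := x.map Prod.fst

/-- The tree-shift of a matrix. -/
def TX (E : Fin k → Fin k → Bool) : Set (List (Fin (k + 2)) → Lab k) :=
  {t | ∀ v i, stt (t (v ++ [i])) = step E (stt (t v)) i}

theorem TX_run {E : Fin k → Fin k → Bool} {t : List (Fin (k + 2)) → Lab k} (ht : t ∈ TX E)
    (v w : List (Fin (k + 2))) : stt (t (v ++ w)) = run E (stt (t v)) w := by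
  induction w using List.reverseRecOn with
  | nil => rw [List.append_nil]; rfl
  | append_singleton w i ih =>
    rw [← List.append_assoc, ht (v ++ w) i, ih, run_append]
    rfl

instance finiteNodes (d n : ℕ) : Finite {w : List (Fin d) // w.length < n} :=
  (List.finite_length_lt (Fin d) n).to_subtype

theorem TX_tsft (E : Fin k → Fin k → Bool) : IsTSFT (TX E) := by
  have hl0 : ([] : List (Fin (k + 2))).length < 2 := by simp
  have hl1 : ∀ i : Fin (k + 2), [i].length < 2 := by simp
  refine ⟨(fun b : Block (k + 2) (Lab k) 2 => (⟨2, b⟩ : Σ n : ℕ, Block (k + 2) (Lab k) n)) ''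
    {b | ∃ i : Fin (k + 2), stt (b ⟨[i], hl1 i⟩) ≠ step E (stt (b ⟨[], hl0⟩)) i}, ?_, ?_, ?_⟩
  · apply Set.Finite.image
    exact Set.toFinite _
  · rintro _ ⟨b, _, rfl⟩
    exact one_le_two
  · ext t
    constructor
    · intro ht
      rintro _ ⟨b, ⟨i, hi⟩, rfl⟩ v hv
      have hv' : blockAt t v 2 = b := hv
      subst hv'
      apply hi
      show stt (t (v ++ [i])) = step E (stt (t (v ++ []))) i
      rw [List.append_nil]
      exact ht v i
    · intro ht v i
      by_contra hcon
      refine ht ⟨2, blockAt t v 2⟩ ⟨blockAt t v 2, ⟨i, ?_⟩, rfl⟩ v rfl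
      show ¬ (stt (t (v ++ [i])) = step E (stt (t (v ++ []))) i)
      rw [List.append_nil]
      exact hcon

/-- Live nodes of depth `< n`. -/
def Live (E : Fin k → Fin k → Bool) (n : ℕ) (s : Option (Fin k)) : Type :=
  {w : List (Fin (k + 2)) // w.length < n ∧ run E s w ≠ none}

/-- Live nodes of depth `m`. -/
def LiveAt (E : Fin k → Fin k → Bool) (m : ℕ) (s : Option (Fin k)) : Type :=
  {w : List (Fin (k + 2)) // w.length = m ∧ run E s w ≠ none}

instance (E : Fin k → Fin k → Bool) (n : ℕ) (s : Option (Fin k)) : Finite (Live E n s) := by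
  unfold Live
  exact ((List.finite_length_lt (Fin (k + 2)) n).subset (fun w hw => hw.1)).to_subtype

instance (E : Fin k → Fin k → Bool) (n : ℕ) (s : Option (Fin k)) : Finite (LiveAt E n s) := by
  unfold LiveAt
  exact ((List.finite_length_eq (Fin (k + 2)) n).subset (fun w hw => hw.1)).to_subtype

/-- Number of live nodes. -/
noncomputable def pp (E : Fin k → Fin k → Bool) (m : ℕ) (s : Option (Fin k)) : ℕ :=
  Nat.card (LiveAt E m s)

theorem card_live (E : Fin k → Fin k → Bool) (n : ℕ) (s : Option (Fin k)) :
    Nat.card (Live E n s) = ∑ m ∈ Finset.range n, pp E m s := by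
  have e : Live E n s ≃ Σ m : Fin n, LiveAt E m s :=
    { toFun := fun w => ⟨⟨w.1.length, w.2.1⟩, ⟨w.1, rfl, w.2.2⟩⟩
      invFun := fun x => ⟨x.2.1, by rw [x.2.2.1]; exact x.1.2, x.2.2.2⟩
      left_inv := fun w => rfl
      right_inv := by
        rintro ⟨⟨m, hm⟩, ⟨w, hw, hw'⟩⟩
        have : w.length = m := hw
        subst this
        rfl }
  rw [Nat.card_congr e, Nat.card_sigma, ← Fin.sum_univ_eq_sum_range (fun m => pp E m s)]
  rfl

theorem pp_none (E : Fin k → Fin k → Bool) (m : ℕ) : pp E m none = 0 := by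
  unfold pp
  have : IsEmpty (LiveAt E m none) := ⟨fun w => w.2.2 (run_none E _)⟩
  exact Nat.card_of_isEmpty

theorem pp_zero (E : Fin k → Fin k → Bool) (a : Fin k) : pp E 0 (some a) = 1 := by
  unfold pp
  rw [Nat.card_eq_one_iff_unique]
  refine ⟨⟨?_⟩, ⟨⟨[], rfl, by unfold run; simp⟩⟩⟩
  rintro ⟨w, hw, _⟩ ⟨w', hw', _⟩
  apply Subtype.ext
  have h1 : w = [] := List.length_eq_zero_iff.1 hw
  have h2 : w' = [] := List.length_eq_zero_iff.1 hw'
  show w = w'
  rw [h1, h2]

theorem pp_succ (E : Fin k → Fin k → Bool) (m : ℕ) (s : Option (Fin k)) :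
    pp E (m + 1) s = ∑ i : Fin (k + 2), pp E m (step E s i) := by
  have e : LiveAt E (m + 1) s ≃ Σ i : Fin (k + 2), LiveAt E m (step E s i) :=
    { toFun := fun w =>
        match w with
        | ⟨i :: w, h⟩ => ⟨i, ⟨w, by simpa using h.1, h.2⟩⟩
        | ⟨[], h⟩ => absurd h.1 (by simp)
      invFun := fun x => ⟨x.1 :: x.2.1, by rw [List.length_cons, x.2.2.1], x.2.2.2⟩
      left_inv := by
        rintro ⟨w, h⟩
        cases w with
        | nil => exact absurd h.1 (by simp)
        | cons i w => rfl
      right_inv := by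
        rintro ⟨i, ⟨w, h⟩⟩
        rfl }
  unfold pp
  rw [Nat.card_congr e, Nat.card_sigma]

theorem cc_cast (j : Fin k) : cc k j.castSucc.castSucc = some j := by
  unfold cc
  rw [dif_pos (by simp)]
  rfl

theorem cc_last1 : cc k (Fin.last k).castSucc = none := by
  unfold cc
  rw [dif_neg (by simp)]

theorem cc_last2 : cc k (Fin.last (k + 1)) = none := by
  unfold cc
  rw [dif_neg (by simp)]

theorem pp_succ_some (E : Fin k → Fin k → Bool) (m : ℕ) (a : Fin k) :
    pp E (m + 1) (some a) = ∑ j : Fin k, (if E a j = true then pp E m (some j) else 0) := by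
  rw [pp_succ, Fin.sum_univ_castSucc, Fin.sum_univ_castSucc]
  have h1 : step E (some a) (Fin.last k).castSucc = none := by
    unfold step
    rw [cc_last1]
  have h2 : step E (some a) (Fin.last (k + 1)) = none := by
    unfold step
    rw [cc_last2]
  rw [h1, h2, pp_none, add_zero, add_zero]
  apply Finset.sum_congr rfl
  intro j _
  have h3 : step E (some a) j.castSucc.castSucc = if E a j = true then some j else none := by
    unfold step
    rw [cc_cast]
  rw [h3]
  split_ifs
  · rfl
  · rw [pp_none]

/-! ### Upper bound for the number of blocks -/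

theorem blocks_upper (E : Fin k → Fin k → Bool) (n : ℕ) (hn : 0 < n) (L : ℕ)
    (hL : ∀ s, Nat.card (Live E n s) ≤ L) : (blocks (TX E) n).ncard ≤ (k + 1) * 2 ^ L := by
  classical
  let f : blocks (TX E) n → Σ s : Option (Fin k), (Live E n s → Bool) := fun b =>
    ⟨stt (b.1 ⟨[], by simpa using hn⟩), fun w => ((b.1 ⟨w.1, w.2.1⟩).map Prod.snd).getD false⟩
  have hf : Function.Injective f := by
    rintro ⟨b, t, ht, v, rfl⟩ ⟨b', t', ht', v', rfl⟩ h
    apply Subtype.ext
    show blockAt t v n = blockAt t' v' n
    have h1 : stt (t v) = stt (t' v') := by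
      have := congrArg Sigma.fst h
      simp only [f, blockAt, List.append_nil] at this
      exact this
    have h2 : ∀ w : List (Fin (k + 2)), w.length < n → run E (stt (t v)) w ≠ none →
        ((t (v ++ w)).map Prod.snd).getD false = ((t' (v' ++ w)).map Prod.snd).getD false := by
      intro w hw hw'
      have e1 : stt (blockAt t v n ⟨[], by simpa using hn⟩) = stt (t v) := by
        simp [blockAt]
      have e2 : stt (blockAt t' v' n ⟨[], by simpa using hn⟩) = stt (t' v') := by
        simp [blockAt]
      have h3 : ∀ (s s' : Option (Fin k)) (g : Live E n s → Bool) (g' : Live E n s' → Bool),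
          (⟨s, g⟩ : Σ s : Option (Fin k), (Live E n s → Bool)) = ⟨s', g'⟩ →
          ∀ w (h1 : w.length < n ∧ run E s w ≠ none) (h2 : w.length < n ∧ run E s' w ≠ none),
            g ⟨w, h1⟩ = g' ⟨w, h2⟩ := by
        intro s s' g g' hsg w h1 h2
        cases hsg
        rfl
      have := h3 _ _ _ _ h w ⟨hw, by rw [e1]; exact hw'⟩ ⟨hw, by rw [e2, ← h1]; exact hw'⟩
      exact this
    funext w
    show t (v ++ w.1) = t' (v' ++ w.1)
    have h3 := TX_run ht v w.1
    have h4 := TX_run ht' v' w.1
    rw [← h1] at h4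
    by_cases hr : run E (stt (t v)) w.1 = none
    · rw [hr] at h3 h4
      unfold stt at h3 h4
      rw [Option.map_eq_none_iff] at h3 h4
      rw [h3, h4]
    · have h5 := h2 w.1 w.2 hr
      obtain ⟨a, ha⟩ := Option.ne_none_iff_exists'.1 hr
      rw [ha] at h3 h4
      unfold stt at h3 h4
      obtain ⟨⟨a1, b1⟩, e1, e1'⟩ := Option.map_eq_some_iff.1 h3
      obtain ⟨⟨a2, b2⟩, e2, e2'⟩ := Option.map_eq_some_iff.1 h4
      rw [e1, e2] at h5 ⊢
      simp at h5 e1' e2'
      rw [h5, e1', e2']
  have h1 : (blocks (TX E) n).ncard ≤ Nat.card (Σ s : Option (Fin k), (Live E n s → Bool)) := by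
    rw [← Nat.card_coe_set_eq]
    exact Nat.card_le_card_of_injective f hf
  refine h1.trans ?_
  rw [Nat.card_sigma]
  calc ∑ s : Option (Fin k), Nat.card (Live E n s → Bool)
      ≤ ∑ s : Option (Fin k), 2 ^ L := by
        apply Finset.sum_le_sum
        intro s _
        rw [Nat.card_fun]
        have : Nat.card Bool = 2 := by simp
        rw [this]
        exact Nat.pow_le_pow_right (by norm_num) (hL s)
    _ = (k + 1) * 2 ^ L := by
        rw [Finset.sum_const, Finset.card_univ, Fintype.card_option, Fintype.card_fin]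
        simp

/-! ### Lower bound -/

open Classical in
/-- Prescribed bits, extended by `false`. -/
noncomputable def bitf (E : Fin k → Fin k → Bool) (n : ℕ) (a : Fin k)
    (β : Live E n (some a) → Bool) (w : List (Fin (k + 2))) : Bool :=
  if h : w.length < n ∧ run E (some a) w ≠ none then β ⟨w, h⟩ else false

/-- A tree with prescribed bits. -/
noncomputable def mk (E : Fin k → Fin k → Bool) (n : ℕ) (a : Fin k)
    (β : Live E n (some a) → Bool) (w : List (Fin (k + 2))) : Lab k :=
  (run E (some a) w).map fun j => (j, bitf E n a β w)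

theorem mk_mem (E : Fin k → Fin k → Bool) (n : ℕ) (a : Fin k)
    (β : Live E n (some a) → Bool) : mk E n a β ∈ TX E := by
  have h : ∀ w, stt (mk E n a β w) = run E (some a) w := by
    intro w
    unfold mk stt
    rw [Option.map_map]
    cases run E (some a) w <;> rfl
  intro v i
  rw [h, h, run_append]
  rfl

theorem blocks_lower (E : Fin k → Fin k → Bool) (n : ℕ) (a : Fin k) :
    2 ^ Nat.card (Live E n (some a)) ≤ (blocks (TX E) n).ncard := by
  have hfin : (blocks (TX E) n).Finite := Set.toFinite _
  have hc : 2 ^ Nat.card (Live E n (some a)) = Nat.card (Live E n (some a) → Bool) := by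
    rw [Nat.card_fun]
    simp
  rw [hc, ← Nat.card_coe_set_eq]
  have := hfin.to_subtype
  let g : (Live E n (some a) → Bool) → blocks (TX E) n := fun β =>
    ⟨blockAt (mk E n a β) [] n, mk E n a β, mk_mem E n a β, [], rfl⟩
  apply Nat.card_le_card_of_injective g
  intro β β' h
  have h1 : blockAt (mk E n a β) [] n = blockAt (mk E n a β') [] n := congrArg Subtype.val h
  funext w
  have h2 := congrFun h1 ⟨w.1, w.2.1⟩
  have h3 : mk E n a β w.1 = mk E n a β' w.1 := h2
  unfold mk at h3
  obtain ⟨j, hj⟩ := Option.ne_none_iff_exists'.1 w.2.2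
  rw [hj] at h3
  simp only [Option.map_some, Option.some.injEq, Prod.mk.injEq, true_and] at h3
  unfold bitf at h3
  rw [dif_pos w.2, dif_pos w.2] at h3
  exact h3

end Pool.Agent.R200.Tree
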