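import Mathlib

/-!
# Tree-shifts of finite type and their entropy: definitions
-/

namespace Pool.Agent.R200.Tree

open Filter Topology

/-- An `n`-block: a labelling of the nodes `w` with `|w| ≤ n - 1`. -/
abbrev Block (d : ℕ) (α : Type) (n : ℕ) : Type := {w : List (Fin d) // w.length < n} → α

/-- The `n`-block of the labelled tree `t` at the node `v`. -/
def blockAt {d : ℕ} {α : Type} (t : List (Fin d) → α) (v : List (Fin d)) (n : ℕ) :
    Block d α n := fun w => t (v ++ w.1)

/-- The tree-shift with forbidden blocks `F`. -/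
def treeShift {d : ℕ} {α : Type} (F : Set (Σ n : ℕ, Block d α n)) :
    Set (List (Fin d) → α) :=
  {t | ∀ f ∈ F, ∀ v, blockAt t v f.1 ≠ f.2}

/-- Tree-shifts of finite type. -/
def IsTSFT {d : ℕ} {α : Type} (X : Set (List (Fin d) → α)) : Prop :=
  ∃ F : Set (Σ n : ℕ, Block d α n), F.Finite ∧ (∀ f ∈ F, 1 ≤ f.1) ∧ X = treeShift F

/-- The set `B_n(X)` of `n`-blocks occurring in elements of `X`. -/
def blocks {d : ℕ} {α : Type} (X : Set (List (Fin d) → α)) (n : ℕ) : Set (Block d α n) :=
  {b | ∃ t ∈ X, ∃ v, b = blockAt t v n}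

/-- The entropy of `X` exists and equals `h`. -/
def HasEntropy {d : ℕ} {α : Type} (X : Set (List (Fin d) → α)) (h : ℝ) : Prop :=
  Tendsto (fun n : ℕ => Real.log (Real.log ((blocks X n).ncard : ℝ)) / n) atTop (𝓝 h)

/-- The `0`-`1` matrix of a relation. -/
def adj {k : ℕ} (E : Fin k → Fin k → Bool) : Matrix (Fin k) (Fin k) ℂ :=
  Matrix.of fun i j => if E i j = true then 1 else 0

/-- The spectral radius of a `0`-`1` matrix. -/
noncomputable def rho {k : ℕ} (E : Fin k → Fin k → Bool) : ℝ :=
  (spectralRadius ℂ (adj E)).toReal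

/-- The one-dimensional matrix shift. -/
def matrixShift {k : ℕ} (E : Fin k → Fin k → Bool) : Set (ℤ → Fin k) :=
  {x | ∀ i, E (x i) (x (i + 1)) = true}

end Pool.Agent.R200.Tree
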